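import Mathlib

/-!
# Definitions for the proof of `S09699` (MP_7d5eb0_co)

`V` is a finite vertex set, an `r`-graph is a `Finset (Finset V)` all of whose members have size `r`.
-/

set_option autoImplicit false

namespace Pool.Agent.Des

open Finset

section Graph

variable {V : Type*} [DecidableEq V]

/-- all members have size `r` -/
def Unif (r : ℕ) (E : Finset (Finset V)) : Prop := ∀ e ∈ E, e.card = r

/-- number of members of `F` containing `A` -/
def dg (F : Finset (Finset V)) (A : Finset V) : ℕ := (F.filter (fun e => A ⊆ e)).card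

/-- `E` is the edge disjoint union of complete `r`-graphs on `q`-sets -/
def Decomp (q r : ℕ) (E : Finset (Finset V)) : Prop :=
  ∃ D : Finset (Finset V), (∀ Q ∈ D, Q.card = q) ∧
    (∀ Q ∈ D, ∀ Q' ∈ D, Q ≠ Q' → Disjoint (Q.powersetCard r) (Q'.powersetCard r)) ∧
    D.biUnion (fun Q => Q.powersetCard r) = E

/-- `K_q^r`-divisibility -/
def Divis (q r : ℕ) (E : Finset (Finset V)) : Prop :=
  ∀ T : Finset V, T.card < r → (q - T.card).choose (r - T.card) ∣ dg E T

/-- the edges of the complete `r`-graph on `Y` except `f` (a stub at `f`) -/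
def stub (r : ℕ) (Y f : Finset V) : Finset (Finset V) := (Y.powersetCard r).erase f

end Graph

section Algebra

variable {V : Type*} [DecidableEq V]

/-- degree sum at `T` of a function on `ρ`-sets -/
def dsum {R : Type*} [CommRing R] [Fintype V] (ρ : ℕ) (J : Finset V → R) (T : Finset V) : R :=
  ∑ e ∈ (Finset.univ.powersetCard ρ).filter (fun e => T ⊆ e), J e

/-- divisibility of a function on `ρ`-sets (for complete `ρ`-graphs on `q`-sets) -/
def IsDiv {R : Type*} [CommRing R] [Fintype V] (ρ q : ℕ) (J : Finset V → R) : Prop :=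
  ∀ T : Finset V, T.card ≤ ρ → (((q - T.card).choose (ρ - T.card) : ℕ) : R) ∣ dsum ρ J T

/-- indicator function of the `ρ`-subsets of `Q` -/
def ind (R : Type*) [CommRing R] (ρ : ℕ) (Q : Finset V) : Finset V → R :=
  fun e => if e ∈ Q.powersetCard ρ then 1 else 0

/-- span of the indicators of the `ρ`-subsets of the members of `F` -/
def spn (R : Type*) [CommRing R] (ρ : ℕ) (F : Finset (Finset V)) : Submodule R (Finset V → R) :=
  Submodule.span R (ind R ρ '' (F : Set (Finset V)))

/-- the family `F` spans all divisible functions on the `ρ`-subsets of `U` -/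
def Spans (R : Type*) [CommRing R] [Fintype V] (ρ q : ℕ) (U : Finset V)
    (F : Finset (Finset V)) : Prop :=
  ∀ J : Finset V → R, (∀ e, J e ≠ 0 → e ∈ U.powersetCard ρ) → IsDiv ρ q J → J ∈ spn R ρ F

end Algebra

section Prob

variable {Ω : Type*} [DecidableEq Ω]

/-- weight of the outcome `ω` (a subset of `S`) of the product Bernoulli measure -/
noncomputable def bw (S : Finset Ω) (p : Ω → ℝ) (ω : Finset Ω) : ℝ :=
  (∏ i ∈ ω, p i) * ∏ i ∈ S \ ω, (1 - p i)

/-- expectation for the product Bernoulli measure -/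
noncomputable def bE (S : Finset Ω) (p : Ω → ℝ) (f : Finset Ω → ℝ) : ℝ :=
  ∑ ω ∈ S.powerset, bw S p ω * f ω

open Classical in
/-- probability for the product Bernoulli measure -/
noncomputable def bP (S : Finset Ω) (p : Ω → ℝ) (A : Finset Ω → Prop) : ℝ :=
  bE S p (fun ω => if A ω then 1 else 0)

end Prob

section Gadgets

variable {V : Type*} [DecidableEq V]

/-- the codegree constant used for the gadgets -/
noncomputable def cg (r : ℕ) : ℝ := 1 / (100 * 3 ^ r)

/-- `G` is an `r`-graph with minimum codegree at least `(1 - c / q^(r-1)) n` -/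
def Dense [Fintype V] (q r : ℕ) (c : ℝ) (G : Finset (Finset V)) : Prop :=
  Unif r G ∧ ∀ S : Finset V, S.card = r - 1 →
    (1 - c / (q : ℝ) ^ (r - 1)) * (Fintype.card V : ℝ) ≤ (dg G S : ℝ)

/-- `E` is a booster with root `Q`, new vertices in `N` and stubs `st f` at the `r`-subsets `f` of `Q` -/
structure IsBoost (q r : ℕ) (Q N : Finset V) (E : Finset (Finset V)) (st : Finset V → Finset V) :
    Prop where
  edges : ∀ γ ∈ E, γ.card = r ∧ γ ⊆ Q ∪ N ∧ ¬ γ ⊆ Q
  dec : Decomp q r E
  st_card : ∀ f ∈ Q.powersetCard r, (st f).card = q ∧ f ⊆ st f ∧ st f \ f ⊆ N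
  st_sub : ∀ f ∈ Q.powersetCard r, stub r (st f) f ⊆ E
  st_disj : ∀ f ∈ Q.powersetCard r, ∀ f' ∈ Q.powersetCard r, f ≠ f' →
    Disjoint (stub r (st f) f) (stub r (st f') f')
  rest : Decomp q r (E \ (Q.powersetCard r).biUnion (fun f => stub r (st f) f))

/-- `Y 0, ..., Y (N-1)` are `N` edge disjoint stubs at `f` with new vertices in `nw` -/
structure IsWires (q r N : ℕ) (f nw : Finset V) (Y : ℕ → Finset V) : Prop where
  card : ∀ l < N, (Y l).card = q ∧ f ⊆ Y l ∧ Y l \ f ⊆ nw
  disj : ∀ l < N, ∀ l' < N, l ≠ l' → Y l ∩ Y l' = f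

/-- `E` is an absorber for `H` (an `r`-graph on `W`) with new vertices in `nw` -/
structure IsAbs (q r : ℕ) (W : Finset V) (H : Finset (Finset V)) (nw : Finset V)
    (E : Finset (Finset V)) : Prop where
  edges : ∀ γ ∈ E, γ.card = r ∧ γ ⊆ W ∪ nw ∧ ¬ γ ⊆ W
  dec : Decomp q r E
  dec' : Decomp q r (E ∪ H)

/-- number of maps `Fin v → V` with a property -/
noncomputable def cnt {v : ℕ} (P : (Fin v → V) → Prop) : ℝ := (Nat.card {τ : Fin v → V // P τ} : ℝ)

/-- extensions of the `r`-set `e` to a `q`-set all of whose other `r`-subsets are in `G` -/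
def ext [Fintype V] (q r : ℕ) (G : Finset (Finset V)) (e : Finset V) : Finset (Finset V) :=
  ((Finset.univ \ e).powersetCard (q - r)).filter
    (fun Z => ∀ γ ∈ (e ∪ Z).powersetCard r, γ ≠ e → γ ∈ G)

/-- crossing `r`-sets of a `q`-partite structure placed by `τ` -/
def crs (r : ℕ) {q s : ℕ} (τ : Fin q × Fin (s + 1) → V) : Finset (Finset V) :=
  ((Finset.univ.powersetCard r : Finset (Finset (Fin q))) ×ˢ
    (Finset.univ : Finset (Fin q → Fin (s + 1)))).image
    (fun z => z.1.image (fun i => τ (i, z.2 i)))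

/-- transversal -/
def trv {q s : ℕ} (τ : Fin q × Fin (s + 1) → V) (F : Fin q → Fin (s + 1)) : Finset V :=
  Finset.univ.image (fun i => τ (i, F i))

/-- MDS property -/
def IsMDS (r : ℕ) {q s : ℕ} (C : Finset (Fin q → Fin (s + 1))) : Prop :=
  ∀ (I : Finset (Fin q)) (x : Fin q → Fin (s + 1)), I.card = r →
    ∃! F, F ∈ C ∧ ∀ i ∈ I, F i = x i

end Gadgets

section Refiner

/-- exponents of the densities of the sets `U T` -/
def sx (r j : ℕ) : ℕ := if j < r then r ^ j else r ^ r - (r - 1) ^ r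

variable {V : Type*} [DecidableEq V] [Fintype V]

/-- the random sets `U T` and the reserve `X` (`lam = n^(-κ)`) -/
structure IsRS (q r : ℕ) (lam : ℝ) (X : Finset (Finset V)) (U : Finset V → Finset V) : Prop where
  disj : ∀ T : Finset V, T.card ≤ r → Disjoint T (U T)
  mono : ∀ T T' : Finset V, T.card ≤ r → T' ⊆ T → U T ⊆ U T'
  size : ∀ T : Finset V, T.card ≤ r →
    (Fintype.card V : ℝ) * lam ^ sx r T.card / 2 ≤ (U T).card ∧
    ((U T).card : ℝ) ≤ 2 * (Fintype.card V : ℝ) * lam ^ sx r T.card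
  deg : ∀ T' g : Finset V, T'.card + g.card < r → ∀ j < r, T'.card ≤ j →
    ((((Finset.univ.powersetCard j).filter (fun T => T' ⊆ T ∧ g ⊆ U T)).card : ℕ) : ℝ) ≤
      (2 * (Fintype.card V : ℝ)) ^ (j - T'.card) * lam ^ (g.card * (sx r j - sx r T'.card))
  degX : ∀ T' g : Finset V, T'.card + g.card < r →
    (((X.filter (fun e => T' ⊆ e ∧ g ⊆ U e)).card : ℕ) : ℝ) ≤
      (2 * (Fintype.card V : ℝ)) ^ (r - T'.card) *
        lam ^ (r ^ r + g.card * (sx r r - sx r T'.card))

end Refiner

section Logic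

variable {V : Type*} [DecidableEq V]

/-- next carry -/
def nxt (N : ℕ) {β : Type*} (o : Option β) (act : Bool) (a : ℕ) : ℕ :=
  match act, o with
  | false, _ => a % N
  | true, none => (a + 1) % N
  | true, some _ => (a + (N - 1)) % N

/-- element contributed by an active participant -/
def elt (r : ℕ) (st : Finset V × ℕ → Finset V → Finset V) (f : Finset V)
    (o : Option (Finset V × ℕ)) : Finset (Finset V) :=
  match o with
  | none => {f}
  | some x => stub r (st x f) f

/-- the piece of the chain at `f` in slot `i`, with activity `act` and incoming carry `a` -/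
def piece (r N : ℕ) (st : Finset V × ℕ → Finset V → Finset V)
    (part : Finset V → ℕ → Option (Finset V × ℕ)) (Y : Finset V → ℕ → ℕ → Finset V)
    (f : Finset V) (i : ℕ) (act : Bool) (a : ℕ) : Finset (Finset V) :=
  (if act = true then elt r st f (part f i) else ∅) ∪
    ((Finset.Ico a N).biUnion fun l => stub r (Y f i l) f) ∪
    ((Finset.range (nxt N (part f i) act a)).biUnion fun l => stub r (Y f (i + 1) l) f)

/-- participants at `f` -/
def Pf (r N : ℕ) (X F : Finset (Finset V)) (f : Finset V) : Finset (Option (Finset V × ℕ)) :=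
  (if f ∈ X then {none} else ∅) ∪
    (((F.filter (fun Q => f ∈ Q.powersetCard r)) ×ˢ Finset.range (N - 1)).image some)

/-- edges of the wires of slot `i` at `f` -/
def wireE (r N : ℕ) (Y : Finset V → ℕ → ℕ → Finset V) (f : Finset V) (i : ℕ) :
    Finset (Finset V) := (Finset.range N).biUnion fun l => stub r (Y f i l) f

/-- all data of an omni-absorber; `B`: boosters, `st`: their stubs, `part f i`: participant in slot
`i < M f` at `f`, `Y`: wires, `Ab`: absorbers of the pieces. -/
structure IsOmni [Fintype V] (q r N : ℕ) (X F : Finset (Finset V))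
    (B : Finset V × ℕ → Finset (Finset V)) (nb : Finset V × ℕ → Finset V)
    (st : Finset V × ℕ → Finset V → Finset V) (M : Finset V → ℕ)
    (part : Finset V → ℕ → Option (Finset V × ℕ)) (Y : Finset V → ℕ → ℕ → Finset V)
    (nw : Finset V → ℕ → Finset V)
    (Ab : Finset V → ℕ → Bool → ℕ → Finset (Finset V)) : Prop where
  boost : ∀ Q ∈ F, ∀ k < N - 1, IsBoost q r Q (nb (Q, k)) (B (Q, k)) (st (Q, k))
  parts : ∀ f : Finset V, f.card = r → Set.BijOn (part f) (Set.Iio (M f)) (Pf r N X F f)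
  wire : ∀ f : Finset V, f.card = r → ∀ i < M f, IsWires q r N f (nw f i) (Y f i)
  abs : ∀ f : Finset V, f.card = r → ∀ i < M f, ∀ act : Bool, ∀ a < N,
    (i + 1 < M f ∨ nxt N (part f i) act a = 0) →
      Decomp q r (Ab f i act a) ∧ Decomp q r (Ab f i act a ∪ piece r N st part Y f i act a) ∧
      Disjoint (Ab f i act a) (piece r N st part Y f i act a)
  abs0 : ∀ f : Finset V, f.card = r → ∀ i < M f, ∀ act : Bool, ∀ a < N,
    ¬ (i + 1 < M f ∨ nxt N (part f i) act a = 0) → Ab f i act a = ∅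
  dBB : ∀ Q ∈ F, ∀ k < N - 1, ∀ Q' ∈ F, ∀ k' < N - 1, (Q, k) ≠ (Q', k') →
    Disjoint (B (Q, k)) (B (Q', k'))
  dBW : ∀ Q ∈ F, ∀ k < N - 1, ∀ f : Finset V, f.card = r → ∀ i < M f,
    Disjoint (B (Q, k)) (wireE r N Y f i)
  dBA : ∀ Q ∈ F, ∀ k < N - 1, ∀ f : Finset V, f.card = r → ∀ i < M f, ∀ act : Bool, ∀ a < N,
    Disjoint (B (Q, k)) (Ab f i act a)
  dWW : ∀ f : Finset V, f.card = r → ∀ i < M f, ∀ f' : Finset V, f'.card = r → ∀ i' < M f',
    (f, i) ≠ (f', i') → Disjoint (wireE r N Y f i) (wireE r N Y f' i')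
  dWA : ∀ f : Finset V, f.card = r → ∀ i < M f, ∀ f' : Finset V, f'.card = r → ∀ i' < M f',
    ∀ act : Bool, ∀ a < N, Disjoint (wireE r N Y f i) (Ab f' i' act a)
  dAA : ∀ f : Finset V, f.card = r → ∀ i < M f, ∀ act : Bool, ∀ a < N,
    ∀ f' : Finset V, f'.card = r → ∀ i' < M f', ∀ act' : Bool, ∀ a' < N,
    (f, i, act, a) ≠ (f', i', act', a') → Disjoint (Ab f i act a) (Ab f' i' act' a')
  dXB : ∀ Q ∈ F, ∀ k < N - 1, Disjoint X (B (Q, k))
  dXW : ∀ f : Finset V, f.card = r → ∀ i < M f, Disjoint X (wireE r N Y f i)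
  dXA : ∀ f : Finset V, f.card = r → ∀ i < M f, ∀ act : Bool, ∀ a < N,
    Disjoint X (Ab f i act a)

/-- the omni-absorber -/
def omniA [Fintype V] (r N : ℕ) (F : Finset (Finset V)) (B : Finset V × ℕ → Finset (Finset V))
    (M : Finset V → ℕ) (Y : Finset V → ℕ → ℕ → Finset V)
    (Ab : Finset V → ℕ → Bool → ℕ → Finset (Finset V)) : Finset (Finset V) :=
  ((F ×ˢ Finset.range (N - 1)).biUnion B) ∪
    (Finset.univ.powersetCard r).biUnion fun f => (Finset.range (M f)).biUnion fun i =>
      wireE r N Y f i ∪ (Finset.univ : Finset Bool).biUnion fun act =>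
        (Finset.range N).biUnion fun a => Ab f i act a

end Logic

section Nibble

variable {V : Type*} [DecidableEq V] [Fintype V]

/-- nearly exact bounded fractional decomposition -/
structure NibW (q r : ℕ) (E : Finset (Finset V)) (w : Finset V → ℝ) (δ B : ℝ) : Prop where
  unif : Unif r E
  nonneg : ∀ K, 0 ≤ w K
  supp : ∀ K, w K ≠ 0 → K.card = q ∧ K.powersetCard r ⊆ E
  sum : ∀ e ∈ E, |∑ K ∈ Finset.univ.filter (fun K => e ⊆ K), w K - 1| ≤ δ
  bdd : ∀ K, w K ≤ B / (Fintype.card V : ℝ) ^ (q - r)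

/-- the cliques of `E` -/
def clq (q r : ℕ) (E : Finset (Finset V)) : Finset (Finset V) :=
  (Finset.univ.powersetCard q).filter (fun K => K.powersetCard r ⊆ E)

open Classical in
/-- surviving weight at `e` when the cliques in `ω` are selected -/
noncomputable def fe (r : ℕ) (w : Finset V → ℝ) (e : Finset V) (ω : Finset (Finset V)) : ℝ :=
  ∑ K ∈ Finset.univ.filter (fun K => e ⊆ K), w K *
    (if ∀ K' ∈ ω, ¬ e ⊆ K' → Disjoint (K'.powersetCard r) ((K.powersetCard r).erase e)
      then 1 else 0)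

/-- number of edges of `E` at `S` not covered by `ω` -/
def unc (E : Finset (Finset V)) (S : Finset V) (ω : Finset (Finset V)) : ℕ :=
  (E.filter (fun g => S ⊆ g ∧ ∀ K ∈ ω, ¬ g ⊆ K)).card

open Classical in
/-- number of edges of `E` at `S` covered by a conflicting clique of `ω` -/
noncomputable def wst (r : ℕ) (E : Finset (Finset V)) (S : Finset V) (ω : Finset (Finset V)) : ℕ :=
  (E.filter (fun g => S ⊆ g ∧ ∃ K ∈ ω, g ⊆ K ∧
    ∃ K' ∈ ω, K' ≠ K ∧ ¬ Disjoint (K.powersetCard r) (K'.powersetCard r))).card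

end Nibble

end Pool.Agent.Des
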