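import Pool.Agent.Lib_helper96.Des.Dec

/-!
# Block CRS: decompositions of the complete `q`-partite `r`-graph placed by an injective `τ`
-/

set_option autoImplicit false

namespace Pool.Agent.Des

open Finset

variable {V : Type*} [DecidableEq V]

theorem mem_crs {q r s : ℕ} (τ : Fin q × Fin (s + 1) → V) (γ : Finset V) :
    γ ∈ crs r τ ↔ ∃ (I : Finset (Fin q)) (x : Fin q → Fin (s + 1)), I.card = r ∧
      γ = I.image (fun i => τ (i, x i)) := by
  unfold crs
  rw [Finset.mem_image]
  constructor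
  · rintro ⟨⟨I, x⟩, h, rfl⟩
    rw [Finset.mem_product, Finset.mem_powersetCard] at h
    exact ⟨I, x, h.1.2, rfl⟩
  · rintro ⟨I, x, h, rfl⟩
    refine ⟨(I, x), ?_, rfl⟩
    rw [Finset.mem_product, Finset.mem_powersetCard]
    exact ⟨⟨Finset.subset_univ _, h⟩, Finset.mem_univ _⟩

theorem crs_inj_aux {q s : ℕ} (τ : Fin q × Fin (s + 1) → V) (hτ : Function.Injective τ)
    (x : Fin q → Fin (s + 1)) : Function.Injective (fun i => τ (i, x i)) := by
  intro i j hij
  exact (Prod.mk.inj (hτ hij)).1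

theorem crs_card {q r s : ℕ} (τ : Fin q × Fin (s + 1) → V) (hτ : Function.Injective τ) :
    Unif r (crs r τ) := by
  intro γ hγ
  rw [mem_crs] at hγ
  obtain ⟨I, x, hI, rfl⟩ := hγ
  rw [Finset.card_image_of_injective _ (crs_inj_aux τ hτ x), hI]

theorem trv_card {q s : ℕ} (τ : Fin q × Fin (s + 1) → V) (hτ : Function.Injective τ)
    (F : Fin q → Fin (s + 1)) : (trv τ F).card = q := by
  unfold trv
  rw [Finset.card_image_of_injective _ (crs_inj_aux τ hτ F), Finset.card_univ, Fintype.card_fin]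

theorem trv_sub_crs {q r s : ℕ} (τ : Fin q × Fin (s + 1) → V) (hτ : Function.Injective τ)
    (F : Fin q → Fin (s + 1)) : (trv τ F).powersetCard r ⊆ crs r τ := by
  intro e he
  rw [Finset.mem_powersetCard] at he
  rw [mem_crs]
  have himg : (Finset.univ.filter (fun i => τ (i, F i) ∈ e)).image (fun i => τ (i, F i)) = e := by
    ext v
    rw [Finset.mem_image]
    constructor
    · rintro ⟨i, hi, rfl⟩
      exact (Finset.mem_filter.mp hi).2
    · intro hv
      have := he.1 hv
      unfold trv at this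
      rw [Finset.mem_image] at this
      obtain ⟨i, _, rfl⟩ := this
      exact ⟨i, Finset.mem_filter.mpr ⟨Finset.mem_univ _, hv⟩, rfl⟩
  refine ⟨Finset.univ.filter (fun i => τ (i, F i) ∈ e), F, ?_, himg.symm⟩
  rw [← Finset.card_image_of_injective _ (crs_inj_aux τ hτ F), himg, he.2]

theorem trv_inter {q s : ℕ} (τ : Fin q × Fin (s + 1) → V) (hτ : Function.Injective τ)
    (F F' : Fin q → Fin (s + 1)) :
    trv τ F ∩ trv τ F' = (Finset.univ.filter (fun i => F i = F' i)).image (fun i => τ (i, F i)) := by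
  ext v
  unfold trv
  rw [Finset.mem_inter, Finset.mem_image, Finset.mem_image, Finset.mem_image]
  constructor
  · rintro ⟨⟨i, _, rfl⟩, ⟨j, _, hj⟩⟩
    obtain ⟨h1, h2⟩ := Prod.mk.inj (hτ hj)
    subst h1
    exact ⟨j, Finset.mem_filter.mpr ⟨Finset.mem_univ _, h2.symm⟩, rfl⟩
  · rintro ⟨i, hi, rfl⟩
    refine ⟨⟨i, Finset.mem_univ _, rfl⟩, ⟨i, Finset.mem_univ _, ?_⟩⟩
    rw [(Finset.mem_filter.mp hi).2]

/-- distinct members of an MDS family share no `r`-set -/
theorem trv_disj {q r s : ℕ} (τ : Fin q × Fin (s + 1) → V) (hτ : Function.Injective τ)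
    (C : Finset (Fin q → Fin (s + 1))) (hC : IsMDS r C) (F F' : Fin q → Fin (s + 1)) (hF : F ∈ C)
    (hF' : F' ∈ C) (hne : F ≠ F') :
    Disjoint ((trv τ F).powersetCard r) ((trv τ F').powersetCard r) := by
  rw [Finset.disjoint_left]
  intro e he he'
  rw [Finset.mem_powersetCard] at he he'
  have hsub : e ⊆ (Finset.univ.filter (fun i => F i = F' i)).image (fun i => τ (i, F i)) := by
    rw [← trv_inter τ hτ]
    exact Finset.subset_inter he.1 he'.1
  have hcard : r ≤ (Finset.univ.filter (fun i => F i = F' i)).card := by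
    rw [← he.2, ← Finset.card_image_of_injective (Finset.univ.filter (fun i => F i = F' i))
      (crs_inj_aux τ hτ F)]
    exact Finset.card_le_card hsub
  obtain ⟨I, hI, hIc⟩ := Finset.exists_subset_card_eq hcard
  obtain ⟨G, _, hG⟩ := hC I F hIc
  have h1 : F = G := hG F ⟨hF, fun i _ => rfl⟩
  have h2 : F' = G := hG F' ⟨hF', fun i hi => ((Finset.mem_filter.mp (hI hi)).2).symm⟩
  exact hne (h1.trans h2.symm)

/-- removing some members of an MDS family leaves a decomposable set -/
theorem crs_decomp {q r s : ℕ} (τ : Fin q × Fin (s + 1) → V) (hτ : Function.Injective τ)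
    (C : Finset (Fin q → Fin (s + 1))) (hC : IsMDS r C) (C' : Finset (Fin q → Fin (s + 1)))
    (hC' : C' ⊆ C) :
    Decomp q r (crs r τ \ C'.biUnion (fun F => (trv τ F).powersetCard r)) := by
  refine ⟨(C \ C').image (trv τ), ?_, ?_, ?_⟩
  · intro Q hQ
    rw [Finset.mem_image] at hQ
    obtain ⟨F, _, rfl⟩ := hQ
    exact trv_card τ hτ F
  · intro Q hQ Q' hQ' hne
    rw [Finset.mem_image] at hQ hQ'
    obtain ⟨F, hF, rfl⟩ := hQ
    obtain ⟨F', hF', rfl⟩ := hQ'
    exact trv_disj τ hτ C hC F F' (Finset.mem_sdiff.mp hF).1 (Finset.mem_sdiff.mp hF').1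
      (fun h => hne (by rw [h]))
  · ext e
    rw [Finset.mem_biUnion, Finset.mem_sdiff, Finset.mem_biUnion]
    constructor
    · rintro ⟨Q, hQ, he⟩
      rw [Finset.mem_image] at hQ
      obtain ⟨F, hF, rfl⟩ := hQ
      rw [Finset.mem_sdiff] at hF
      refine ⟨trv_sub_crs τ hτ F he, ?_⟩
      rintro ⟨F', hF', he'⟩
      exact Finset.disjoint_left.mp
        (trv_disj τ hτ C hC F F' hF.1 (hC' hF') (fun h => hF.2 (h ▸ hF'))) he he'
    · rintro ⟨he, hn⟩
      have he2 := he
      rw [mem_crs] at he2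
      obtain ⟨I, x, hI, rfl⟩ := he2
      obtain ⟨F, ⟨hFC, hFx⟩, _⟩ := hC I x hI
      have hmem : I.image (fun i => τ (i, x i)) ∈ (trv τ F).powersetCard r := by
        rw [Finset.mem_powersetCard]
        refine ⟨?_, crs_card τ hτ _ he⟩
        intro v hv
        rw [Finset.mem_image] at hv
        obtain ⟨i, hi, rfl⟩ := hv
        unfold trv
        rw [Finset.mem_image]
        exact ⟨i, Finset.mem_univ _, by rw [hFx i hi]⟩
      refine ⟨trv τ F, ?_, hmem⟩
      rw [Finset.mem_image]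
      exact ⟨F, Finset.mem_sdiff.mpr ⟨hFC, fun h => hn ⟨F, h, hmem⟩⟩, rfl⟩

end Pool.Agent.Des
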