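import Pool.Agent.Lib_helper96.Des.Defs

/-!
# Block COMP: composing rich families of placements
-/

set_option autoImplicit false

namespace Pool.Agent.Des

open Finset

variable {V : Type} [Fintype V] [DecidableEq V]

theorem cnt_mono {v : ℕ} {P P' : (Fin v → V) → Prop} (h : ∀ τ, P τ → P' τ) :
    cnt P ≤ cnt P' := by
  unfold cnt
  have h1 : Nat.card {τ : Fin v → V // P τ} ≤ Nat.card {τ : Fin v → V // P' τ} :=
    Nat.card_le_card_of_injective (fun τ => ⟨τ.1, h τ.1 τ.2⟩) (fun a b hab =>
      Subtype.ext (congrArg (fun z : {τ : Fin v → V // P' τ} => z.1) hab))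
  exact_mod_cast h1

/-- sequential composition -/
theorem cnt_comp {v w : ℕ} (P : (Fin v → V) → Prop) (P' : (Fin v → V) → (Fin w → V) → Prop)
    (α β : ℝ) (hα : 0 ≤ α) (hβ : 0 ≤ β) (h : α * (Fintype.card V : ℝ) ^ v ≤ cnt P)
    (h' : ∀ τ, P τ → β * (Fintype.card V : ℝ) ^ w ≤ cnt (P' τ)) :
    α * β * (Fintype.card V : ℝ) ^ (v + w) ≤
      cnt (fun τ : Fin (v + w) → V => P (fun i => τ (Fin.castAdd w i)) ∧
        P' (fun i => τ (Fin.castAdd w i)) (fun j => τ (Fin.natAdd v j))) := by
  classical
  set T := {τ : Fin (v + w) → V // P (fun i => τ (Fin.castAdd w i)) ∧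
        P' (fun i => τ (Fin.castAdd w i)) (fun j => τ (Fin.natAdd v j))} with hT
  have h1 : Nat.card (Σ τ : {τ : Fin v → V // P τ}, {σ : Fin w → V // P' τ.1 σ}) ≤ Nat.card T := by
    refine Nat.card_le_card_of_injective
      (fun x => ⟨Fin.append x.1.1 x.2.1, ?_, ?_⟩) ?_
    · have e1 : (fun i => Fin.append x.1.1 x.2.1 (Fin.castAdd w i)) = x.1.1 := by
        funext i
        exact Fin.append_left _ _ i
      rw [e1]
      exact x.1.2
    · have e1 : (fun i => Fin.append x.1.1 x.2.1 (Fin.castAdd w i)) = x.1.1 := by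
        funext i
        exact Fin.append_left _ _ i
      have e2 : (fun j => Fin.append x.1.1 x.2.1 (Fin.natAdd v j)) = x.2.1 := by
        funext j
        exact Fin.append_right _ _ j
      rw [e1, e2]
      exact x.2.2
    · rintro ⟨⟨a, ha⟩, ⟨b, hb⟩⟩ ⟨⟨a', ha'⟩, ⟨b', hb'⟩⟩ hab
      have e0 : Fin.append a b = Fin.append a' b' :=
        congrArg (fun z : T => z.1) hab
      have e1 : a = a' := by
        funext i
        have := congrFun e0 (Fin.castAdd w i)
        rwa [Fin.append_left, Fin.append_left] at this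
      have e2 : b = b' := by
        funext j
        have := congrFun e0 (Fin.natAdd v j)
        rwa [Fin.append_right, Fin.append_right] at this
      subst e1
      subst e2
      rfl
  have h2 : (Nat.card (Σ τ : {τ : Fin v → V // P τ}, {σ : Fin w → V // P' τ.1 σ}) : ℝ) =
      ∑ τ : {τ : Fin v → V // P τ}, cnt (P' τ.1) := by
    rw [Nat.card_sigma]
    push_cast
    rfl
  have h3 : α * β * (Fintype.card V : ℝ) ^ (v + w) ≤
      ∑ τ : {τ : Fin v → V // P τ}, cnt (P' τ.1) := by
    calc α * β * (Fintype.card V : ℝ) ^ (v + w)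
        = (α * (Fintype.card V : ℝ) ^ v) * (β * (Fintype.card V : ℝ) ^ w) := by
          rw [pow_add]
          ring
      _ ≤ cnt P * (β * (Fintype.card V : ℝ) ^ w) :=
          mul_le_mul_of_nonneg_right h (by positivity)
      _ = ∑ τ : {τ : Fin v → V // P τ}, (β * (Fintype.card V : ℝ) ^ w) := by
          rw [Finset.sum_const, nsmul_eq_mul, Finset.card_univ]
          unfold cnt
          rw [Nat.card_eq_fintype_card]
      _ ≤ _ := Finset.sum_le_sum fun τ _ => h' τ.1 τ.2
  have h4 : (Nat.card (Σ τ : {τ : Fin v → V // P τ}, {σ : Fin w → V // P' τ.1 σ}) : ℝ) ≤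
      (Nat.card T : ℝ) := by exact_mod_cast h1
  rw [h2] at h4
  exact h3.trans h4

theorem cnt_true (v : ℕ) : cnt (fun _ : Fin v → V => True) = (Fintype.card V : ℝ) ^ v := by
  unfold cnt
  rw [Nat.card_congr (Equiv.subtypeUnivEquiv fun _ => trivial), Nat.card_eq_fintype_card]
  simp

/-- padding with irrelevant coordinates -/
theorem cnt_pad {v : ℕ} (k : ℕ) (P : (Fin v → V) → Prop) (α : ℝ)
    (h : α * (Fintype.card V : ℝ) ^ v ≤ cnt P) :
    α * (Fintype.card V : ℝ) ^ (v + k) ≤
      cnt (fun τ : Fin (v + k) → V => P (fun i => τ (Fin.castAdd k i))) := by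
  by_cases hα : 0 ≤ α
  · have h1 := cnt_comp (w := k) P (fun _ _ => True) α 1 hα zero_le_one h (fun τ _ => by
      rw [one_mul, cnt_true])
    rw [mul_one] at h1
    exact h1.trans (cnt_mono fun τ hτ => hτ.1)
  · push Not at hα
    have h1 : α * (Fintype.card V : ℝ) ^ (v + k) ≤ 0 :=
      mul_nonpos_of_nonpos_of_nonneg hα.le (by positivity)
    exact h1.trans (Nat.cast_nonneg _)

theorem comp_card_pi (v : ℕ) (i : Fin v) (A : Finset V) :
    (((Finset.univ : Finset (Fin v → V)).filter fun τ => τ i ∈ A).card : ℝ) *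
      (Fintype.card V : ℝ) = (A.card : ℝ) * (Fintype.card V : ℝ) ^ v := by
  classical
  have h1 : (Finset.univ : Finset (Fin v → V)).filter (fun τ => τ i ∈ A) =
      Fintype.piFinset (fun j => if j = i then A else Finset.univ) := by
    ext τ
    rw [Finset.mem_filter, Fintype.mem_piFinset]
    constructor
    · rintro ⟨_, h⟩ j
      by_cases hj : j = i
      · rw [if_pos hj, hj]
        exact h
      · rw [if_neg hj]
        exact Finset.mem_univ _
    · intro h
      refine ⟨Finset.mem_univ _, ?_⟩
      have := h i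
      rwa [if_pos rfl] at this
  rw [h1, Fintype.card_piFinset]
  have h2 : ∏ j : Fin v, (if j = i then A else (Finset.univ : Finset V)).card =
      A.card * ∏ j ∈ Finset.univ.erase i, Fintype.card V := by
    rw [← Finset.mul_prod_erase Finset.univ _ (Finset.mem_univ i), if_pos rfl]
    congr 1
    refine Finset.prod_congr rfl fun j hj => ?_
    rw [if_neg (Finset.ne_of_mem_erase hj), Finset.card_univ]
  rw [h2, Finset.prod_const, Finset.card_erase_of_mem (Finset.mem_univ i), Finset.card_univ,
    Fintype.card_fin]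
  have hv : v - 1 + 1 = v := Nat.sub_add_cancel (by
    have := i.2
    omega)
  push_cast
  rw [mul_assoc, ← pow_succ, hv]

/-- avoiding a small set of vertices -/
theorem cnt_avoid {v : ℕ} (P : (Fin v → V) → Prop) (α : ℝ) (A : Finset V)
    (h : α * (Fintype.card V : ℝ) ^ v ≤ cnt P)
    (hn : 2 * (v * A.card : ℝ) ≤ α * (Fintype.card V : ℝ)) :
    α / 2 * (Fintype.card V : ℝ) ^ v ≤ cnt (fun τ => P τ ∧ ∀ i, τ i ∉ A) := by
  classical
  by_cases hV : Fintype.card V = 0
  · -- empty vertex set
    have hA : A = ∅ := by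
      rw [Finset.eq_empty_iff_forall_notMem]
      intro x _
      exact (Fintype.card_eq_zero_iff.1 hV).false x
    have h1 : cnt P ≤ cnt (fun τ => P τ ∧ ∀ i, τ i ∉ A) := by
      apply cnt_mono
      intro τ hτ
      refine ⟨hτ, fun i => ?_⟩
      rw [hA]
      exact Finset.notMem_empty _
    have h0 : (0 : ℝ) ≤ cnt P := Nat.cast_nonneg _
    have hpow : (0 : ℝ) ≤ (Fintype.card V : ℝ) ^ v := by positivity
    by_cases hα : 0 ≤ α
    · nlinarith [mul_nonneg hα hpow]
    · push Not at hα
      nlinarith [mul_nonneg (neg_nonneg.2 hα.le) hpow]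
  · have hVpos : (0 : ℝ) < Fintype.card V := by
      have : 0 < Fintype.card V := Nat.pos_of_ne_zero hV
      exact_mod_cast this
    -- union bound
    set S := (Finset.univ : Finset (Fin v → V)).filter P with hS
    set S' := (Finset.univ : Finset (Fin v → V)).filter (fun τ => P τ ∧ ∀ i, τ i ∉ A) with hS'
    have hcP : cnt P = (S.card : ℝ) := by
      unfold cnt
      rw [Nat.card_eq_fintype_card, Fintype.card_subtype]
    have hcP' : cnt (fun τ => P τ ∧ ∀ i, τ i ∉ A) = (S'.card : ℝ) := by
      unfold cnt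
      rw [Nat.card_eq_fintype_card, Fintype.card_subtype]
    have hsub : S ⊆ S' ∪ (Finset.univ : Finset (Fin v)).biUnion
        (fun i => (Finset.univ : Finset (Fin v → V)).filter fun τ => τ i ∈ A) := by
      intro τ hτ
      rw [Finset.mem_union]
      by_cases hall : ∀ i, τ i ∉ A
      · left
        exact Finset.mem_filter.2 ⟨Finset.mem_univ _, (Finset.mem_filter.1 hτ).2, hall⟩
      · right
        push Not at hall
        obtain ⟨i, hi⟩ := hall
        exact Finset.mem_biUnion.2 ⟨i, Finset.mem_univ _, Finset.mem_filter.2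
          ⟨Finset.mem_univ _, hi⟩⟩
    have hcard : (S.card : ℝ) ≤ S'.card + ∑ i : Fin v,
        (((Finset.univ : Finset (Fin v → V)).filter fun τ => τ i ∈ A).card : ℝ) := by
      have h1 := (Finset.card_le_card hsub).trans (Finset.card_union_le _ _)
      have h2 := h1.trans (Nat.add_le_add_left Finset.card_biUnion_le _)
      exact_mod_cast h2
    have hsum : (∑ i : Fin v,
        (((Finset.univ : Finset (Fin v → V)).filter fun τ => τ i ∈ A).card : ℝ)) *
          (Fintype.card V : ℝ) = v * A.card * (Fintype.card V : ℝ) ^ v := by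
      rw [Finset.sum_mul]
      simp only [comp_card_pi]
      rw [Finset.sum_const, Finset.card_univ, Fintype.card_fin, nsmul_eq_mul]
      ring
    rw [hcP] at h
    rw [hcP']
    have hpow : (0 : ℝ) ≤ (Fintype.card V : ℝ) ^ v := by positivity
    have h3 : (∑ i : Fin v,
        (((Finset.univ : Finset (Fin v → V)).filter fun τ => τ i ∈ A).card : ℝ)) ≤
          α / 2 * (Fintype.card V : ℝ) ^ v := by
      have h4 : (∑ i : Fin v,
        (((Finset.univ : Finset (Fin v → V)).filter fun τ => τ i ∈ A).card : ℝ)) *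
          (Fintype.card V : ℝ) ≤ (α / 2 * (Fintype.card V : ℝ) ^ v) * (Fintype.card V : ℝ) := by
        rw [hsum]
        have h5 : (v : ℝ) * A.card ≤ α / 2 * (Fintype.card V : ℝ) := by linarith
        calc (v : ℝ) * A.card * (Fintype.card V : ℝ) ^ v
            ≤ (α / 2 * (Fintype.card V : ℝ)) * (Fintype.card V : ℝ) ^ v :=
              mul_le_mul_of_nonneg_right h5 hpow
          _ = _ := by ring
      exact le_of_mul_le_mul_right h4 hVpos
    linarith

/-- the maps that take prescribed values at the places `σ` -/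
theorem comp_fixed (v : ℕ) (A : Finset V) (σ : A → Fin v) :
    ((Finset.univ : Finset (Fin v → V)).filter (fun τ => ∀ a : A, τ (σ a) = (a : V))).card *
      Fintype.card V ^ A.card ≤ Fintype.card V ^ v := by
  classical
  by_cases hσ : Function.Injective σ
  · have hc1 : Fintype.card V ^ A.card = (Finset.univ : Finset (A → V)).card := by
      rw [Finset.card_univ, Fintype.card_fun, Fintype.card_coe]
    have hc2 : Fintype.card V ^ v = (Finset.univ : Finset (Fin v → V)).card := by
      rw [Finset.card_univ, Fintype.card_fun, Fintype.card_fin]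
    rw [hc1, hc2, ← Finset.card_product]
    set F : (Fin v → V) × (A → V) → (Fin v → V) := fun x i =>
      if h : ∃ a, σ a = i then x.2 h.choose else x.1 i with hF
    have hFσ : ∀ x a, F x (σ a) = x.2 a := by
      intro x a
      have hex : ∃ a', σ a' = σ a := ⟨a, rfl⟩
      have h1 : hex.choose = a := hσ hex.choose_spec
      show (if h : ∃ a', σ a' = σ a then x.2 h.choose else x.1 (σ a)) = x.2 a
      rw [dif_pos hex, h1]
    refine Finset.card_le_card_of_injOn F (fun _ _ => Finset.mem_univ _) ?_
    rintro ⟨τ, g⟩ hx ⟨τ', g'⟩ hy hxy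
    have hx1 := (Finset.mem_filter.1 (Finset.mem_product.1 hx).1).2
    have hy1 := (Finset.mem_filter.1 (Finset.mem_product.1 hy).1).2
    have e2 : g = g' := by
      funext a
      have := congrFun hxy (σ a)
      rw [hFσ, hFσ] at this
      exact this
    have e1 : τ = τ' := by
      funext i
      by_cases hi : ∃ a, σ a = i
      · obtain ⟨a, rfl⟩ := hi
        exact (hx1 a).trans (hy1 a).symm
      · have := congrFun hxy i
        have e3 : F (τ, g) i = τ i := dif_neg hi
        have e4 : F (τ', g') i = τ' i := dif_neg hi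
        rw [e3, e4] at this
        exact this
    rw [e1, e2]
  · have h1 : (Finset.univ : Finset (Fin v → V)).filter (fun τ => ∀ a : A, τ (σ a) = (a : V)) = ∅ := by
      rw [Finset.filter_eq_empty_iff]
      intro τ _ hτ
      apply hσ
      intro a a' haa
      apply Subtype.ext
      rw [← hτ a, ← hτ a', haa]
    rw [h1, Finset.card_empty, zero_mul]
    exact Nat.zero_le _

/-- the spread property used in the placement lemma -/
theorem cnt_spread (v : ℕ) (O : Finset (Fin v → V)) (α : ℝ) (hα : 0 < α)
    (h : α * (Fintype.card V : ℝ) ^ v ≤ (O.card : ℝ)) (A : Finset V) :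
    (((O.filter (fun τ => A ⊆ Finset.univ.image τ)).card : ℕ) : ℝ) *
      (Fintype.card V : ℝ) ^ A.card ≤ ((v : ℝ) ^ A.card / α) * (O.card : ℝ) := by
  classical
  have hsub : O.filter (fun τ => A ⊆ Finset.univ.image τ) ⊆
      (Finset.univ : Finset (A → Fin v)).biUnion (fun σ =>
        (Finset.univ : Finset (Fin v → V)).filter (fun τ => ∀ a : A, τ (σ a) = (a : V))) := by
    intro τ hτ
    have h1 := (Finset.mem_filter.1 hτ).2
    have h2 : ∀ a : A, ∃ i, τ i = a := by
      intro a
      have := h1 a.2
      rw [Finset.mem_image] at this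
      obtain ⟨i, _, hi⟩ := this
      exact ⟨i, hi⟩
    choose σ hσ using h2
    exact Finset.mem_biUnion.2 ⟨σ, Finset.mem_univ _, Finset.mem_filter.2
      ⟨Finset.mem_univ _, hσ⟩⟩
  have h1 : (O.filter (fun τ => A ⊆ Finset.univ.image τ)).card * Fintype.card V ^ A.card ≤
      v ^ A.card * Fintype.card V ^ v := by
    calc (O.filter (fun τ => A ⊆ Finset.univ.image τ)).card * Fintype.card V ^ A.card
        ≤ (∑ σ : A → Fin v, ((Finset.univ : Finset (Fin v → V)).filter
            (fun τ => ∀ a : A, τ (σ a) = (a : V))).card) * Fintype.card V ^ A.card :=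
          Nat.mul_le_mul_right _ ((Finset.card_le_card hsub).trans Finset.card_biUnion_le)
      _ = ∑ σ : A → Fin v, ((Finset.univ : Finset (Fin v → V)).filter
            (fun τ => ∀ a : A, τ (σ a) = (a : V))).card * Fintype.card V ^ A.card := by
          rw [Finset.sum_mul]
      _ ≤ ∑ _σ : A → Fin v, Fintype.card V ^ v :=
          Finset.sum_le_sum fun σ _ => comp_fixed v A σ
      _ = v ^ A.card * Fintype.card V ^ v := by
          rw [Finset.sum_const, Finset.card_univ, Fintype.card_fun, Fintype.card_fin,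
            Fintype.card_coe, smul_eq_mul]
  have h2 : (((O.filter (fun τ => A ⊆ Finset.univ.image τ)).card : ℕ) : ℝ) *
      (Fintype.card V : ℝ) ^ A.card ≤ (v : ℝ) ^ A.card * (Fintype.card V : ℝ) ^ v := by
    exact_mod_cast h1
  refine h2.trans ?_
  rw [div_mul_eq_mul_div, le_div_iff₀ hα, mul_assoc]
  apply mul_le_mul_of_nonneg_left _ (by positivity)
  linarith

end Pool.Agent.Des
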