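import Pool.Agent.Lib_helper96.Des.Defs

/-!
# Basic facts on decompositions and divisibility
-/

set_option autoImplicit false

namespace Pool.Agent.Des

open Finset

variable {V : Type*} [DecidableEq V]

theorem Decomp.empty (q r : ℕ) : Decomp q r (∅ : Finset (Finset V)) :=
  ⟨∅, by simp, by simp, by simp⟩

theorem Decomp.single (q r : ℕ) (Q : Finset V) (hQ : Q.card = q) :
    Decomp q r (Q.powersetCard r) :=
  ⟨{Q}, by simpa using hQ, by
    intro Q₁ h₁ Q₂ h₂ hne
    rw [Finset.mem_singleton] at h₁ h₂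
    exact absurd (h₁.trans h₂.symm) hne, by simp⟩

theorem Decomp.union {q r : ℕ} {E₁ E₂ : Finset (Finset V)} (h₁ : Decomp q r E₁)
    (h₂ : Decomp q r E₂) (hd : Disjoint E₁ E₂) : Decomp q r (E₁ ∪ E₂) := by
  obtain ⟨D₁, a₁, b₁, rfl⟩ := h₁
  obtain ⟨D₂, a₂, b₂, rfl⟩ := h₂
  refine ⟨D₁ ∪ D₂, ?_, ?_, Finset.union_biUnion⟩
  · intro Q hQ
    rcases Finset.mem_union.mp hQ with h | h
    · exact a₁ Q h
    · exact a₂ Q h
  · intro Q hQ Q' hQ' hne
    rw [Finset.disjoint_biUnion_left] at hd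
    rcases Finset.mem_union.mp hQ with h | h <;> rcases Finset.mem_union.mp hQ' with h' | h'
    · exact b₁ Q h Q' h' hne
    · exact (Finset.disjoint_biUnion_right _ _ _).mp (hd Q h) Q' h'
    · exact ((Finset.disjoint_biUnion_right _ _ _).mp (hd Q' h') Q h).symm
    · exact b₂ Q h Q' h' hne

theorem Decomp.biUnion {ι : Type*} [DecidableEq ι] {q r : ℕ} (I : Finset ι)
    (E : ι → Finset (Finset V)) (h : ∀ i ∈ I, Decomp q r (E i))
    (hd : ∀ i ∈ I, ∀ j ∈ I, i ≠ j → Disjoint (E i) (E j)) : Decomp q r (I.biUnion E) := by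
  induction I using Finset.induction_on with
  | empty => simpa using Decomp.empty q r
  | insert a I ha ih =>
    rw [Finset.biUnion_insert]
    refine Decomp.union (h a (Finset.mem_insert_self _ _))
      (ih (fun i hi => h i (Finset.mem_insert_of_mem hi))
        (fun i hi j hj => hd i (Finset.mem_insert_of_mem hi) j (Finset.mem_insert_of_mem hj))) ?_
    rw [Finset.disjoint_biUnion_right]
    intro j hj
    exact hd a (Finset.mem_insert_self _ _) j (Finset.mem_insert_of_mem hj)
      (fun h => ha (h ▸ hj))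

theorem Decomp.unif {q r : ℕ} {E : Finset (Finset V)} (h : Decomp q r E) : Unif r E := by
  obtain ⟨D, _, _, rfl⟩ := h
  intro e he
  rw [Finset.mem_biUnion] at he
  obtain ⟨Q, _, hQ⟩ := he
  exact (Finset.mem_powersetCard.mp hQ).2

/-- the form of the decomposition in the frozen statement -/
theorem Decomp.frozen {q r : ℕ} {E : Finset (Finset V)} (h : Decomp q r E) :
    ∃ D : Finset (Finset V),
      (∀ Q ∈ D, Q.card = q ∧ ∀ e : Finset V, e ⊆ Q → e.card = r → e ∈ E) ∧
      ∀ e ∈ E, ∃! Q, Q ∈ D ∧ e ⊆ Q := by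
  obtain ⟨D, a, b, rfl⟩ := h
  refine ⟨D, fun Q hQ => ⟨a Q hQ, fun e he hc => Finset.mem_biUnion.mpr
    ⟨Q, hQ, Finset.mem_powersetCard.mpr ⟨he, hc⟩⟩⟩, fun e he => ?_⟩
  obtain ⟨Q, hQ, heQ⟩ := Finset.mem_biUnion.mp he
  rw [Finset.mem_powersetCard] at heQ
  refine ⟨Q, ⟨hQ, heQ.1⟩, ?_⟩
  rintro Q' ⟨hQ', heQ'⟩
  by_contra hne
  exact (Finset.disjoint_left.mp (b Q' hQ' Q hQ hne)
    (Finset.mem_powersetCard.mpr ⟨heQ', heQ.2⟩)) (Finset.mem_powersetCard.mpr heQ)

theorem dg_disjUnion {E₁ E₂ : Finset (Finset V)} (hd : Disjoint E₁ E₂) (T : Finset V) :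
    dg (E₁ ∪ E₂) T = dg E₁ T + dg E₂ T := by
  unfold dg
  rw [Finset.filter_union, Finset.card_union_of_disjoint]
  exact Finset.disjoint_filter_filter hd

theorem dg_biUnion {ι : Type*} [DecidableEq ι] (I : Finset ι) (E : ι → Finset (Finset V))
    (hd : ∀ i ∈ I, ∀ j ∈ I, i ≠ j → Disjoint (E i) (E j)) (T : Finset V) :
    dg (I.biUnion E) T = ∑ i ∈ I, dg (E i) T := by
  induction I using Finset.induction_on with
  | empty => simp [dg]
  | insert a I ha ih =>
    rw [Finset.biUnion_insert, Finset.sum_insert ha, dg_disjUnion, ih]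
    · exact fun i hi j hj => hd i (Finset.mem_insert_of_mem hi) j (Finset.mem_insert_of_mem hj)
    · rw [Finset.disjoint_biUnion_right]
      intro j hj
      exact hd a (Finset.mem_insert_self _ _) j (Finset.mem_insert_of_mem hj)
        (fun h => ha (h ▸ hj))

theorem dg_mono {E₁ E₂ : Finset (Finset V)} (h : E₁ ⊆ E₂) (T : Finset V) : dg E₁ T ≤ dg E₂ T :=
  Finset.card_le_card (Finset.filter_subset_filter _ h)

/-- number of `r`-subsets of `Q` containing `T` -/
theorem dg_powersetCard (r : ℕ) (Q T : Finset V) (hr : T.card ≤ r) :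
    dg (Q.powersetCard r) T = if T ⊆ Q then (Q.card - T.card).choose (r - T.card) else 0 := by
  unfold dg
  split_ifs with hT
  · rw [← Finset.card_sdiff_of_subset hT, ← Finset.card_powersetCard]
    refine Finset.card_bij' (fun e _ => e \ T) (fun Z _ => T ∪ Z) ?_ ?_ ?_ ?_
    · intro e he
      rw [Finset.mem_filter, Finset.mem_powersetCard] at he
      rw [Finset.mem_powersetCard]
      exact ⟨Finset.sdiff_subset_sdiff he.1.1 (Finset.Subset.refl _), by
        rw [Finset.card_sdiff_of_subset he.2, he.1.2]⟩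
    · intro Z hZ
      rw [Finset.mem_powersetCard] at hZ
      have hd : Disjoint T Z := by
        rw [Finset.disjoint_right]
        intro x hx
        exact (Finset.mem_sdiff.mp (hZ.1 hx)).2
      rw [Finset.mem_filter, Finset.mem_powersetCard]
      refine ⟨⟨Finset.union_subset hT (hZ.1.trans Finset.sdiff_subset), ?_⟩,
        Finset.subset_union_left⟩
      rw [Finset.card_union_of_disjoint hd, hZ.2]; omega
    · intro e he
      rw [Finset.mem_filter] at he
      exact Finset.union_sdiff_of_subset he.2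
    · intro Z hZ
      rw [Finset.mem_powersetCard] at hZ
      have hd : Disjoint T Z := by
        rw [Finset.disjoint_right]
        intro x hx
        exact (Finset.mem_sdiff.mp (hZ.1 hx)).2
      exact Finset.union_sdiff_cancel_left hd
  · rw [Finset.card_eq_zero, Finset.filter_eq_empty_iff]
    intro e he hTe
    exact hT (hTe.trans (Finset.mem_powersetCard.mp he).1)

theorem Decomp.divis {q r : ℕ} {E : Finset (Finset V)} (h : Decomp q r E) : Divis q r E := by
  obtain ⟨D, a, b, rfl⟩ := h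
  intro T hT
  rw [dg_biUnion D _ b T]
  refine Finset.dvd_sum fun Q hQ => ?_
  rw [dg_powersetCard r Q T hT.le]
  split_ifs
  · rw [a Q hQ]
  · exact dvd_zero _

theorem Divis.of_union {q r : ℕ} {E₁ E₂ : Finset (Finset V)} (hd : Disjoint E₁ E₂)
    (h : Divis q r (E₁ ∪ E₂)) (h₁ : Divis q r E₁) : Divis q r E₂ := by
  intro T hT
  have h2 := h T hT
  rw [dg_disjUnion hd] at h2
  exact (Nat.dvd_add_right (h₁ T hT)).mp h2

theorem Divis.union {q r : ℕ} {E₁ E₂ : Finset (Finset V)} (hd : Disjoint E₁ E₂)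
    (h₁ : Divis q r E₁) (h₂ : Divis q r E₂) : Divis q r (E₁ ∪ E₂) := by
  intro T hT
  rw [dg_disjUnion hd]
  exact Dvd.dvd.add (h₁ T hT) (h₂ T hT) |> fun h => h

end Pool.Agent.Des
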