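import Pool.Agent.Lib_helper96.Des.Dec

/-!
# Block ELIM: the elimination lemma (over any commutative ring)

`U0` is a set of vertices, `G` a down-closed family of sets disjoint from `U0`, `UT T ⊆ U0`
hereditary, and `Fam T` a family of `(q-|T|)`-subsets of `UT T` spanning all
`(ρ-|T|, q-|T|)`-divisible functions on `UT T`.  Then every divisible `J` supported on the `ρ`-sets
`e` with `e \ U0 ∈ G`, `e ∩ U0 ⊆ UT (e \ U0)` is in the span of the `q`-sets `T ∪ Q'`,
`Q' ∈ Fam T`.

Proof: descending induction on the maximal size `j` of `e \ U0` over the support of `J`.  For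
`T ∈ G` of size `j` the link `J_T (g) = J (T ∪ g)` (for `g ⊆ UT T`) is `(ρ-j, q-j)`-divisible on
`UT T`: for `A ⊆ UT T` its degree sum at `A` is the degree sum of `J` at `T ∪ A`, because all edges
`e` of `J` containing `T ∪ A` have `e \ U0 ⊇ T`, hence `= T` by maximality.  So `J_T = ∑ c_Q' ∂Q'`;
subtract `∑_T ∑ c_Q' ∂(T ∪ Q')`.  The result is divisible and supported on sets with
`|e \ U0| < j` of the same form (hereditarity).
-/

set_option autoImplicit false

namespace Pool.Agent.Des

open Finset

/-- indicators of `q`-sets are divisible -/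
theorem isDiv_ind {R : Type*} [CommRing R] {V : Type*} [Fintype V] [DecidableEq V] (ρ q : ℕ)
    (Q : Finset V) (hQ : Q.card = q) : IsDiv ρ q (ind R ρ Q) := by
  intro T hT
  have e1 : dsum ρ (ind R ρ Q) T = ((dg (Q.powersetCard ρ) T : ℕ) : R) := by
    unfold dsum ind dg
    rw [Finset.sum_ite, Finset.sum_const_zero, add_zero, Finset.sum_const, nsmul_eq_mul, mul_one]
    congr 2
    ext e
    simp only [Finset.mem_filter, Finset.mem_powersetCard, Finset.subset_univ, true_and]
    tauto
  rw [e1, dg_powersetCard ρ Q T hT]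
  split_ifs
  · rw [hQ]
  · simp

theorem elim_dsum_add {R : Type*} [CommRing R] {V : Type*} [Fintype V] [DecidableEq V] (ρ : ℕ)
    (J K : Finset V → R) (T : Finset V) : dsum ρ (J - K) T = dsum ρ J T - dsum ρ K T := by
  unfold dsum
  rw [← Finset.sum_sub_distrib]
  rfl

theorem elim_isDiv_sub {R : Type*} [CommRing R] {V : Type*} [Fintype V] [DecidableEq V] (ρ q : ℕ)
    (J K : Finset V → R) (hJ : IsDiv ρ q J) (hK : IsDiv ρ q K) : IsDiv ρ q (J - K) := by
  intro T hT
  rw [elim_dsum_add]
  exact dvd_sub (hJ T hT) (hK T hT)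

theorem elim_isDiv_sum {R : Type*} [CommRing R] {V : Type*} [Fintype V] [DecidableEq V] (ρ q : ℕ)
    {ι : Type*} (s : Finset ι) (c : ι → R) (K : ι → Finset V → R)
    (hK : ∀ i ∈ s, IsDiv ρ q (K i)) : IsDiv ρ q (∑ i ∈ s, c i • K i) := by
  intro T hT
  have : dsum ρ (∑ i ∈ s, c i • K i) T = ∑ i ∈ s, c i * dsum ρ (K i) T := by
    unfold dsum
    simp only [Finset.sum_apply, Pi.smul_apply, smul_eq_mul, Finset.mul_sum]
    rw [Finset.sum_comm]
  rw [this]
  exact Finset.dvd_sum fun i hi => Dvd.dvd.mul_left (hK i hi T hT) _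

theorem elim_isDiv_sum' {R : Type*} [CommRing R] {V : Type*} [Fintype V] [DecidableEq V] (ρ q : ℕ)
    {ι : Type*} (s : Finset ι) (K : ι → Finset V → R)
    (hK : ∀ i ∈ s, IsDiv ρ q (K i)) : IsDiv ρ q (∑ i ∈ s, K i) := by
  have := elim_isDiv_sum ρ q s (fun _ => (1 : R)) K hK
  simpa using this

theorem elim {R : Type*} [CommRing R] {V : Type*} [Fintype V] [DecidableEq V] (ρ q : ℕ)
    (hρ : ρ ≤ q) (U0 : Finset V) (G : Finset (Finset V)) (hGd : ∀ T ∈ G, ∀ T' ⊆ T, T' ∈ G)
    (hGU : ∀ T ∈ G, Disjoint T U0) (hGc : ∀ T ∈ G, T.card ≤ ρ) (UT : Finset V → Finset V)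
    (hUT : ∀ T ∈ G, UT T ⊆ U0) (hmono : ∀ T ∈ G, ∀ T' ⊆ T, UT T ⊆ UT T')
    (Fam : Finset V → Finset (Finset V))
    (hFam : ∀ T ∈ G, ∀ Q ∈ Fam T, Q ⊆ UT T ∧ Q.card = q - T.card)
    (hsp : ∀ T ∈ G, Spans R (ρ - T.card) (q - T.card) (UT T) (Fam T))
    (J : Finset V → R)
    (hJ : ∀ e, J e ≠ 0 → e.card = ρ ∧ e \ U0 ∈ G ∧ e ∩ U0 ⊆ UT (e \ U0))
    (hdiv : IsDiv ρ q J) :
    J ∈ spn R ρ (G.biUnion fun T => (Fam T).image fun Q => T ∪ Q) := by
  -- induction on the bound for `|e \ U0|`
  suffices H : ∀ m : ℕ, ∀ J : Finset V → R,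
      (∀ e, J e ≠ 0 → e.card = ρ ∧ e \ U0 ∈ G ∧ e ∩ U0 ⊆ UT (e \ U0)) → IsDiv ρ q J →
      (∀ e, J e ≠ 0 → (e \ U0).card < m) →
      J ∈ spn R ρ (G.biUnion fun T => (Fam T).image fun Q => T ∪ Q) by
    refine H (ρ + 1) J hJ hdiv fun e he => ?_
    exact Nat.lt_succ_of_le (hGc _ (hJ e he).2.1)
  intro m
  induction m with
  | zero =>
    intro J _ _ h0
    have : J = 0 := by
      funext e
      by_contra hne
      exact absurd (h0 e hne) (Nat.not_lt_zero _)
    rw [this]
    exact Submodule.zero_mem _
  | succ j ih =>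
    intro J hJ hdiv hlt
    have hle : ∀ e, J e ≠ 0 → (e \ U0).card ≤ j := fun e he => Nat.le_of_lt_succ (hlt e he)
    -- the links
    have key : ∀ T ∈ G, T.card = j → ∃ c : Finset V → R, ∀ g : Finset V, 
        (∑ Q ∈ Fam T, c Q * ind R (ρ - j) Q g) =
          if g ⊆ UT T ∧ g.card = ρ - j then J (T ∪ g) else 0 := by
      intro T hT hTj
      have hjρ : j ≤ ρ := hTj ▸ hGc T hT
      have hs := hsp T hT
      rw [hTj] at hs
      have hm := hs (fun g => if g ⊆ UT T ∧ g.card = ρ - j then J (T ∪ g) else 0) ?_ ?_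
      · rw [spn, Submodule.mem_span_image_finset_iff_exists_fun'] at hm
        obtain ⟨c, hc⟩ := hm
        refine ⟨c, fun g => ?_⟩
        have := congrFun hc g
        simp only [Finset.sum_apply, Pi.smul_apply, smul_eq_mul] at this
        exact this
      · intro g hg
        rw [Finset.mem_powersetCard]
        by_contra hcon
        exact hg (if_neg hcon)
      · intro A hA
        by_cases hAU : A ⊆ UT T
        · have hAT : Disjoint T A := (hGU T hT).mono_right (hAU.trans (hUT T hT))
          have hc : (T ∪ A).card = j + A.card := by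
            rw [Finset.card_union_of_disjoint hAT, hTj]
          have h1 := hdiv (T ∪ A) (by rw [hc]; omega)
          rw [hc] at h1
          have e1 : q - (j + A.card) = q - j - A.card := by omega
          have e2 : ρ - (j + A.card) = ρ - j - A.card := by omega
          rw [e1, e2] at h1
          convert h1 using 1
          unfold dsum
          refine Finset.sum_bij_ne_zero (fun g _ _ => T ∪ g) ?_ ?_ ?_ ?_
          · intro g hg hne
            rw [Finset.mem_filter, Finset.mem_powersetCard] at hg ⊢
            have hcon : g ⊆ UT T ∧ g.card = ρ - j := by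
              by_contra hcon; exact hne (if_neg hcon)
            have hd : Disjoint T g := (hGU T hT).mono_right (hcon.1.trans (hUT T hT))
            refine ⟨⟨Finset.subset_univ _, ?_⟩, Finset.union_subset_union_right hg.2⟩
            rw [Finset.card_union_of_disjoint hd, hTj, hcon.2]; omega
          · intro g₁ hg₁ hne₁ g₂ hg₂ hne₂ heq
            have hcon₁ : g₁ ⊆ UT T ∧ g₁.card = ρ - j := by
              by_contra hcon; exact hne₁ (if_neg hcon)
            have hcon₂ : g₂ ⊆ UT T ∧ g₂.card = ρ - j := by
              by_contra hcon; exact hne₂ (if_neg hcon)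
            have hd₁ : Disjoint T g₁ := (hGU T hT).mono_right (hcon₁.1.trans (hUT T hT))
            have hd₂ : Disjoint T g₂ := (hGU T hT).mono_right (hcon₂.1.trans (hUT T hT))
            have heq' : T ∪ g₁ = T ∪ g₂ := heq
            have : (T ∪ g₁) \ T = (T ∪ g₂) \ T := by rw [heq']
            rwa [Finset.union_sdiff_cancel_left hd₁, Finset.union_sdiff_cancel_left hd₂] at this
          · intro e he hne
            rw [Finset.mem_filter, Finset.mem_powersetCard] at he
            obtain ⟨h1, h2, h3⟩ := hJ e hne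
            have hTe : T ⊆ e := Finset.subset_union_left.trans he.2
            have hTe' : T ⊆ e \ U0 := by
              rw [Finset.subset_sdiff]; exact ⟨hTe, hGU T hT⟩
            have hTeq : T = e \ U0 :=
              Finset.eq_of_subset_of_card_le hTe' (by rw [hTj]; exact hle e hne)
            have heq : T ∪ (e ∩ U0) = e := by
              rw [hTeq]; exact Finset.sdiff_union_inter e U0
            have hcg : (e ∩ U0).card = ρ - j := by
              have := Finset.card_sdiff_add_card_inter e U0
              rw [← hTeq, hTj, h1] at this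
              omega
            refine ⟨e ∩ U0, ?_, ?_, heq⟩
            · rw [Finset.mem_filter, Finset.mem_powersetCard]
              refine ⟨⟨Finset.subset_univ _, hcg⟩, ?_⟩
              rw [Finset.subset_inter_iff]
              exact ⟨Finset.subset_union_right.trans he.2, hAU.trans (hUT T hT)⟩
            · rw [if_pos ⟨by rw [hTeq]; exact h3, hcg⟩, heq]; exact hne
          · intro g hg hne
            have hcon : g ⊆ UT T ∧ g.card = ρ - j := by
              by_contra hcon; exact hne (if_neg hcon)
            rw [if_pos hcon]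
        · have : dsum (ρ - j) (fun g => if g ⊆ UT T ∧ g.card = ρ - j then J (T ∪ g) else 0) A
              = 0 := by
            unfold dsum
            refine Finset.sum_eq_zero fun g hg => ?_
            rw [Finset.mem_filter] at hg
            exact if_neg fun hcon => hAU (hg.2.trans hcon.1)
          rw [this]; exact dvd_zero _
    choose! c hc using key
    obtain ⟨GJ, hGJ⟩ : ∃ GJ : Finset (Finset V), GJ = G.filter (fun T => T.card = j) := ⟨_, rfl⟩
    have mGJ : ∀ T, T ∈ GJ ↔ T ∈ G ∧ T.card = j := fun T => by rw [hGJ, Finset.mem_filter]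
    obtain ⟨K, hK⟩ : ∃ K : Finset V → Finset V → R, ∀ T, K T =
        ∑ Q ∈ Fam T, c T Q • ind R ρ (T ∪ Q) := ⟨_, fun _ => rfl⟩
    have Kspan : ∀ T ∈ G, K T ∈ spn R ρ (G.biUnion fun T => (Fam T).image fun Q => T ∪ Q) := by
      intro T hT
      rw [hK]
      refine Submodule.sum_mem _ fun Q hQ => Submodule.smul_mem _ _ (Submodule.subset_span ?_)
      refine ⟨T ∪ Q, ?_, rfl⟩
      rw [Finset.mem_coe, Finset.mem_biUnion]
      exact ⟨T, hT, Finset.mem_image_of_mem _ hQ⟩
    have Kapp : ∀ T e, K T e = ∑ Q ∈ Fam T, c T Q * ind R ρ (T ∪ Q) e := by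
      intro T e
      rw [hK]
      simp only [Finset.sum_apply, Pi.smul_apply, smul_eq_mul]
    have Ksupp : ∀ T ∈ G, ∀ e, K T e ≠ 0 → e.card = ρ ∧ e \ U0 ⊆ T ∧ e ∩ U0 ⊆ UT T := by
      intro T hT e hne
      rw [Kapp] at hne
      obtain ⟨Q, hQ, hQne⟩ := Finset.exists_ne_zero_of_sum_ne_zero hne
      have h1 : e ∈ (T ∪ Q).powersetCard ρ := by
        by_contra hcon
        apply hQne
        unfold ind
        rw [if_neg hcon, mul_zero]
      rw [Finset.mem_powersetCard] at h1
      have hQU := (hFam T hT Q hQ).1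
      refine ⟨h1.2, ?_, ?_⟩
      · intro x hx
        rw [Finset.mem_sdiff] at hx
        rcases Finset.mem_union.1 (h1.1 hx.1) with h | h
        · exact h
        · exact absurd (hUT T hT (hQU h)) hx.2
      · intro x hx
        rw [Finset.mem_inter] at hx
        rcases Finset.mem_union.1 (h1.1 hx.1) with h | h
        · exact absurd hx.2 (Finset.disjoint_left.1 (hGU T hT) h)
        · exact hQU h
    have Kdiv : ∀ T ∈ G, IsDiv ρ q (K T) := by
      intro T hT
      rw [hK]
      refine elim_isDiv_sum ρ q _ _ _ fun Q hQ => isDiv_ind ρ q _ ?_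
      have h1 := hFam T hT Q hQ
      have hd : Disjoint T Q := (hGU T hT).mono_right (h1.1.trans (hUT T hT))
      rw [Finset.card_union_of_disjoint hd, h1.2]
      have := hGc T hT
      omega
    -- the remainder
    have hrem := ih (J - ∑ T ∈ GJ, K T) ?_ ?_ ?_
    · have : J = (J - ∑ T ∈ GJ, K T) + ∑ T ∈ GJ, K T := by abel
      rw [this]
      exact Submodule.add_mem _ hrem
        (Submodule.sum_mem _ fun T hT => Kspan T ((mGJ T).1 hT).1)
    · intro e hne
      rw [Pi.sub_apply, Finset.sum_apply] at hne
      by_cases h : J e = 0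
      · rw [h, zero_sub, neg_ne_zero] at hne
        obtain ⟨T, hT, hTne⟩ := Finset.exists_ne_zero_of_sum_ne_zero hne
        have hTG := ((mGJ T).1 hT).1
        obtain ⟨h1, h2, h3⟩ := Ksupp T hTG e hTne
        exact ⟨h1, hGd T hTG _ h2, h3.trans (hmono T hTG _ h2)⟩
      · exact hJ e h
    · exact elim_isDiv_sub ρ q _ _ hdiv
        (elim_isDiv_sum' ρ q _ _ fun T hT => Kdiv T ((mGJ T).1 hT).1)
    · intro e hne
      by_contra hcon
      push Not at hcon
      apply hne
      rw [Pi.sub_apply, Finset.sum_apply]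
      have hother : ∀ T ∈ GJ, T ≠ e \ U0 → K T e = 0 := by
        intro T hT hTne
        by_contra h
        have hTG := ((mGJ T).1 hT)
        obtain ⟨h1, h2, h3⟩ := Ksupp T hTG.1 e h
        exact hTne (Finset.eq_of_subset_of_card_le h2 (by rw [hTG.2]; exact hcon)).symm
      by_cases hG : e \ U0 ∈ GJ
      · rw [Finset.sum_eq_single_of_mem _ hG (fun T hT hTne => hother T hT hTne)]
        obtain ⟨hG1, hG2⟩ := (mGJ _).1 hG
        rw [Kapp]
        by_cases hcard : e.card = ρ
        · have hci : (e ∩ U0).card = ρ - j := by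
            have := Finset.card_sdiff_add_card_inter e U0
            rw [hG2, hcard] at this
            omega
          have e1 : ∀ Q ∈ Fam (e \ U0), ind R ρ (e \ U0 ∪ Q) e = ind R (ρ - j) Q (e ∩ U0) := by
            intro Q hQ
            have hQU := ((hFam _ hG1 Q hQ).1).trans (hUT _ hG1)
            unfold ind
            simp only [Finset.mem_powersetCard, hcard, hci, and_true]
            have : e ⊆ e \ U0 ∪ Q ↔ e ∩ U0 ⊆ Q := by
              constructor
              · intro h x hx
                rw [Finset.mem_inter] at hx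
                rcases Finset.mem_union.1 (h hx.1) with h' | h'
                · exact absurd hx.2 (Finset.mem_sdiff.1 h').2
                · exact h'
              · intro h x hx
                by_cases hxU : x ∈ U0
                · exact Finset.mem_union_right _ (h (Finset.mem_inter.2 ⟨hx, hxU⟩))
                · exact Finset.mem_union_left _ (Finset.mem_sdiff.2 ⟨hx, hxU⟩)
            simp only [this]
          rw [Finset.sum_congr rfl fun Q hQ => by rw [e1 Q hQ], hc _ hG1 hG2]
          rw [Finset.sdiff_union_inter]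
          split_ifs with h
          · exact sub_self _
          · have : J e = 0 := by
              by_contra hJe
              exact h ⟨(hJ e hJe).2.2, hci⟩
            rw [this, sub_zero]
        · have hJ0 : J e = 0 := by
            by_contra hJe; exact hcard (hJ e hJe).1
          rw [hJ0, zero_sub, neg_eq_zero, ← Kapp]
          by_contra h
          exact hcard (Ksupp _ hG1 e h).1
      · rw [Finset.sum_eq_zero fun T hT => hother T hT fun h => hG (h ▸ hT), sub_zero]
        by_contra hJe
        apply hG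
        rw [mGJ]
        exact ⟨(hJ e hJe).2.1, le_antisymm (hle e hJe) hcon⟩

end Pool.Agent.Des
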