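import Pool.Agent.Lib_helper96.Des.Dec
import Pool.Agent.Lib_helper96.Des.Elim

/-!
# Block GJW: the Graver-Jurkat-Wilson theorem over any commutative ring

Base formula (`|W| = q + ρ`): choose `y T` with `dsum ρ J T = b_|T| * y T`,
`b_t = (q - t).choose (ρ - t)`, and put `c Q = ∑_{T ⊆ W \ Q} (-1)^|T| y T`.  Then
`∑_{Q ∋ e} c Q = ∑_{T ∩ e = ∅, |T| ≤ ρ} (-1)^|T| y T * #{Q ⊇ e : Q ∩ T = ∅}` and that number is
`(q - |T|).choose (q - ρ) = b_|T|`, so the sum is
`∑_{T ∩ e = ∅} (-1)^|T| dsum J T = ∑_f J f ∑_{T ⊆ f \ e} (-1)^|T| = J e`.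

General case by strong induction on `ρ`: choose `W₁ ⊆ W` with `|W₁| = q + ρ` and apply `elim` with
`U0 = W₁`, `G` = subsets of `W \ W₁` of size `≤ ρ`, `UT T = W₁`, `Fam T` = all `(q-|T|)`-subsets
of `W₁` (spanning: base formula for `T = ∅`, induction hypothesis for `(ρ-|T|, q-|T|)` otherwise).
-/

set_option autoImplicit false

namespace Pool.Agent.Des

open Finset

theorem gjw_count {V : Type*} [DecidableEq V] (ρ q : ℕ)
    (hρ : ρ ≤ q) (W : Finset V) (hW : W.card = q + ρ) (e T : Finset V) (he : e ⊆ W)
    (hec : e.card = ρ) (hT : T ⊆ W) (hTe : Disjoint T e) (hTc : T.card ≤ ρ) :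
    ((W.powersetCard q).filter (fun Q => e ⊆ Q ∧ T ⊆ W \ Q)).card =
      (q - T.card).choose (ρ - T.card) := by
  have h1 : ((W.powersetCard q).filter (fun Q => e ⊆ Q ∧ T ⊆ W \ Q)) =
      ((W \ T).powersetCard q).filter (fun Q => e ⊆ Q) := by
    ext Q
    simp only [Finset.mem_filter, Finset.mem_powersetCard]
    constructor
    · rintro ⟨⟨h1, h2⟩, h3, h4⟩
      refine ⟨⟨?_, h2⟩, h3⟩
      intro x hx
      rw [Finset.mem_sdiff]
      exact ⟨h1 hx, fun hxT => (Finset.mem_sdiff.1 (h4 hxT)).2 hx⟩
    · rintro ⟨⟨h1, h2⟩, h3⟩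
      refine ⟨⟨h1.trans Finset.sdiff_subset, h2⟩, h3, ?_⟩
      intro x hx
      rw [Finset.mem_sdiff]
      exact ⟨hT hx, fun hxQ => (Finset.mem_sdiff.1 (h1 hxQ)).2 hx⟩
  have h2 : (((W \ T).powersetCard q).filter (fun Q => e ⊆ Q)).card =
      dg ((W \ T).powersetCard q) e := rfl
  have h3 : e ⊆ W \ T := by
    rw [Finset.subset_sdiff]; exact ⟨he, hTe.symm⟩
  rw [h1, h2, dg_powersetCard q _ e (hec ▸ hρ), if_pos h3, Finset.card_sdiff_of_subset hT, hW, hec]
  have e1 : q + ρ - T.card - ρ = q - T.card := by omega
  rw [e1, ← Nat.choose_symm (show q - ρ ≤ q - T.card by omega)]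
  congr 1
  omega

theorem gjw_base {R : Type*} [CommRing R] {V : Type*} [Fintype V] [DecidableEq V] (ρ q : ℕ)
    (hρ : ρ ≤ q) (W : Finset V) (hW : W.card = q + ρ) : Spans R ρ q W (W.powersetCard q) := by
  intro J hJ hdiv
  have hy : ∀ T : Finset V, ∃ y : R, T.card ≤ ρ →
      dsum ρ J T = (((q - T.card).choose (ρ - T.card) : ℕ) : R) * y := by
    intro T
    by_cases h : T.card ≤ ρ
    · obtain ⟨y, hy⟩ := hdiv T h
      exact ⟨y, fun _ => hy⟩
    · exact ⟨0, fun h' => absurd h' h⟩
  choose y hy using hy
  rw [spn, Submodule.mem_span_image_finset_iff_exists_fun']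
  refine ⟨fun Q => ∑ T ∈ (W \ Q).powerset, (-1) ^ T.card * y T, ?_⟩
  funext e
  simp only [Finset.sum_apply, Pi.smul_apply, smul_eq_mul]
  by_cases he : e ∈ W.powersetCard ρ
  · rw [Finset.mem_powersetCard] at he
    have s1 : ∀ Q ∈ W.powersetCard q,
        (∑ T ∈ (W \ Q).powerset, (-1) ^ T.card * y T) * ind R ρ Q e =
          ∑ T ∈ W.powerset, if (e ⊆ Q ∧ T ⊆ W \ Q) then (-1) ^ T.card * y T else 0 := by
      intro Q hQ
      rw [Finset.mem_powersetCard] at hQ
      unfold ind
      simp only [Finset.mem_powersetCard, he.2, and_true]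
      by_cases heQ : e ⊆ Q
      · rw [if_pos heQ, mul_one]
        rw [← Finset.sum_filter]
        refine Finset.sum_congr ?_ fun _ _ => rfl
        ext T
        simp only [Finset.mem_powerset, Finset.mem_filter, heQ, true_and]
        constructor
        · intro h; exact ⟨h.trans Finset.sdiff_subset, h⟩
        · intro h; exact h.2
      · rw [if_neg heQ, mul_zero]
        refine (Finset.sum_eq_zero fun T _ => ?_).symm
        rw [if_neg]
        exact fun h => heQ h.1
    rw [Finset.sum_congr rfl s1, Finset.sum_comm]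
    have s2 : ∀ T ∈ W.powerset, (∑ Q ∈ W.powersetCard q,
        if (e ⊆ Q ∧ T ⊆ W \ Q) then (-1) ^ T.card * y T else 0) =
        if Disjoint T e ∧ T.card ≤ ρ then (-1) ^ T.card * dsum ρ J T else 0 := by
      intro T hT
      rw [Finset.mem_powerset] at hT
      rw [← Finset.sum_filter, Finset.sum_const, nsmul_eq_mul]
      split_ifs with h
      · rw [gjw_count ρ q hρ W hW e T he.1 he.2 hT h.1 h.2, hy T h.2]
        ring
      · have : ((W.powersetCard q).filter (fun Q => e ⊆ Q ∧ T ⊆ W \ Q)) = ∅ := by
          rw [Finset.filter_eq_empty_iff]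
          intro Q hQ hcon
          rw [Finset.mem_powersetCard] at hQ
          apply h
          constructor
          · rw [Finset.disjoint_left]
            intro x hx hxe
            exact (Finset.mem_sdiff.1 (hcon.2 hx)).2 (hcon.1 hxe)
          · have := Finset.card_le_card hcon.2
            rw [Finset.card_sdiff_of_subset hQ.1, hW, hQ.2] at this
            omega
        rw [this]; simp
    rw [Finset.sum_congr rfl s2]
    -- expand dsum
    have s3 : ∀ T ∈ W.powerset,
        (if Disjoint T e ∧ T.card ≤ ρ then (-1) ^ T.card * dsum ρ J T else 0) =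
        ∑ f ∈ W.powersetCard ρ, if T ⊆ f \ e then (-1) ^ T.card * J f else 0 := by
      intro T hT
      rw [Finset.mem_powerset] at hT
      split_ifs with h
      · unfold dsum
        rw [Finset.mul_sum, ← Finset.sum_filter]
        symm
        refine Finset.sum_subset_zero_on_sdiff ?_ ?_ ?_
        · intro f hf
          rw [Finset.mem_filter, Finset.mem_powersetCard] at hf ⊢
          exact ⟨⟨Finset.subset_univ _, hf.1.2⟩, hf.2.trans Finset.sdiff_subset⟩
        · intro f hf
          rw [Finset.mem_sdiff, Finset.mem_filter, Finset.mem_filter] at hf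
          have : J f = 0 := by
            by_contra hne
            apply hf.2
            refine ⟨hJ f hne, ?_⟩
            rw [Finset.subset_sdiff]
            exact ⟨hf.1.2, h.1⟩
          rw [this, mul_zero]
        · intro f _; rfl
      · refine (Finset.sum_eq_zero fun f hf => ?_).symm
        rw [if_neg]
        intro hcon
        apply h
        rw [Finset.subset_sdiff] at hcon
        refine ⟨hcon.2, ?_⟩
        rw [Finset.mem_powersetCard] at hf
        rw [← hf.2]; exact Finset.card_le_card hcon.1
    rw [Finset.sum_congr rfl s3, Finset.sum_comm]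
    have s4 : ∀ f ∈ W.powersetCard ρ, (∑ T ∈ W.powerset,
        if T ⊆ f \ e then (-1) ^ T.card * J f else 0) = if f = e then J f else 0 := by
      intro f hf
      rw [Finset.mem_powersetCard] at hf
      rw [← Finset.sum_filter]
      have : (W.powerset.filter fun T => T ⊆ f \ e) = (f \ e).powerset := by
        ext T
        simp only [Finset.mem_filter, Finset.mem_powerset]
        constructor
        · intro h; exact h.2
        · intro h; exact ⟨h.trans (Finset.sdiff_subset.trans hf.1), h⟩
      rw [this, ← Finset.sum_mul]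
      have h5 : (∑ T ∈ (f \ e).powerset, (-1 : R) ^ T.card) = if f \ e = ∅ then 1 else 0 := by
        have h6 := Finset.sum_powerset_neg_one_pow_card (x := f \ e)
        have h7 := congrArg (Int.cast : ℤ → R) h6
        push_cast at h7
        rw [h7]
      rw [h5]
      by_cases hfe : f = e
      · subst hfe; simp
      · rw [if_neg hfe, if_neg, zero_mul]
        intro h
        rw [Finset.sdiff_eq_empty_iff_subset] at h
        exact hfe (Finset.eq_of_subset_of_card_le h (by rw [he.2, hf.2]))
    rw [Finset.sum_congr rfl s4, Finset.sum_ite_eq' , if_pos]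
    rw [Finset.mem_powersetCard]; exact he
  · have hJe : J e = 0 := by
      by_contra h; exact he (hJ e h)
    rw [hJe]
    refine Finset.sum_eq_zero fun Q hQ => ?_
    rw [Finset.mem_powersetCard] at hQ
    unfold ind
    rw [if_neg, mul_zero]
    intro h
    rw [Finset.mem_powersetCard] at h
    exact he (Finset.mem_powersetCard.2 ⟨h.1.trans hQ.1, h.2⟩)

theorem gjw {R : Type*} [CommRing R] {V : Type*} [Fintype V] [DecidableEq V] (ρ q : ℕ)
    (hρ : ρ ≤ q) (W : Finset V) (hW : q + ρ ≤ W.card) : Spans R ρ q W (W.powersetCard q) := by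
  induction ρ using Nat.strong_induction_on generalizing q W with
  | _ ρ ih =>
    obtain ⟨W₁, hW₁, hc₁⟩ := Finset.exists_subset_card_eq hW
    intro J hJ hdiv
    have hel := elim (R := R) ρ q hρ W₁ ((W \ W₁).powerset.filter (fun T => T.card ≤ ρ))
      (by
        intro T hT T' hT'
        rw [Finset.mem_filter, Finset.mem_powerset] at hT ⊢
        exact ⟨hT'.trans hT.1, (Finset.card_le_card hT').trans hT.2⟩)
      (by
        intro T hT
        rw [Finset.mem_filter, Finset.mem_powerset] at hT
        rw [Finset.disjoint_left]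
        intro x hx
        exact (Finset.mem_sdiff.1 (hT.1 hx)).2)
      (by
        intro T hT
        exact (Finset.mem_filter.1 hT).2)
      (fun _ => W₁) (fun _ _ => Finset.Subset.refl _) (fun _ _ _ _ => Finset.Subset.refl _)
      (fun T => W₁.powersetCard (q - T.card))
      (by
        intro T _ Q hQ
        rw [Finset.mem_powersetCard] at hQ
        exact hQ)
      (by
        intro T hT
        have hTc := (Finset.mem_filter.1 hT).2
        by_cases h0 : T.card = 0
        · rw [h0, Nat.sub_zero, Nat.sub_zero]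
          exact gjw_base ρ q hρ W₁ hc₁
        · exact ih (ρ - T.card) (by omega) (q - T.card) (by omega) W₁ (by omega))
      J
      (by
        intro e he
        have h := hJ e he
        rw [Finset.mem_powersetCard] at h
        refine ⟨h.2, ?_, Finset.inter_subset_right⟩
        rw [Finset.mem_filter, Finset.mem_powerset]
        refine ⟨Finset.sdiff_subset_sdiff h.1 (Finset.Subset.refl _), ?_⟩
        rw [← h.2]
        exact Finset.card_le_card Finset.sdiff_subset)
      hdiv
    refine Submodule.span_mono (Set.image_mono ?_) hel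
    intro S hS
    rw [Finset.mem_coe, Finset.mem_biUnion] at hS
    obtain ⟨T, hT, hS⟩ := hS
    rw [Finset.mem_image] at hS
    obtain ⟨Q, hQ, rfl⟩ := hS
    rw [Finset.mem_filter, Finset.mem_powerset] at hT
    rw [Finset.mem_powersetCard] at hQ
    rw [Finset.mem_coe, Finset.mem_powersetCard]
    have hd : Disjoint T Q := by
      rw [Finset.disjoint_left]
      intro x hx hxQ
      exact (Finset.mem_sdiff.1 (hT.1 hx)).2 (hQ.1 hxQ)
    refine ⟨Finset.union_subset (hT.1.trans Finset.sdiff_subset) (hQ.1.trans hW₁), ?_⟩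
    rw [Finset.card_union_of_disjoint hd, hQ.2]
    omega

end Pool.Agent.Des
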