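import Pool.Agent.Lib_helper96.Des.Place

/-!
# Block COVER: covering a sparse leftover by cliques with all other edges in the reserve

Apply `place` with `I = Λ`, `O = Finset V`, `root e = ctx e = e` (`b = 1`, `h = r`),
`Opt e = ext q r X e`, `nw e Z = Z`, `ed e Z = ((e ∪ Z).powersetCard r).erase e`, `F = ∅`, `u = 0`,
`K = n^β`, `θ = n^(-κ)` (`hdeg` from `dg_le_of_codeg`), `M = q.choose r`.  `(hsp)`: at most
`n^(q-r-|A|)` sets `Z` contain `A`, while `|Opt e| ≥ n^(q-r-β)`.  Smallness: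
`K^2 θ = n^(2β-κ) → 0`.  The cliques `e ∪ Z_e` form the family `D`.
-/

set_option autoImplicit false

namespace Pool.Agent.Des

open Finset

theorem cover_const (q r : ℕ) (κ β : ℝ) (hβ : 0 < β) (hκ : 4 * β ≤ κ) (hκ1 : κ ≤ 1 / 2) :
    ∃ n₀ : ℕ, 1 ≤ n₀ ∧ ∀ n : ℕ, n₀ ≤ n →
      2 ^ r * ((n : ℝ) ^ β) * (0 + (q.choose r : ℕ) * Cpl r 1 ((n : ℝ) ^ β) * (n : ℝ) ^ (-κ)) ≤
        1 / 2 ∧
      r * Real.log ((n : ℝ) + 1) ≤ (n : ℝ) ^ (-κ) * n := by
  set C : ℝ := 2 ^ r * (q.choose r : ℕ) * (Real.exp 1 * 2 ^ (r + 2) + 1) with hC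
  have hC0 : 0 ≤ C := by positivity
  have h1 : Filter.Tendsto (fun n : ℕ => C * (n : ℝ) ^ (-(2 * β))) Filter.atTop (nhds (C * 0)) :=
    ((tendsto_rpow_neg_atTop (by linarith : 0 < 2 * β)).comp tendsto_natCast_atTop_atTop).const_mul C
  rw [mul_zero] at h1
  obtain ⟨n1, hn1⟩ := Filter.eventually_atTop.1 (h1.eventually (gt_mem_nhds
    (show (0 : ℝ) < 1 / 2 by norm_num)))
  refine ⟨max (max n1 1) ((8 * r) ^ 4), (le_max_right _ _).trans (le_max_left _ _),
    fun n hn => ?_⟩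
  have hnn1 : n1 ≤ n := ((le_max_left _ _).trans (le_max_left _ _)).trans hn
  have hn1' : 1 ≤ n := ((le_max_right _ _).trans (le_max_left _ _)).trans hn
  have hnr : (8 * r) ^ 4 ≤ n := (le_max_right _ _).trans hn
  have hnpos : (0 : ℝ) < n := by exact_mod_cast hn1'
  have hn1r : (1 : ℝ) ≤ n := by exact_mod_cast hn1'
  constructor
  · have hK : (1 : ℝ) ≤ (n : ℝ) ^ β := Real.one_le_rpow hn1r hβ.le
    have hCpl : Cpl r 1 ((n : ℝ) ^ β) ≤ (Real.exp 1 * 2 ^ (r + 2) + 1) * (n : ℝ) ^ β := by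
      unfold Cpl
      push_cast
      nlinarith
    have hθ : (0 : ℝ) ≤ (n : ℝ) ^ (-κ) := by positivity
    have h2 : (n : ℝ) ^ β * (n : ℝ) ^ β * (n : ℝ) ^ (-κ) ≤ (n : ℝ) ^ (-(2 * β)) := by
      rw [← Real.rpow_add hnpos, ← Real.rpow_add hnpos]
      exact Real.rpow_le_rpow_of_exponent_le hn1r (by linarith)
    calc 2 ^ r * ((n : ℝ) ^ β) * (0 + (q.choose r : ℕ) * Cpl r 1 ((n : ℝ) ^ β) * (n : ℝ) ^ (-κ))
        ≤ 2 ^ r * ((n : ℝ) ^ β) * (0 + (q.choose r : ℕ) *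
          ((Real.exp 1 * 2 ^ (r + 2) + 1) * (n : ℝ) ^ β) * (n : ℝ) ^ (-κ)) := by gcongr
      _ = C * ((n : ℝ) ^ β * (n : ℝ) ^ β * (n : ℝ) ^ (-κ)) := by rw [hC]; ring
      _ ≤ C * (n : ℝ) ^ (-(2 * β)) := mul_le_mul_of_nonneg_left h2 hC0
      _ ≤ 1 / 2 := (hn1 n hnn1).le
  · have h2 : (n : ℝ) ^ (-κ) * n = (n : ℝ) ^ (1 - κ) := by
      rw [sub_eq_neg_add, Real.rpow_add hnpos, Real.rpow_one]
    rw [h2]
    have h3 : (n : ℝ) ^ (1 / 2 : ℝ) ≤ (n : ℝ) ^ (1 - κ) :=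
      Real.rpow_le_rpow_of_exponent_le hn1r (by linarith)
    refine le_trans ?_ h3
    have h4 : Real.log ((n : ℝ) + 1) ≤ 8 * (n : ℝ) ^ (1 / 4 : ℝ) := by
      have h5 := Real.log_le_rpow_div (x := (n : ℝ) + 1) (by positivity)
        (show (0 : ℝ) < 1 / 4 by norm_num)
      have h6 : ((n : ℝ) + 1) ^ (1 / 4 : ℝ) ≤ (2 * (n : ℝ)) ^ (1 / 4 : ℝ) :=
        Real.rpow_le_rpow (by positivity) (by linarith) (by norm_num)
      have h7 : (2 * (n : ℝ)) ^ (1 / 4 : ℝ) ≤ 2 * (n : ℝ) ^ (1 / 4 : ℝ) := by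
        rw [Real.mul_rpow (by norm_num) hnpos.le]
        have h8 : (2 : ℝ) ^ (1 / 4 : ℝ) ≤ 2 ^ (1 : ℝ) :=
          Real.rpow_le_rpow_of_exponent_le (by norm_num) (by norm_num)
        rw [Real.rpow_one] at h8
        exact mul_le_mul_of_nonneg_right h8 (by positivity)
      calc Real.log ((n : ℝ) + 1) ≤ ((n : ℝ) + 1) ^ (1 / 4 : ℝ) / (1 / 4) := h5
        _ = 4 * ((n : ℝ) + 1) ^ (1 / 4 : ℝ) := by ring
        _ ≤ 4 * (2 * (n : ℝ) ^ (1 / 4 : ℝ)) := by linarith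
        _ = _ := by ring
    have h9 : (8 * (r : ℝ)) ≤ (n : ℝ) ^ (1 / 4 : ℝ) := by
      have h10 : ((8 * (r : ℝ)) ^ 4) ≤ n := by exact_mod_cast hnr
      calc (8 * (r : ℝ)) = ((8 * (r : ℝ)) ^ (4 : ℕ)) ^ (1 / 4 : ℝ) := by
            rw [← Real.rpow_natCast, ← Real.rpow_mul (by positivity)]
            norm_num
        _ ≤ _ := Real.rpow_le_rpow (by positivity) h10 (by norm_num)
    calc r * Real.log ((n : ℝ) + 1) ≤ r * (8 * (n : ℝ) ^ (1 / 4 : ℝ)) :=
          mul_le_mul_of_nonneg_left h4 (by positivity)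
      _ = 8 * r * (n : ℝ) ^ (1 / 4 : ℝ) := by ring
      _ ≤ (n : ℝ) ^ (1 / 4 : ℝ) * (n : ℝ) ^ (1 / 4 : ℝ) :=
          mul_le_mul_of_nonneg_right h9 (by positivity)
      _ = (n : ℝ) ^ (1 / 2 : ℝ) := by
          rw [← Real.rpow_add hnpos]; norm_num

theorem cover_card_superset {V : Type} [Fintype V] [DecidableEq V] (m : ℕ) (S A : Finset V) :
    (((S.powersetCard m).filter (fun Z => A ⊆ Z)).card : ℝ) * (Fintype.card V : ℝ) ^ A.card ≤
      (Fintype.card V : ℝ) ^ m := by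
  by_cases hA : A.card ≤ m
  · have h1 : ((S.powersetCard m).filter (fun Z => A ⊆ Z)).card ≤
        ((Finset.univ : Finset V).powersetCard (m - A.card)).card := by
      refine Finset.card_le_card_of_injOn (fun Z => Z \ A) ?_ ?_
      · intro Z hZ
        rw [Finset.mem_coe, Finset.mem_filter, Finset.mem_powersetCard] at hZ
        rw [Finset.mem_coe, Finset.mem_powersetCard]
        exact ⟨Finset.subset_univ _, by
          show (Z \ A).card = _
          rw [Finset.card_sdiff_of_subset hZ.2, hZ.1.2]⟩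
      · intro Z hZ Z' hZ' h
        rw [Finset.mem_coe, Finset.mem_filter] at hZ hZ'
        simp only at h
        rw [← Finset.union_sdiff_of_subset hZ.2, ← Finset.union_sdiff_of_subset hZ'.2, h]
    rw [Finset.card_powersetCard, Finset.card_univ] at h1
    have h2 : (Fintype.card V).choose (m - A.card) ≤ (Fintype.card V) ^ (m - A.card) :=
      Nat.choose_le_pow _ _
    have h3 : (((S.powersetCard m).filter (fun Z => A ⊆ Z)).card : ℝ) ≤
        (Fintype.card V : ℝ) ^ (m - A.card) := by exact_mod_cast h1.trans h2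
    calc _ ≤ (Fintype.card V : ℝ) ^ (m - A.card) * (Fintype.card V : ℝ) ^ A.card :=
          mul_le_mul_of_nonneg_right h3 (by positivity)
      _ = _ := by rw [← pow_add]; congr 1; omega
  · have h1 : (S.powersetCard m).filter (fun Z => A ⊆ Z) = ∅ := by
      rw [Finset.filter_eq_empty_iff]
      intro Z hZ hAZ
      have := Finset.card_le_card hAZ
      rw [(Finset.mem_powersetCard.1 hZ).2] at this
      exact hA this
    rw [h1]
    simp

theorem cover (q r : ℕ) (hr : 1 ≤ r) (hq : r < q) (κ β : ℝ) (hβ : 0 < β) (hκ : 4 * β ≤ κ)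
    (hκ1 : κ ≤ 1 / 2) :
    ∃ n₀ : ℕ, ∀ (V : Type) [Fintype V] [DecidableEq V], n₀ ≤ Fintype.card V →
    ∀ X Λ : Finset (Finset V), Unif r X → Unif r Λ → Disjoint X Λ →
    (∀ S : Finset V, S.card = r - 1 → (dg Λ S : ℝ) ≤ (Fintype.card V : ℝ) ^ (1 - κ)) →
    (∀ e ∈ Λ, (Fintype.card V : ℝ) ^ ((q : ℝ) - r - β) ≤ ((ext q r X e).card : ℝ)) →
    ∃ D : Finset (Finset V), (∀ Q ∈ D, Q.card = q) ∧
      (∀ Q ∈ D, ∀ Q' ∈ D, Q ≠ Q' → Disjoint (Q.powersetCard r) (Q'.powersetCard r)) ∧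
      Λ ⊆ D.biUnion (fun Q => Q.powersetCard r) ∧
      D.biUnion (fun Q => Q.powersetCard r) ⊆ Λ ∪ X := by
  obtain ⟨n₀, hn₀, hconst⟩ := cover_const q r κ β hβ hκ hκ1
  refine ⟨n₀, fun V _ _ hn X Λ hX hΛ hdisj hcod hext => ?_⟩
  set n := Fintype.card V with hndef
  have hn1 : 1 ≤ n := hn₀.trans hn
  have hnpos : (0 : ℝ) < n := by exact_mod_cast hn1
  have hn1r : (1 : ℝ) ≤ n := by exact_mod_cast hn1
  obtain ⟨hc1, hc2⟩ := hconst n hn
  have hK : (1 : ℝ) ≤ (n : ℝ) ^ β := Real.one_le_rpow hn1r hβ.le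
  have hopt : ∀ e, ∀ Z ∈ ext q r X e, Z.card = q - r ∧ Disjoint e Z ∧
      ∀ γ ∈ (e ∪ Z).powersetCard r, γ ≠ e → γ ∈ X := by
    intro e Z hZ
    unfold ext at hZ
    rw [Finset.mem_filter, Finset.mem_powersetCard] at hZ
    refine ⟨hZ.1.2, ?_, hZ.2⟩
    rw [Finset.disjoint_right]
    intro x hx
    exact (Finset.mem_sdiff.1 (hZ.1.1 hx)).2
  obtain ⟨o, ho1, -, ho3, -⟩ := place (V := V) (O := Finset V) (ι := Finset V) r r (q.choose r) 1 hr
    ((n : ℝ) ^ β) ((n : ℝ) ^ (-κ)) 0 hK (by positivity) le_rfl Λ (fun e => e)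
    (fun e he => (hΛ e he).le) (fun e => ext q r X e)
    (by
      intro e he
      rw [← Finset.card_pos]
      have h1 := hext e he
      have h2 : (0 : ℝ) < (n : ℝ) ^ ((q : ℝ) - r - β) := by positivity
      exact_mod_cast h2.trans_le h1)
    (fun _ Z => Z) (fun e Z => ((e ∪ Z).powersetCard r).erase e)
    (by
      intro e he Z hZ γ hγ
      rw [Finset.mem_erase, Finset.mem_powersetCard] at hγ
      refine ⟨hγ.2.2, hγ.2.1, fun h => hγ.1 ?_⟩
      exact Finset.eq_of_subset_of_card_le h (by rw [hγ.2.2, hΛ e he]))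
    (by
      intro e he Z hZ
      obtain ⟨h1, h2, _⟩ := hopt e Z hZ
      refine (Finset.card_erase_le).trans ?_
      rw [Finset.card_powersetCard, Finset.card_union_of_disjoint h2, hΛ e he, h1]
      exact le_of_eq (by congr 1; omega))
    (by
      intro e he A hA hAr
      have h1 : ((((ext q r X e).filter (fun Z => A ⊆ Z)).card : ℕ) : ℝ) ≤
          ((((Finset.univ \ e).powersetCard (q - r)).filter (fun Z => A ⊆ Z)).card : ℝ) := by
        have : (ext q r X e).filter (fun Z => A ⊆ Z) ⊆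
            ((Finset.univ \ e).powersetCard (q - r)).filter (fun Z => A ⊆ Z) := by
          unfold ext
          exact Finset.filter_subset_filter _ (Finset.filter_subset _ _)
        exact_mod_cast Finset.card_le_card this
      calc _ ≤ ((((Finset.univ \ e).powersetCard (q - r)).filter (fun Z => A ⊆ Z)).card : ℝ) *
            (Fintype.card V : ℝ) ^ A.card := mul_le_mul_of_nonneg_right h1 (by positivity)
        _ ≤ (Fintype.card V : ℝ) ^ (q - r) := cover_card_superset _ _ _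
        _ = (n : ℝ) ^ β * (n : ℝ) ^ ((q : ℝ) - r - β) := by
            rw [← Real.rpow_add hnpos, ← hndef, ← Real.rpow_natCast]
            congr 1
            rw [Nat.cast_sub hq.le]
            ring
        _ ≤ _ := mul_le_mul_of_nonneg_left (hext e he) (by positivity))
    (fun e _ => e) (fun e _ => ⟨0, Finset.Subset.refl _⟩)
    (by
      intro A hA
      have h1 := dg_le_of_codeg r hr Λ hΛ ((n : ℝ) ^ (1 - κ)) (by positivity) hcod A hA
      have h2 : ∑ e ∈ Λ, ∑ _l : Fin 1, (if A ⊆ e then (1 : ℝ) else 0) = (dg Λ A : ℝ) := by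
        unfold dg
        simp
      rw [h2]
      refine h1.trans (le_of_eq ?_)
      rw [← hndef, sub_eq_neg_add, Real.rpow_add hnpos, Real.rpow_one]
      have h3 : r - A.card = (r - 1 - A.card) + 1 := by omega
      rw [h3, pow_succ]
      ring)
    ∅ (by intro e he; simp at he) (by intro S _; simp [dg])
    hc1 hc2
  have hin : ∀ e ∈ Λ, ∀ γ ∈ (e ∪ o e).powersetCard r, γ = e ∨
      (γ ∈ X ∧ γ ∈ ((e ∪ o e).powersetCard r).erase e) := by
    intro e he γ hγ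
    by_cases h : γ = e
    · exact Or.inl h
    · exact Or.inr ⟨(hopt e (o e) (ho1 e he)).2.2 γ hγ h, Finset.mem_erase.2 ⟨h, hγ⟩⟩
  refine ⟨Λ.image fun e => e ∪ o e, ?_, ?_, ?_, ?_⟩
  · intro Q hQ
    obtain ⟨e, he, rfl⟩ := Finset.mem_image.1 hQ
    obtain ⟨h1, h2, _⟩ := hopt e (o e) (ho1 e he)
    rw [Finset.card_union_of_disjoint h2, hΛ e he, h1]
    omega
  · intro Q hQ Q' hQ' hne
    obtain ⟨e, he, rfl⟩ := Finset.mem_image.1 hQ
    obtain ⟨e', he', rfl⟩ := Finset.mem_image.1 hQ'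
    have hee : e ≠ e' := fun h => hne (by rw [h])
    rw [Finset.disjoint_left]
    intro γ h1 h2
    rcases hin e he γ h1 with h3 | ⟨h3, h4⟩
    · rcases hin e' he' γ h2 with h5 | ⟨h5, _⟩
      · exact hee (h3.symm.trans h5)
      · exact Finset.disjoint_left.1 hdisj h5 (h3 ▸ he)
    · rcases hin e' he' γ h2 with h5 | ⟨_, h5⟩
      · exact Finset.disjoint_left.1 hdisj h3 (h5 ▸ he')
      · exact Finset.disjoint_left.1 (ho3 e he e' he' hee) h4 h5
  · intro e he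
    rw [Finset.mem_biUnion]
    exact ⟨e ∪ o e, Finset.mem_image_of_mem _ he,
      Finset.mem_powersetCard.2 ⟨Finset.subset_union_left, hΛ e he⟩⟩
  · intro γ hγ
    rw [Finset.mem_biUnion] at hγ
    obtain ⟨Q, hQ, hγQ⟩ := hγ
    obtain ⟨e, he, rfl⟩ := Finset.mem_image.1 hQ
    rcases hin e he γ hγQ with h3 | ⟨h3, _⟩
    · exact Finset.mem_union_left _ (h3 ▸ he)
    · exact Finset.mem_union_right _ h3

end Pool.Agent.Des
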