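import Pool.Agent.Lib_helper96.Des.Defs
import Pool.Agent.Lib_helper81.FD.Main

/-!
# Block FRAC: bounded fractional decompositions

`Pool.Agent.Lib_helper81.FD.frac_main` with the extra information
`W K ≤ C / n^(q-r)`.  In helper81's construction `WW p q r K ≤ ∑_{X ⊇ K} p X = (M)_q z^q ∏ w ≤ M^q z^q`
and the weights are `WW / (lam (1 - ε/2))` with `lam = (M)_r z^r`, `z = 1/(2n)`; so replace the bound
`W K ≤ 2` in `exists_W` / `frac_of_dual` by `W K ≤ C z^(q-r)` (copy the two proofs with the new box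
`[0, C z^(q-r)]`).
-/

set_option autoImplicit false

namespace Pool.Agent.Des

open Finset

section FracAux

open Pool.Agent.Lib_helper81.FD

variable {V : Type*} [Fintype V] [DecidableEq V]

/-- the dual inequality -/
theorem frac_exists_W (E : Finset (Finset V)) (q r M : ℕ) (hr : 1 ≤ r) (hq : r ≤ q) (hM : r ≤ M)
    {ε z τ : ℝ} (hz : 0 < z) (hε0 : 0 ≤ ε) (hε1 : ε ≤ 1) (y : Finset V → ℝ)
    (H : Hyp (wt E r ε y) z M τ)
    (havg : ∀ Γ : Finset V, Γ.card ≤ M →
      1 / 8 ≤ z / 2 * ((1 - τ) * ∑ v ∈ Finset.univ \ Γ, phi (wt E r ε y) Finset.univ Γ {v}))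
    (hsmall : 2 ^ q * (7 / 8 : ℝ) ^ (M - r) ≤ ε / 2) :
    ∃ W : Finset V → ℝ, (∀ K, 0 ≤ W K) ∧ (∀ K, W K ≤ 2 * (M : ℝ) ^ q * z ^ (q - r)) ∧ (∀ K, ¬ Clique E q r K → W K = 0) ∧
      ∑ e ∈ E.filter (fun e => e.card = r),
        y e * ∑ K ∈ (Finset.univ : Finset (Finset V)).filter (fun K => e ⊆ K), W K ≤
      ∑ e ∈ E.filter (fun e => e.card = r), y e := by
  set w := wt E r ε y with hw
  set lam : ℝ := (M.descFactorial r : ℝ) * z ^ r with hlam
  have hlam0 : 0 < lam := by
    have : 0 < M.descFactorial r := Nat.descFactorial_pos.mpr hM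
    positivity
  have hlam' : 0 < lam * (1 - ε / 2) := mul_pos hlam0 (by linarith)
  set p := pm w z M with hp
  have hp0 : ∀ X, 0 ≤ p X := fun X => pm_nonneg H X
  -- edge sums
  have hedge : ∀ e ∈ E, e.card = r → ∃ x' : ℝ, 0 ≤ x' ∧ x' ≤ lam * (ε / 2) ∧
      ∑ K ∈ (Finset.univ : Finset (Finset V)).filter (fun K => e ⊆ K), WW p q r K
        = lam * w e - x' := by
    intro e heE he
    have h1 := sum_pm_one w z M e
    have h2 := sum_pm_small H havg e (by omega) q
    rw [he, hw, phi_edge E r hr ε y e he, ← hw] at h1 h2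
    refine ⟨∑ X ∈ (Finset.univ : Finset (Finset V)).filter (fun X => e ⊆ X ∧ X.card < q), p X,
      Finset.sum_nonneg fun X _ => hp0 X, ?_, ?_⟩
    · have hwe1 : w e ≤ 1 := H.w1 e
      have hwe0 : 0 ≤ w e := H.w0 e
      calc ∑ X ∈ (Finset.univ : Finset (Finset V)).filter (fun X => e ⊆ X ∧ X.card < q), p X
          ≤ 2 ^ q * (7 / 8) ^ (M - r) * (lam * w e) := h2
        _ ≤ ε / 2 * (lam * 1) := by gcongr
        _ = lam * (ε / 2) := by ring
    · rw [WW_sum p q r hq e he, ← h1]
      have h3 := Finset.sum_filter_add_sum_filter_not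
        ((Finset.univ : Finset (Finset V)).filter (fun X => e ⊆ X)) (fun X => X.card < q) p
      rw [Finset.filter_filter, Finset.filter_filter] at h3
      linarith
  have hWW0 : ∀ K, 0 ≤ WW p q r K := by
    intro K
    unfold WW
    split_ifs
    · refine Finset.sum_nonneg fun X _ => div_nonneg (hp0 X) (by positivity)
    · exact le_rfl
  have hcl : ∀ K, ¬ Clique E q r K → WW p q r K = 0 := by
    intro K hK
    unfold WW
    split_ifs with hc
    · have : ∃ T : Finset V, T ⊆ K ∧ T.card = r ∧ T ∉ E := by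
        by_contra hcon
        push Not at hcon
        exact hK ⟨hc, hcon⟩
      obtain ⟨T, hTK, hTr, hTE⟩ := this
      refine Finset.sum_eq_zero fun X hX => ?_
      simp only [mem_filter, mem_univ, true_and] at hX
      rw [hp, pm_eq_zero w z M X T (hTK.trans hX) (Finset.card_pos.mp (by omega)) (by
        rw [hw]; unfold wt; rw [if_pos hTr, if_neg hTE]), zero_div]
    · rfl
  refine ⟨fun K => WW p q r K / (lam * (1 - ε / 2)), fun K => div_nonneg (hWW0 K) hlam'.le,
    ?_, ?_, ?_⟩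
  · intro K
    by_cases hK : Clique E q r K
    · have h1 : WW p q r K ≤ (M : ℝ) ^ q * z ^ q := by
        unfold WW
        rw [if_pos hK.1]
        calc ∑ X ∈ (Finset.univ : Finset (Finset V)).filter (fun X => K ⊆ X),
              p X / ((X.card - r).choose (q - r) : ℝ)
            ≤ ∑ X ∈ (Finset.univ : Finset (Finset V)).filter (fun X => K ⊆ X), p X := by
              refine Finset.sum_le_sum fun X hX => ?_
              simp only [mem_filter, mem_univ, true_and] at hX
              have h2 : q ≤ X.card := by rw [← hK.1]; exact Finset.card_le_card hX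
              have h3 : 1 ≤ (X.card - r).choose (q - r) := Nat.choose_pos (by omega)
              have h4 : (1 : ℝ) ≤ ((X.card - r).choose (q - r) : ℝ) := by exact_mod_cast h3
              exact div_le_self (hp0 X) h4
          _ = (M.descFactorial K.card : ℝ) * z ^ K.card * phi w Finset.univ ∅ K :=
              sum_pm_one w z M K
          _ ≤ (M : ℝ) ^ q * z ^ q * 1 := by
              rw [hK.1]
              have h2 : (M.descFactorial q : ℝ) ≤ (M : ℝ) ^ q := by
                exact_mod_cast Nat.descFactorial_le_pow M q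
              have h3 := phi_le_one H.w0 H.w1 Finset.univ ∅ K
              have h4 := phi_nonneg H.w0 Finset.univ ∅ K
              gcongr
          _ = _ := by ring
      rw [div_le_iff₀ hlam']
      refine h1.trans ?_
      have h5 : z ^ r ≤ lam := by
        rw [hlam]
        have h6 : 1 ≤ M.descFactorial r := Nat.descFactorial_pos.mpr hM
        have h7 : (1 : ℝ) ≤ (M.descFactorial r : ℝ) := by exact_mod_cast h6
        have h8 : (0 : ℝ) ≤ z ^ r := by positivity
        nlinarith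
      have h9 : z ^ r * (1 / 2) ≤ lam * (1 - ε / 2) := by
        have h10 : (1 / 2 : ℝ) ≤ 1 - ε / 2 := by linarith
        exact mul_le_mul h5 h10 (by norm_num) hlam0.le
      calc (M : ℝ) ^ q * z ^ q = 2 * (M : ℝ) ^ q * z ^ (q - r) * (z ^ r * (1 / 2)) := by
            have : z ^ q = z ^ (q - r) * z ^ r := by rw [← pow_add]; congr 1; omega
            rw [this]; ring
        _ ≤ _ := mul_le_mul_of_nonneg_left h9 (by positivity)
    · show WW p q r K / _ ≤ _
      rw [hcl K hK, zero_div]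
      positivity
  · intro K hK
    show WW p q r K / _ = 0
    rw [hcl K hK, zero_div]
  · refine Finset.sum_le_sum fun e he => ?_
    simp only [mem_filter] at he
    obtain ⟨x', hx0, hx1, hx⟩ := hedge e he.1 he.2
    have h2 : ∑ K ∈ (Finset.univ : Finset (Finset V)).filter (fun K => e ⊆ K),
        WW p q r K / (lam * (1 - ε / 2)) = (lam * w e - x') / (lam * (1 - ε / 2)) := by
      rw [← Finset.sum_div, hx]
    rw [h2, mul_div_assoc', div_le_iff₀ hlam']
    by_cases hy : 0 < y e
    · have : w e = 1 - ε := by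
        rw [hw]; unfold wt; rw [if_pos he.2, if_pos he.1, if_pos hy]
      rw [this]
      have h3 : lam * (1 - ε) - x' ≤ lam * (1 - ε / 2) := by nlinarith
      exact mul_le_mul_of_nonneg_left h3 hy.le
    · have : w e = 1 := by
        rw [hw]; unfold wt; rw [if_pos he.2, if_pos he.1, if_neg hy]
      rw [this]
      have h3 : lam * (1 - ε / 2) ≤ lam * 1 - x' := by nlinarith
      exact mul_le_mul_of_nonpos_left h3 (by linarith)

/-- Duality: the dual inequality gives a fractional decomposition. -/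
theorem frac_of_dual_bdd (E : Finset (Finset V)) (q r : ℕ) (B : ℝ) (hE : ∀ e ∈ E, e.card = r)
    (hdual : ∀ y : Finset V → ℝ, ∃ W : Finset V → ℝ, (∀ K, 0 ≤ W K) ∧ (∀ K, W K ≤ B) ∧
      (∀ K, ¬ Clique E q r K → W K = 0) ∧
      ∑ e ∈ E.filter (fun e => e.card = r),
        y e * ∑ K ∈ (Finset.univ : Finset (Finset V)).filter (fun K => e ⊆ K), W K ≤
      ∑ e ∈ E.filter (fun e => e.card = r), y e) :
    ∃ W : Finset V → ℝ, (∀ K, 0 ≤ W K) ∧ (∀ K, W K ≤ max B 0) ∧
      (∀ K, W K ≠ 0 → Clique E q r K) ∧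
      ∀ e ∈ E, ∑ K ∈ (Finset.univ : Finset (Finset V)).filter (fun K => e ⊆ K), W K = 1 := by
  classical
  set b : Finset V → ℝ := fun K => if Clique E q r K then B else 0 with hb
  let Al : (Finset V → ℝ) →ₗ[ℝ] (Finset V → ℝ) :=
    { toFun := fun W e => if e ∈ E then
        ∑ K ∈ (Finset.univ : Finset (Finset V)).filter (fun K => e ⊆ K), W K else 0
      map_add' := by
        intro W W'
        ext e
        simp only [Pi.add_apply]
        split_ifs
        · rw [Finset.sum_add_distrib]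
        · ring
      map_smul' := by
        intro c W
        ext e
        simp only [Pi.smul_apply, smul_eq_mul, RingHom.id_apply]
        split_ifs
        · rw [Finset.mul_sum]
        · ring }
  have hAl : ∀ W e, Al W e = if e ∈ E then
        ∑ K ∈ (Finset.univ : Finset (Finset V)).filter (fun K => e ⊆ K), W K else 0 := by
    intro W e; rfl
  have hcont : Continuous Al := LinearMap.continuous_of_finiteDimensional Al
  have hcomp : IsCompact (Al '' Set.Icc (0 : Finset V → ℝ) b) := isCompact_Icc.image hcont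
  have hconv : Convex ℝ (Al '' Set.Icc (0 : Finset V → ℝ) b) :=
    (convex_Icc (𝕜 := ℝ) (0 : Finset V → ℝ) b).linear_image Al
  set o : Finset V → ℝ := fun e => if e ∈ E then 1 else 0 with ho
  by_cases hmem : o ∈ Al '' Set.Icc (0 : Finset V → ℝ) b
  · obtain ⟨W, ⟨hW0, hW1⟩, hW⟩ := hmem
    refine ⟨W, fun K => hW0 K, ?_, ?_, ?_⟩
    · intro K
      have h1 := hW1 K
      simp only [hb] at h1
      split_ifs at h1
      · exact h1.trans (le_max_left _ _)
      · exact h1.trans (le_max_right _ _)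
    · intro K hK
      by_contra hcl
      apply hK
      have h1 := hW1 K
      have h2 := hW0 K
      simp only [hb, if_neg hcl] at h1
      exact le_antisymm h1 h2
    · intro e he
      have h1 : Al W e = o e := by rw [hW]
      rw [hAl, if_pos he, ho] at h1
      simpa [he] using h1
  · exfalso
    obtain ⟨f, u, hf1, hf2⟩ := geometric_hahn_banach_point_closed hconv hcomp.isClosed hmem
    set y : Finset V → ℝ := fun e => f (Pi.single e 1) with hy
    have hfx : ∀ x : Finset V → ℝ, f x = ∑ e, x e * y e := by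
      intro x
      have h1 : x = ∑ e, x e • (Pi.single e (1 : ℝ) : Finset V → ℝ) := by
        ext i
        rw [Finset.sum_apply]
        simp [Pi.single_apply]
      conv_lhs => rw [h1]
      rw [map_sum]
      refine Finset.sum_congr rfl fun e _ => ?_
      rw [map_smul, smul_eq_mul]
    obtain ⟨W, hW0, hW2, hWc, hWs⟩ := hdual y
    have hEf : E.filter (fun e => e.card = r) = E := Finset.filter_true_of_mem hE
    rw [hEf] at hWs
    have hWS : W ∈ Set.Icc (0 : Finset V → ℝ) b := by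
      refine ⟨fun K => hW0 K, fun K => ?_⟩
      simp only [hb]
      split_ifs with h
      · exact hW2 K
      · exact (hWc K h).le
    have h1 := hf2 (Al W) ⟨W, hWS, rfl⟩
    rw [hfx] at hf1 h1
    have h2 : ∑ e, o e * y e = ∑ e ∈ E, y e := by
      rw [ho]
      simp only [ite_mul, one_mul, zero_mul]
      rw [Finset.sum_ite_mem, Finset.univ_inter]
    have h3 : ∑ e, Al W e * y e = ∑ e ∈ E, y e *
        ∑ K ∈ (Finset.univ : Finset (Finset V)).filter (fun K => e ⊆ K), W K := by
      simp only [hAl, ite_mul, zero_mul]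
      rw [Finset.sum_ite_mem, Finset.univ_inter]
      refine Finset.sum_congr rfl fun e _ => ?_
      ring
    rw [h2] at hf1
    rw [h3] at h1
    linarith

/-- The fractional decomposition theorem, for a fixed `L` as in `exists_L`. -/
theorem frac_main_bdd (k L q : ℕ) (hL12 : 12 ≤ L) (hq : k + 2 < q)
    (hL : 2 ^ q * (7 / 8 : ℝ) ^ (L * q - (k + 2)) * (32 * (3 * ((L * q : ℕ) : ℝ)) ^ (k + 1)) ≤ 1)
    (E : Finset (Finset V)) (hE : ∀ e ∈ E, e.card = k + 2)
    (hcod : ∀ S : Finset V, S.card = k + 1 →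
      (1 - (1 / (16 * (3 * (L : ℝ)) ^ (k + 1))) / (q : ℝ) ^ (k + 1)) * (Fintype.card V : ℝ) ≤
        ((E.filter (fun e => S ⊆ e)).card : ℝ)) :
    ∃ W : Finset V → ℝ, (∀ K, 0 ≤ W K) ∧
      (∀ K, W K ≤ 2 * ((L * q : ℕ) : ℝ) ^ q / (Fintype.card V : ℝ) ^ (q - (k + 2))) ∧
      (∀ K, W K ≠ 0 → Clique E q (k + 2) K) ∧
      ∀ e ∈ E, ∑ K ∈ (Finset.univ : Finset (Finset V)).filter (fun K => e ⊆ K), W K = 1 := by
  classical
  set n := Fintype.card V with hn
  by_cases hnk : n < k + 2
  · have hE0 : E = ∅ := by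
      rw [Finset.eq_empty_iff_forall_notMem]
      intro e he
      have h1 := hE e he
      have h2 := Finset.card_le_univ e
      omega
    refine ⟨fun _ => 0, fun _ => le_rfl, fun _ => by positivity, fun K hK => absurd rfl hK,
      fun e he => ?_⟩
    rw [hE0] at he; simp at he
  push Not at hnk
  set M := L * q with hM
  have hLpos : (0 : ℝ) < L := by exact_mod_cast (by omega : 0 < L)
  have hqpos : (0 : ℝ) < q := by exact_mod_cast (by omega : 0 < q)
  have hMk : k + 2 ≤ M := by
    have : 1 * q ≤ L * q := Nat.mul_le_mul_right q (by omega)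
    omega
  have hM1 : (1 : ℝ) ≤ M := by exact_mod_cast (by omega : 1 ≤ M)
  set ε : ℝ := 1 / (16 * (3 * (M : ℝ)) ^ (k + 1)) with hε
  have hδ : (1 / (16 * (3 * (L : ℝ)) ^ (k + 1))) / (q : ℝ) ^ (k + 1) = ε := by
    rw [hε, hM]
    push_cast
    rw [div_div]
    congr 1
    rw [← mul_assoc 3 (L : ℝ) q, mul_pow (3 * (L : ℝ)) (q : ℝ)]
    ring
  rw [hδ] at hcod
  have h3M : (1 : ℝ) ≤ (3 * (M : ℝ)) ^ (k + 1) := one_le_pow₀ (by linarith)
  have h3M' : 3 * (M : ℝ) ≤ (3 * (M : ℝ)) ^ (k + 1) := le_self_pow₀ (by linarith) (by omega)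
  have hε0 : 0 < ε := by positivity
  have hεM : ε * (3 * (M : ℝ)) ^ (k + 1) = 1 / 16 := by
    rw [hε]; field_simp
  have hε1 : ε ≤ 1 / 16 := by nlinarith
  have hnpos : (0 : ℝ) < n := by exact_mod_cast (by omega : 0 < n)
  -- `n` is large
  have hnM : 20 * (M : ℝ) ≤ n := by
    obtain ⟨S, hS1, hS2⟩ := Finset.exists_subset_card_eq (s := (Finset.univ : Finset V))
      (n := k + 1) (by rw [Finset.card_univ]; omega)
    have h1 := hcod S hS2
    have h2 : (E.filter (fun e => S ⊆ e)).card ≤ (Finset.univ \ S).card := by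
      calc (E.filter (fun e => S ⊆ e)).card ≤
          ((Finset.univ \ S).image (fun x => insert x S)).card := by
            refine Finset.card_le_card ?_
            intro e he
            simp only [mem_filter] at he
            obtain ⟨a, ha, hae⟩ := (Finset.exists_eq_insert_iff (s := S) (t := e)).mpr
              ⟨he.2, by rw [hS2, hE e he.1]⟩
            exact Finset.mem_image.mpr ⟨a, by simpa using ha, hae⟩
        _ ≤ _ := Finset.card_image_le
    have h3 : ((Finset.univ \ S).card : ℝ) = (n : ℝ) - (k + 1) := by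
      rw [Finset.card_sdiff_of_subset (Finset.subset_univ _), Finset.card_univ, hS2, ← hn,
        Nat.cast_sub (by omega)]
      push_cast; ring
    have h4 : ((E.filter (fun e => S ⊆ e)).card : ℝ) ≤ (n : ℝ) - (k + 1) := by
      rw [← h3]; exact_mod_cast h2
    have h5 : (1 : ℝ) ≤ ε * n := by
      have : (0 : ℝ) ≤ k := by positivity
      nlinarith
    have h6 : (16 * (3 * (M : ℝ)) ^ (k + 1)) ≤ n := by
      rw [hε, div_mul_eq_mul_div, one_mul, le_div_iff₀ (by positivity)] at h5
      linarith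
    linarith
  set z : ℝ := 1 / (2 * n) with hz
  have hz0 : 0 < z := by positivity
  have hzn : z * n = 1 / 2 := by rw [hz]; field_simp
  have hκ : 4 * (M : ℝ) * z ≤ 1 / 10 := by
    have : 4 * (M : ℝ) * z * n = 2 * M := by
      calc 4 * (M : ℝ) * z * n = 4 * M * (z * n) := by ring
        _ = 2 * M := by rw [hzn]; ring
    nlinarith
  have hκn : 4 * (M : ℝ) * z * n = 2 * M := by
    calc 4 * (M : ℝ) * z * n = 4 * M * (z * n) := by ring
      _ = 2 * M := by rw [hzn]; ring
  have hκ0 : 0 ≤ 4 * (M : ℝ) * z := by positivity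
  have hBle : max (2 * (M : ℝ) ^ q * z ^ (q - (k + 2))) 0 ≤
      2 * (M : ℝ) ^ q / (n : ℝ) ^ (q - (k + 2)) := by
    refine max_le ?_ (by positivity)
    rw [div_eq_mul_inv, ← inv_pow]
    refine mul_le_mul_of_nonneg_left ?_ (by positivity)
    refine pow_le_pow_left₀ hz0.le ?_ _
    rw [hz, one_div]
    exact inv_anti₀ hnpos (by linarith)
  suffices hsuff : ∃ W : Finset V → ℝ, (∀ K, 0 ≤ W K) ∧
      (∀ K, W K ≤ max (2 * (M : ℝ) ^ q * z ^ (q - (k + 2))) 0) ∧
      (∀ K, W K ≠ 0 → Clique E q (k + 2) K) ∧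
      ∀ e ∈ E, ∑ K ∈ (Finset.univ : Finset (Finset V)).filter (fun K => e ⊆ K), W K = 1 by
    obtain ⟨W, hW0, hW1, hW2⟩ := hsuff
    exact ⟨W, hW0, fun K => (hW1 K).trans hBle, hW2⟩
  refine frac_of_dual_bdd E q (k + 2) _ hE fun y => ?_
  have hH : Hyp (wt E (k + 2) ε y) z M (1 / 8) := by
    refine ⟨wt_nonneg E _ (by linarith) y, wt_le_one E _ hε0.le y, hz0.le, ?_, ?_, ?_, le_rfl, ?_⟩
    · rw [← hn, hzn]
    · calc (1 + 4 * (M : ℝ) * z) * Real.exp (1 / 8) ≤ (1 + 1 / 10) * (6 / 5) := by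
            gcongr
            exact exp_eighth
        _ ≤ 4 / 3 := by norm_num
    · linarith
    · intro Γ v hv hΓ
      have h1 := hyp_sum E k hε0.le (by linarith : ε ≤ 1) hε0.le y hE hcod hκ0 Γ v hv
      refine h1.trans ?_
      rw [← hn]
      have hΓ' : (Γ.card : ℝ) ≤ M := by exact_mod_cast hΓ
      have h2 : ((Γ.card : ℝ) + 4 * M * z * n) ^ k ≤ (3 * (M : ℝ)) ^ k := by
        refine pow_le_pow_left₀ (by positivity) ?_ _
        rw [hκn]; linarith
      calc 4 * (M : ℝ) * z * ((ε + ε) * n) * ((Γ.card : ℝ) + 4 * M * z * n) ^ k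
          ≤ 4 * (M : ℝ) * z * ((ε + ε) * n) * (3 * (M : ℝ)) ^ k :=
            mul_le_mul_of_nonneg_left h2 (by positivity)
        _ = (4 * (M : ℝ) * z * n) * (2 * ε * (3 * (M : ℝ)) ^ k) := by ring
        _ = 2 * M * (2 * ε * (3 * (M : ℝ)) ^ k) := by rw [hκn]
        _ = 4 / 3 * (ε * (3 * (M : ℝ)) ^ (k + 1)) := by rw [pow_succ]; ring
        _ ≤ 1 / 8 := by rw [hεM]; norm_num
  refine frac_exists_W E q (k + 2) M (by omega) (by omega) hMk hz0 hε0.le (by linarith) y hH ?_ ?_
  · intro Γ hΓ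
    have h1 := hyp_avg E k hε0.le (by linarith : ε ≤ 1) hε0.le y hE hcod Finset.univ Γ
    rw [← hn] at h1
    have hΓ' : (Γ.card : ℝ) ≤ M := by exact_mod_cast hΓ
    have h2 : (Γ.card : ℝ) ^ (k + 1) * ((ε + ε) * n) ≤ 1 / 8 * n := by
      have h3 : (Γ.card : ℝ) ^ (k + 1) ≤ (3 * (M : ℝ)) ^ (k + 1) :=
        pow_le_pow_left₀ (by positivity) (by linarith) _
      calc (Γ.card : ℝ) ^ (k + 1) * ((ε + ε) * n)
          ≤ (3 * (M : ℝ)) ^ (k + 1) * ((ε + ε) * n) :=
            mul_le_mul_of_nonneg_right h3 (by positivity)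
        _ = 2 * (ε * (3 * (M : ℝ)) ^ (k + 1)) * n := by ring
        _ = 1 / 8 * n := by rw [hεM]; ring
    have h4 : 33 / 40 * (n : ℝ) ≤
        ∑ v ∈ Finset.univ \ Γ, phi (wt E (k + 2) ε y) Finset.univ Γ {v} := by
      refine le_trans ?_ h1
      linarith
    have h5 : z / 2 * ((1 - 1 / 8) * (33 / 40 * (n : ℝ))) = 231 / 1280 := by
      calc z / 2 * ((1 - 1 / 8) * (33 / 40 * (n : ℝ))) = (z * n) * (231 / 640) := by ring
        _ = 231 / 1280 := by rw [hzn]; norm_num
    calc (1 : ℝ) / 8 ≤ 231 / 1280 := by norm_num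
      _ = z / 2 * ((1 - 1 / 8) * (33 / 40 * (n : ℝ))) := h5.symm
      _ ≤ _ := by gcongr
  · have h1 : 2 ^ q * (7 / 8 : ℝ) ^ (M - (k + 2)) * (32 * (3 * (M : ℝ)) ^ (k + 1)) ≤ 1 := hL
    have h2 : ε / 2 = 1 / (32 * (3 * (M : ℝ)) ^ (k + 1)) := by
      rw [hε]; field_simp; norm_num
    rw [h2, le_div_iff₀ (by positivity)]
    exact h1


end FracAux

theorem frac (r : ℕ) (hr : 2 ≤ r) : ∃ c : ℝ, 0 < c ∧ ∀ q : ℕ, r < q → ∃ C : ℝ, 1 ≤ C ∧
    ∀ (V : Type) [Fintype V] [DecidableEq V] (E : Finset (Finset V)), Dense q r c E →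
    ∃ w : Finset V → ℝ, NibW q r E w 0 C := by
  obtain ⟨k, rfl⟩ : ∃ k, r = k + 2 := ⟨r - 2, by omega⟩
  obtain ⟨L, hL12, hL⟩ := Pool.Agent.Lib_helper81.FD.exists_L k
  have hLpos : (0 : ℝ) < L := by exact_mod_cast (by omega : 0 < L)
  refine ⟨1 / (16 * (3 * (L : ℝ)) ^ (k + 1)), by positivity, fun q hq => ?_⟩
  have hLq : 1 ≤ L * q := Nat.mul_pos (by omega) (by omega)
  refine ⟨2 * ((L * q : ℕ) : ℝ) ^ q, ?_, ?_⟩
  · have h1 : (1 : ℝ) ≤ ((L * q : ℕ) : ℝ) ^ q := one_le_pow₀ (by exact_mod_cast hLq)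
    linarith
  · intro V _ _ E hE
    have hL' : 2 ^ q * (7 / 8 : ℝ) ^ (L * q - (k + 2)) * (32 * (3 * ((L * q : ℕ) : ℝ)) ^ (k + 1))
        ≤ 1 := by
      rcases hL q (by omega) with h | h
      · exact h
      · exfalso
        have : 1 * q ≤ L * q := Nat.mul_le_mul_right q (by omega)
        omega
    have hk : k + 2 - 1 = k + 1 := by omega
    obtain ⟨W, hW0, hW1, hW2, hW3⟩ := frac_main_bdd k L q hL12 hq hL' E hE.1 (by
      intro S hS
      have := hE.2 S (by rw [hS, hk])
      rw [hk] at this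
      exact this)
    refine ⟨W, hE.1, hW0, ?_, ?_, hW1⟩
    · intro K hK
      have h1 := hW2 K hK
      refine ⟨h1.1, fun e he => ?_⟩
      rw [Finset.mem_powersetCard] at he
      exact h1.2 e he.1 he.2
    · intro e he
      rw [hW3 e he, sub_self, abs_zero]

end Pool.Agent.Des
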