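import Pool.Agent.Lib_helper96.Des.Nib4

/-!
# Block NIB5: the nibble

Iterate `nib_step` `T = ⌈4 κ' n^(1/8) log n⌉` times with `κ' = 1 / (200 b)`, `b = q.choose r`.
`B_i = C₀ exp (ε (b-1) i) ≤ 2 C₀ n^(4 κ' b) ≤ n^(1/10)`, `δ_{i+1} ≤ δ_i (1 + 3 ε b) + C n^(-1/4)`,
`δ_0 = 0`, so `δ_i ≤ T exp (3 ε b T) C n^(-1/4) ≤ 1/2`.  Codegrees of the uncovered part after `T`
steps: `≤ n (1 - ε/4)^T + (4/ε) n^(2/3) ≤ n^(1-κ') + 4 n^(19/24)`; total waste
`≤ T C n^(3/4) ≤ C n^(7/8) log n`.  Final exponent `κ = κ'/2`.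
(If `q.choose r = ...` is large all constants are still fine since `n₀` may depend on `q, r, C₀`.)
-/

set_option autoImplicit false

namespace Pool.Agent.Des

open Finset

/-- one more step -/
theorem nib5_iter (q r : ℕ) (hr : 1 ≤ r) (hq : r < q) (C : ℝ) (n₀ : ℕ) (hC : 1 ≤ C)
    (hstep : ∀ (V : Type) [Fintype V] [DecidableEq V], n₀ ≤ Fintype.card V →
      ∀ (E : Finset (Finset V)) (w : Finset V → ℝ) (δ B ε : ℝ),
      ε = (Fintype.card V : ℝ) ^ (-(1 : ℝ) / 8) → NibW q r E w δ B → 0 ≤ δ → δ ≤ 1 / 2 → 1 ≤ B →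
      B ≤ (Fintype.card V : ℝ) ^ ((1 : ℝ) / 10) →
      ∃ (D E' : Finset (Finset V)), (∀ K ∈ D, K.card = q ∧ K.powersetCard r ⊆ E \ E') ∧
        (∀ K ∈ D, ∀ K' ∈ D, K ≠ K' → Disjoint (K.powersetCard r) (K'.powersetCard r)) ∧
        E' ⊆ E ∧
        NibW q r E' (fun K => if K.powersetCard r ⊆ E' then
            Real.exp (ε * ((q.choose r : ℝ) - 1)) * w K else 0)
          (δ * (1 + 3 * ε * (q.choose r : ℝ)) + C * (Fintype.card V : ℝ) ^ (-(1 : ℝ) / 4))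
          (Real.exp (ε * ((q.choose r : ℝ) - 1)) * B) ∧
        (∀ S : Finset V, S.card = r - 1 → (dg E' S : ℝ) ≤
          (1 - ε / 4) * (dg E S : ℝ) + (Fintype.card V : ℝ) ^ ((2 : ℝ) / 3)) ∧
        (∀ S : Finset V, S.card = r - 1 →
          (dg ((E \ E') \ D.biUnion (fun K => K.powersetCard r)) S : ℝ) ≤
            C * (Fintype.card V : ℝ) ^ ((3 : ℝ) / 4)))
    (V : Type) [Fintype V] [DecidableEq V] (hV : n₀ ≤ Fintype.card V) (ε α β γ : ℝ)
    (hε : ε = (Fintype.card V : ℝ) ^ (-(1 : ℝ) / 8)) (hε0 : 0 ≤ ε) (hε4 : ε ≤ 4)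
    (hα : α = 1 + 3 * ε * (q.choose r : ℝ))
    (hβ : β = C * (Fintype.card V : ℝ) ^ (-(1 : ℝ) / 4))
    (hγ : γ = Real.exp (ε * ((q.choose r : ℝ) - 1))) (T : ℕ) :
    ∀ (E : Finset (Finset V)) (w : Finset V → ℝ) (δ B : ℝ), NibW q r E w δ B → 0 ≤ δ → 1 ≤ B →
    (δ + T * β) * α ^ T ≤ 1 / 2 → B * γ ^ T ≤ (Fintype.card V : ℝ) ^ ((1 : ℝ) / 10) →
    ∃ (D E' : Finset (Finset V)), (∀ K ∈ D, K.card = q ∧ K.powersetCard r ⊆ E \ E') ∧
      (∀ K ∈ D, ∀ K' ∈ D, K ≠ K' → Disjoint (K.powersetCard r) (K'.powersetCard r)) ∧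
      E' ⊆ E ∧
      (∀ S : Finset V, S.card = r - 1 → (dg E' S : ℝ) ≤
        (1 - ε / 4) ^ T * (dg E S : ℝ) + T * (Fintype.card V : ℝ) ^ ((2 : ℝ) / 3)) ∧
      (∀ S : Finset V, S.card = r - 1 →
        (dg ((E \ E') \ D.biUnion (fun K => K.powersetCard r)) S : ℝ) ≤
          T * (C * (Fintype.card V : ℝ) ^ ((3 : ℝ) / 4))) := by
  have hb1 : (1 : ℝ) ≤ (q.choose r : ℝ) := by
    exact_mod_cast Nat.succ_le_of_lt (Nat.choose_pos hq.le)
  have hn0 : (0 : ℝ) ≤ (Fintype.card V : ℝ) := Nat.cast_nonneg _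
  have hα1 : 1 ≤ α := by
    rw [hα]
    have : 0 ≤ 3 * ε * (q.choose r : ℝ) := by positivity
    linarith
  have hβ0 : 0 ≤ β := by
    rw [hβ]; positivity
  have hγ1 : 1 ≤ γ := by
    rw [hγ]
    exact Real.one_le_exp (mul_nonneg hε0 (by linarith))
  induction T with
  | zero =>
    intro E w δ B _ _ _ _ _
    refine ⟨∅, E, by simp, by simp, Finset.Subset.refl _, ?_, ?_⟩
    · intro S _; simp
    · intro S _; simp [dg]
  | succ T ih =>
    intro E w δ B hw hδ hB hδT hBT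
    have hα0 : 0 ≤ α := by linarith
    have hγ0 : 0 ≤ γ := by linarith
    have hαT : 1 ≤ α ^ (T + 1) := one_le_pow₀ hα1
    have hγT : 1 ≤ γ ^ (T + 1) := one_le_pow₀ hγ1
    have hδ2 : δ ≤ 1 / 2 := by
      have h1 : δ * 1 ≤ (δ + ((T + 1 : ℕ) : ℝ) * β) * α ^ (T + 1) := by
        have h0 : 0 ≤ ((T + 1 : ℕ) : ℝ) * β := by positivity
        exact mul_le_mul (by linarith) hαT (by norm_num) (by linarith)
      linarith
    have hB2 : B ≤ (Fintype.card V : ℝ) ^ ((1 : ℝ) / 10) := by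
      have h1 : B * 1 ≤ B * γ ^ (T + 1) := mul_le_mul_of_nonneg_left hγT (by linarith)
      linarith
    obtain ⟨D₁, E₁, a1, a2, a3, a4, a5, a6⟩ := hstep V hV E w δ B ε hε hw hδ hδ2 hB hB2
    rw [← hα, ← hβ, ← hγ] at a4
    have hδ' : 0 ≤ δ * α + β := by positivity
    have hB' : 1 ≤ γ * B := by nlinarith
    have hδT' : (δ * α + β + T * β) * α ^ T ≤ 1 / 2 := by
      refine le_trans ?_ hδT
      rw [pow_succ, ← mul_assoc]
      push_cast
      have h1 : (δ * α + β + T * β) ≤ (δ + (T + 1) * β) * α := by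
        have : (T + 1) * β * 1 ≤ (T + 1) * β * α :=
          mul_le_mul_of_nonneg_left hα1 (by positivity)
        nlinarith
      calc (δ * α + β + T * β) * α ^ T ≤ (δ + (T + 1) * β) * α * α ^ T :=
            mul_le_mul_of_nonneg_right h1 (by positivity)
        _ = (δ + (T + 1) * β) * α ^ T * α := by ring
    have hBT' : γ * B * γ ^ T ≤ (Fintype.card V : ℝ) ^ ((1 : ℝ) / 10) := by
      refine le_trans (le_of_eq ?_) hBT
      rw [pow_succ]; ring
    obtain ⟨D₂, E₂, b1, b2, b3, b5, b6⟩ := ih E₁ _ _ _ a4 hδ' hB' hδT' hBT'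
    refine ⟨D₁ ∪ D₂, E₂, ?_, ?_, b3.trans a3, ?_, ?_⟩
    · intro K hK
      rcases Finset.mem_union.mp hK with h | h
      · exact ⟨(a1 K h).1, (a1 K h).2.trans (Finset.sdiff_subset_sdiff (Finset.Subset.refl _) b3)⟩
      · exact ⟨(b1 K h).1, (b1 K h).2.trans (Finset.sdiff_subset_sdiff a3 (Finset.Subset.refl _))⟩
    · have key : ∀ K ∈ D₁, ∀ K' ∈ D₂, Disjoint (K.powersetCard r) (K'.powersetCard r) := by
        intro K h K' h'
        refine Finset.disjoint_of_subset_left (a1 K h).2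
          (Finset.disjoint_of_subset_right ((b1 K' h').2.trans Finset.sdiff_subset) ?_)
        exact Finset.sdiff_disjoint
      intro K hK K' hK' hne
      rcases Finset.mem_union.mp hK with h | h <;> rcases Finset.mem_union.mp hK' with h' | h'
      · exact a2 K h K' h' hne
      · exact key K h K' h'
      · exact (key K' h' K h).symm
      · exact b2 K h K' h' hne
    · intro S hS
      have h1 := a5 S hS
      have h2 := b5 S hS
      have h4 : 0 ≤ 1 - ε / 4 := by linarith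
      have h5 : (1 - ε / 4) ^ T ≤ 1 := pow_le_one₀ h4 (by linarith)
      have h6 : (1 - ε / 4) ^ T * (dg E₁ S : ℝ) ≤ (1 - ε / 4) ^ T *
        ((1 - ε / 4) * (dg E S : ℝ) + (Fintype.card V : ℝ) ^ ((2 : ℝ) / 3)) :=
        mul_le_mul_of_nonneg_left h1 (by positivity)
      have h7 : (1 - ε / 4) ^ T * (Fintype.card V : ℝ) ^ ((2 : ℝ) / 3) ≤
        1 * (Fintype.card V : ℝ) ^ ((2 : ℝ) / 3) :=
        mul_le_mul_of_nonneg_right h5 (by positivity)
      push_cast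
      have h8 : (1 - ε / 4) ^ (T + 1) * (dg E S : ℝ) =
        (1 - ε / 4) ^ T * ((1 - ε / 4) * (dg E S : ℝ)) := by rw [pow_succ]; ring
      rw [h8]
      linarith
    · intro S hS
      have h1 := a6 S hS
      have h2 := b6 S hS
      have hsub : (E \ E₂) \ (D₁ ∪ D₂).biUnion (fun K => K.powersetCard r) ⊆
          ((E \ E₁) \ D₁.biUnion (fun K => K.powersetCard r)) ∪
          ((E₁ \ E₂) \ D₂.biUnion (fun K => K.powersetCard r)) := by
        intro e he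
        rw [Finset.mem_sdiff, Finset.mem_sdiff, Finset.mem_biUnion] at he
        obtain ⟨⟨he1, he2⟩, he3⟩ := he
        rw [Finset.mem_union, Finset.mem_sdiff, Finset.mem_sdiff, Finset.mem_sdiff,
          Finset.mem_sdiff, Finset.mem_biUnion, Finset.mem_biUnion]
        by_cases h : e ∈ E₁
        · right
          exact ⟨⟨h, he2⟩, fun ⟨K, hK, hK'⟩ => he3 ⟨K, Finset.mem_union_right _ hK, hK'⟩⟩
        · left
          exact ⟨⟨he1, h⟩, fun ⟨K, hK, hK'⟩ => he3 ⟨K, Finset.mem_union_left _ hK, hK'⟩⟩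
      have h3 : dg ((E \ E₂) \ (D₁ ∪ D₂).biUnion (fun K => K.powersetCard r)) S ≤
          dg ((E \ E₁) \ D₁.biUnion (fun K => K.powersetCard r)) S +
          dg ((E₁ \ E₂) \ D₂.biUnion (fun K => K.powersetCard r)) S := by
        refine (dg_mono hsub S).trans ?_
        unfold dg
        rw [Finset.filter_union]
        exact Finset.card_union_le _ _
      have h4 : (dg ((E \ E₂) \ (D₁ ∪ D₂).biUnion (fun K => K.powersetCard r)) S : ℝ) ≤
          (dg ((E \ E₁) \ D₁.biUnion (fun K => K.powersetCard r)) S : ℝ) +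
          (dg ((E₁ \ E₂) \ D₂.biUnion (fun K => K.powersetCard r)) S : ℝ) := by
        exact_mod_cast h3
      push_cast
      linarith

/-- codegrees are at most the number of vertices -/
theorem nib5_dg_le {V : Type} [Fintype V] [DecidableEq V] (r : ℕ) (hr : 1 ≤ r)
    (E : Finset (Finset V)) (hE : Unif r E) (S : Finset V) (hS : S.card = r - 1) :
    dg E S ≤ Fintype.card V := by
  unfold dg
  have hsub : E.filter (fun e => S ⊆ e) ⊆ Finset.univ.image (fun v => insert v S) := by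
    intro e he
    rw [Finset.mem_filter] at he
    have hc : (e \ S).card = 1 := by
      rw [Finset.card_sdiff_of_subset he.2, hE e he.1, hS]; omega
    obtain ⟨v, hv⟩ := Finset.card_eq_one.mp hc
    rw [Finset.mem_image]
    refine ⟨v, Finset.mem_univ _, ?_⟩
    rw [Finset.insert_eq, ← hv]
    exact Finset.sdiff_union_of_subset he.2
  exact (Finset.card_le_card hsub).trans (Finset.card_image_le.trans (le_of_eq Finset.card_univ))

/-- number of steps -/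
theorem nib5_T (x k : ℝ) (hx : 1 ≤ x) (hk0 : 0 < k) (hk : k ≤ 1 / 200) (T : ℕ)
    (hT : T = ⌈4 * k * x ^ ((1 : ℝ) / 8) * Real.log x⌉₊) :
    (T : ℝ) ≤ 3 * x ^ (0.135 : ℝ) ∧ 4 * k * Real.log x ≤ x ^ (-(1 : ℝ) / 8) * T ∧
      x ^ (-(1 : ℝ) / 8) * T ≤ 4 * k * Real.log x + 1 := by
  have hx0 : 0 < x := by linarith
  have hl : 0 ≤ Real.log x := Real.log_nonneg hx
  have h0 : 0 ≤ 4 * k * x ^ ((1 : ℝ) / 8) * Real.log x := by positivity
  have h1 : 4 * k * x ^ ((1 : ℝ) / 8) * Real.log x ≤ (T : ℝ) := by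
    rw [hT]; exact Nat.le_ceil _
  have h2 : (T : ℝ) ≤ 4 * k * x ^ ((1 : ℝ) / 8) * Real.log x + 1 := by
    rw [hT]; exact (Nat.ceil_lt_add_one h0).le
  have h3 : Real.log x ≤ x ^ (0.01 : ℝ) / 0.01 := Real.log_le_rpow_div hx0.le (by norm_num)
  have h4 : x ^ (-(1 : ℝ) / 8) * x ^ ((1 : ℝ) / 8) = 1 := by
    rw [← Real.rpow_add hx0]; norm_num
  have h5 : x ^ (-(1 : ℝ) / 8) ≤ 1 := Real.rpow_le_one_of_one_le_of_nonpos hx (by norm_num)
  have h6 : 0 < x ^ (-(1 : ℝ) / 8) := by positivity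
  refine ⟨?_, ?_, ?_⟩
  · have h7 : x ^ ((1 : ℝ) / 8) * x ^ (0.01 : ℝ) = x ^ (0.135 : ℝ) := by
      rw [← Real.rpow_add hx0]; norm_num
    have h8 : (1 : ℝ) ≤ x ^ (0.135 : ℝ) := Real.one_le_rpow hx (by norm_num)
    have h9 : 4 * k * x ^ ((1 : ℝ) / 8) * Real.log x ≤
        4 * (1 / 200) * x ^ ((1 : ℝ) / 8) * (x ^ (0.01 : ℝ) / 0.01) := by
      refine mul_le_mul ?_ h3 hl (by positivity)
      refine mul_le_mul_of_nonneg_right ?_ (by positivity)
      linarith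
    have h10 : 4 * (1 / 200) * x ^ ((1 : ℝ) / 8) * (x ^ (0.01 : ℝ) / 0.01) =
        2 * x ^ (0.135 : ℝ) := by
      rw [← h7]; ring
    linarith
  · have := mul_le_mul_of_nonneg_left h1 h6.le
    calc 4 * k * Real.log x = 4 * k * Real.log x * (x ^ (-(1 : ℝ) / 8) * x ^ ((1 : ℝ) / 8)) := by
          rw [h4]; ring
      _ = x ^ (-(1 : ℝ) / 8) * (4 * k * x ^ ((1 : ℝ) / 8) * Real.log x) := by ring
      _ ≤ _ := this
  · have := mul_le_mul_of_nonneg_left h2 h6.le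
    calc x ^ (-(1 : ℝ) / 8) * (T : ℝ) ≤
          x ^ (-(1 : ℝ) / 8) * (4 * k * x ^ ((1 : ℝ) / 8) * Real.log x + 1) := this
      _ = 4 * k * Real.log x * (x ^ (-(1 : ℝ) / 8) * x ^ ((1 : ℝ) / 8)) +
          x ^ (-(1 : ℝ) / 8) := by ring
      _ ≤ 4 * k * Real.log x + 1 := by rw [h4]; linarith

/-- everything which has to be large -/
theorem nib5_large (C C₀ k : ℝ) (b : ℝ) (hk : 0 < k) : ∃ n₁ : ℕ, ∀ n : ℕ, n₁ ≤ n →
    1 ≤ (n : ℝ) ∧ 6 * C * Real.exp (3 * b) ≤ (n : ℝ) ^ (0.055 : ℝ) ∧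
    C₀ * Real.exp b ≤ (n : ℝ) ^ (0.08 : ℝ) ∧ 2 ≤ (n : ℝ) ^ (k / 2) ∧
    6 * (1 + C) ≤ (n : ℝ) ^ (0.1 : ℝ) := by
  have h : ∀ (c a : ℝ), 0 < a → ∀ᶠ n : ℕ in Filter.atTop, c ≤ (n : ℝ) ^ a := by
    intro c a ha
    have := (tendsto_rpow_atTop ha).comp (tendsto_natCast_atTop_atTop (R := ℝ))
    exact this.eventually_ge_atTop c
  have h1 : ∀ᶠ n : ℕ in Filter.atTop, 1 ≤ (n : ℝ) :=
    (tendsto_natCast_atTop_atTop (R := ℝ)).eventually_ge_atTop 1
  have := (h1.and ((h (6 * C * Real.exp (3 * b)) 0.055 (by norm_num)).and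
    ((h (C₀ * Real.exp b) 0.08 (by norm_num)).and ((h 2 (k / 2) (by positivity)).and
    (h (6 * (1 + C)) 0.1 (by norm_num))))))
  exact Filter.eventually_atTop.mp this

theorem nibble (q r : ℕ) (hr : 1 ≤ r) (hq : r < q) : ∃ κ : ℝ, 0 < κ ∧ κ ≤ 1 / 2 ∧
    ∀ C₀ : ℝ, 1 ≤ C₀ → ∃ n₀ : ℕ,
    ∀ (V : Type) [Fintype V] [DecidableEq V], n₀ ≤ Fintype.card V →
    ∀ (E : Finset (Finset V)) (w : Finset V → ℝ), NibW q r E w 0 C₀ →
    ∃ D : Finset (Finset V), (∀ K ∈ D, K.card = q ∧ K.powersetCard r ⊆ E) ∧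
      (∀ K ∈ D, ∀ K' ∈ D, K ≠ K' → Disjoint (K.powersetCard r) (K'.powersetCard r)) ∧
      ∀ S : Finset V, S.card = r - 1 →
        (dg (E \ D.biUnion (fun K => K.powersetCard r)) S : ℝ) ≤
          (Fintype.card V : ℝ) ^ (1 - κ) := by
  obtain ⟨C, n₀, hC, hstep⟩ := nib_step q r hr hq
  have hb1 : (1 : ℝ) ≤ (q.choose r : ℝ) := by
    exact_mod_cast Nat.succ_le_of_lt (Nat.choose_pos hq.le)
  set b : ℝ := (q.choose r : ℝ) with hb
  have hb0 : 0 < b := by linarith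
  set k : ℝ := 1 / (200 * b) with hk
  have hk0 : 0 < k := by positivity
  have hkb : k * b = 1 / 200 := by rw [hk]; field_simp
  have hk1 : k ≤ 1 / 200 := by
    rw [hk]
    exact one_div_le_one_div_of_le (by norm_num) (by linarith)
  refine ⟨k / 2, by positivity, by linarith, ?_⟩
  intro C₀ hC₀
  obtain ⟨n₁, hn₁⟩ := nib5_large C C₀ k b hk0
  refine ⟨max n₀ n₁, ?_⟩
  intro V _ _ hV E w hw
  have hV0 : n₀ ≤ Fintype.card V := (le_max_left _ _).trans hV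
  have hV1 : n₁ ≤ Fintype.card V := (le_max_right _ _).trans hV
  obtain ⟨l1, l2, l3, l4, l5⟩ := hn₁ _ hV1
  set x : ℝ := (Fintype.card V : ℝ) with hx
  have hx0 : 0 < x := by linarith
  have hlog : 0 ≤ Real.log x := Real.log_nonneg l1
  obtain ⟨T, hT⟩ : ∃ T : ℕ, T = ⌈4 * k * x ^ ((1 : ℝ) / 8) * Real.log x⌉₊ := ⟨_, rfl⟩
  obtain ⟨t1, t2, t3⟩ := nib5_T x k l1 hk0 hk1 T hT
  obtain ⟨ε, hε⟩ : ∃ ε : ℝ, ε = x ^ (-(1 : ℝ) / 8) := ⟨_, rfl⟩
  rw [← hε] at t2 t3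
  have hε0 : 0 < ε := by rw [hε]; positivity
  have hε1 : ε ≤ 1 := by
    rw [hε]; exact Real.rpow_le_one_of_one_le_of_nonpos l1 (by norm_num)
  -- bound for the deviations
  have hαT : (1 + 3 * ε * b) ^ T ≤ Real.exp (3 * b) * x ^ (0.06 : ℝ) := by
    have h1 : (1 + 3 * ε * b) ^ T ≤ Real.exp (3 * ε * b * T) := by
      calc (1 + 3 * ε * b) ^ T ≤ (Real.exp (3 * ε * b)) ^ T := by
            refine pow_le_pow_left₀ (by positivity) ?_ T
            have := Real.add_one_le_exp (3 * ε * b)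
            linarith
        _ = Real.exp (3 * ε * b * T) := by rw [← Real.exp_nat_mul]; ring_nf
    have h2 : 3 * ε * b * T ≤ 3 * b + Real.log x * 0.06 := by
      have h3 : 3 * b * (ε * T) ≤ 3 * b * (4 * k * Real.log x + 1) :=
        mul_le_mul_of_nonneg_left t3 (by positivity)
      have h4 : 3 * b * (4 * k * Real.log x + 1) = 12 * (k * b) * Real.log x + 3 * b := by ring
      rw [h4, hkb] at h3
      linarith
    refine h1.trans ((Real.exp_le_exp.mpr h2).trans (le_of_eq ?_))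
    rw [Real.exp_add, Real.rpow_def_of_pos hx0]
  have hγT : (Real.exp (ε * (b - 1))) ^ T ≤ Real.exp b * x ^ (0.02 : ℝ) := by
    have h1 : (Real.exp (ε * (b - 1))) ^ T = Real.exp ((b - 1) * (ε * T)) := by
      rw [← Real.exp_nat_mul]; ring_nf
    have h2 : (b - 1) * (ε * T) ≤ b + Real.log x * 0.02 := by
      have h3 : (b - 1) * (ε * T) ≤ (b - 1) * (4 * k * Real.log x + 1) :=
        mul_le_mul_of_nonneg_left t3 (by linarith)
      have h4 : (b - 1) * (4 * k * Real.log x + 1) ≤ b * (4 * k * Real.log x + 1) :=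
        mul_le_mul_of_nonneg_right (by linarith) (by positivity)
      have h5 : b * (4 * k * Real.log x + 1) = 4 * (k * b) * Real.log x + b := by ring
      rw [hkb] at h5
      linarith
    rw [h1]
    refine (Real.exp_le_exp.mpr h2).trans (le_of_eq ?_)
    rw [Real.exp_add, Real.rpow_def_of_pos hx0]
  have hδT : (0 + T * (C * x ^ (-(1 : ℝ) / 4))) * (1 + 3 * ε * b) ^ T ≤ 1 / 2 := by
    have h1 : (T : ℝ) * (C * x ^ (-(1 : ℝ) / 4)) ≤
        3 * x ^ (0.135 : ℝ) * (C * x ^ (-(1 : ℝ) / 4)) :=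
      mul_le_mul_of_nonneg_right t1 (by positivity)
    have h2 : (0 + T * (C * x ^ (-(1 : ℝ) / 4))) * (1 + 3 * ε * b) ^ T ≤
        3 * x ^ (0.135 : ℝ) * (C * x ^ (-(1 : ℝ) / 4)) * (Real.exp (3 * b) * x ^ (0.06 : ℝ)) := by
      rw [zero_add]
      exact mul_le_mul h1 hαT (by positivity) (by positivity)
    have h3 : x ^ (0.135 : ℝ) * x ^ (-(1 : ℝ) / 4) * x ^ (0.06 : ℝ) * x ^ (0.055 : ℝ) = 1 := by
      rw [← Real.rpow_add hx0, ← Real.rpow_add hx0, ← Real.rpow_add hx0]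
      norm_num
    have h4 : 0 ≤ x ^ (0.135 : ℝ) * x ^ (-(1 : ℝ) / 4) * x ^ (0.06 : ℝ) := by positivity
    have h5 := mul_le_mul_of_nonneg_left l2 h4
    rw [h3] at h5
    refine h2.trans ?_
    have h6 : 3 * x ^ (0.135 : ℝ) * (C * x ^ (-(1 : ℝ) / 4)) * (Real.exp (3 * b) * x ^ (0.06 : ℝ)) =
        (1 / 2) * (x ^ (0.135 : ℝ) * x ^ (-(1 : ℝ) / 4) * x ^ (0.06 : ℝ) *
          (6 * C * Real.exp (3 * b))) := by ring
    rw [h6]
    linarith
  have hBT : C₀ * (Real.exp (ε * (b - 1))) ^ T ≤ x ^ ((1 : ℝ) / 10) := by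
    have h1 : C₀ * (Real.exp (ε * (b - 1))) ^ T ≤ C₀ * (Real.exp b * x ^ (0.02 : ℝ)) :=
      mul_le_mul_of_nonneg_left hγT (by linarith)
    have h2 : C₀ * (Real.exp b * x ^ (0.02 : ℝ)) ≤ x ^ (0.08 : ℝ) * x ^ (0.02 : ℝ) := by
      rw [← mul_assoc]
      exact mul_le_mul_of_nonneg_right l3 (by positivity)
    have h3 : x ^ (0.08 : ℝ) * x ^ (0.02 : ℝ) = x ^ ((1 : ℝ) / 10) := by
      rw [← Real.rpow_add hx0]; norm_num
    linarith
  obtain ⟨D, E', c1, c2, c3, c4, c5⟩ := nib5_iter q r hr hq C n₀ hC hstep V hV0 ε _ _ _ hε hε0.le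
    (by linarith) rfl rfl rfl T E w 0 C₀ hw le_rfl hC₀ hδT hBT
  refine ⟨D, fun K hK => ⟨(c1 K hK).1, (c1 K hK).2.trans Finset.sdiff_subset⟩, c2, ?_⟩
  intro S hS
  have h1 := c4 S hS
  have h2 := c5 S hS
  have hsub : E \ D.biUnion (fun K => K.powersetCard r) ⊆
      E' ∪ ((E \ E') \ D.biUnion (fun K => K.powersetCard r)) := by
    intro e he
    rw [Finset.mem_sdiff] at he
    rw [Finset.mem_union, Finset.mem_sdiff, Finset.mem_sdiff]
    by_cases h : e ∈ E'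
    · exact Or.inl h
    · exact Or.inr ⟨⟨he.1, h⟩, he.2⟩
  have h3 : dg (E \ D.biUnion (fun K => K.powersetCard r)) S ≤
      dg E' S + dg ((E \ E') \ D.biUnion (fun K => K.powersetCard r)) S := by
    refine (dg_mono hsub S).trans ?_
    unfold dg
    rw [Finset.filter_union]
    exact Finset.card_union_le _ _
  have h4 : (dg (E \ D.biUnion (fun K => K.powersetCard r)) S : ℝ) ≤
      (dg E' S : ℝ) + (dg ((E \ E') \ D.biUnion (fun K => K.powersetCard r)) S : ℝ) := by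
    exact_mod_cast h3
  have h5 : (dg E S : ℝ) ≤ x := by
    rw [hx]; exact_mod_cast nib5_dg_le r hr E hw.unif S hS
  have h6 : (1 - ε / 4) ^ T ≤ x ^ (-k) := by
    have e1 : (1 - ε / 4) ^ T ≤ (Real.exp (-(ε / 4))) ^ T := by
      refine pow_le_pow_left₀ (by linarith) ?_ T
      have := Real.add_one_le_exp (-(ε / 4))
      linarith
    refine e1.trans ?_
    rw [← Real.exp_nat_mul, Real.rpow_def_of_pos hx0]
    refine Real.exp_le_exp.mpr ?_
    nlinarith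
  have h7 : (1 - ε / 4) ^ T * (dg E S : ℝ) ≤ x ^ (-k) * x :=
    mul_le_mul h6 h5 (Nat.cast_nonneg _) (by positivity)
  have h8 : x ^ (-k) * x = x ^ (1 - k) := by
    rw [sub_eq_add_neg, add_comm, Real.rpow_add hx0, Real.rpow_one]
  have h9 : (T : ℝ) * x ^ ((2 : ℝ) / 3) ≤ 3 * x ^ (0.885 : ℝ) := by
    calc (T : ℝ) * x ^ ((2 : ℝ) / 3) ≤ 3 * x ^ (0.135 : ℝ) * x ^ (0.75 : ℝ) := by
          refine mul_le_mul t1 ?_ (by positivity) (by positivity)
          exact Real.rpow_le_rpow_of_exponent_le l1 (by norm_num)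
      _ = 3 * x ^ (0.885 : ℝ) := by
          rw [mul_assoc, ← Real.rpow_add hx0]; norm_num
  have h10 : (T : ℝ) * (C * x ^ ((3 : ℝ) / 4)) ≤ 3 * C * x ^ (0.885 : ℝ) := by
    calc (T : ℝ) * (C * x ^ ((3 : ℝ) / 4)) ≤ 3 * x ^ (0.135 : ℝ) * (C * x ^ ((3 : ℝ) / 4)) :=
          mul_le_mul_of_nonneg_right t1 (by positivity)
      _ = 3 * C * (x ^ (0.135 : ℝ) * x ^ ((3 : ℝ) / 4)) := by ring
      _ = 3 * C * x ^ (0.885 : ℝ) := by rw [← Real.rpow_add hx0]; norm_num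
  have h11 : x ^ (1 - k / 2) = x ^ (1 - k) * x ^ (k / 2) := by
    rw [← Real.rpow_add hx0]; congr 1; ring
  have h12 : x ^ (1 - k) * 2 ≤ x ^ (1 - k / 2) := by
    rw [h11]; exact mul_le_mul_of_nonneg_left l4 (by positivity)
  have h13 : x ^ (0.885 : ℝ) * (6 * (1 + C)) ≤ x ^ (1 - k / 2) := by
    calc x ^ (0.885 : ℝ) * (6 * (1 + C)) ≤ x ^ (0.885 : ℝ) * x ^ (0.1 : ℝ) :=
          mul_le_mul_of_nonneg_left l5 (by positivity)
      _ = x ^ (0.985 : ℝ) := by rw [← Real.rpow_add hx0]; norm_num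
      _ ≤ x ^ (1 - k / 2) := Real.rpow_le_rpow_of_exponent_le l1 (by linarith)
  rw [h8] at h7
  nlinarith [h1, h2, h4, h7, h9, h10, h12, h13]

end Pool.Agent.Des
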