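import Pool.Agent.Lib_helper96.Des.RFspan

/-!
# Block RFLOAD: loads

For disjoint `T', g` with `t + c < r` (`t = |T'|`, `c = |g|`) let `B` = all `(T, Q)` in the ground
set with `T' ⊆ T`, `g ⊆ Q`.  Mean:
`∑_B rfp ≤ ∑_j #{T active, |T| = j : T' ⊆ T, g ⊆ U T} (2 n lam^(s_j))^(q-j-c) π_j`
(no `Q` if `q - j < c`), `π_j = D (n lam^(s_j)/2)^(-(q-r))`,
`≤ C D ∑_j n^(r-t-c) lam^(E_j)` with `E_j = (r-j) s_j - c s_t ≥ 1` for `t ≤ j < r`, and for `j = r`
`E_r = r^r - c s_t ≥ 1` (use `IsRS.deg`, `IsRS.degX`; `s_i = sx r i = r^i` for `i < r`,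
`c ≤ r - 1 - t`; use real or integer exponents since `r - j - c` may be negative).
So the mean is `≤ C lam^(1/2) n^(r-t-c)`; `card_tail` with `x = 1`.
Final bound `n^(r-t-c-κ/4)` for the load, failure probability `≤ exp (- n^(1/4))`.
-/

set_option autoImplicit false

namespace Pool.Agent.Des

open Finset

/-- `s_t ≤ s_j` and the exponent inequality for `j < r` -/
theorem rfl_exp1 (r t c j : ℕ) (htc : t + c < r) (htj : t ≤ j) (hj : j < r) :
    sx r t ≤ sx r j ∧ c * sx r t + 1 ≤ sx r j * (r - j) := by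
  have ht : t < r := by omega
  unfold sx
  rw [if_pos ht, if_pos hj]
  have h1 : r ^ t ≤ r ^ j := Nat.pow_le_pow_right (by omega) htj
  refine ⟨h1, ?_⟩
  have hpos : 0 < r ^ t := Nat.pow_pos (by omega)
  rcases htj.eq_or_lt with rfl | hlt
  · have h2 : c + 1 ≤ r - t := by omega
    calc c * r ^ t + 1 ≤ c * r ^ t + r ^ t := by omega
      _ = r ^ t * (c + 1) := by ring
      _ ≤ r ^ t * (r - t) := Nat.mul_le_mul_left _ h2
  · have h2 : r ^ (t + 1) ≤ r ^ j := Nat.pow_le_pow_right (by omega) hlt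
    have h3 : 1 ≤ r - j := by omega
    calc c * r ^ t + 1 ≤ c * r ^ t + r ^ t := by omega
      _ = r ^ t * (c + 1) := by ring
      _ ≤ r ^ t * r := Nat.mul_le_mul_left _ (by omega)
      _ = r ^ (t + 1) := by ring
      _ ≤ r ^ j := h2
      _ = r ^ j * 1 := by ring
      _ ≤ r ^ j * (r - j) := Nat.mul_le_mul_left _ h3

theorem rfl_sub_pow (r : ℕ) (hr : 1 ≤ r) : r ^ (r - 1) + (r - 1) ^ r ≤ r ^ r := by
  obtain ⟨k, rfl⟩ : ∃ k, r = k + 1 := ⟨r - 1, by omega⟩
  simp only [Nat.add_sub_cancel]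
  calc (k + 1) ^ k + k ^ (k + 1) = (k + 1) ^ k + k ^ k * k := by rw [pow_succ]
    _ ≤ (k + 1) ^ k + (k + 1) ^ k * k :=
        Nat.add_le_add_left (Nat.mul_le_mul_right _ (Nat.pow_le_pow_left (Nat.le_succ k) k)) _
    _ = (k + 1) ^ (k + 1) := by ring

theorem rfl_exp2 (r t c : ℕ) (htc : t + c < r) :
    sx r t ≤ sx r r ∧ c * sx r t + 1 ≤ r ^ r := by
  have ht : t < r := by omega
  have hr : 1 ≤ r := by omega
  unfold sx
  rw [if_pos ht, if_neg (lt_irrefl r)]
  have h1 : r ^ t ≤ r ^ (r - 1) := Nat.pow_le_pow_right hr (by omega)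
  have h2 := rfl_sub_pow r hr
  refine ⟨by omega, ?_⟩
  have hpos : 0 < r ^ t := Nat.pow_pos (by omega)
  calc c * r ^ t + 1 ≤ c * r ^ t + r ^ t := by omega
    _ = r ^ t * (c + 1) := by ring
    _ ≤ r ^ t * r := Nat.mul_le_mul_left _ (by omega)
    _ = r ^ (t + 1) := by ring
    _ ≤ r ^ r := Nat.pow_le_pow_right hr (by omega)

/-- the real estimate for one term; `H = lam^(1/2)`, `D = 1 / H` -/
theorem rfl_term (q r t c j s s' e : ℕ) (n lam H : ℝ) (hq : r < q) (htc : t + c < r)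
    (htj : t ≤ j) (hjq : c ≤ q - j) (hjr : j ≤ r) (hn : 1 ≤ n) (hl0 : 0 < lam) (hl1 : lam ≤ 1)
    (hH0 : 0 < H) (hH : H ^ 2 = lam)
    (_hss : s' ≤ s) (hE : s * (q - r) + 1 ≤ e + (c * (s - s') + s * (q - j - c))) :
    (2 * n) ^ (j - t) * lam ^ (e + c * (s - s')) * ((2 * n * lam ^ s) ^ (q - j - c) *
      (H⁻¹ / (n * lam ^ s / 2) ^ (q - r))) ≤ 4 ^ q * n ^ (r - t - c) * H := by
  have hn0 : 0 < n := by linarith
  have hb : 0 < n * lam ^ s / 2 := by positivity
  rw [← mul_div_assoc, ← mul_div_assoc, div_le_iff₀ (by positivity)]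
  have e1 : (j - t) + (q - j - c) = (r - t - c) + (q - r) := by omega
  have h1 : (2 * n) ^ (j - t) * lam ^ (e + c * (s - s')) *
      ((2 * n * lam ^ s) ^ (q - j - c) * H⁻¹) =
      2 ^ ((r - t - c) + (q - r)) * n ^ ((r - t - c) + (q - r)) *
        (lam ^ (e + (c * (s - s') + s * (q - j - c))) * H⁻¹) := by
    rw [← e1]
    rw [mul_pow, mul_pow (2 * n) (lam ^ s), mul_pow 2 n, ← pow_mul, pow_add, pow_add, pow_add,
      pow_add, pow_add]
    ring
  have h2 : 4 ^ q * n ^ (r - t - c) * H * (n * lam ^ s / 2) ^ (q - r) =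
      (4 ^ q / 2 ^ (q - r)) * n ^ ((r - t - c) + (q - r)) * (H * lam ^ (s * (q - r))) := by
    rw [div_pow, mul_pow, ← pow_mul, pow_add]
    ring
  rw [h1, h2]
  have h3 : (2 : ℝ) ^ ((r - t - c) + (q - r)) ≤ 4 ^ q / 2 ^ (q - r) := by
    rw [le_div_iff₀ (by positivity), ← pow_add]
    have : (4 : ℝ) ^ q = 2 ^ (2 * q) := by rw [pow_mul]; norm_num
    rw [this]
    exact pow_le_pow_right₀ (by norm_num) (by omega)
  have h4 : lam ^ (e + (c * (s - s') + s * (q - j - c))) * H⁻¹ ≤ H * lam ^ (s * (q - r)) := by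
    rw [← div_eq_mul_inv, div_le_iff₀ hH0]
    have : H * lam ^ (s * (q - r)) * H = lam ^ (s * (q - r) + 1) := by
      rw [pow_succ]
      calc H * lam ^ (s * (q - r)) * H = lam ^ (s * (q - r)) * H ^ 2 := by ring
        _ = _ := by rw [hH]
    rw [this]
    exact pow_le_pow_of_le_one hl0.le hl1 hE
  have h5 : (0 : ℝ) ≤ n ^ ((r - t - c) + (q - r)) := by positivity
  have h6 : (0 : ℝ) ≤ lam ^ (e + (c * (s - s') + s * (q - j - c))) * H⁻¹ := by positivity
  exact mul_le_mul (mul_le_mul_of_nonneg_right h3 h5) h4 h6 (by positivity)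

/-- the mean of the load -/
theorem rfl_mean (q r : ℕ) (hq : r < q) {V : Type} [Fintype V] [DecidableEq V]
    (X : Finset (Finset V)) (U : Finset V → Finset V) (hX : Unif r X) (lam H : ℝ)
    (hRS : IsRS q r lam X U) (hn : 1 ≤ Fintype.card V) (hl0 : 0 < lam) (hl1 : lam ≤ 1)
    (hH0 : 0 < H) (hH : H ^ 2 = lam) (T' g : Finset V) (htc : T'.card + g.card < r) :
    ∑ z ∈ (rfS q r X U).filter (fun z => T' ⊆ z.1 ∧ g ⊆ z.2),
      rfp q r (Fintype.card V) lam H⁻¹ z ≤
      (r + 1) * (4 ^ q * (Fintype.card V : ℝ) ^ (r - T'.card - g.card) * H) := by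
  classical
  obtain ⟨n, hndef⟩ : ∃ n : ℝ, n = (Fintype.card V : ℝ) := ⟨_, rfl⟩
  have hn1 : 1 ≤ n := by rw [hndef]; exact_mod_cast hn
  have hn0 : 0 < n := by linarith
  have mact : ∀ T, T ∈ actv r X ↔ T.card < r ∨ T ∈ X := fun T => by unfold actv; simp
  -- the weight of a level
  obtain ⟨w, hw⟩ : ∃ w : ℕ → ℝ, ∀ j, w j = if g.card ≤ q - j then
      (2 * n * lam ^ sx r j) ^ (q - j - g.card) *
        (H⁻¹ / (n * lam ^ sx r j / 2) ^ (q - r)) else 0 := ⟨_, fun _ => rfl⟩
  have hw0 : ∀ j, 0 ≤ w j := by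
    intro j; rw [hw]; split_ifs <;> positivity
  have h1 : ∑ z ∈ (rfS q r X U).filter (fun z => T' ⊆ z.1 ∧ g ⊆ z.2),
      rfp q r (Fintype.card V) lam H⁻¹ z ≤
      ∑ T ∈ (actv r X).filter (fun T => T' ⊆ T ∧ g ⊆ U T), w T.card := by
    have h2 : (rfS q r X U).filter (fun z => T' ⊆ z.1 ∧ g ⊆ z.2) ⊆
        ((actv r X).filter (fun T => T' ⊆ T ∧ g ⊆ U T)).biUnion (fun T =>
          (((U T).powersetCard (q - T.card)).filter (fun Q => g ⊆ Q)).image fun Q => (T, Q)) := by
      intro z hz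
      rw [Finset.mem_filter, rfS, Finset.mem_biUnion] at hz
      obtain ⟨⟨T, hT, hz1⟩, hz2, hz3⟩ := hz
      rw [Finset.mem_image] at hz1
      obtain ⟨Q, hQ, rfl⟩ := hz1
      rw [Finset.mem_biUnion]
      refine ⟨T, ?_, ?_⟩
      · rw [Finset.mem_filter]
        refine ⟨hT, hz2, ?_⟩
        rw [Finset.mem_powersetCard] at hQ
        exact hz3.trans hQ.1
      · exact Finset.mem_image_of_mem _ (Finset.mem_filter.2 ⟨hQ, hz3⟩)
    have hnn : ∀ z : Finset V × Finset V, 0 ≤ rfp q r (Fintype.card V) lam H⁻¹ z := by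
      intro z; unfold rfp; positivity
    refine (Finset.sum_le_sum_of_subset_of_nonneg h2 fun z _ _ => hnn z).trans ?_
    rw [Finset.sum_biUnion]
    · refine Finset.sum_le_sum fun T hT => ?_
      rw [Finset.mem_filter] at hT
      rw [Finset.sum_image (fun Q _ Q' _ h => (Prod.ext_iff.1 h).2)]
      have hTr : T.card ≤ r := by
        rcases (mact T).1 hT.1 with h | h
        · exact h.le
        · exact (hX T h).le
      have e1 : ∀ Q, rfp q r (Fintype.card V) lam H⁻¹ (T, Q) =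
          H⁻¹ / (n * lam ^ sx r T.card / 2) ^ (q - r) := by
        intro Q; rw [hndef]; rfl
      rw [Finset.sum_congr rfl fun Q _ => e1 Q, Finset.sum_const, nsmul_eq_mul, hw]
      split_ifs with hc
      · refine mul_le_mul_of_nonneg_right ?_ (by positivity)
        have h3 := dg_powersetCard (q - T.card) (U T) g hc
        rw [if_pos hT.2.2] at h3
        unfold dg at h3
        rw [h3]
        have h4 := (hRS.size T hTr).2
        rw [← hndef] at h4
        calc ((((U T).card - g.card).choose (q - T.card - g.card) : ℕ) : ℝ)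
            ≤ (((U T).card ^ (q - T.card - g.card) : ℕ) : ℝ) := by
              exact_mod_cast (Nat.choose_le_pow _ _).trans
                (Nat.pow_le_pow_left (Nat.sub_le _ _) _)
          _ = ((U T).card : ℝ) ^ (q - T.card - g.card) := by push_cast; rfl
          _ ≤ _ := pow_le_pow_left₀ (Nat.cast_nonneg _) h4 _
      · have : (((U T).powersetCard (q - T.card)).filter (fun Q => g ⊆ Q)) = ∅ := by
          rw [Finset.filter_eq_empty_iff]
          intro Q hQ hgQ
          rw [Finset.mem_powersetCard] at hQ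
          exact hc (hQ.2 ▸ Finset.card_le_card hgQ)
        rw [this]; simp
    · intro T _ T₂ _ hne
      show Disjoint _ _
      rw [Finset.disjoint_left]
      intro z hz hz'
      rw [Finset.mem_image] at hz hz'
      obtain ⟨Q, _, rfl⟩ := hz
      obtain ⟨Q', _, hQ'⟩ := hz'
      exact hne (Prod.ext_iff.1 hQ').1.symm
  refine h1.trans ?_
  have hmaps : ∀ T ∈ (actv r X).filter (fun T => T' ⊆ T ∧ g ⊆ U T),
      T.card ∈ Finset.range (r + 1) := by
    intro T hT
    rw [Finset.mem_filter] at hT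
    rw [Finset.mem_range]
    rcases (mact T).1 hT.1 with h | h
    · omega
    · have := hX T h; omega
  rw [← Finset.sum_fiberwise_of_maps_to hmaps]
  have h5 : ∀ j ∈ Finset.range (r + 1),
      ∑ T ∈ ((actv r X).filter (fun T => T' ⊆ T ∧ g ⊆ U T)).filter (fun T => T.card = j),
        w T.card ≤ 4 ^ q * n ^ (r - T'.card - g.card) * H := by
    intro j hj
    rw [Finset.mem_range] at hj
    have hnn : 0 ≤ 4 ^ q * n ^ (r - T'.card - g.card) * H := by positivity
    rw [Finset.sum_congr rfl (g := fun _ => w j) (fun T hT => by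
      rw [(Finset.mem_filter.1 hT).2]), Finset.sum_const, nsmul_eq_mul]
    by_cases htj : T'.card ≤ j
    · by_cases hc : g.card ≤ q - j
      · rcases Nat.lt_succ_iff_lt_or_eq.1 hj with hjr | rfl
        · -- `j < r`
          obtain ⟨a1, a2⟩ := rfl_exp1 r T'.card g.card j htc htj hjr
          have hcount : ((((actv r X).filter (fun T => T' ⊆ T ∧ g ⊆ U T)).filter
              (fun T => T.card = j)).card : ℝ) ≤ (2 * n) ^ (j - T'.card) *
                lam ^ (0 + g.card * (sx r j - sx r T'.card)) := by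
            have := hRS.deg T' g htc j hjr htj
            rw [← hndef] at this
            rw [zero_add]
            refine le_trans ?_ this
            have hsub : ((actv r X).filter (fun T => T' ⊆ T ∧ g ⊆ U T)).filter
              (fun T => T.card = j) ⊆
              (Finset.univ.powersetCard j).filter (fun T => T' ⊆ T ∧ g ⊆ U T) := by
              intro T hT
              rw [Finset.mem_filter, Finset.mem_filter] at hT
              rw [Finset.mem_filter, Finset.mem_powersetCard]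
              exact ⟨⟨Finset.subset_univ _, hT.2⟩, hT.1.2⟩
            exact_mod_cast Finset.card_le_card hsub
          refine (mul_le_mul_of_nonneg_right hcount (hw0 j)).trans ?_
          rw [hw, if_pos hc]
          refine rfl_term q r T'.card g.card j (sx r j) (sx r T'.card) 0 n lam H hq htc htj hc
            hjr.le hn1 hl0 hl1 hH0 hH a1 ?_
          -- exponents
          have e1 : sx r j * (q - j - g.card) + g.card * sx r j = sx r j * (q - j) := by
            rw [mul_comm g.card, ← mul_add]; congr 1; omega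
          have e2 : sx r j * (q - r) + sx r j * (r - j) = sx r j * (q - j) := by
            rw [← mul_add]; congr 1; omega
          have e3 : g.card * (sx r j - sx r T'.card) + g.card * sx r T'.card =
              g.card * sx r j := by rw [← mul_add]; congr 1; omega
          omega
        · -- `j = r`
          obtain ⟨a1, a2⟩ := rfl_exp2 j T'.card g.card htc
          have hcount : ((((actv j X).filter (fun T => T' ⊆ T ∧ g ⊆ U T)).filter
              (fun T => T.card = j)).card : ℝ) ≤ (2 * n) ^ (j - T'.card) *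
                lam ^ (j ^ j + g.card * (sx j j - sx j T'.card)) := by
            have := hRS.degX T' g htc
            rw [← hndef] at this
            refine le_trans ?_ this
            have hsub : ((actv j X).filter (fun T => T' ⊆ T ∧ g ⊆ U T)).filter
              (fun T => T.card = j) ⊆
              X.filter (fun T => T' ⊆ T ∧ g ⊆ U T) := by
              intro T hT
              rw [Finset.mem_filter, Finset.mem_filter, mact] at hT
              rw [Finset.mem_filter]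
              rcases hT.1.1 with h | h
              · exact absurd hT.2 h.ne
              · exact ⟨h, hT.1.2⟩
            exact_mod_cast Finset.card_le_card hsub
          refine (mul_le_mul_of_nonneg_right hcount (hw0 j)).trans ?_
          rw [hw, if_pos hc]
          refine rfl_term q j T'.card g.card j (sx j j) (sx j T'.card) (j ^ j) n lam H hq htc htj
            hc le_rfl hn1 hl0 hl1 hH0 hH a1 ?_
          have e1 : sx j j * (q - j - g.card) + g.card * sx j j = sx j j * (q - j) := by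
            rw [mul_comm g.card, ← mul_add]; congr 1; omega
          have e3 : g.card * (sx j j - sx j T'.card) + g.card * sx j T'.card =
              g.card * sx j j := by rw [← mul_add]; congr 1; omega
          omega
      · rw [hw, if_neg hc, mul_zero]; exact hnn
    · have : (((actv r X).filter (fun T => T' ⊆ T ∧ g ⊆ U T)).filter
          (fun T => T.card = j)) = ∅ := by
        rw [Finset.filter_eq_empty_iff]
        intro T hT hTj
        rw [Finset.mem_filter] at hT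
        exact htj (hTj ▸ Finset.card_le_card hT.2.1)
      rw [this]; simpa using hnn
  refine (Finset.sum_le_sum h5).trans ?_
  rw [Finset.sum_const, Finset.card_range, nsmul_eq_mul, hndef]
  push_cast
  exact le_rfl

theorem rf_load (q r : ℕ) (hr : 1 ≤ r) (hq : r < q) :
    ∃ κ₁ : ℝ, 0 < κ₁ ∧ ∀ κ : ℝ, 0 < κ → κ ≤ κ₁ → ∃ n₀ : ℕ,
    ∀ (V : Type) [Fintype V] [DecidableEq V], n₀ ≤ Fintype.card V →
    ∀ (X : Finset (Finset V)) (U : Finset V → Finset V), Unif r X → ∀ lam : ℝ,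
    lam = (Fintype.card V : ℝ) ^ (-κ) → IsRS q r lam X U →
    ∀ T' g : Finset V, T'.card + g.card < r →
    bP (rfS q r X U) (rfp q r (Fintype.card V) lam (lam ^ (-(1 : ℝ) / 2)))
        (fun ω => (Fintype.card V : ℝ) ^ ((r : ℝ) - T'.card - g.card - κ / 4) ≤
          ((ω.filter (fun z => T' ⊆ z.1 ∧ g ⊆ z.2)).card : ℝ)) ≤
      Real.exp (- (Fintype.card V : ℝ) ^ ((1 : ℝ) / 4)) := by
  obtain ⟨κ₂, hκ₂, hmem⟩ := rfp_mem q r hr hq
  refine ⟨min κ₂ 1, lt_min hκ₂ one_pos, fun κ hκ0 hκ => ?_⟩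
  obtain ⟨n₁, hn₁⟩ := hmem κ hκ0 (hκ.trans (min_le_left _ _))
  have hκ1 : κ ≤ 1 := hκ.trans (min_le_right _ _)
  have hev1 : ∀ᶠ n : ℕ in Filter.atTop, 4 * ((r + 1) * 4 ^ q) ≤ (n : ℝ) ^ (κ / 4) :=
    ((tendsto_rpow_atTop (by positivity : 0 < κ / 4)).comp
      tendsto_natCast_atTop_atTop).eventually_ge_atTop _
  obtain ⟨n₂, hn₂⟩ := Filter.eventually_atTop.1 hev1
  refine ⟨max n₁ (max n₂ 4), ?_⟩
  intro V _ _ hV X U hX lam hlam hRS T' g htc
  have hV1 : n₁ ≤ Fintype.card V := (le_max_left _ _).trans hV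
  have hV2 : n₂ ≤ Fintype.card V := ((le_max_left _ _).trans (le_max_right _ _)).trans hV
  have hV3 : 4 ≤ Fintype.card V := ((le_max_right _ _).trans (le_max_right _ _)).trans hV
  have h1 := hn₂ _ hV2
  obtain ⟨n, hn⟩ : ∃ n : ℝ, n = (Fintype.card V : ℝ) := ⟨_, rfl⟩
  have hn4 : 4 ≤ n := by rw [hn]; exact_mod_cast hV3
  have hn1 : 1 ≤ n := by linarith
  have hn0 : 0 < n := by linarith
  have hp : ∀ z ∈ rfS q r X U,
      0 ≤ rfp q r (Fintype.card V) lam (lam ^ (-(1 : ℝ) / 2)) z ∧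
      rfp q r (Fintype.card V) lam (lam ^ (-(1 : ℝ) / 2)) z ≤ 1 := by
    intro z hz
    refine hn₁ V hV1 lam hlam z ?_
    rw [rfS, Finset.mem_biUnion] at hz
    obtain ⟨T, hT, hz⟩ := hz
    rw [Finset.mem_image] at hz
    obtain ⟨Q, _, rfl⟩ := hz
    unfold actv at hT
    rw [Finset.mem_filter] at hT
    rcases hT.2 with h | h
    · exact h.le
    · exact (hX T h).le
  obtain ⟨B, hB⟩ : ∃ B, B = (rfS q r X U).filter (fun z => T' ⊆ z.1 ∧ g ⊆ z.2) := ⟨_, rfl⟩
  have hBS : B ⊆ rfS q r X U := by rw [hB]; exact Finset.filter_subset _ _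
  obtain ⟨s, hs⟩ : ∃ s : ℝ, s = n ^ ((r : ℝ) - T'.card - g.card - κ / 4) := ⟨_, rfl⟩
  have hct := card_tail (rfS q r X U) _ hp B hBS 1 s zero_le_one
  rw [← hn, ← hs]
  have hcongr : bP (rfS q r X U) (rfp q r (Fintype.card V) lam (lam ^ (-(1 : ℝ) / 2)))
      (fun ω => s ≤ ((ω.filter (fun z => T' ⊆ z.1 ∧ g ⊆ z.2)).card : ℝ)) =
      bP (rfS q r X U) (rfp q r (Fintype.card V) lam (lam ^ (-(1 : ℝ) / 2)))
      (fun ω => s ≤ ((ω ∩ B).card : ℝ)) := by
    refine bP_congr fun ω hω => ?_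
    have : ω ∩ B = ω.filter (fun z => T' ⊆ z.1 ∧ g ⊆ z.2) := by
      rw [hB]
      ext z
      rw [Finset.mem_inter, Finset.mem_filter, Finset.mem_filter]
      exact ⟨fun h => ⟨h.1, h.2.2⟩, fun h => ⟨h.1, hω h.1, h.2⟩⟩
    rw [this]
  rw [hcongr]
  refine hct.trans ?_
  apply Real.exp_le_exp.2
  -- mean
  obtain ⟨H, hHdef⟩ : ∃ H : ℝ, H = n ^ (-(κ / 2)) := ⟨_, rfl⟩
  have hH0 : 0 < H := by rw [hHdef]; exact Real.rpow_pos_of_pos hn0 _
  rw [← hn] at hlam
  have hHl : H ^ 2 = lam := by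
    rw [hHdef, hlam, ← Real.rpow_natCast, ← Real.rpow_mul hn0.le]; congr 1; push_cast; ring
  have hD : lam ^ (-(1 : ℝ) / 2) = H⁻¹ := by
    rw [hlam, rfs_D n κ hn1, hHdef, ← Real.rpow_neg hn0.le, neg_neg]
  have hl0 : 0 < lam := by rw [← hHl]; positivity
  have hl1 : lam ≤ 1 := by
    rw [hlam]; exact Real.rpow_le_one_of_one_le_of_nonpos hn1 (by linarith)
  have hmean := rfl_mean q r hq X U hX lam H hRS (by omega) hl0 hl1 hH0 hHl T' g htc
  rw [← hB, ← hn] at hmean
  rw [hD]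
  have hpow : n ^ (r - T'.card - g.card) * H = s * n ^ (-(κ / 4)) := by
    have e1 : ((r - T'.card - g.card : ℕ) : ℝ) = (r : ℝ) - T'.card - g.card := by
      rw [Nat.sub_sub, Nat.cast_sub htc.le]; push_cast; ring
    rw [hHdef, hs, ← Real.rpow_natCast, ← Real.rpow_add hn0, ← Real.rpow_add hn0, e1]
    congr 1; ring
  have hexp2 : Real.exp 1 - 1 ≤ 2 := by have := Real.exp_one_lt_d9; linarith
  have hs0 : 0 < s := by rw [hs]; exact Real.rpow_pos_of_pos hn0 _
  have hκpos : 0 < n ^ (κ / 4) := Real.rpow_pos_of_pos hn0 _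
  have hinv : n ^ (-(κ / 4)) = (n ^ (κ / 4))⁻¹ := Real.rpow_neg hn0.le _
  rw [← hn] at h1
  have hK : 0 < ((r : ℝ) + 1) * 4 ^ q := by positivity
  have h2 : 2 * (((r : ℝ) + 1) * (4 ^ q * n ^ (r - T'.card - g.card) * H)) ≤ s / 2 := by
    have e1 : 2 * (((r : ℝ) + 1) * (4 ^ q * n ^ (r - T'.card - g.card) * H)) =
        (2 * (((r : ℝ) + 1) * 4 ^ q) * (n ^ (κ / 4))⁻¹) * s := by
      rw [mul_assoc (4 ^ q) _ H, hpow, hinv]; ring
    rw [e1]
    have h3 : 2 * (((r : ℝ) + 1) * 4 ^ q) * (n ^ (κ / 4))⁻¹ ≤ 1 / 2 := by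
      rw [← div_eq_mul_inv, div_le_iff₀ hκpos]; linarith
    nlinarith
  have hmean0 : 0 ≤ ∑ z ∈ B, rfp q r (Fintype.card V) lam H⁻¹ z := by
    refine Finset.sum_nonneg fun z _ => ?_
    unfold rfp; positivity
  have h4 : (Real.exp 1 - 1) * ∑ z ∈ B, rfp q r (Fintype.card V) lam H⁻¹ z ≤ s / 2 := by
    calc (Real.exp 1 - 1) * ∑ z ∈ B, rfp q r (Fintype.card V) lam H⁻¹ z
        ≤ 2 * ∑ z ∈ B, rfp q r (Fintype.card V) lam H⁻¹ z :=
          mul_le_mul_of_nonneg_right hexp2 hmean0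
      _ ≤ 2 * (((r : ℝ) + 1) * (4 ^ q * n ^ (r - T'.card - g.card) * H)) :=
          mul_le_mul_of_nonneg_left hmean (by norm_num)
      _ ≤ s / 2 := h2
  have h5 : 2 * n ^ ((1 : ℝ) / 4) ≤ s := by
    have e1 : n ^ ((3 : ℝ) / 4) = n ^ ((1 : ℝ) / 2) * n ^ ((1 : ℝ) / 4) := by
      rw [← Real.rpow_add hn0]; norm_num
    have e2 : (2 : ℝ) ≤ n ^ ((1 : ℝ) / 2) := by
      rw [← Real.sqrt_eq_rpow]
      rw [show (2 : ℝ) = Real.sqrt 4 by
        rw [show (4 : ℝ) = 2 ^ 2 by norm_num, Real.sqrt_sq (by norm_num)]]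
      exact Real.sqrt_le_sqrt hn4
    have e3 : n ^ ((3 : ℝ) / 4) ≤ s := by
      rw [hs]
      apply Real.rpow_le_rpow_of_exponent_le hn1
      have : ((T'.card : ℝ) + g.card) + 1 ≤ r := by exact_mod_cast htc
      linarith
    calc 2 * n ^ ((1 : ℝ) / 4) ≤ n ^ ((1 : ℝ) / 2) * n ^ ((1 : ℝ) / 4) :=
          mul_le_mul_of_nonneg_right e2 (Real.rpow_nonneg hn0.le _)
      _ = n ^ ((3 : ℝ) / 4) := e1.symm
      _ ≤ s := e3
  linarith

end Pool.Agent.Des
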