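import Pool.Agent.Lib_helper96.Des.RFspan
import Pool.Agent.Lib_helper96.Des.RFload

/-!
# Block RANDFAMS: random families on the sets `U T`

Active `T`: `|T| < r` or `T ∈ X`.  Write `j = |T|`, `s_j = sx r j`, `lam = n^(-κ)`,
`D = lam^(-1/2)`.  Ground set: all pairs `(T, Q)`, `T` active, `Q ⊆ U T`, `|Q| = q - j`, chosen with
probability `π_j = D / (n lam^(s_j) / 2)^(q-r)` (`≤ 1` for `κ` small and `n` large).
`Fam T` = fibre over `T`.

Spanning: by `bE_fiber` and `randspan` (with `ρ = r - j`, `q - j`; `(q-j)-(r-j) = q-r`) the failure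
probability for `T` is at most `exp (N n^r exp (-D/C)) - 1 ≤ 2 N n^r exp (-D / C)`
(`π_j |U T|^(q-r) ≥ D`).

Loads: for disjoint `T', g` with `A = T' ∪ g`, `t = |T'|`, `c = |g|`, `t + c < r`, the expected number of
`(T, Q)` with `T' ⊆ T`, `g ⊆ Q` is at most
`∑_j #{T active, |T| = j : T' ⊆ T, g ⊆ U T} (2 n lam^(s_j))^(q-j-c) π_j`
`≤ C D ∑_j n^(r-t-c) lam^(E_j)` with `E_j = (r-j) s_j - c s_t ≥ 1` for `j < r` (and
`E_r = r^r - c s_t ≥ 1`): here `c ≤ r-1-t`; for `j = t` `E = (r-t-c) r^t`, for `t < j < r`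
`E ≥ r^(t+1) - (r-1) r^t`.  (For `q - j < c` there are no such `Q`; for `r - j - c < 0` the power of
`n lam^(s_j)` is negative, use reals.)  So the mean is `≤ C lam^(1/2) n^(r-|A|)` and `card_tail`
(`x = 1`) gives `load ≤ 3 C lam^(1/2) n^(r-|A|)` except with probability `exp (-n^(1/2))`; sum over
the `2^|A|` splittings of `A`.  Take `δ = κ / 8`.
(Sub-blocks: `rfp_mem`, `rf_span`, `rf_load`; here only the union bound.)
-/

set_option autoImplicit false

namespace Pool.Agent.Des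

open Finset

theorem rfams_small (K : ℝ) (k : ℕ) (a : ℝ) (ha : 0 < a) :
    ∀ᶠ n : ℕ in Filter.atTop, K * (n : ℝ) ^ k * Real.exp (-(n : ℝ) ^ a) < 1 / 2 := by
  obtain ⟨m, hm⟩ : ∃ m : ℕ, (k : ℝ) / a ≤ m := exists_nat_ge _
  have h1 : Filter.Tendsto (fun n : ℕ => (n : ℝ) ^ a) Filter.atTop Filter.atTop :=
    (tendsto_rpow_atTop ha).comp tendsto_natCast_atTop_atTop
  have h2 := (Real.tendsto_pow_mul_exp_neg_atTop_nhds_zero m).comp h1
  have h3 : Filter.Tendsto (fun n : ℕ => |K| * (((n : ℝ) ^ a) ^ m * Real.exp (-(n : ℝ) ^ a)))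
      Filter.atTop (nhds 0) := by
    have := h2.const_mul |K|
    simpa using this
  have h4 := h3.eventually (gt_mem_nhds (by norm_num : (0 : ℝ) < 1 / 2))
  filter_upwards [h4, Filter.eventually_ge_atTop 1] with n hn hn1
  have hn1' : (1 : ℝ) ≤ n := by exact_mod_cast hn1
  have h5 : (n : ℝ) ^ k ≤ ((n : ℝ) ^ a) ^ m := by
    rw [← Real.rpow_natCast, ← Real.rpow_natCast, ← Real.rpow_mul (by linarith)]
    apply Real.rpow_le_rpow_of_exponent_le hn1'
    rw [div_le_iff₀ ha] at hm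
    linarith
  calc K * (n : ℝ) ^ k * Real.exp (-(n : ℝ) ^ a)
      ≤ |K| * (n : ℝ) ^ k * Real.exp (-(n : ℝ) ^ a) := by
        have := le_abs_self K
        have h6 : 0 ≤ (n : ℝ) ^ k * Real.exp (-(n : ℝ) ^ a) := by positivity
        nlinarith [mul_le_mul_of_nonneg_right this h6]
    _ = |K| * ((n : ℝ) ^ k * Real.exp (-(n : ℝ) ^ a)) := by ring
    _ ≤ |K| * (((n : ℝ) ^ a) ^ m * Real.exp (-(n : ℝ) ^ a)) :=
        mul_le_mul_of_nonneg_left (mul_le_mul_of_nonneg_right h5 (Real.exp_pos _).le)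
          (abs_nonneg _)
    _ < 1 / 2 := hn

theorem rfams_card (V : Type) [Fintype V] [DecidableEq V] (r : ℕ) (hV : 1 ≤ Fintype.card V) :
    (((Finset.univ : Finset (Finset V)).filter (fun T => T.card ≤ r)).card : ℝ) ≤
      (r + 1) * (Fintype.card V : ℝ) ^ r := by
  have h1 : (Finset.univ : Finset (Finset V)).filter (fun T => T.card ≤ r) ⊆
      (Finset.range (r + 1)).biUnion (fun j => (Finset.univ : Finset V).powersetCard j) := by
    intro T hT
    rw [Finset.mem_filter] at hT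
    rw [Finset.mem_biUnion]
    exact ⟨T.card, Finset.mem_range.2 (Nat.lt_succ_of_le hT.2), by
      rw [Finset.mem_powersetCard]; exact ⟨Finset.subset_univ _, rfl⟩⟩
  have h2 : ((Finset.univ : Finset (Finset V)).filter (fun T => T.card ≤ r)).card ≤
      (r + 1) * Fintype.card V ^ r := by
    refine (Finset.card_le_card h1).trans ?_
    refine (Finset.card_biUnion_le_card_mul _ _ (Fintype.card V ^ r) ?_).trans
      (le_of_eq (by rw [Finset.card_range]))
    intro j hj
    rw [Finset.card_powersetCard, Finset.card_univ]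
    exact (Nat.choose_le_pow _ _).trans
      (Nat.pow_le_pow_right hV (Nat.lt_succ_iff.1 (Finset.mem_range.1 hj)))
  exact_mod_cast h2

theorem randfams (q r N : ℕ) (hr : 1 ≤ r) (hq : r < q) (hN0 : 0 < N)
    (hN : ∀ i ≤ r, (q - i).choose (r - i) ∣ N) :
    ∃ κ₁ : ℝ, 0 < κ₁ ∧ ∀ κ : ℝ, 0 < κ → κ ≤ κ₁ → ∃ (δ : ℝ) (n₀ : ℕ), 0 < δ ∧
    ∀ (V : Type) [Fintype V] [DecidableEq V], n₀ ≤ Fintype.card V →
    ∀ (X : Finset (Finset V)) (U : Finset V → Finset V), Unif r X →
    IsRS q r ((Fintype.card V : ℝ) ^ (-κ)) X U →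
    ∃ Fam : Finset V → Finset (Finset V),
      (∀ T ∈ actv r X, ∀ Q ∈ Fam T, Q ⊆ U T ∧ Q.card = q - T.card) ∧
      (∀ T ∈ actv r X, Spans (ZMod N) (r - T.card) (q - T.card) (U T) (Fam T)) ∧
      ∀ A : Finset V, A.card < r →
        (∑ T ∈ actv r X, ((((Fam T).filter (fun Q => A ⊆ T ∪ Q)).card : ℕ) : ℝ)) ≤
          (Fintype.card V : ℝ) ^ ((r : ℝ) - A.card - δ) := by
  classical
  obtain ⟨κa, hκa, ha⟩ := rfp_mem q r hr hq
  obtain ⟨κb, hκb, hb⟩ := rf_span q r N hr hq hN0 hN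
  obtain ⟨κc, hκc, hc⟩ := rf_load q r hr hq
  refine ⟨min κa (min κb κc), lt_min hκa (lt_min hκb hκc), fun κ hκ0 hκ => ?_⟩
  obtain ⟨na, hna⟩ := ha κ hκ0 (hκ.trans (min_le_left _ _))
  obtain ⟨nb, hnb⟩ := hb κ hκ0 (hκ.trans ((min_le_right _ _).trans (min_le_left _ _)))
  obtain ⟨nc, hnc⟩ := hc κ hκ0 (hκ.trans ((min_le_right _ _).trans (min_le_right _ _)))
  have hev1 := rfams_small (r + 1) r (κ / 4) (by positivity)
  have hev2 := rfams_small ((r + 1) * (r + 1)) (r + r) (1 / 4) (by norm_num)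
  have hev3 : ∀ᶠ n : ℕ in Filter.atTop, (2 : ℝ) ^ r ≤ (n : ℝ) ^ (κ / 8) :=
    ((tendsto_rpow_atTop (by positivity : 0 < κ / 8)).comp
      tendsto_natCast_atTop_atTop).eventually_ge_atTop _
  obtain ⟨nd, hnd⟩ := Filter.eventually_atTop.1 (hev1.and (hev2.and hev3))
  refine ⟨κ / 8, na + nb + nc + nd + 1, by positivity, ?_⟩
  intro V _ _ hV X U hX hRS
  have hVa : na ≤ Fintype.card V := by omega
  have hVb : nb ≤ Fintype.card V := by omega
  have hVc : nc ≤ Fintype.card V := by omega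
  have hVd : nd ≤ Fintype.card V := by omega
  have hV1 : 1 ≤ Fintype.card V := by omega
  obtain ⟨h1, h2, h3⟩ := hnd _ hVd
  obtain ⟨lam, hlam⟩ : ∃ lam : ℝ, lam = (Fintype.card V : ℝ) ^ (-κ) := ⟨_, rfl⟩
  rw [← hlam] at hRS
  have hactr : ∀ T ∈ actv r X, T.card ≤ r := by
    intro T hT
    unfold actv at hT
    rw [Finset.mem_filter] at hT
    rcases hT.2 with h | h
    · exact h.le
    · exact (hX T h).le
  obtain ⟨p, hpdef⟩ : ∃ p, p = rfp (V := V) q r (Fintype.card V) lam (lam ^ (-(1 : ℝ) / 2)) :=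
    ⟨_, rfl⟩
  have hp : ∀ z ∈ rfS q r X U, 0 ≤ p z ∧ p z ≤ 1 := by
    intro z hz
    rw [hpdef]
    refine hna V hVa lam hlam z ?_
    rw [rfS, Finset.mem_biUnion] at hz
    obtain ⟨T, hT, hz⟩ := hz
    rw [Finset.mem_image] at hz
    obtain ⟨Q, _, rfl⟩ := hz
    exact hactr T hT
  have hB := hnb V hVb X U hX lam hlam hRS
  have hC := hnc V hVc X U hX lam hlam hRS
  rw [← hpdef] at hB hC
  obtain ⟨P2, hP2⟩ : ∃ P2 : Finset (Finset V × Finset V), P2 =
      ((Finset.univ : Finset (Finset V × Finset V)).filter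
        (fun z => z.1.card + z.2.card < r)) := ⟨_, rfl⟩
  have hfail : bP (rfS q r X U) p (fun ω =>
      (∃ T ∈ actv r X, ¬ Spans (ZMod N) (r - T.card) (q - T.card) (U T) (rfF ω T)) ∨
      (∃ z ∈ P2, (Fintype.card V : ℝ) ^ ((r : ℝ) - z.1.card - z.2.card - κ / 4) ≤
          ((ω.filter (fun w => z.1 ⊆ w.1 ∧ z.2 ⊆ w.2)).card : ℝ))) < 1 := by
    refine (bP_or_le hp _ _).trans_lt ?_
    have e1 : bP (rfS q r X U) p (fun ω =>
        ∃ T ∈ actv r X, ¬ Spans (ZMod N) (r - T.card) (q - T.card) (U T) (rfF ω T)) < 1 / 2 := by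
      refine ((bP_exists_le hp _ _).trans (Finset.sum_le_sum fun T hT => hB T hT)).trans_lt ?_
      rw [Finset.sum_const, nsmul_eq_mul]
      refine lt_of_le_of_lt ?_ h1
      refine mul_le_mul_of_nonneg_right ?_ (Real.exp_pos _).le
      refine le_trans ?_ (rfams_card V r hV1)
      have : actv r X ⊆ (Finset.univ : Finset (Finset V)).filter (fun T => T.card ≤ r) := by
        intro T hT
        rw [Finset.mem_filter]
        exact ⟨Finset.mem_univ _, hactr T hT⟩
      exact_mod_cast Finset.card_le_card this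
    have e2 : bP (rfS q r X U) p (fun ω =>
        ∃ z ∈ P2, (Fintype.card V : ℝ) ^ ((r : ℝ) - z.1.card - z.2.card - κ / 4) ≤
          ((ω.filter (fun w => z.1 ⊆ w.1 ∧ z.2 ⊆ w.2)).card : ℝ)) < 1 / 2 := by
      refine ((bP_exists_le hp _ _).trans (Finset.sum_le_sum fun z hz =>
        hC z.1 z.2 (by rw [hP2, Finset.mem_filter] at hz; exact hz.2))).trans_lt ?_
      rw [Finset.sum_const, nsmul_eq_mul]
      refine lt_of_le_of_lt ?_ h2
      refine mul_le_mul_of_nonneg_right ?_ (Real.exp_pos _).le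
      have h4 : P2 ⊆ ((Finset.univ : Finset (Finset V)).filter (fun T => T.card ≤ r)) ×ˢ
          ((Finset.univ : Finset (Finset V)).filter (fun T => T.card ≤ r)) := by
        intro z hz
        rw [hP2, Finset.mem_filter] at hz
        rw [Finset.mem_product, Finset.mem_filter, Finset.mem_filter]
        exact ⟨⟨Finset.mem_univ _, by omega⟩, ⟨Finset.mem_univ _, by omega⟩⟩
      have h5 := Finset.card_le_card h4
      rw [Finset.card_product] at h5
      have h6 := rfams_card V r hV1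
      calc (P2.card : ℝ) ≤
          ((((Finset.univ : Finset (Finset V)).filter (fun T => T.card ≤ r)).card *
            ((Finset.univ : Finset (Finset V)).filter (fun T => T.card ≤ r)).card : ℕ) : ℝ) := by
            exact_mod_cast h5
        _ = (((Finset.univ : Finset (Finset V)).filter (fun T => T.card ≤ r)).card : ℝ) *
            (((Finset.univ : Finset (Finset V)).filter (fun T => T.card ≤ r)).card : ℝ) := by
            push_cast; rfl
        _ ≤ ((r + 1) * (Fintype.card V : ℝ) ^ r) * ((r + 1) * (Fintype.card V : ℝ) ^ r) :=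
            mul_le_mul h6 h6 (Nat.cast_nonneg _) (by positivity)
        _ = (r + 1) * (r + 1) * (Fintype.card V : ℝ) ^ (r + r) := by rw [pow_add]; ring
    linarith
  obtain ⟨ω, hω, hgood⟩ := exists_not_of_bP_lt hp hfail
  push Not at hgood
  obtain ⟨hg1, hg2⟩ := hgood
  have hmemF : ∀ T Q, Q ∈ rfF ω T ↔ (T, Q) ∈ ω := by
    intro T Q
    unfold rfF
    rw [Finset.mem_image]
    constructor
    · rintro ⟨z, hz, rfl⟩
      rw [Finset.mem_filter] at hz
      rw [← hz.2]; exact hz.1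
    · intro h
      exact ⟨(T, Q), Finset.mem_filter.2 ⟨h, rfl⟩, rfl⟩
  have hmemS : ∀ T Q, (T, Q) ∈ rfS q r X U → T ∈ actv r X ∧ Q ⊆ U T ∧ Q.card = q - T.card := by
    intro T Q h
    rw [rfS, Finset.mem_biUnion] at h
    obtain ⟨T₁, hT₁, h⟩ := h
    rw [Finset.mem_image] at h
    obtain ⟨Q₁, hQ₁, heq⟩ := h
    rw [Prod.mk.injEq] at heq
    obtain ⟨rfl, rfl⟩ := heq
    rw [Finset.mem_powersetCard] at hQ₁
    exact ⟨hT₁, hQ₁⟩
  refine ⟨rfF ω, ?_, hg1, ?_⟩
  · intro T _ Q hQ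
    exact (hmemS T Q (hω ((hmemF T Q).1 hQ))).2
  · intro A hA
    have hn1 : (1 : ℝ) ≤ (Fintype.card V : ℝ) := by exact_mod_cast hV1
    have hn0 : (0 : ℝ) < (Fintype.card V : ℝ) := by linarith
    have h4 : ∑ T ∈ actv r X, ((((rfF ω T).filter (fun Q => A ⊆ T ∪ Q)).card : ℕ) : ℝ) ≤
        ∑ T' ∈ A.powerset, ((ω.filter (fun w => T' ⊆ w.1 ∧ A \ T' ⊆ w.2)).card : ℝ) := by
      have h5 : ∑ T ∈ actv r X, ((rfF ω T).filter (fun Q => A ⊆ T ∪ Q)).card =
          (ω.filter (fun w => A ⊆ w.1 ∪ w.2)).card := by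
        have h6 : ω.filter (fun w => A ⊆ w.1 ∪ w.2) = (actv r X).biUnion (fun T =>
            ((rfF ω T).filter (fun Q => A ⊆ T ∪ Q)).image (fun Q => (T, Q))) := by
          ext w
          rw [Finset.mem_filter, Finset.mem_biUnion]
          constructor
          · rintro ⟨hw1, hw2⟩
            refine ⟨w.1, (hmemS w.1 w.2 (hω hw1)).1, ?_⟩
            rw [Finset.mem_image]
            exact ⟨w.2, Finset.mem_filter.2 ⟨(hmemF _ _).2 hw1, hw2⟩, rfl⟩
          · rintro ⟨T, _, hw⟩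
            rw [Finset.mem_image] at hw
            obtain ⟨Q, hQ, rfl⟩ := hw
            rw [Finset.mem_filter, hmemF] at hQ
            exact hQ
        rw [h6, Finset.card_biUnion]
        · refine Finset.sum_congr rfl fun T _ => ?_
          rw [Finset.card_image_of_injective _ (fun Q Q' h => (Prod.ext_iff.1 h).2)]
        · intro T _ T₂ _ hne
          show Disjoint _ _
          rw [Finset.disjoint_left]
          intro z hz hz'
          rw [Finset.mem_image] at hz hz'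
          obtain ⟨Q, _, rfl⟩ := hz
          obtain ⟨Q', _, hQ'⟩ := hz'
          exact hne (Prod.ext_iff.1 hQ').1.symm
      have h7 : (ω.filter (fun w => A ⊆ w.1 ∪ w.2)).card ≤
          ∑ T' ∈ A.powerset, (ω.filter (fun w => T' ⊆ w.1 ∧ A \ T' ⊆ w.2)).card := by
        refine le_trans (Finset.card_le_card ?_) Finset.card_biUnion_le
        intro w hw
        rw [Finset.mem_filter] at hw
        rw [Finset.mem_biUnion]
        refine ⟨A ∩ w.1, Finset.mem_powerset.2 Finset.inter_subset_left, ?_⟩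
        rw [Finset.mem_filter]
        refine ⟨hw.1, Finset.inter_subset_right, ?_⟩
        intro x hx
        rw [Finset.mem_sdiff, Finset.mem_inter] at hx
        rcases Finset.mem_union.1 (hw.2 hx.1) with h | h
        · exact absurd ⟨hx.1, h⟩ hx.2
        · exact h
      calc ∑ T ∈ actv r X, ((((rfF ω T).filter (fun Q => A ⊆ T ∪ Q)).card : ℕ) : ℝ)
          = ((∑ T ∈ actv r X, ((rfF ω T).filter (fun Q => A ⊆ T ∪ Q)).card : ℕ) : ℝ) := by
            push_cast; rfl
        _ ≤ ((∑ T' ∈ A.powerset, (ω.filter (fun w => T' ⊆ w.1 ∧ A \ T' ⊆ w.2)).card : ℕ) : ℝ) := by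
            rw [h5]; exact_mod_cast h7
        _ = _ := by push_cast; rfl
    refine h4.trans ?_
    have h5 : ∀ T' ∈ A.powerset, ((ω.filter (fun w => T' ⊆ w.1 ∧ A \ T' ⊆ w.2)).card : ℝ) ≤
        (Fintype.card V : ℝ) ^ ((r : ℝ) - A.card - κ / 4) := by
      intro T' hT'
      rw [Finset.mem_powerset] at hT'
      have hc1 : T'.card + (A \ T').card = A.card := by
        rw [Finset.card_sdiff_of_subset hT']
        have := Finset.card_le_card hT'
        omega
      have h6 := hg2 (T', A \ T') (by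
        rw [hP2, Finset.mem_filter]
        exact ⟨Finset.mem_univ _, by simp only; omega⟩)
      simp only at h6
      refine h6.le.trans (le_of_eq ?_)
      congr 1
      have : (A.card : ℝ) = T'.card + (A \ T').card := by exact_mod_cast hc1.symm
      rw [this]; ring
    refine (Finset.sum_le_sum h5).trans ?_
    rw [Finset.sum_const, Finset.card_powerset, nsmul_eq_mul]
    have h6 : (((2 : ℕ) ^ A.card : ℕ) : ℝ) ≤ (Fintype.card V : ℝ) ^ (κ / 8) := by
      push_cast
      exact (pow_le_pow_right₀ (by norm_num) hA.le).trans h3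
    calc (((2 : ℕ) ^ A.card : ℕ) : ℝ) * (Fintype.card V : ℝ) ^ ((r : ℝ) - A.card - κ / 4)
        ≤ (Fintype.card V : ℝ) ^ (κ / 8) *
          (Fintype.card V : ℝ) ^ ((r : ℝ) - A.card - κ / 4) :=
          mul_le_mul_of_nonneg_right h6 (Real.rpow_nonneg hn0.le _)
      _ = _ := by rw [← Real.rpow_add hn0]; congr 1; ring

end Pool.Agent.Des
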