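import Pool.Agent.Lib_helper96.Des.Elim
import Pool.Agent.Lib_helper96.Des.RandFams

/-!
# Block REFSPAN: the families span the reserve

`elim` in the doubled vertex set `V ⊕ V` (`U0` = right copy, `G` = left copies of the active sets,
`UT (left T) = right (U T)`, `Fam` = right copies of `Fam T`, `J` = indicator of the left copy of
`L`), then push forward along `V ⊕ V → V` (every set `T ∪ Q` in question has `T ∩ Q = ∅`, so its
`r`-subsets in `V ⊕ V` correspond bijectively to the `r`-subsets of its image).
-/

set_option autoImplicit false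

namespace Pool.Agent.Des

open Finset

theorem refspan_spans {R : Type*} [CommRing R] {V : Type} [Fintype V] [DecidableEq V] (ρ q : ℕ)
    (U : Finset V) (F : Finset (Finset V)) (h : Spans R ρ q U F) :
    Spans R ρ q ((∅ : Finset V).disjSum U) (F.image (fun Q => (∅ : Finset V).disjSum Q)) := by
  intro J' hJ' hdiv
  have h2 := h (fun g => J' ((∅ : Finset V).disjSum g)) ?_ ?_
  · let E : (Finset V → R) →ₗ[R] (Finset (V ⊕ V) → R) :=
      { toFun := fun f e => if e.toLeft = ∅ then f e.toRight else 0
        map_add' := by
          intro a b; funext e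
          by_cases he : e.toLeft = ∅ <;> simp [he]
        map_smul' := by
          intro c a; funext e
          by_cases he : e.toLeft = ∅ <;> simp [he] }
    have hE : J' = E (fun g => J' ((∅ : Finset V).disjSum g)) := by
      funext e
      change J' e = if e.toLeft = ∅ then J' ((∅ : Finset V).disjSum e.toRight) else 0
      split_ifs with he
      · congr 1
        rw [← he, Finset.toLeft_disjSum_toRight]
      · by_contra hne
        have := hJ' e hne
        rw [Finset.mem_powersetCard, Finset.subset_disjSum] at this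
        exact he (Finset.subset_empty.1 this.1.1)
    have h3 := Submodule.apply_mem_span_image_of_mem_span E h2
    rw [← hE] at h3
    refine Submodule.span_mono ?_ h3
    rintro _ ⟨_, ⟨Q, hQ, rfl⟩, rfl⟩
    refine ⟨(∅ : Finset V).disjSum Q, ?_, ?_⟩
    · rw [Finset.mem_coe]
      exact Finset.mem_image_of_mem _ hQ
    · funext e
      change _ = if e.toLeft = ∅ then ind R ρ Q e.toRight else 0
      unfold ind
      have hc : e.card = e.toLeft.card + e.toRight.card :=
        (Finset.card_toLeft_add_card_toRight).symm
      by_cases he : e.toLeft = ∅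
      · rw [if_pos he]
        have : e ∈ ((∅ : Finset V).disjSum Q).powersetCard ρ ↔ e.toRight ∈ Q.powersetCard ρ := by
          rw [Finset.mem_powersetCard, Finset.mem_powersetCard, Finset.subset_disjSum, hc, he]
          simp
        simp only [this]
      · rw [if_neg he, if_neg]
        rw [Finset.mem_powersetCard, Finset.subset_disjSum]
        rintro ⟨⟨h1, _⟩, _⟩
        exact he (Finset.subset_empty.1 h1)
  · intro g hg
    have := hJ' _ hg
    rw [Finset.mem_powersetCard, Finset.card_disjSum, Finset.card_empty, zero_add,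
      Finset.subset_disjSum, Finset.toRight_disjSum] at this
    rw [Finset.mem_powersetCard]
    exact ⟨this.1.2, this.2⟩
  · intro A hA
    have h3 := hdiv ((∅ : Finset V).disjSum A) (by rwa [Finset.card_disjSum, Finset.card_empty,
      zero_add])
    rw [Finset.card_disjSum, Finset.card_empty, zero_add] at h3
    convert h3 using 1
    unfold dsum
    refine Finset.sum_bij_ne_zero (fun g _ _ => (∅ : Finset V).disjSum g) ?_ ?_ ?_ ?_
    · intro g hg _
      rw [Finset.mem_filter, Finset.mem_powersetCard] at hg ⊢
      refine ⟨⟨Finset.subset_univ _, ?_⟩, Finset.disjSum_mono (Finset.Subset.refl _) hg.2⟩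
      rw [Finset.card_disjSum, Finset.card_empty, zero_add]; exact hg.1.2
    · intro g₁ _ _ g₂ _ _ heq
      exact (Finset.disjSum_inj.1 heq).2
    · intro e he hne
      have h4 := hJ' e hne
      rw [Finset.mem_powersetCard, Finset.subset_disjSum] at h4
      have h5 : e.toLeft = ∅ := Finset.subset_empty.1 h4.1.1
      have h6 : (∅ : Finset V).disjSum e.toRight = e := by
        rw [← h5, Finset.toLeft_disjSum_toRight]
      refine ⟨e.toRight, ?_, ?_, h6⟩
      · rw [Finset.mem_filter, Finset.mem_powersetCard] at he ⊢
        refine ⟨⟨Finset.subset_univ _, ?_⟩, ?_⟩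
        · rw [← h6, Finset.card_disjSum, Finset.card_empty, zero_add] at h4
          exact h4.2
        · exact (Finset.disjSum_subset.1 he.2).2
      · rw [h6]; exact hne
    · intro g _ _; rfl

theorem refspan_mem_actv {V : Type} [Fintype V] [DecidableEq V] (r : ℕ) (X : Finset (Finset V))
    (T : Finset V) : T ∈ actv r X ↔ T.card < r ∨ T ∈ X := by
  unfold actv; simp

theorem refspan (q r N : ℕ) (hr : 1 ≤ r) (hq : r < q) {V : Type} [Fintype V]
    [DecidableEq V] (X : Finset (Finset V)) (hX : Unif r X) (U : Finset V → Finset V)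
    (hdisj : ∀ T : Finset V, T.card ≤ r → Disjoint T (U T))
    (hmono : ∀ T T' : Finset V, T.card ≤ r → T' ⊆ T → U T ⊆ U T')
    (Fam : Finset V → Finset (Finset V))
    (hFam : ∀ T ∈ actv r X, ∀ Q ∈ Fam T, Q ⊆ U T ∧ Q.card = q - T.card)
    (hsp : ∀ T ∈ actv r X, Spans (ZMod N) (r - T.card) (q - T.card) (U T) (Fam T))
    (L : Finset (Finset V)) (hL : L ⊆ X) (hdiv : Divis q r L) :
    (fun e => if e ∈ L then (1 : ZMod N) else 0) ∈
      spn (ZMod N) r ((actv r X).biUnion fun T => (Fam T).image fun Q => T ∪ Q) := by
  have hactc : ∀ T ∈ actv r X, T.card ≤ r := by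
    intro T hT
    rw [refspan_mem_actv] at hT
    rcases hT with h | h
    · exact h.le
    · exact (hX T h).le
  obtain ⟨G, hG⟩ : ∃ G : Finset (Finset (V ⊕ V)), G =
      (actv r X).image (fun T => T.disjSum (∅ : Finset V)) := ⟨_, rfl⟩
  have mG : ∀ S, S ∈ G ↔ S.toLeft ∈ actv r X ∧ S.toRight = ∅ := by
    intro S
    rw [hG, Finset.mem_image]
    constructor
    · rintro ⟨T, hT, rfl⟩
      rw [Finset.toLeft_disjSum, Finset.toRight_disjSum]
      exact ⟨hT, rfl⟩
    · rintro ⟨h1, h2⟩
      refine ⟨S.toLeft, h1, ?_⟩
      rw [← h2, Finset.toLeft_disjSum_toRight]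
  obtain ⟨U0, hU0⟩ : ∃ U0 : Finset (V ⊕ V), U0 = (∅ : Finset V).disjSum Finset.univ := ⟨_, rfl⟩
  have hsd : ∀ e : Finset (V ⊕ V), e \ U0 = e.toLeft.disjSum ∅ := by
    intro e
    ext x
    rw [Finset.mem_sdiff, hU0]
    rcases x with x | x <;> simp
  have hin : ∀ e : Finset (V ⊕ V), e ∩ U0 = (∅ : Finset V).disjSum e.toRight := by
    intro e
    ext x
    rw [Finset.mem_inter, hU0]
    rcases x with x | x <;> simp
  have hcardS : ∀ S ∈ G, S.card = S.toLeft.card := by
    intro S hS
    rw [mG] at hS
    rw [← Finset.card_toLeft_add_card_toRight, hS.2, Finset.card_empty, add_zero]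
  -- the function
  obtain ⟨J, hJ⟩ : ∃ J : Finset (V ⊕ V) → ZMod N, ∀ e, J e =
      if e.toLeft ∈ L ∧ e.toRight = ∅ then 1 else 0 := ⟨_, fun _ => rfl⟩
  have hJs : ∀ e, J e ≠ 0 → e.toLeft ∈ L ∧ e.toRight = ∅ := by
    intro e he
    by_contra hcon
    exact he (by rw [hJ, if_neg hcon])
  have hmem := elim (R := ZMod N) r q hq.le U0 G
    (by
      intro S hS S' hS'
      rw [mG] at hS ⊢
      have h1 : S'.toLeft ⊆ S.toLeft := Finset.toLeft_subset_toLeft hS'
      have h2 : S'.toRight ⊆ S.toRight := Finset.toRight_subset_toRight hS'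
      refine ⟨?_, by rw [hS.2] at h2; exact Finset.subset_empty.1 h2⟩
      rw [refspan_mem_actv]
      by_cases heq : S'.toLeft = S.toLeft
      · rw [heq]; exact (refspan_mem_actv r X _).1 hS.1
      · left
        exact (Finset.card_lt_card (lt_of_le_of_ne h1 heq)).trans_le (hactc _ hS.1))
    (by
      intro S hS
      rw [mG] at hS
      rw [hU0, Finset.disjoint_left]
      intro x hx hx'
      rcases x with x | x
      · rw [Finset.inl_mem_disjSum] at hx'
        exact absurd hx' (Finset.notMem_empty _)
      · have : x ∈ S.toRight := Finset.mem_toRight.2 hx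
        rw [hS.2] at this
        exact absurd this (Finset.notMem_empty _))
    (by
      intro S hS
      rw [hcardS S hS]
      exact hactc _ ((mG S).1 hS).1)
    (fun S => (∅ : Finset V).disjSum (U S.toLeft))
    (by
      intro S _
      rw [hU0]
      exact Finset.disjSum_mono (Finset.Subset.refl _) (Finset.subset_univ _))
    (by
      intro S hS S' hS'
      exact Finset.disjSum_mono (Finset.Subset.refl _)
        (hmono _ _ (hactc _ ((mG S).1 hS).1) (Finset.toLeft_subset_toLeft hS')))
    (fun S => (Fam S.toLeft).image (fun Q => (∅ : Finset V).disjSum Q))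
    (by
      intro S hS Q' hQ'
      rw [Finset.mem_image] at hQ'
      obtain ⟨Q, hQ, rfl⟩ := hQ'
      have h1 := hFam _ ((mG S).1 hS).1 Q hQ
      refine ⟨Finset.disjSum_mono (Finset.Subset.refl _) h1.1, ?_⟩
      rw [Finset.card_disjSum, Finset.card_empty, zero_add, h1.2, hcardS S hS])
    (by
      intro S hS
      rw [hcardS S hS]
      exact refspan_spans _ _ _ _ (hsp _ ((mG S).1 hS).1))
    J
    (by
      intro e he
      obtain ⟨h1, h2⟩ := hJs e he
      refine ⟨?_, ?_, ?_⟩
      · rw [← Finset.card_toLeft_add_card_toRight, h2, Finset.card_empty, add_zero]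
        exact hX _ (hL h1)
      · rw [hsd, mG, Finset.toLeft_disjSum, Finset.toRight_disjSum]
        refine ⟨?_, rfl⟩
        rw [refspan_mem_actv]; right; exact hL h1
      · rw [hin, h2]
        exact Finset.disjSum_mono (Finset.Subset.refl _) (Finset.empty_subset _))
    (by
      intro A hA
      by_cases hAr : A.toRight = ∅
      · have hAc : A.card = A.toLeft.card := by
          rw [← Finset.card_toLeft_add_card_toRight, hAr, Finset.card_empty, add_zero]
        have h1 : dsum r J A = ((dg L A.toLeft : ℕ) : ZMod N) := by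
          unfold dsum dg
          simp only [hJ]
          rw [← Finset.sum_filter, Finset.sum_const, nsmul_eq_mul, mul_one]
          congr 1
          refine Finset.card_bij (fun e _ => e.toLeft) ?_ ?_ ?_
          · intro e he
            rw [Finset.mem_filter, Finset.mem_filter] at he
            rw [Finset.mem_filter]
            exact ⟨he.2.1, Finset.toLeft_subset_toLeft he.1.2⟩
          · intro e₁ he₁ e₂ he₂ heq
            rw [Finset.mem_filter] at he₁ he₂
            rw [← Finset.toLeft_disjSum_toRight (u := e₁),
              ← Finset.toLeft_disjSum_toRight (u := e₂), heq, he₁.2.2, he₂.2.2]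
          · intro e he
            rw [Finset.mem_filter] at he
            refine ⟨e.disjSum ∅, ?_, Finset.toLeft_disjSum⟩
            rw [Finset.mem_filter, Finset.mem_filter, Finset.mem_powersetCard,
              Finset.toLeft_disjSum, Finset.toRight_disjSum, Finset.card_disjSum,
              Finset.card_empty, add_zero, Finset.subset_disjSum, hAr]
            exact ⟨⟨⟨Finset.subset_univ _, hX _ (hL he.1)⟩, he.2, Finset.Subset.refl _⟩,
              he.1, rfl⟩
        rw [h1, hAc]
        rw [hAc] at hA
        rcases hA.lt_or_eq with hlt | heq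
        · have := hdiv A.toLeft hlt
          exact_mod_cast (Nat.cast_dvd_cast (α := ZMod N) this)
        · rw [heq]; simp
      · have h1 : dsum r J A = 0 := by
          unfold dsum
          refine Finset.sum_eq_zero fun e he => ?_
          rw [Finset.mem_filter] at he
          rw [hJ, if_neg]
          rintro ⟨_, h2⟩
          have h3 : A.toRight ⊆ e.toRight := Finset.toRight_subset_toRight he.2
          rw [h2] at h3
          exact hAr (Finset.subset_empty.1 h3)
        rw [h1]; exact dvd_zero _)
  -- push forward
  let Prj : (Finset (V ⊕ V) → ZMod N) →ₗ[ZMod N] (Finset V → ZMod N) :=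
    { toFun := fun f e => ∑ e' ∈ (Finset.univ : Finset (Finset (V ⊕ V))).filter
        (fun e' => e'.toLeft ∪ e'.toRight = e), f e'
      map_add' := by
        intro a b; funext e
        simp only [Pi.add_apply, Finset.sum_add_distrib]
      map_smul' := by
        intro c a; funext e
        simp only [Pi.smul_apply, smul_eq_mul, Finset.mul_sum, RingHom.id_apply] }
  have hPrJ : Prj J = fun e => if e ∈ L then (1 : ZMod N) else 0 := by
    funext e
    change ∑ e' ∈ (Finset.univ : Finset (Finset (V ⊕ V))).filter
        (fun e' => e'.toLeft ∪ e'.toRight = e), J e' = _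
    by_cases he : e ∈ L
    · rw [if_pos he, Finset.sum_eq_single_of_mem (e.disjSum ∅)]
      · rw [hJ, Finset.toLeft_disjSum, Finset.toRight_disjSum, if_pos ⟨he, rfl⟩]
      · rw [Finset.mem_filter, Finset.toLeft_disjSum, Finset.toRight_disjSum, Finset.union_empty]
        exact ⟨Finset.mem_univ _, rfl⟩
      · intro e' he' hne
        rw [Finset.mem_filter] at he'
        rw [hJ, if_neg]
        rintro ⟨_, h2⟩
        apply hne
        rw [← Finset.toLeft_disjSum_toRight (u := e'), h2]
        rw [h2, Finset.union_empty] at he'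
        rw [he'.2]
    · rw [if_neg he]
      refine Finset.sum_eq_zero fun e' he' => ?_
      rw [Finset.mem_filter] at he'
      rw [hJ, if_neg]
      rintro ⟨h1, h2⟩
      rw [h2, Finset.union_empty] at he'
      exact he (he'.2 ▸ h1)
  have h3 := Submodule.apply_mem_span_image_of_mem_span Prj hmem
  rw [hPrJ] at h3
  refine Submodule.span_mono ?_ h3
  rintro _ ⟨_, ⟨S, hS, rfl⟩, rfl⟩
  rw [Finset.mem_coe, Finset.mem_biUnion] at hS
  obtain ⟨S₀, hS₀, hS⟩ := hS
  rw [Finset.mem_image] at hS
  obtain ⟨Q', hQ', rfl⟩ := hS
  rw [Finset.mem_image] at hQ'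
  obtain ⟨Q, hQ, rfl⟩ := hQ'
  obtain ⟨hT, hTr⟩ := (mG S₀).1 hS₀
  obtain ⟨T, hTdef⟩ : ∃ T, T = S₀.toLeft := ⟨_, rfl⟩
  have hS₀eq : S₀ = T.disjSum ∅ := by
    rw [hTdef, ← hTr, Finset.toLeft_disjSum_toRight]
  rw [← hTdef] at hT hQ
  have hQT := hFam T hT Q hQ
  have hd : Disjoint T Q := (hdisj T (hactc T hT)).mono_right hQT.1
  refine ⟨T ∪ Q, ?_, ?_⟩
  · rw [Finset.mem_coe, Finset.mem_biUnion]
    exact ⟨T, hT, Finset.mem_image_of_mem _ hQ⟩
  · have hSQ : S₀ ∪ (∅ : Finset V).disjSum Q = T.disjSum Q := by
      rw [hS₀eq]
      ext x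
      rcases x with x | x <;> simp
    rw [hSQ]
    funext e
    change _ = ∑ e' ∈ (Finset.univ : Finset (Finset (V ⊕ V))).filter
        (fun e' => e'.toLeft ∪ e'.toRight = e), ind (ZMod N) r (T.disjSum Q) e'
    unfold ind
    have hcard : ∀ e' : Finset (V ⊕ V), e' ⊆ T.disjSum Q →
        (e'.toLeft ∪ e'.toRight).card = e'.card := by
      intro e' he'
      rw [Finset.subset_disjSum] at he'
      rw [Finset.card_union_of_disjoint (hd.mono he'.1 he'.2),
        Finset.card_toLeft_add_card_toRight]
    by_cases he : e ∈ (T ∪ Q).powersetCard r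
    · rw [if_pos he]
      rw [Finset.mem_powersetCard] at he
      have hpart : (e ∩ T) ∪ (e ∩ Q) = e := by
        rw [← Finset.inter_union_distrib_left]; exact Finset.inter_eq_left.2 he.1
      rw [Finset.sum_eq_single_of_mem ((e ∩ T).disjSum (e ∩ Q))]
      · rw [if_pos]
        rw [Finset.mem_powersetCard]
        refine ⟨Finset.disjSum_mono Finset.inter_subset_right Finset.inter_subset_right, ?_⟩
        have := hcard ((e ∩ T).disjSum (e ∩ Q))
          (Finset.disjSum_mono Finset.inter_subset_right Finset.inter_subset_right)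
        rw [Finset.toLeft_disjSum, Finset.toRight_disjSum, hpart] at this
        rw [← this]; exact he.2
      · rw [Finset.mem_filter, Finset.toLeft_disjSum, Finset.toRight_disjSum]
        exact ⟨Finset.mem_univ _, hpart⟩
      · intro e' he' hne
        rw [Finset.mem_filter] at he'
        rw [if_neg]
        intro hmem'
        rw [Finset.mem_powersetCard, Finset.subset_disjSum] at hmem'
        apply hne
        obtain ⟨⟨h1, h2⟩, _⟩ := hmem'
        have e1 : e ∩ T = e'.toLeft := by
          rw [← he'.2]
          ext x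
          rw [Finset.mem_inter, Finset.mem_union]
          constructor
          · rintro ⟨h3 | h3, h4⟩
            · exact h3
            · exact absurd (h2 h3) (Finset.disjoint_left.1 hd h4)
          · intro h3; exact ⟨Or.inl h3, h1 h3⟩
        have e2 : e ∩ Q = e'.toRight := by
          rw [← he'.2]
          ext x
          rw [Finset.mem_inter, Finset.mem_union]
          constructor
          · rintro ⟨h3 | h3, h4⟩
            · exact absurd h4 (Finset.disjoint_left.1 hd (h1 h3))
            · exact h3
          · intro h3; exact ⟨Or.inr h3, h2 h3⟩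
        rw [e1, e2, Finset.toLeft_disjSum_toRight]
    · rw [if_neg he]
      refine (Finset.sum_eq_zero fun e' he' => ?_).symm
      rw [Finset.mem_filter] at he'
      rw [if_neg]
      intro hmem'
      rw [Finset.mem_powersetCard] at hmem'
      apply he
      rw [Finset.mem_powersetCard, ← he'.2, hcard e' hmem'.1]
      rw [Finset.subset_disjSum] at hmem'
      exact ⟨Finset.union_subset_union hmem'.1.1 hmem'.1.2, hmem'.2⟩

end Pool.Agent.Des
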