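import Pool.Agent.Lib_helper96.Des.RandSets
import Pool.Agent.Lib_helper96.Des.RefSpan

/-!
# Block REFINER: reserve and sparse spanning family

Combine `randsets`, `randfams` (with `κ = min κ₁ κ₁'`) and `refspan`.
`dg X S ≤ 2 n lam^(r^r)` is `degX` with `T' = S`, `g = ∅`.
-/

set_option autoImplicit false

namespace Pool.Agent.Des

open Finset

theorem refiner (q r N : ℕ) (hr : 1 ≤ r) (hq : r < q) (hN0 : 0 < N)
    (hN : ∀ i ≤ r, (q - i).choose (r - i) ∣ N) (α β : ℝ) (hα : 0 < α) (hβ : 0 < β) :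
    ∃ (δ : ℝ) (n₀ : ℕ), 0 < δ ∧ δ ≤ 1 / 2 ∧
    ∀ (V : Type) [Fintype V] [DecidableEq V], n₀ ≤ Fintype.card V →
    ∀ G : Finset (Finset V), Unif r G →
    (∀ e ∈ G, α * (Fintype.card V : ℝ) ^ (q - r) ≤ ((ext q r G e).card : ℝ)) →
    ∃ X ⊆ G, ∃ F : Finset (Finset V), (∀ Q ∈ F, Q.card = q) ∧
      (∀ S : Finset V, S.card = r - 1 → (dg X S : ℝ) ≤ (Fintype.card V : ℝ) ^ (1 - δ)) ∧
      (∀ e ∈ G, (Fintype.card V : ℝ) ^ ((q : ℝ) - r - β) ≤ ((ext q r X e).card : ℝ)) ∧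
      (∀ A : Finset V, A.card < r →
        (dg F A : ℝ) ≤ (Fintype.card V : ℝ) ^ ((r : ℝ) - A.card - δ)) ∧
      ∀ L ⊆ X, Divis q r L →
        (fun e => if e ∈ L then (1 : ZMod N) else 0) ∈ spn (ZMod N) r F := by
  obtain ⟨κa, hκa, ha⟩ := randsets q r hr hq α β hα hβ
  obtain ⟨κb, hκb, hb⟩ := randfams q r N hr hq hN0 hN
  obtain ⟨κ, hκdef⟩ : ∃ κ : ℝ, κ = min κa κb := ⟨_, rfl⟩
  have hκ0 : 0 < κ := by rw [hκdef]; exact lt_min hκa hκb
  obtain ⟨na, hna⟩ := ha κ hκ0 (by rw [hκdef]; exact min_le_left _ _)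
  obtain ⟨δ', nb, hδ', hnb⟩ := hb κ hκ0 (by rw [hκdef]; exact min_le_right _ _)
  obtain ⟨δ, hδdef⟩ : ∃ δ : ℝ, δ = min δ' (min (κ * (r : ℝ) ^ r / 2) (1 / 2)) := ⟨_, rfl⟩
  have hrr : (0 : ℝ) < (r : ℝ) ^ r := by positivity
  have hδ0 : 0 < δ := by
    rw [hδdef]; exact lt_min hδ' (lt_min (by positivity) (by norm_num))
  have hδ1 : δ ≤ δ' := by rw [hδdef]; exact min_le_left _ _
  have hδ2 : δ ≤ κ * (r : ℝ) ^ r / 2 := by
    rw [hδdef]; exact (min_le_right _ _).trans (min_le_left _ _)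
  have hδ3 : δ ≤ 1 / 2 := by
    rw [hδdef]; exact (min_le_right _ _).trans (min_le_right _ _)
  have hev : ∀ᶠ n : ℕ in Filter.atTop, (2 : ℝ) ≤ (n : ℝ) ^ (κ * (r : ℝ) ^ r / 2) :=
    ((tendsto_rpow_atTop (by positivity : 0 < κ * (r : ℝ) ^ r / 2)).comp
      tendsto_natCast_atTop_atTop).eventually_ge_atTop _
  obtain ⟨nc, hnc⟩ := Filter.eventually_atTop.1 hev
  refine ⟨δ, na + nb + nc + 1, hδ0, hδ3, ?_⟩
  intro V _ _ hV G hG hext
  have h2 := hnc (Fintype.card V) (by omega)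
  obtain ⟨X, hXG, U, hRS, hX2⟩ := hna V (by omega) G hG hext
  have hXu : Unif r X := fun e he => hG e (hXG he)
  obtain ⟨Fam, hF1, hF2, hF3⟩ := hnb V (by omega) X U hXu hRS
  have hactr : ∀ T ∈ actv r X, T.card ≤ r := by
    intro T hT
    unfold actv at hT
    rw [Finset.mem_filter] at hT
    rcases hT.2 with h | h
    · exact h.le
    · exact (hXu T h).le
  have hn1 : (1 : ℝ) ≤ (Fintype.card V : ℝ) := by
    have : 1 ≤ Fintype.card V := by omega
    exact_mod_cast this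
  have hn0 : (0 : ℝ) < (Fintype.card V : ℝ) := by linarith
  refine ⟨X, hXG, (actv r X).biUnion (fun T => (Fam T).image fun Q => T ∪ Q), ?_, ?_, hX2, ?_, ?_⟩
  · intro Q' hQ'
    rw [Finset.mem_biUnion] at hQ'
    obtain ⟨T, hT, hQ'⟩ := hQ'
    rw [Finset.mem_image] at hQ'
    obtain ⟨Q, hQ, rfl⟩ := hQ'
    obtain ⟨h3, h4⟩ := hF1 T hT Q hQ
    have hd : Disjoint T Q := (hRS.disj T (hactr T hT)).mono_right h3
    rw [Finset.card_union_of_disjoint hd, h4]
    have := hactr T hT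
    omega
  · intro S hS
    have h3 := hRS.degX S ∅ (by rw [Finset.card_empty]; omega)
    rw [Finset.card_empty, zero_mul, add_zero, hS] at h3
    have e1 : r - (r - 1) = 1 := by omega
    rw [e1, pow_one] at h3
    have h4 : (dg X S : ℝ) ≤ 2 * (Fintype.card V : ℝ) * ((Fintype.card V : ℝ) ^ (-κ)) ^ r ^ r := by
      refine le_trans ?_ h3
      unfold dg
      have : X.filter (fun e => S ⊆ e) = X.filter (fun e => S ⊆ e ∧ ∅ ⊆ U e) := by
        refine Finset.filter_congr fun e _ => ?_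
        simp
      rw [this]
    refine h4.trans ?_
    have h5 : ((Fintype.card V : ℝ) ^ (-κ)) ^ r ^ r = (Fintype.card V : ℝ) ^ (-(κ * (r : ℝ) ^ r)) := by
      rw [← Real.rpow_natCast, ← Real.rpow_mul hn0.le]
      congr 1; push_cast; ring
    rw [h5]
    calc 2 * (Fintype.card V : ℝ) * (Fintype.card V : ℝ) ^ (-(κ * (r : ℝ) ^ r))
        ≤ (Fintype.card V : ℝ) ^ (κ * (r : ℝ) ^ r / 2) * (Fintype.card V : ℝ) *
          (Fintype.card V : ℝ) ^ (-(κ * (r : ℝ) ^ r)) := by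
          refine mul_le_mul_of_nonneg_right ?_ (Real.rpow_nonneg hn0.le _)
          exact mul_le_mul_of_nonneg_right h2 hn0.le
      _ = (Fintype.card V : ℝ) ^ (1 - κ * (r : ℝ) ^ r / 2) := by
          have : (Fintype.card V : ℝ) ^ (κ * (r : ℝ) ^ r / 2) * (Fintype.card V : ℝ) *
              (Fintype.card V : ℝ) ^ (-(κ * (r : ℝ) ^ r)) =
              (Fintype.card V : ℝ) ^ (κ * (r : ℝ) ^ r / 2) * (Fintype.card V : ℝ) ^ (1 : ℝ) *
              (Fintype.card V : ℝ) ^ (-(κ * (r : ℝ) ^ r)) := by rw [Real.rpow_one]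
          rw [this, ← Real.rpow_add hn0, ← Real.rpow_add hn0]
          congr 1; ring
      _ ≤ (Fintype.card V : ℝ) ^ (1 - δ) :=
          Real.rpow_le_rpow_of_exponent_le hn1 (by linarith)
  · intro A hA
    have h3 : dg ((actv r X).biUnion (fun T => (Fam T).image fun Q => T ∪ Q)) A ≤
        ∑ T ∈ actv r X, ((Fam T).filter (fun Q => A ⊆ T ∪ Q)).card := by
      unfold dg
      rw [Finset.filter_biUnion]
      refine Finset.card_biUnion_le.trans (Finset.sum_le_sum fun T _ => ?_)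
      rw [Finset.filter_image]
      exact Finset.card_image_le
    have h4 : (dg ((actv r X).biUnion (fun T => (Fam T).image fun Q => T ∪ Q)) A : ℝ) ≤
        ∑ T ∈ actv r X, ((((Fam T).filter (fun Q => A ⊆ T ∪ Q)).card : ℕ) : ℝ) := by
      exact_mod_cast h3
    refine h4.trans ((hF3 A hA).trans ?_)
    exact Real.rpow_le_rpow_of_exponent_le hn1 (by linarith)
  · intro L hL hdiv
    exact refspan q r N hr hq X hXu U hRS.disj hRS.mono Fam hF1 hF2 L hL hdiv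

end Pool.Agent.Des
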