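import Pool.Agent.Lib_helper96.Des.Dec

/-!
# Block PIECEDIV: unions of stubs at `f` are divisible if their number is `≡ 0` mod `N`

If `Y l ∩ Y l' = f` for `l ≠ l'` the stubs are pairwise disjoint and
`dg (⋃ stub (Y l) f) T = ∑_l dg ((Y l).powersetCard r) T - k [T ⊆ f]`; every term
`dg ((Y l).powersetCard r) T` is `0` or `(q-|T|).choose (r-|T|)`, and `N ∣ k`.
-/

set_option autoImplicit false

namespace Pool.Agent.Des

open Finset

theorem pd_count {q r : ℕ} {V : Type} [DecidableEq V] {ι : Type}
    [DecidableEq ι] (I : Finset ι) (Y : ι → Finset V) (f : Finset V) (hf : f.card = r)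
    (hY : ∀ l ∈ I, (Y l).card = q ∧ f ⊆ Y l)
    (hYY : ∀ l ∈ I, ∀ l' ∈ I, l ≠ l' → Y l ∩ Y l' = f) (T : Finset V) (hT : T.card < r) :
    ∃ k : ℕ, dg (I.biUnion fun l => stub r (Y l) f) T + (if T ⊆ f then I.card else 0) =
      (q - T.card).choose (r - T.card) * k := by
  have hdisj : ∀ l ∈ I, ∀ l' ∈ I, l ≠ l' → Disjoint (stub r (Y l) f) (stub r (Y l') f) := by
    intro l hl l' hl' hne
    rw [Finset.disjoint_left]
    intro γ hγ hγ'
    unfold stub at hγ hγ'
    rw [Finset.mem_erase, Finset.mem_powersetCard] at hγ hγ'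
    have h1 : γ ⊆ f := by
      rw [← hYY l hl l' hl' hne]
      exact Finset.subset_inter hγ.2.1 hγ'.2.1
    exact hγ.1 (Finset.eq_of_subset_of_card_le h1 (by rw [hf, hγ.2.2]))
  rw [dg_biUnion I _ hdisj T]
  have h1 : ∀ l ∈ I, dg (stub r (Y l) f) T + (if T ⊆ f then 1 else 0) =
      (q - T.card).choose (r - T.card) * (if T ⊆ Y l then 1 else 0) := by
    intro l hl
    have h2 := dg_powersetCard r (Y l) T hT.le
    have hfm : f ∈ (Y l).powersetCard r := Finset.mem_powersetCard.mpr ⟨(hY l hl).2, hf⟩
    have h3 : (Y l).powersetCard r = insert f (stub r (Y l) f) := by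
      unfold stub
      rw [Finset.insert_erase hfm]
    have h4 : f ∉ stub r (Y l) f := by
      unfold stub
      exact Finset.notMem_erase _ _
    have h5 : dg ((Y l).powersetCard r) T = dg (stub r (Y l) f) T + (if T ⊆ f then 1 else 0) := by
      rw [h3]
      unfold dg
      rw [Finset.filter_insert]
      split_ifs with h6
      · rw [Finset.card_insert_of_notMem]
        intro h7
        exact h4 (Finset.mem_filter.mp h7).1
      · rfl
    rw [← h5, h2, (hY l hl).1]
    split_ifs <;> simp
  refine ⟨∑ l ∈ I, (if T ⊆ Y l then 1 else 0), ?_⟩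
  rw [Finset.mul_sum, ← Finset.sum_congr rfl h1, Finset.sum_add_distrib]
  congr 1
  split_ifs <;> simp

theorem stubs_divis (q r N : ℕ) (hr : 1 ≤ r) (hq : r < q)
    (hN : ∀ i ≤ r, (q - i).choose (r - i) ∣ N) {V : Type} [DecidableEq V] {ι : Type}
    [DecidableEq ι] (I : Finset ι) (Y : ι → Finset V) (f : Finset V) (hf : f.card = r)
    (hY : ∀ l ∈ I, (Y l).card = q ∧ f ⊆ Y l)
    (hYY : ∀ l ∈ I, ∀ l' ∈ I, l ≠ l' → Y l ∩ Y l' = f) :
    (N ∣ I.card → Divis q r (I.biUnion fun l => stub r (Y l) f)) ∧
    (I.card ≡ 1 [MOD N] → Divis q r ({f} ∪ I.biUnion fun l => stub r (Y l) f)) := by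
  constructor
  · intro hI T hT
    obtain ⟨k, hk⟩ := pd_count (q := q) I Y f hf hY hYY T hT
    have h1 : (q - T.card).choose (r - T.card) ∣ (if T ⊆ f then I.card else 0) := by
      split_ifs
      · exact (hN _ hT.le).trans hI
      · exact dvd_zero _
    have h2 : (q - T.card).choose (r - T.card) ∣
        dg (I.biUnion fun l => stub r (Y l) f) T + (if T ⊆ f then I.card else 0) := ⟨k, hk⟩
    exact (Nat.dvd_add_left h1).mp h2
  · intro hI T hT
    obtain ⟨k, hk⟩ := pd_count (q := q) I Y f hf hY hYY T hT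
    have hd : Disjoint ({f} : Finset (Finset V)) (I.biUnion fun l => stub r (Y l) f) := by
      rw [Finset.disjoint_singleton_left, Finset.mem_biUnion]
      rintro ⟨l, _, hl⟩
      unfold stub at hl
      exact Finset.notMem_erase _ _ hl
    rw [dg_disjUnion hd]
    have h0 : dg ({f} : Finset (Finset V)) T = if T ⊆ f then 1 else 0 := by
      unfold dg
      rw [Finset.filter_singleton]
      split_ifs <;> simp
    rw [h0]
    by_cases hTf : T ⊆ f
    · rw [if_pos hTf] at hk ⊢
      have h1 : I.card ≡ 1 [MOD (q - T.card).choose (r - T.card)] := hI.of_dvd (hN _ hT.le)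
      have h2 : dg (I.biUnion fun l => stub r (Y l) f) T + I.card ≡ 0
          [MOD (q - T.card).choose (r - T.card)] := by
        rw [hk]
        exact (Nat.modEq_zero_iff_dvd).mpr ⟨k, rfl⟩
      have h3 : dg (I.biUnion fun l => stub r (Y l) f) T + 1 ≡ 0
          [MOD (q - T.card).choose (r - T.card)] :=
        (Nat.ModEq.add_left _ h1.symm).trans h2
      rw [Nat.add_comm] at h3
      exact (Nat.modEq_zero_iff_dvd).mp h3
    · rw [if_neg hTf] at hk ⊢
      rw [Nat.add_zero] at hk
      rw [Nat.zero_add]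
      exact ⟨k, hk⟩

theorem pd_nxt {N : ℕ} {β : Type*} (hN : 2 ≤ N) (o : Option β) (act : Bool) (a : ℕ) (ha : a < N) :
    nxt N o act a < N ∧
    (act = false → nxt N o act a = a) ∧
    (act = true → ∀ x, o = some x → (N ∣ 1 + (N - a + nxt N o act a))) ∧
    (act = true → o = none → (N - a + nxt N o act a) ≡ 1 [MOD N]) := by
  have hN0 : 0 < N := by omega
  refine ⟨?_, ?_, ?_, ?_⟩
  · unfold nxt
    split <;> exact Nat.mod_lt _ hN0
  · rintro rfl
    unfold nxt
    exact Nat.mod_eq_of_lt ha
  · rintro rfl x rfl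
    unfold nxt
    simp only
    rcases Nat.eq_zero_or_pos a with rfl | h
    · rw [Nat.zero_add, Nat.mod_eq_of_lt (by omega : N - 1 < N)]
      exact ⟨2, by omega⟩
    · have : (a + (N - 1)) % N = a - 1 := by
        rw [show a + (N - 1) = (a - 1) + N by omega, Nat.add_mod_right,
          Nat.mod_eq_of_lt (by omega)]
      rw [this]
      exact ⟨1, by omega⟩
  · rintro rfl rfl
    unfold nxt
    simp only
    rcases Nat.lt_or_ge (a + 1) N with h | h
    · rw [Nat.mod_eq_of_lt h]
      rw [show N - a + (a + 1) = 1 + N by omega]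
      exact Nat.add_modEq_right
    · have : a + 1 = N := by omega
      rw [this, Nat.mod_self]
      rw [show N - a + 0 = 1 by omega]

/-- the pieces of the chain are divisible -/
theorem piece_divis (q r N : ℕ) (hr : 1 ≤ r) (hq : r < q) (hN2 : 2 ≤ N)
    (hN : ∀ i ≤ r, (q - i).choose (r - i) ∣ N) {V : Type} [DecidableEq V]
    (st : Finset V × ℕ → Finset V → Finset V)
    (part : Finset V → ℕ → Option (Finset V × ℕ)) (Y : Finset V → ℕ → ℕ → Finset V)
    (f : Finset V) (hf : f.card = r) (i : ℕ) (act : Bool) (a : ℕ) (ha : a < N)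
    (hst : ∀ x, part f i = some x → (st x f).card = q ∧ f ⊆ st x f)
    (hY : ∀ j, j = i ∨ (j = i + 1 ∧ nxt N (part f i) act a ≠ 0) → ∀ l < N,
      (Y f j l).card = q ∧ f ⊆ Y f j l)
    (hYY : ∀ j j', (j = i ∨ (j = i + 1 ∧ nxt N (part f i) act a ≠ 0)) →
      (j' = i ∨ (j' = i + 1 ∧ nxt N (part f i) act a ≠ 0)) → ∀ l < N, ∀ l' < N,
      (j, l) ≠ (j', l') → Y f j l ∩ Y f j' l' = f)
    (hsY : ∀ x, part f i = some x → ∀ j,
      (j = i ∨ (j = i + 1 ∧ nxt N (part f i) act a ≠ 0)) → ∀ l < N, st x f ∩ Y f j l = f) :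
    Divis q r (piece r N st part Y f i act a) := by
  obtain ⟨hb, hn1, hn2, hn3⟩ := pd_nxt hN2 (part f i) act a ha
  set b := nxt N (part f i) act a with hbdef
  -- the wires
  set J : Finset (ℕ × ℕ) := (Finset.Ico a N).image (fun l => (i, l)) ∪
    (Finset.range b).image (fun l => (i + 1, l)) with hJ
  have hJm : ∀ p ∈ J, (p.1 = i ∨ (p.1 = i + 1 ∧ b ≠ 0)) ∧ p.2 < N := by
    intro p hp
    rw [hJ, Finset.mem_union, Finset.mem_image, Finset.mem_image] at hp
    rcases hp with ⟨l, hl, rfl⟩ | ⟨l, hl, rfl⟩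
    · exact ⟨Or.inl rfl, (Finset.mem_Ico.mp hl).2⟩
    · have := Finset.mem_range.mp hl
      exact ⟨Or.inr ⟨rfl, by omega⟩, by simp only; omega⟩
  have hJc : J.card = N - a + b := by
    rw [hJ, Finset.card_union_of_disjoint, Finset.card_image_of_injective,
      Finset.card_image_of_injective, Nat.card_Ico, Finset.card_range]
    · intro x y h; simpa using h
    · intro x y h; simpa using h
    · rw [Finset.disjoint_left]
      intro p hp hp'
      rw [Finset.mem_image] at hp hp'
      obtain ⟨l, _, rfl⟩ := hp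
      obtain ⟨l', _, h⟩ := hp'
      simp at h
  have hJu : J.biUnion (fun p => stub r (Y f p.1 p.2) f) =
      ((Finset.Ico a N).biUnion fun l => stub r (Y f i l) f) ∪
        ((Finset.range b).biUnion fun l => stub r (Y f (i + 1) l) f) := by
    rw [hJ, Finset.union_biUnion, Finset.image_biUnion, Finset.image_biUnion]
  have c1 : ∀ p ∈ J, (Y f p.1 p.2).card = q ∧ f ⊆ Y f p.1 p.2 := fun p hp =>
    hY p.1 (hJm p hp).1 p.2 (hJm p hp).2
  have c2 : ∀ p ∈ J, ∀ p' ∈ J, p ≠ p' → Y f p.1 p.2 ∩ Y f p'.1 p'.2 = f := fun p hp p' hp' hne =>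
    hYY p.1 p'.1 (hJm p hp).1 (hJm p' hp').1 p.2 (hJm p hp).2 p'.2 (hJm p' hp').2 hne
  have key := stubs_divis q r N hr hq hN J (fun p => Y f p.1 p.2) f hf c1 c2
  cases hact : act with
  | false =>
    have e1 : piece r N st part Y f i false a = J.biUnion (fun p => stub r (Y f p.1 p.2) f) := by
      rw [hJu]
      unfold piece
      rw [hact] at hbdef
      rw [← hbdef]
      simp
    rw [e1]
    apply key.1
    rw [hJc, hn1 hact]
    exact ⟨1, by omega⟩
  | true =>
    cases hp : part f i with
    | none =>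
      have e1 : piece r N st part Y f i true a =
          {f} ∪ J.biUnion (fun p => stub r (Y f p.1 p.2) f) := by
        rw [hJu]
        unfold piece
        rw [hact] at hbdef
        rw [← hbdef, hp]
        simp only [elt, if_true]
        rw [Finset.union_assoc]
      rw [e1]
      apply key.2
      rw [hJc]
      exact hn3 hact hp
    | some x =>
      have e1 : piece r N st part Y f i true a =
          stub r (st x f) f ∪ J.biUnion (fun p => stub r (Y f p.1 p.2) f) := by
        rw [hJu]
        unfold piece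
        rw [hact] at hbdef
        rw [← hbdef, hp]
        simp only [elt, if_true]
        rw [Finset.union_assoc]
      set Y' : Option (ℕ × ℕ) → Finset V := fun o => match o with
        | none => st x f
        | some p => Y f p.1 p.2 with hY'
      set I' : Finset (Option (ℕ × ℕ)) := insert none (J.image some) with hI'
      have hn : (none : Option (ℕ × ℕ)) ∉ J.image some := by simp
      have e2 : stub r (st x f) f ∪ J.biUnion (fun p => stub r (Y f p.1 p.2) f) =
          I'.biUnion (fun o => stub r (Y' o) f) := by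
        rw [hI', Finset.biUnion_insert, Finset.image_biUnion]
      have hIc : I'.card = 1 + (N - a + b) := by
        rw [hI', Finset.card_insert_of_notMem hn,
          Finset.card_image_of_injective _ (Option.some_injective _), hJc]
        omega
      rw [e1, e2]
      refine (stubs_divis q r N hr hq hN I' Y' f hf ?_ ?_).1 ?_
      · intro o ho
        rw [hI', Finset.mem_insert, Finset.mem_image] at ho
        rcases ho with rfl | ⟨p, hpJ, rfl⟩
        · exact hst x hp
        · exact c1 p hpJ
      · intro o ho o' ho' hne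
        rw [hI', Finset.mem_insert, Finset.mem_image] at ho ho'
        rcases ho with rfl | ⟨p, hpJ, rfl⟩ <;> rcases ho' with rfl | ⟨p', hpJ', rfl⟩
        · exact absurd rfl hne
        · exact hsY x hp p'.1 (hJm p' hpJ').1 p'.2 (hJm p' hpJ').2
        · rw [Finset.inter_comm]
          exact hsY x hp p.1 (hJm p hpJ).1 p.2 (hJm p hpJ).2
        · exact c2 p hpJ p' hpJ' (fun h => hne (by rw [h]))
      · rw [hIc]
        exact hn2 hact x hp

end Pool.Agent.Des
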