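import Pool.Agent.Lib_helper96.Des.Defs

/-!
# Block ZDUAL: duality for submodules of `ι → ZMod N`

`zdual_sep`: characters `CharacterModule` of the finite abelian group `(ι → ZMod N) ⧸ D` separate
points (`CharacterModule.exists_character_apply_ne_zero_of_ne_zero`); the values on the unit vectors
are `N`-torsion in `AddCircle (1 : ℚ)`, hence of the form `k / N`.
`zdual_ext` follows from `zdual_sep` (double annihilators): `(S_P ∩ D)^⊥ = S_P^⊥ + D^⊥`.
-/

set_option autoImplicit false

namespace Pool.Agent.Des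

open Finset

theorem zdual_zmod_mul (N : ℕ) [NeZero N] (x y : ZMod N) :
    AddChar.zmod N x y = AddChar.zmod N 1 (x * y) := by
  obtain ⟨a, rfl⟩ := ZMod.intCast_surjective x
  obtain ⟨b, rfl⟩ := ZMod.intCast_surjective y
  have h1 := AddChar.zmod_intCast (n := N) a b
  have h2 := AddChar.zmod_intCast (n := N) 1 (a * b)
  push_cast at h1 h2
  rw [h1, h2, one_mul]

theorem zdual_zmod_one (N : ℕ) [NeZero N] (t : ZMod N) (h : AddChar.zmod N 1 t = 1) : t = 0 := by
  have h2 : AddChar.zmod N t = AddChar.zmod N 0 := by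
    ext s
    rw [zdual_zmod_mul N t s, zdual_zmod_mul N 0 s, zero_mul, AddChar.map_zero_eq_one]
    obtain ⟨k, rfl⟩ := ZMod.natCast_zmod_surjective s
    have : t * (k : ZMod N) = k • t := by rw [nsmul_eq_mul, mul_comm]
    rw [this, AddChar.map_nsmul_eq_pow, h, one_pow]
  exact AddChar.zmod_injective h2

theorem zdual_map_sum {A M ι : Type*} [AddCommMonoid A] [CommMonoid M] (ψ : AddChar A M)
    (s : Finset ι) (f : ι → A) : ψ (∑ i ∈ s, f i) = ∏ i ∈ s, ψ (f i) := by
  classical
  induction s using Finset.induction_on with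
  | empty => simp
  | insert a s ha ih =>
    rw [Finset.sum_insert ha, Finset.prod_insert ha, AddChar.map_add_eq_mul, ih]

theorem zdual_sep {ι : Type*} [Fintype ι] [DecidableEq ι] (N : ℕ) (hN : 0 < N)
    (D : Submodule (ZMod N) (ι → ZMod N)) (x : ι → ZMod N) (hx : x ∉ D) :
    ∃ φ : ι → ZMod N, (∀ y ∈ D, ∑ i, φ i * y i = 0) ∧ ∑ i, φ i * x i ≠ 0 := by
  have hNe : NeZero N := ⟨hN.ne'⟩
  have hfin : Finite ((ι → ZMod N) ⧸ D) := inferInstance
  have ha : (Submodule.Quotient.mk x : (ι → ZMod N) ⧸ D) ≠ 0 := by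
    rw [Ne, Submodule.Quotient.mk_eq_zero]; exact hx
  obtain ⟨ψ, hψ⟩ := AddChar.exists_apply_ne_zero.2 ha
  let f : ∀ i : ι, ZMod N →+ ((ι → ZMod N) ⧸ D) := fun i =>
    (D.mkQ.toAddMonoidHom).comp (AddMonoidHom.single (fun _ => ZMod N) i)
  have hk : ∀ i, ∃ k : ZMod N, ∀ t, ψ (f i t) = ((AddChar.zmod N 1 (k * t) : Circle) : ℂ) := by
    intro i
    obtain ⟨k, hk⟩ := AddChar.zmodAddEquiv.surjective (ψ.compAddMonoidHom (f i))
    refine ⟨k, fun t => ?_⟩
    have := DFunLike.congr_fun hk t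
    rw [AddChar.zmodAddEquiv_apply] at this
    rw [← zdual_zmod_mul]
    exact this.symm
  choose φ hφ using hk
  have key : ∀ y : ι → ZMod N, ψ (Submodule.Quotient.mk y) =
      ((AddChar.zmod N 1 (∑ i, φ i * y i) : Circle) : ℂ) := by
    intro y
    have e1 : (Submodule.Quotient.mk y : (ι → ZMod N) ⧸ D) = ∑ i, f i (y i) := by
      have : y = ∑ i, Pi.single i (y i) := (Finset.univ_sum_single y).symm
      conv_lhs => rw [this]
      change D.mkQ _ = _
      rw [map_sum]
      rfl
    rw [e1, zdual_map_sum, zdual_map_sum]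
    have h3 : ((∏ i, (AddChar.zmod N 1 (φ i * y i)) : Circle) : ℂ) =
        ∏ i, ((AddChar.zmod N 1 (φ i * y i) : Circle) : ℂ) := map_prod Circle.coeHom _ _
    rw [h3]
    exact Finset.prod_congr rfl fun i _ => hφ i (y i)
  refine ⟨φ, fun y hy => ?_, fun h0 => ?_⟩
  · apply zdual_zmod_one
    have h1 := key y
    rw [(Submodule.Quotient.mk_eq_zero D).2 hy, AddChar.map_zero_eq_one] at h1
    have h2 : ((AddChar.zmod N 1 (∑ i, φ i * y i) : Circle) : ℂ) = ((1 : Circle) : ℂ) := by
      rw [← h1]; simp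
    exact Circle.coe_injective h2
  · apply hψ
    rw [key x, h0, AddChar.map_zero_eq_one]
    simp

theorem zdual_ext {ι : Type*} [Fintype ι] [DecidableEq ι] (N : ℕ) (hN : 0 < N)
    (D : Submodule (ZMod N) (ι → ZMod N)) (P : Finset ι) (φ : ι → ZMod N)
    (hφ : ∀ y ∈ D, (∀ i, y i ≠ 0 → i ∈ P) → ∑ i, φ i * y i = 0) :
    ∃ ψ : ι → ZMod N, (∀ i ∈ P, ψ i = φ i) ∧ ∀ y ∈ D, ∑ i, ψ i * y i = 0 := by
  -- annihilator
  let Dp : Submodule (ZMod N) (ι → ZMod N) :=
    { carrier := {ψ | ∀ y ∈ D, ∑ i, ψ i * y i = 0}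
      add_mem' := by
        intro a b ha hb y hy
        have h1 := ha y hy
        have h2 := hb y hy
        simp only [Pi.add_apply, add_mul, Finset.sum_add_distrib, h1, h2, add_zero]
      zero_mem' := by
        intro y _
        simp
      smul_mem' := by
        intro c a ha y hy
        have h1 := ha y hy
        simp only [Pi.smul_apply, smul_eq_mul, mul_assoc, ← Finset.mul_sum, h1, mul_zero] }
  have mDp : ∀ ψ, ψ ∈ Dp ↔ ∀ y ∈ D, ∑ i, ψ i * y i = 0 := fun ψ => Iff.rfl
  let res : (ι → ZMod N) →ₗ[ZMod N] (ι → ZMod N) :=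
    { toFun := fun ψ i => if i ∈ P then ψ i else 0
      map_add' := by
        intro a b
        funext i
        by_cases h : i ∈ P <;> simp [h]
      map_smul' := by
        intro c a
        funext i
        by_cases h : i ∈ P <;> simp [h] }
  have rapp : ∀ ψ i, res ψ i = if i ∈ P then ψ i else 0 := fun _ _ => rfl
  by_cases hmem : res φ ∈ Dp.map res
  · obtain ⟨ψ, hψ, heq⟩ := hmem
    refine ⟨ψ, fun i hi => ?_, (mDp ψ).1 hψ⟩
    have := congrFun heq i
    rw [rapp, rapp, if_pos hi, if_pos hi] at this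
    exact this
  · exfalso
    obtain ⟨z, hz1, hz2⟩ := zdual_sep N hN (Dp.map res) (res φ) hmem
    have hswap : ∀ ψ : ι → ZMod N, ∑ i, z i * res ψ i = ∑ i, ψ i * res z i := by
      intro ψ
      refine Finset.sum_congr rfl fun i _ => ?_
      rw [rapp, rapp]
      split_ifs
      · ring
      · ring
    by_cases hzD : res z ∈ D
    · apply hz2
      rw [hswap]
      refine hφ _ hzD fun i hi => ?_
      by_contra h
      exact hi (by rw [rapp, if_neg h])
    · obtain ⟨φ', h1, h2⟩ := zdual_sep N hN D (res z) hzD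
      apply h2
      rw [← hswap]
      exact hz1 _ (Submodule.mem_map_of_mem ((mDp φ').2 h1))

end Pool.Agent.Des
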