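import Pool.Agent.Lib_helper96.Des.Dec
import Pool.Agent.Lib_helper96.Des.Gjw
import Pool.Agent.Lib_helper96.Des.Zdual

/-!
# Block EXPAND: the expansion lemma

For `φ` on `ρ`-sets and a `q`-set `Q` write `φ(Q) = ∑_{e ⊆ Q, |e| = ρ} φ e`; `Q` is violated if
`φ(Q) ≠ 0`.  Let `m = |U|`, `w0 = q + ρ`, `b` = number of violated `q`-subsets of `U`.

Case `b` large (`2 b (w0.choose q) ≥ m.choose q`): take `ψ = 0`.

Otherwise, for `W0 ⊆ U` with `|W0| = w0`: `W0` is good if no violated `Q ⊆ W0`; at least half of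
the `W0` are good.  For good `W0` let `𝒢` = all `T ⊆ U \ W0`, `|T| ≤ ρ`, with no violated
`Q ⊆ W0 ∪ T` (down-closed, contains `∅`), `P` = the `ρ`-subsets `e` of `U` with `e \ W0 ∈ 𝒢`, and
`D` = submodule of all divisible functions supported on `ρ`-subsets of `U`.  If `J ∈ D` is supported
on `P`, then by `elim` (with `U0 = W0`, `G = 𝒢`, `UT T = W0`, `Fam T` = all `(q-|T|)`-subsets of
`W0`, spanning by `gjw`) `J` is a combination of `∂(T ∪ Q')`, `T ∈ 𝒢`, `Q' ⊆ W0`, and
`φ(T ∪ Q') = 0`.  So `zdual_ext` gives `ψ` killing `D` with `ψ = φ` on `P`, and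
`#{e : φ e ≠ ψ e} ≤ #{e : e \ W0 ∉ 𝒢} ≤ #{e : ∃ violated Q ⊆ W0 ∪ e, Q ⊄ W0}`.
Average over all `W0`: for a violated `Q` the number of pairs `(W0, e)` with `Q ⊆ W0 ∪ e`,
`Q ⊄ W0` is at most `∑_{i=1}^ρ (q.choose i) m^(ρ-i) * (m-(q-i)).choose (w0-(q-i))` and
`(m-k).choose (w0-k) ≤ (w0/m)^k (m.choose w0)`, so this is `≤ C m^(ρ-q) (m.choose w0)`.
-/

set_option autoImplicit false

namespace Pool.Agent.Des

open Finset

theorem expand_ch1 (m w k : ℕ) (h1 : k < w) (h2 : w ≤ m) :
    m * (m - (k + 1)).choose (w - (k + 1)) ≤ w * (m - k).choose (w - k) := by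
  obtain ⟨b, rfl⟩ : ∃ b, w = k + 1 + b := ⟨w - (k + 1), by omega⟩
  obtain ⟨a, rfl⟩ : ∃ a, m = k + 1 + a := ⟨m - (k + 1), by omega⟩
  have e1 : k + 1 + a - (k + 1) = a := by omega
  have e2 : k + 1 + b - (k + 1) = b := by omega
  have e3 : k + 1 + a - k = a + 1 := by omega
  have e4 : k + 1 + b - k = b + 1 := by omega
  rw [e1, e2, e3, e4]
  have h3 := Nat.add_one_mul_choose_eq a b
  have h4 : a.choose b ≤ (a + 1).choose (b + 1) := by
    rw [Nat.choose_succ_succ]; exact Nat.le_add_right _ _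
  calc (k + 1 + a) * a.choose b = (a + 1) * a.choose b + k * a.choose b := by ring
    _ = (a + 1).choose (b + 1) * (b + 1) + k * a.choose b := by rw [h3]
    _ ≤ (a + 1).choose (b + 1) * (b + 1) + k * (a + 1).choose (b + 1) := by
        exact Nat.add_le_add_left (Nat.mul_le_mul_left _ h4) _
    _ = (k + 1 + b) * (a + 1).choose (b + 1) := by ring

theorem expand_ch2 (m w : ℕ) (h2 : w ≤ m) (k : ℕ) (h1 : k ≤ w) :
    m ^ k * (m - k).choose (w - k) ≤ w ^ k * m.choose w := by
  induction k with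
  | zero => simp
  | succ k ih =>
    have h3 := expand_ch1 m w k h1 h2
    have h4 := ih (by omega)
    calc m ^ (k + 1) * (m - (k + 1)).choose (w - (k + 1))
        = m ^ k * (m * (m - (k + 1)).choose (w - (k + 1))) := by ring
      _ ≤ m ^ k * (w * (m - k).choose (w - k)) := Nat.mul_le_mul_left _ h3
      _ = w * (m ^ k * (m - k).choose (w - k)) := by ring
      _ ≤ w * (w ^ k * m.choose w) := Nat.mul_le_mul_left _ h4
      _ = w ^ (k + 1) * m.choose w := by ring

theorem expand_pow_le (m q : ℕ) (h : q ≤ m) : m ^ q ≤ q ^ q * q.factorial * m.choose q := by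
  rcases Nat.eq_zero_or_pos q with rfl | hq
  · simp
  · have h1 : m ≤ q * (m + 1 - q) := by
      obtain ⟨a, rfl⟩ : ∃ a, m = q + a := ⟨m - q, by omega⟩
      have : q + a + 1 - q = a + 1 := by omega
      rw [this]
      nlinarith
    have h2 : (m + 1 - q) ^ q ≤ q.factorial * m.choose q := by
      have := Nat.pow_sub_le_descFactorial m q
      rw [Nat.descFactorial_eq_factorial_mul_choose] at this
      exact this
    calc m ^ q ≤ (q * (m + 1 - q)) ^ q := Nat.pow_le_pow_left h1 q
      _ = q ^ q * (m + 1 - q) ^ q := by rw [mul_pow]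
      _ ≤ q ^ q * (q.factorial * m.choose q) := Nat.mul_le_mul_left _ h2
      _ = _ := by ring

/-- number of pairs `(W0, e)` with `Q ⊆ W0 ∪ e`, `Q ⊄ W0` -/
theorem expand_pairs {V : Type} [DecidableEq V] (ρ q : ℕ) (hρ : ρ ≤ q) (U : Finset V)
    (hU : q + ρ ≤ U.card) (Q : Finset V) (hQU : Q ⊆ U) (hQ : Q.card = q) :
    (∑ W ∈ U.powersetCard (q + ρ), ∑ e ∈ U.powersetCard ρ,
      if Q ⊆ W ∪ e ∧ ¬ Q ⊆ W then 1 else 0) * U.card ^ (q - ρ) ≤
      2 ^ q * (q + ρ) ^ q * U.card.choose (q + ρ) := by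
  have s1 : (∑ W ∈ U.powersetCard (q + ρ), ∑ e ∈ U.powersetCard ρ,
      if Q ⊆ W ∪ e ∧ ¬ Q ⊆ W then 1 else 0) ≤
      ∑ I ∈ Q.powerset, if I.Nonempty then (∑ W ∈ U.powersetCard (q + ρ),
        if Q \ I ⊆ W then 1 else 0) * (∑ e ∈ U.powersetCard ρ, if I ⊆ e then 1 else 0) else 0 := by
    have s2 : ∀ I ∈ Q.powerset, (if I.Nonempty then (∑ W ∈ U.powersetCard (q + ρ),
        if Q \ I ⊆ W then 1 else 0) * (∑ e ∈ U.powersetCard ρ, if I ⊆ e then 1 else 0) else 0) =
        ∑ W ∈ U.powersetCard (q + ρ), ∑ e ∈ U.powersetCard ρ,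
          if I.Nonempty ∧ Q \ I ⊆ W ∧ I ⊆ e then 1 else 0 := by
      intro I _
      by_cases hI : I.Nonempty
      · rw [if_pos hI, Finset.sum_mul_sum]
        refine Finset.sum_congr rfl fun W _ => Finset.sum_congr rfl fun e _ => ?_
        by_cases h1 : Q \ I ⊆ W <;> by_cases h2 : I ⊆ e <;> simp [hI, h1, h2]
      · rw [if_neg hI]
        refine (Finset.sum_eq_zero fun W _ => Finset.sum_eq_zero fun e _ => ?_).symm
        rw [if_neg]
        exact fun h => hI h.1
    rw [Finset.sum_congr rfl s2, Finset.sum_comm (s := Q.powerset)]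
    refine Finset.sum_le_sum fun W _ => ?_
    rw [Finset.sum_comm (s := Q.powerset)]
    refine Finset.sum_le_sum fun e _ => ?_
    by_cases h : Q ⊆ W ∪ e ∧ ¬ Q ⊆ W
    · rw [if_pos h]
      have hmem : Q \ W ∈ Q.powerset := Finset.mem_powerset.2 Finset.sdiff_subset
      have hle := Finset.single_le_sum
        (f := fun I => if I.Nonempty ∧ Q \ I ⊆ W ∧ I ⊆ e then (1 : ℕ) else 0)
        (fun I _ => Nat.zero_le _) hmem
      refine le_trans ?_ hle
      rw [if_pos]
      refine ⟨?_, ?_, ?_⟩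
      · rw [Finset.sdiff_nonempty]; exact h.2
      · intro x hx
        rw [Finset.mem_sdiff, Finset.mem_sdiff] at hx
        by_contra hxW
        exact hx.2 ⟨hx.1, hxW⟩
      · intro x hx
        rw [Finset.mem_sdiff] at hx
        rcases Finset.mem_union.1 (h.1 hx.1) with h' | h'
        · exact absurd h' hx.2
        · exact h'
    · rw [if_neg h]; exact Nat.zero_le _
  refine (Nat.mul_le_mul_right _ s1).trans ?_
  rw [Finset.sum_mul]
  have s3 : ∀ I ∈ Q.powerset, (if I.Nonempty then (∑ W ∈ U.powersetCard (q + ρ),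
        if Q \ I ⊆ W then 1 else 0) * (∑ e ∈ U.powersetCard ρ, if I ⊆ e then 1 else 0) else 0) *
          U.card ^ (q - ρ) ≤ (q + ρ) ^ q * U.card.choose (q + ρ) := by
    intro I hI
    rw [Finset.mem_powerset] at hI
    by_cases hIn : I.Nonempty
    · rw [if_pos hIn]
      have c1 : (∑ W ∈ U.powersetCard (q + ρ), if Q \ I ⊆ W then 1 else 0) =
          (U.card - (q - I.card)).choose (q + ρ - (q - I.card)) := by
        have h1 : (Q \ I).card = q - I.card := by rw [Finset.card_sdiff_of_subset hI, hQ]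
        have h2 := dg_powersetCard (q + ρ) U (Q \ I) (by rw [h1]; omega)
        rw [if_pos (Finset.sdiff_subset.trans hQU), h1] at h2
        rw [← h2, dg, Finset.card_filter]
      have hIq : I.card ≤ q := hQ ▸ Finset.card_le_card hI
      by_cases hIρ : I.card ≤ ρ
      · have c2 : (∑ e ∈ U.powersetCard ρ, if I ⊆ e then 1 else 0) =
            (U.card - I.card).choose (ρ - I.card) := by
          have h2 := dg_powersetCard ρ U I hIρ
          rw [if_pos (hI.trans hQU)] at h2
          rw [← h2, dg, Finset.card_filter]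
        have c3 : (U.card - I.card).choose (ρ - I.card) ≤ U.card ^ (ρ - I.card) :=
          (Nat.choose_le_pow _ _).trans (Nat.pow_le_pow_left (Nat.sub_le _ _) _)
        rw [c1, c2]
        have c4 := expand_ch2 U.card (q + ρ) hU (q - I.card) (by omega)
        have hw : 1 ≤ q + ρ := by
          have := Finset.card_pos.2 hIn
          omega
        calc (U.card - (q - I.card)).choose (q + ρ - (q - I.card)) *
              (U.card - I.card).choose (ρ - I.card) * U.card ^ (q - ρ)
            ≤ (U.card - (q - I.card)).choose (q + ρ - (q - I.card)) *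
              U.card ^ (ρ - I.card) * U.card ^ (q - ρ) := by gcongr
          _ = U.card ^ (q - I.card) *
              (U.card - (q - I.card)).choose (q + ρ - (q - I.card)) := by
              have : q - I.card = (ρ - I.card) + (q - ρ) := by omega
              conv_rhs => rw [show U.card ^ (q - I.card) = U.card ^ ((ρ - I.card) + (q - ρ)) by
                rw [← this]]
              rw [pow_add]; ring
          _ ≤ (q + ρ) ^ (q - I.card) * U.card.choose (q + ρ) := c4
          _ ≤ (q + ρ) ^ q * U.card.choose (q + ρ) :=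
              Nat.mul_le_mul_right _ (Nat.pow_le_pow_right hw (Nat.sub_le _ _))
      · have c2 : (∑ e ∈ U.powersetCard ρ, if I ⊆ e then 1 else 0) = 0 := by
          refine Finset.sum_eq_zero fun e he => ?_
          rw [if_neg]
          intro h
          rw [Finset.mem_powersetCard] at he
          have := Finset.card_le_card h
          omega
        rw [c2]; simp
    · rw [if_neg hIn]; simp
  refine (Finset.sum_le_sum s3).trans ?_
  rw [Finset.sum_const, Finset.card_powerset, hQ, smul_eq_mul, mul_assoc]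

/-- the dual function for a good set `W` -/
theorem expand_dual (ρ q N : ℕ) (hρ : ρ ≤ q) (hN : 0 < N) {V : Type} [Fintype V] [DecidableEq V]
    (U : Finset V) (φ : Finset V → ZMod N) (W : Finset V) (hWU : W ⊆ U) (hW : W.card = q + ρ)
    (hgood : ∀ Q ∈ U.powersetCard q, Q ⊆ W → ∑ e ∈ Q.powersetCard ρ, φ e = 0) :
    ∃ ψ : Finset V → ZMod N,
        (∀ J : Finset V → ZMod N, (∀ e, J e ≠ 0 → e ∈ U.powersetCard ρ) → IsDiv ρ q J →
          ∑ e ∈ U.powersetCard ρ, ψ e * J e = 0) ∧
        ∀ e ∈ U.powersetCard ρ, φ e ≠ ψ e → ∃ Q ∈ U.powersetCard q,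
          (∑ e ∈ Q.powersetCard ρ, φ e ≠ 0) ∧ Q ⊆ W ∪ e ∧ ¬ Q ⊆ W := by
  classical
  obtain ⟨G, hG⟩ : ∃ G : Finset (Finset V), ∀ T, T ∈ G ↔ (T ⊆ U \ W ∧ T.card ≤ ρ ∧
      ∀ Q ∈ U.powersetCard q, Q ⊆ W ∪ T → ∑ e ∈ Q.powersetCard ρ, φ e = 0) := by
    refine ⟨Finset.univ.filter (fun T => T ⊆ U \ W ∧ T.card ≤ ρ ∧
      ∀ Q ∈ U.powersetCard q, Q ⊆ W ∪ T → ∑ e ∈ Q.powersetCard ρ, φ e = 0), fun T => ?_⟩
    simp
  let D : Submodule (ZMod N) (Finset V → ZMod N) :=
    { carrier := {J | (∀ e, J e ≠ 0 → e ∈ U.powersetCard ρ) ∧ IsDiv ρ q J}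
      add_mem' := by
        rintro a b ⟨ha1, ha2⟩ ⟨hb1, hb2⟩
        refine ⟨fun e he => ?_, fun T hT => ?_⟩
        · by_contra hcon
          have h1 : a e = 0 := by by_contra h; exact hcon (ha1 e h)
          have h2 : b e = 0 := by by_contra h; exact hcon (hb1 e h)
          exact he (by rw [Pi.add_apply, h1, h2, add_zero])
        · have : dsum ρ (a + b) T = dsum ρ a T + dsum ρ b T := by
            unfold dsum
            rw [← Finset.sum_add_distrib]
            rfl
          rw [this]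
          exact dvd_add (ha2 T hT) (hb2 T hT)
      zero_mem' := by
        refine ⟨fun e he => absurd rfl he, fun T _ => ?_⟩
        have : dsum ρ (0 : Finset V → ZMod N) T = 0 := by
          unfold dsum; exact Finset.sum_eq_zero fun _ _ => rfl
        rw [this]; exact dvd_zero _
      smul_mem' := by
        rintro c a ⟨ha1, ha2⟩
        refine ⟨fun e he => ?_, fun T hT => ?_⟩
        · apply ha1
          intro h
          exact he (by rw [Pi.smul_apply, h, smul_zero])
        · have : dsum ρ (c • a) T = c * dsum ρ a T := by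
            unfold dsum
            rw [Finset.mul_sum]
            rfl
          rw [this]
          exact Dvd.dvd.mul_left (ha2 T hT) c }
  have mD : ∀ J, J ∈ D ↔ (∀ e, J e ≠ 0 → e ∈ U.powersetCard ρ) ∧ IsDiv ρ q J := fun J => Iff.rfl
  obtain ⟨ψ, hψ1, hψ2⟩ := zdual_ext N hN D ((U.powersetCard ρ).filter (fun e => e \ W ∈ G)) φ (by
    intro J hJD hJP
    rw [mD] at hJD
    have hmem := elim (R := ZMod N) ρ q hρ W G
      (by
        intro T hT T' hT'
        rw [hG] at hT ⊢
        refine ⟨hT'.trans hT.1, (Finset.card_le_card hT').trans hT.2.1, fun Q hQ hQW => ?_⟩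
        exact hT.2.2 Q hQ (hQW.trans (Finset.union_subset_union_right hT')))
      (by
        intro T hT
        rw [hG] at hT
        rw [Finset.disjoint_left]
        intro x hx
        exact (Finset.mem_sdiff.1 (hT.1 hx)).2)
      (by
        intro T hT
        rw [hG] at hT
        exact hT.2.1)
      (fun _ => W) (fun _ _ => Finset.Subset.refl _) (fun _ _ _ _ => Finset.Subset.refl _)
      (fun T => W.powersetCard (q - T.card))
      (by
        intro T _ Q hQ
        rw [Finset.mem_powersetCard] at hQ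
        exact hQ)
      (by
        intro T hT
        exact gjw (ρ - T.card) (q - T.card) (by omega) W (by omega))
      J
      (by
        intro e he
        have h1 := hJP e he
        rw [Finset.mem_filter, Finset.mem_powersetCard] at h1
        exact ⟨h1.1.2, h1.2, Finset.inter_subset_right⟩)
      hJD.2
    -- the functional
    let Φ : (Finset V → ZMod N) →ₗ[ZMod N] ZMod N :=
      { toFun := fun y => ∑ i, φ i * y i
        map_add' := by
          intro a b
          simp only [Pi.add_apply, mul_add, Finset.sum_add_distrib]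
        map_smul' := by
          intro c a
          simp only [Pi.smul_apply, smul_eq_mul, Finset.mul_sum, RingHom.id_apply]
          refine Finset.sum_congr rfl fun i _ => by ring }
    have hle : spn (ZMod N) ρ (G.biUnion fun T => (W.powersetCard (q - T.card)).image
        fun Q => T ∪ Q) ≤ LinearMap.ker Φ := by
      rw [spn, Submodule.span_le]
      rintro _ ⟨S, hS, rfl⟩
      rw [Finset.mem_coe, Finset.mem_biUnion] at hS
      obtain ⟨T, hT, hS⟩ := hS
      rw [Finset.mem_image] at hS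
      obtain ⟨Q, hQ, rfl⟩ := hS
      rw [hG] at hT
      rw [Finset.mem_powersetCard] at hQ
      rw [SetLike.mem_coe, LinearMap.mem_ker]
      change ∑ i, φ i * ind (ZMod N) ρ (T ∪ Q) i = 0
      have hd : Disjoint T Q := by
        rw [Finset.disjoint_left]
        intro x hx hxQ
        exact (Finset.mem_sdiff.1 (hT.1 hx)).2 (hQ.1 hxQ)
      have h1 : ∑ i, φ i * ind (ZMod N) ρ (T ∪ Q) i = ∑ e ∈ (T ∪ Q).powersetCard ρ, φ e := by
        unfold ind
        simp only [mul_ite, mul_one, mul_zero]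
        rw [← Finset.sum_filter]
        refine Finset.sum_congr ?_ fun _ _ => rfl
        ext e; simp
      rw [h1]
      refine hT.2.2 _ ?_ ?_
      · rw [Finset.mem_powersetCard]
        refine ⟨Finset.union_subset (hT.1.trans Finset.sdiff_subset) (hQ.1.trans hWU), ?_⟩
        rw [Finset.card_union_of_disjoint hd, hQ.2]
        omega
      · exact Finset.union_subset Finset.subset_union_right
          (hQ.1.trans Finset.subset_union_left)
    exact hle hmem)
  refine ⟨ψ, fun J hJ1 hJ2 => ?_, fun e he hne => ?_⟩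
  · rw [← hψ2 J ((mD J).2 ⟨hJ1, hJ2⟩)]
    refine Finset.sum_subset (Finset.subset_univ _) fun e _ he => ?_
    have : J e = 0 := by by_contra h; exact he (hJ1 e h)
    rw [this, mul_zero]
  · have h1 : e \ W ∉ G := by
      intro h
      exact hne (hψ1 e (Finset.mem_filter.2 ⟨he, h⟩)).symm
    rw [hG] at h1
    rw [Finset.mem_powersetCard] at he
    push Not at h1
    obtain ⟨Q, hQ, hQW, hQne⟩ := h1 (Finset.sdiff_subset_sdiff he.1 (Finset.Subset.refl _))
      (he.2 ▸ Finset.card_le_card Finset.sdiff_subset)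
    rw [Finset.union_sdiff_self_eq_union] at hQW
    exact ⟨Q, hQ, hQne, hQW, fun h => hQne (hgood Q hQ h)⟩

theorem expand (ρ q N : ℕ) (hρ : ρ ≤ q) (hN : 0 < N)
    (hdiv : ∀ i ≤ ρ, (q - i).choose (ρ - i) ∣ N) :
    ∃ C : ℝ, 0 < C ∧ ∀ (V : Type) [Fintype V] [DecidableEq V] (U : Finset V),
      q + ρ ≤ U.card → ∀ φ : Finset V → ZMod N, ∃ ψ : Finset V → ZMod N,
        (∀ J : Finset V → ZMod N, (∀ e, J e ≠ 0 → e ∈ U.powersetCard ρ) → IsDiv ρ q J →
          ∑ e ∈ U.powersetCard ρ, ψ e * J e = 0) ∧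
        ((((U.powersetCard ρ).filter (fun e => φ e ≠ ψ e)).card : ℕ) : ℝ) *
            (U.card : ℝ) ^ (q - ρ) ≤
          C * ((((U.powersetCard q).filter
            (fun Q => ∑ e ∈ Q.powersetCard ρ, φ e ≠ 0)).card : ℕ) : ℝ) := by
  refine ⟨((q ^ q * q.factorial * (2 * (q + ρ).choose q) + 2 * (2 ^ q * (q + ρ) ^ q) + 1 : ℕ) : ℝ),
    by positivity, ?_⟩
  intro V _ _ U hU φ
  -- natural number version
  suffices H : ∃ ψ : Finset V → ZMod N,
        (∀ J : Finset V → ZMod N, (∀ e, J e ≠ 0 → e ∈ U.powersetCard ρ) → IsDiv ρ q J →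
          ∑ e ∈ U.powersetCard ρ, ψ e * J e = 0) ∧
        ((U.powersetCard ρ).filter (fun e => φ e ≠ ψ e)).card * U.card ^ (q - ρ) ≤
          (q ^ q * q.factorial * (2 * (q + ρ).choose q) + 2 * (2 ^ q * (q + ρ) ^ q) + 1) *
            ((U.powersetCard q).filter
            (fun Q => ∑ e ∈ Q.powersetCard ρ, φ e ≠ 0)).card by
    obtain ⟨ψ, h1, h2⟩ := H
    exact ⟨ψ, h1, by exact_mod_cast h2⟩
  obtain ⟨Bad, hBad⟩ : ∃ Bad, Bad = (U.powersetCard q).filter
            (fun Q => ∑ e ∈ Q.powersetCard ρ, φ e ≠ 0) := ⟨_, rfl⟩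
  rw [← hBad]
  by_cases hbig : U.card.choose q ≤ 2 * Bad.card * (q + ρ).choose q
  · refine ⟨fun _ => 0, fun J _ _ => Finset.sum_eq_zero fun _ _ => by rw [zero_mul], ?_⟩
    calc ((U.powersetCard ρ).filter (fun e => φ e ≠ 0)).card * U.card ^ (q - ρ)
        ≤ U.card ^ ρ * U.card ^ (q - ρ) := by
          refine Nat.mul_le_mul_right _ ?_
          refine (Finset.card_filter_le _ _).trans ?_
          rw [Finset.card_powersetCard]
          exact Nat.choose_le_pow _ _
      _ = U.card ^ q := by rw [← pow_add]; congr 1; omega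
      _ ≤ q ^ q * q.factorial * U.card.choose q := expand_pow_le _ _ (by omega)
      _ ≤ q ^ q * q.factorial * (2 * Bad.card * (q + ρ).choose q) := Nat.mul_le_mul_left _ hbig
      _ = (q ^ q * q.factorial * (2 * (q + ρ).choose q)) * Bad.card := by ring
      _ ≤ _ := Nat.mul_le_mul_right _ (by omega)
  · push Not at hbig
    -- good sets
    obtain ⟨Good, hGood⟩ : ∃ Good : Finset (Finset V), Good =
        (U.powersetCard (q + ρ)).filter (fun W => ∀ Q ∈ Bad, ¬ Q ⊆ W) := ⟨_, rfl⟩
    have mGood : ∀ W, W ∈ Good ↔ (W ⊆ U ∧ W.card = q + ρ) ∧ ∀ Q ∈ Bad, ¬ Q ⊆ W := by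
      intro W; rw [hGood, Finset.mem_filter, Finset.mem_powersetCard]
    -- many good sets
    have hmany : U.card.choose (q + ρ) < 2 * Good.card := by
      have h1 : (U.powersetCard (q + ρ)).card = Good.card +
          ((U.powersetCard (q + ρ)).filter (fun W => ¬ ∀ Q ∈ Bad, ¬ Q ⊆ W)).card := by
        rw [hGood]
        exact (Finset.card_filter_add_card_filter_not _).symm
      have h2 : ((U.powersetCard (q + ρ)).filter (fun W => ¬ ∀ Q ∈ Bad, ¬ Q ⊆ W)).card ≤
          Bad.card * (U.card - q).choose (q + ρ - q) := by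
        have h3 : ((U.powersetCard (q + ρ)).filter (fun W => ¬ ∀ Q ∈ Bad, ¬ Q ⊆ W)) ⊆
            Bad.biUnion (fun Q => (U.powersetCard (q + ρ)).filter (fun W => Q ⊆ W)) := by
          intro W hW
          rw [Finset.mem_filter] at hW
          have := hW.2
          push Not at this
          obtain ⟨Q, hQ, hQW⟩ := this
          rw [Finset.mem_biUnion]
          exact ⟨Q, hQ, Finset.mem_filter.2 ⟨hW.1, hQW⟩⟩
        refine (Finset.card_le_card h3).trans ?_
        refine Finset.card_biUnion_le_card_mul _ _ _ fun Q hQ => ?_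
        rw [hBad, Finset.mem_filter, Finset.mem_powersetCard] at hQ
        have := dg_powersetCard (q + ρ) U Q (by omega)
        rw [if_pos hQ.1.1, hQ.1.2] at this
        exact this.le
      rw [Finset.card_powersetCard] at h1
      have h4 : U.card.choose (q + ρ) * (q + ρ).choose q =
          U.card.choose q * (U.card - q).choose (q + ρ - q) :=
        Nat.choose_mul (Nat.le_add_right q ρ)
      have hpos : 0 < (q + ρ).choose q := Nat.choose_pos (Nat.le_add_right q ρ)
      have hpos' : 0 < (U.card - q).choose (q + ρ - q) := Nat.choose_pos (by omega)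
      have h5 : 2 * (Bad.card * (U.card - q).choose (q + ρ - q)) < U.card.choose (q + ρ) := by
        have h6 : 2 * (Bad.card * (U.card - q).choose (q + ρ - q)) * (q + ρ).choose q <
            U.card.choose (q + ρ) * (q + ρ).choose q := by
          rw [h4]
          calc 2 * (Bad.card * (U.card - q).choose (q + ρ - q)) * (q + ρ).choose q
              = (2 * Bad.card * (q + ρ).choose q) * (U.card - q).choose (q + ρ - q) := by ring
            _ < _ := Nat.mul_lt_mul_of_pos_right hbig hpos'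
        exact lt_of_mul_lt_mul_right h6 (Nat.zero_le _)
      omega
    -- choose the dual functions
    have hdual : ∀ W ∈ Good, ∃ ψ : Finset V → ZMod N,
        (∀ J : Finset V → ZMod N, (∀ e, J e ≠ 0 → e ∈ U.powersetCard ρ) → IsDiv ρ q J →
          ∑ e ∈ U.powersetCard ρ, ψ e * J e = 0) ∧
        ∀ e ∈ U.powersetCard ρ, φ e ≠ ψ e → ∃ Q ∈ Bad, Q ⊆ W ∪ e ∧ ¬ Q ⊆ W := by
      intro W hW
      obtain ⟨⟨h1, h2⟩, h3⟩ := (mGood W).1 hW
      obtain ⟨ψ, a1, a2⟩ := expand_dual ρ q N hρ hN U φ W h1 h2 (by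
        intro Q hQ hQW
        by_contra hne
        exact h3 Q (by rw [hBad, Finset.mem_filter]; exact ⟨hQ, hne⟩) hQW)
      refine ⟨ψ, a1, fun e he hne => ?_⟩
      obtain ⟨Q, b1, b2, b3, b4⟩ := a2 e he hne
      exact ⟨Q, by rw [hBad, Finset.mem_filter]; exact ⟨b1, b2⟩, b3, b4⟩
    choose! ψ hψ using hdual
    -- averaging
    have hsum : (∑ W ∈ Good, ((U.powersetCard ρ).filter (fun e => φ e ≠ ψ W e)).card) *
        U.card ^ (q - ρ) ≤ Bad.card * (2 ^ q * (q + ρ) ^ q * U.card.choose (q + ρ)) := by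
      have h1 : ∑ W ∈ Good, ((U.powersetCard ρ).filter (fun e => φ e ≠ ψ W e)).card ≤
          ∑ Q ∈ Bad, ∑ W ∈ U.powersetCard (q + ρ), ∑ e ∈ U.powersetCard ρ,
            if Q ⊆ W ∪ e ∧ ¬ Q ⊆ W then 1 else 0 := by
        rw [Finset.sum_comm]
        refine (Finset.sum_le_sum fun W hW => ?_).trans
          (Finset.sum_le_sum_of_subset (by rw [hGood]; exact Finset.filter_subset _ _))
        rw [Finset.card_filter, Finset.sum_comm]
        refine Finset.sum_le_sum fun e he => ?_
        by_cases h : φ e ≠ ψ W e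
        · rw [if_pos h]
          obtain ⟨Q, hQ, h2, h3⟩ := (hψ W hW).2 e he h
          refine le_trans ?_ (Finset.single_le_sum
            (f := fun Q => if Q ⊆ W ∪ e ∧ ¬ Q ⊆ W then 1 else 0) (fun _ _ => Nat.zero_le _) hQ)
          rw [if_pos ⟨h2, h3⟩]
        · rw [if_neg h]; exact Nat.zero_le _
      refine (Nat.mul_le_mul_right _ h1).trans ?_
      rw [Finset.sum_mul]
      refine (Finset.sum_le_card_nsmul _ _ _ fun Q hQ => ?_).trans (le_of_eq (smul_eq_mul _ _))
      rw [hBad, Finset.mem_filter, Finset.mem_powersetCard] at hQ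
      exact expand_pairs ρ q hρ U hU Q hQ.1.1 hQ.1.2
    have hex : ∃ W ∈ Good, ((U.powersetCard ρ).filter (fun e => φ e ≠ ψ W e)).card *
        U.card ^ (q - ρ) ≤ 2 * (2 ^ q * (q + ρ) ^ q) * Bad.card := by
      by_contra hcon
      push Not at hcon
      have hne : Good.Nonempty := by
        rw [← Finset.card_pos]; omega
      have h1 := Finset.sum_lt_sum_of_nonempty hne hcon
      rw [Finset.sum_const, smul_eq_mul, ← Finset.sum_mul] at h1
      have h2 : Bad.card * (2 ^ q * (q + ρ) ^ q * U.card.choose (q + ρ)) ≤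
          Good.card * (2 * (2 ^ q * (q + ρ) ^ q) * Bad.card) := by
        calc Bad.card * (2 ^ q * (q + ρ) ^ q * U.card.choose (q + ρ))
            = (Bad.card * (2 ^ q * (q + ρ) ^ q)) * U.card.choose (q + ρ) := by ring
          _ ≤ (Bad.card * (2 ^ q * (q + ρ) ^ q)) * (2 * Good.card) :=
              Nat.mul_le_mul_left _ hmany.le
          _ = _ := by ring
      exact absurd (h1.trans_le (hsum.trans h2)) (lt_irrefl _)
    obtain ⟨W, hW, hle⟩ := hex
    exact ⟨ψ W, (hψ W hW).1, hle.trans (Nat.mul_le_mul_right _ (by omega))⟩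

end Pool.Agent.Des
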