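import Pool.Agent.Lib_helper96.Des.Dec

/-!
# Block LOGIC: the omni-absorber absorbs

Write `1_L = ∑_Q c Q ∂Q` over `ZMod N` (`Q ∈ F`), `c Q ∈ [0, N)`.  Booster `(Q, k)` is active if
`k < (c Q).val`; the real participant `none` at `f` is active if `f ∈ L`.  At each `r`-set `f` the
number of active boosters `(Q, k)`, `f ⊆ Q`, is `≡ [f ∈ L]` mod `N`.  Along the slots
`i < M f` define carries `a 0 = 0`, `a (i+1) = nxt N (part f i) (active i) (a i)`; then
`a (i+1) ≡ a i - s i` with `s i = 1` for an active booster, `-1` for the active real participant, so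
`a (M f) = 0`.  Hence every slot uses a valid type `(act i, a i)`.
`A ∪ L` is the disjoint union of: inactive boosters (`dec`); rests of active boosters (`rest`);
for every slot `(f, i)`: `piece f i (act i) (a i) ∪ Ab f i (act i) (a i)`; the other
absorbers `Ab f i act a` (decomposable, or empty if invalid).  (The stub of an active booster at `f`
is in the piece of its slot; the wire `l` of slot `i` is in the piece of slot `i` if `a i ≤ l` and
in the piece of slot `i - 1` if `l < a i`; for `i = 0`, `a 0 = 0`.)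
-/

set_option autoImplicit false

namespace Pool.Agent.Des

open Finset

/-- carries along a chain -/
def logic_car (N : ℕ) {β : Type*} (p : ℕ → Option β) (ac : Option β → Bool) : ℕ → ℕ
  | 0 => 0
  | i + 1 => nxt N (p i) (ac (p i)) (logic_car N p ac i)

/-- signs -/
def logic_s (N : ℕ) {β : Type*} (o : Option β) (act : Bool) : ZMod N :=
  match act, o with
  | false, _ => 0
  | true, none => 1
  | true, some _ => -1

theorem logic_nxt_lt (N : ℕ) (hN : 0 < N) {β : Type*} (o : Option β) (act : Bool) (a : ℕ) :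
    nxt N o act a < N := by
  unfold nxt
  split <;> exact Nat.mod_lt _ hN

theorem logic_car_lt (N : ℕ) (hN : 0 < N) {β : Type*} (p : ℕ → Option β)
    (ac : Option β → Bool) (i : ℕ) : logic_car N p ac i < N := by
  cases i with
  | zero => exact hN
  | succ i => exact logic_nxt_lt N hN _ _ _

theorem logic_nxt_cast (N : ℕ) (hN : 2 ≤ N) {β : Type*} (o : Option β) (act : Bool) (a : ℕ) :
    ((nxt N o act a : ℕ) : ZMod N) = (a : ZMod N) + logic_s N o act := by
  cases act with
  | false => simp [nxt, logic_s]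
  | true =>
    cases o with
    | none => simp [nxt, logic_s]
    | some x =>
      have h1 : 1 ≤ N := by omega
      simp only [nxt, logic_s, ZMod.natCast_mod]
      push_cast [Nat.cast_sub h1]
      simp

theorem logic_car_cast (N : ℕ) (hN : 2 ≤ N) {β : Type*} (p : ℕ → Option β)
    (ac : Option β → Bool) (m : ℕ) :
    ((logic_car N p ac m : ℕ) : ZMod N) = ∑ i ∈ Finset.range m, logic_s N (p i) (ac (p i)) := by
  induction m with
  | zero => simp [logic_car]
  | succ m ih => rw [Finset.sum_range_succ, ← ih, logic_car, logic_nxt_cast N hN]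

theorem logic_sum_lt (N : ℕ) (hN : 2 ≤ N) (c : ZMod N) :
    ∑ k ∈ Finset.range (N - 1), (if k < c.val then (-1 : ZMod N) else 0) = - c := by
  have : NeZero N := ⟨by omega⟩
  have hc : c.val < N := ZMod.val_lt c
  rw [← Finset.sum_filter]
  have : (Finset.range (N - 1)).filter (fun k => k < c.val) = Finset.range c.val := by
    ext k
    simp only [Finset.mem_filter, Finset.mem_range]
    omega
  rw [this]
  simp

/-- membership in the span as a sum -/
theorem logic_span {V : Type*} [DecidableEq V] (R : Type*) [CommRing R] (r : ℕ)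
    (F : Finset (Finset V)) (J : Finset V → R) (hJ : J ∈ spn R r F) :
    ∃ c : Finset V → R, ∀ e, J e = ∑ Q ∈ F, c Q * ind R r Q e := by
  unfold spn at hJ
  induction hJ using Submodule.span_induction with
  | mem x hx =>
    obtain ⟨Q, hQ, rfl⟩ := hx
    refine ⟨fun Q' => if Q' = Q then 1 else 0, fun e => ?_⟩
    rw [Finset.sum_eq_single Q]
    · simp
    · intro Q' _ hne
      simp [hne]
    · intro h
      exact absurd hQ h
  | zero => exact ⟨fun _ => 0, fun e => by simp⟩
  | add x y _ _ hx hy =>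
    obtain ⟨c, hc⟩ := hx
    obtain ⟨d, hd⟩ := hy
    refine ⟨fun Q => c Q + d Q, fun e => ?_⟩
    rw [Pi.add_apply, hc, hd, ← Finset.sum_add_distrib]
    exact Finset.sum_congr rfl fun Q _ => by ring
  | smul a x _ hx =>
    obtain ⟨c, hc⟩ := hx
    refine ⟨fun Q => a * c Q, fun e => ?_⟩
    rw [Pi.smul_apply, hc, smul_eq_mul, Finset.mul_sum]
    exact Finset.sum_congr rfl fun Q _ => by ring

/-- the carry at the end of the chain vanishes -/
theorem logic_end (r N : ℕ) (hN : 2 ≤ N) {V : Type*} [DecidableEq V]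
    (X F L : Finset (Finset V)) (hL : L ⊆ X) (c : Finset V → ZMod N) (f : Finset V)
    (hc : (if f ∈ L then (1 : ZMod N) else 0) = ∑ Q ∈ F, c Q * ind (ZMod N) r Q f)
    (M : ℕ) (p : ℕ → Option (Finset V × ℕ)) (ac : Option (Finset V × ℕ) → Bool)
    (hac1 : ac none = decide (f ∈ L)) (hac2 : ∀ Q k, ac (some (Q, k)) = decide (k < (c Q).val))
    (hp : Set.BijOn p (Set.Iio M) (Pf r N X F f)) : logic_car N p ac M = 0 := by
  have : NeZero N := ⟨by omega⟩
  have h1 : ∑ i ∈ Finset.range M, logic_s N (p i) (ac (p i)) =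
      ∑ o ∈ Pf r N X F f, logic_s N o (ac o) := by
    refine Finset.sum_nbij p ?_ ?_ ?_ (fun _ _ => rfl)
    · intro i hi
      exact hp.mapsTo (Finset.mem_range.mp hi)
    · intro i hi j hj hij
      exact hp.injOn (Finset.mem_range.mp hi) (Finset.mem_range.mp hj) hij
    · intro o ho
      obtain ⟨i, hi, rfl⟩ := hp.surjOn ho
      exact ⟨i, Finset.mem_coe.mpr (Finset.mem_range.mpr hi), rfl⟩
  have h2 : ∑ o ∈ Pf r N X F f, logic_s N o (ac o) = 0 := by
    unfold Pf
    rw [Finset.sum_union]
    · rw [Finset.sum_image (fun x _ y _ h => Option.some_injective _ h), Finset.sum_product]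
      have e1 : ∑ o ∈ (if f ∈ X then {none} else (∅ : Finset (Option (Finset V × ℕ)))),
          logic_s N o (ac o) = if f ∈ L then 1 else 0 := by
        by_cases hfX : f ∈ X
        · rw [if_pos hfX, Finset.sum_singleton, hac1]
          by_cases hfL : f ∈ L
          · simp [hfL, logic_s]
          · simp [hfL, logic_s]
        · rw [if_neg hfX, Finset.sum_empty, if_neg (fun h => hfX (hL h))]
      have e2 : ∀ Q, ∑ k ∈ Finset.range (N - 1), logic_s N (some (Q, k)) (ac (some (Q, k))) =
          - c Q := by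
        intro Q
        rw [← logic_sum_lt N hN (c Q)]
        refine Finset.sum_congr rfl fun k _ => ?_
        rw [hac2]
        by_cases hk : k < (c Q).val
        · simp [hk, logic_s]
        · simp [hk, logic_s]
      rw [e1, hc, Finset.sum_congr rfl (fun Q _ => e2 Q), Finset.sum_neg_distrib,
        Finset.sum_filter]
      have e3 : ∀ Q, c Q * ind (ZMod N) r Q f = if f ∈ Q.powersetCard r then c Q else 0 := by
        intro Q
        unfold ind
        split_ifs <;> simp
      rw [Finset.sum_congr rfl (fun Q _ => e3 Q)]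
      exact add_neg_cancel _
    · rw [Finset.disjoint_left]
      intro o ho ho'
      have : o = none := by
        by_cases hfX : f ∈ X
        · rw [if_pos hfX] at ho
          exact Finset.mem_singleton.mp ho
        · rw [if_neg hfX] at ho
          exact absurd ho (Finset.notMem_empty _)
      subst this
      obtain ⟨x, _, hx⟩ := Finset.mem_image.mp ho'
      exact absurd hx (by simp)
  have h3 : ((logic_car N p ac M : ℕ) : ZMod N) = 0 := by
    rw [logic_car_cast N hN, h1, h2]
  rw [ZMod.natCast_eq_zero_iff] at h3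
  exact Nat.eq_zero_of_dvd_of_lt h3 (logic_car_lt N (by omega) _ _ _)

/-- the stubs of wires are disjoint -/
theorem logic_stub_disj {V : Type*} [DecidableEq V] {r : ℕ} {f Y Y' e : Finset V}
    (hf : f.card = r) (hY : Y ∩ Y' = f) (he : e ∈ stub r Y f) (he' : e ∈ stub r Y' f) :
    False := by
  unfold stub at he he'
  rw [Finset.mem_erase, Finset.mem_powersetCard] at he he'
  have : e ⊆ f := by
    rw [← hY]
    exact Finset.subset_inter he.2.1 he'.2.1
  exact he.1 (Finset.eq_of_subset_of_card_le this (by rw [he.2.2, hf]))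

theorem logic_mem_Pf {V : Type*} [DecidableEq V] {r N : ℕ} {X F : Finset (Finset V)}
    {f Q : Finset V} {k : ℕ} (h : some (Q, k) ∈ Pf r N X F f) :
    Q ∈ F ∧ f ∈ Q.powersetCard r ∧ k < N - 1 := by
  unfold Pf at h
  rcases Finset.mem_union.mp h with hm | hm
  · exfalso
    split_ifs at hm
    · simp at hm
    · simp at hm
  · obtain ⟨x, hx, hEq⟩ := Finset.mem_image.mp hm
    have hx2 : x = (Q, k) := Option.some_injective _ hEq
    subst hx2
    rw [Finset.mem_product, Finset.mem_filter, Finset.mem_range] at hx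
    exact ⟨hx.1.1, hx.1.2, hx.2⟩

theorem logic_Pf_mem {V : Type*} [DecidableEq V] {r N : ℕ} {X F : Finset (Finset V)}
    {f Q : Finset V} {k : ℕ} (hQ : Q ∈ F) (hf : f ∈ Q.powersetCard r) (hk : k < N - 1) :
    some (Q, k) ∈ Pf r N X F f := by
  unfold Pf
  refine Finset.mem_union_right _ (Finset.mem_image_of_mem _ ?_)
  rw [Finset.mem_product, Finset.mem_filter, Finset.mem_range]
  exact ⟨⟨hQ, hf⟩, hk⟩

theorem logic_Pf_none {V : Type*} [DecidableEq V] {r N : ℕ} {X F : Finset (Finset V)}
    {f : Finset V} (hf : f ∈ X) : none ∈ Pf r N X F f := by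
  unfold Pf
  rw [if_pos hf]
  exact Finset.mem_union_left _ (Finset.mem_singleton_self _)

theorem logic (q r N : ℕ) (hr : 1 ≤ r) (hq : r < q) (hN : 2 ≤ N) (V : Type) [Fintype V]
    [DecidableEq V] (X F : Finset (Finset V)) (hX : Unif r X) (hF : ∀ Q ∈ F, Q.card = q)
    (B : Finset V × ℕ → Finset (Finset V)) (nb : Finset V × ℕ → Finset V)
    (st : Finset V × ℕ → Finset V → Finset V) (M : Finset V → ℕ)
    (part : Finset V → ℕ → Option (Finset V × ℕ)) (Y : Finset V → ℕ → ℕ → Finset V)
    (nw : Finset V → ℕ → Finset V) (Ab : Finset V → ℕ → Bool → ℕ → Finset (Finset V))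
    (h : IsOmni q r N X F B nb st M part Y nw Ab) (L : Finset (Finset V)) (hL : L ⊆ X)
    (hsp : (fun e => if e ∈ L then (1 : ZMod N) else 0) ∈ spn (ZMod N) r F) :
    Decomp q r (omniA r N F B M Y Ab ∪ L) := by
  classical
  have : NeZero N := ⟨by omega⟩
  have hN0 : 0 < N := by omega
  obtain ⟨c, hc⟩ := logic_span (ZMod N) r F _ hsp
  -- activity
  set ac : Finset V → Option (Finset V × ℕ) → Bool := fun f o =>
    match o with
    | none => decide (f ∈ L)
    | some x => decide (x.2 < (c x.1).val) with hac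
  have hac1 : ∀ f, ac f none = decide (f ∈ L) := fun f => rfl
  have hac2 : ∀ f Q k, ac f (some (Q, k)) = decide (k < (c Q).val) := fun f Q k => rfl
  -- carries
  set a : Finset V → ℕ → ℕ := fun f => logic_car N (part f) (ac f) with ha
  have ha0 : ∀ f, a f 0 = 0 := fun f => rfl
  have has : ∀ f i, a f (i + 1) = nxt N (part f i) (ac f (part f i)) (a f i) := fun f i => rfl
  have halt : ∀ f i, a f i < N := fun f i => logic_car_lt N hN0 _ _ _
  have haM : ∀ f : Finset V, f.card = r → a f (M f) = 0 := fun f hf =>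
    logic_end r N hN X F L hL c f (hc f) (M f) (part f) (ac f) (hac1 f) (hac2 f)
      (h.parts f hf)
  -- the pieces used
  set P : Finset V → ℕ → Finset (Finset V) := fun f i =>
    piece r N st part Y f i (ac f (part f i)) (a f i) with hP
  -- the location of the members of the pieces
  have hPmem : ∀ f : Finset V, f.card = r → ∀ i < M f, ∀ x ∈ P f i,
      (part f i = none ∧ f ∈ L ∧ x = f) ∨
      (∃ Q k, Q ∈ F ∧ k < N - 1 ∧ k < (c Q).val ∧ f ∈ Q.powersetCard r ∧
        part f i = some (Q, k) ∧ x ∈ stub r (st (Q, k) f) f) ∨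
      (∃ j < M f, ∃ l < N, x ∈ stub r (Y f j l) f ∧
        ((j = i ∧ a f j ≤ l) ∨ (j = i + 1 ∧ l < a f j))) := by
    intro f hf i hi x hx
    rw [hP] at hx
    simp only [piece, Finset.mem_union, Finset.mem_biUnion, Finset.mem_Ico,
      Finset.mem_range] at hx
    rcases hx with (hx | ⟨l, ⟨hl1, hl2⟩, hx⟩) | ⟨l, hl, hx⟩
    · by_cases hact : ac f (part f i) = true
      · rw [if_pos hact] at hx
        have hmem := (h.parts f hf).mapsTo (show i ∈ Set.Iio (M f) from hi)
        rcases hpi : part f i with _ | ⟨Q, k⟩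
        · left
          rw [hpi] at hact hx
          rw [hac1 f] at hact
          simp only [elt, Finset.mem_singleton] at hx
          exact ⟨rfl, of_decide_eq_true hact, hx⟩
        · right; left
          rw [hpi] at hact hx hmem
          rw [hac2 f Q k] at hact
          simp only [elt] at hx
          obtain ⟨hQ, hfQ, hk⟩ := logic_mem_Pf hmem
          exact ⟨Q, k, hQ, hk, of_decide_eq_true hact, hfQ, rfl, hx⟩
      · rw [if_neg hact] at hx
        exact absurd hx (Finset.notMem_empty _)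
    · right; right
      exact ⟨i, hi, l, hl2, hx, Or.inl ⟨rfl, hl1⟩⟩
    · right; right
      have hi1 : i + 1 < M f := by
        by_contra hcon
        have : i + 1 = M f := by omega
        rw [← has, this, haM f hf] at hl
        exact absurd hl (Nat.not_lt_zero _)
      exact ⟨i + 1, hi1, l, lt_trans hl (logic_nxt_lt N hN0 _ _ _), hx,
        Or.inr ⟨rfl, by rw [has]; exact hl⟩⟩
  -- rests of boosters
  set R : Finset V × ℕ → Finset (Finset V) := fun z =>
    if z.2 < (c z.1).val then
      B z \ (z.1.powersetCard r).biUnion (fun f => stub r (st z f) f)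
    else B z with hR
  have hRB : ∀ z, R z ⊆ B z := by
    intro z
    rw [hR]
    dsimp only
    split_ifs
    · exact Finset.sdiff_subset
    · exact Finset.Subset.refl _
  have hRdec : ∀ Q ∈ F, ∀ k < N - 1, Decomp q r (R (Q, k)) := by
    intro Q hQ k hk
    rw [hR]
    dsimp only
    split_ifs
    · exact (h.boost Q hQ k hk).rest
    · exact (h.boost Q hQ k hk).dec
  -- wires are disjoint
  have hWW : ∀ f : Finset V, f.card = r → ∀ j < M f, ∀ f' : Finset V, f'.card = r →
      ∀ j' < M f', ∀ l < N, ∀ l' < N, ∀ x, x ∈ stub r (Y f j l) f → x ∈ stub r (Y f' j' l') f' →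
      f = f' ∧ j = j' ∧ l = l' := by
    intro f hf j hj f' hf' j' hj' l hl l' hl' x hx hx'
    have e1 : (f, j) = (f', j') := by
      by_contra hne
      exact Finset.disjoint_left.mp (h.dWW f hf j hj f' hf' j' hj' hne)
        (Finset.mem_biUnion.mpr ⟨l, Finset.mem_range.mpr hl, hx⟩)
        (Finset.mem_biUnion.mpr ⟨l', Finset.mem_range.mpr hl', hx'⟩)
    rw [Prod.mk.injEq] at e1
    obtain ⟨rfl, rfl⟩ := e1
    refine ⟨rfl, rfl, ?_⟩
    by_contra hne
    exact logic_stub_disj hf ((h.wire f hf j hj).disj l hl l' hl' hne) hx hx'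
  have hwmem : ∀ f j l x, l < N → x ∈ stub r (Y f j l) f → x ∈ wireE r N Y f j :=
    fun f j l x hl hx => Finset.mem_biUnion.mpr ⟨l, Finset.mem_range.mpr hl, hx⟩
  have hstB : ∀ Q ∈ F, ∀ k < N - 1, ∀ f ∈ Q.powersetCard r, ∀ x ∈ stub r (st (Q, k) f) f,
      x ∈ B (Q, k) := fun Q hQ k hk f hf x hx => (h.boost Q hQ k hk).st_sub f hf hx
  -- pieces are disjoint from all absorbers
  have hPA : ∀ f : Finset V, f.card = r → ∀ i < M f, ∀ f' : Finset V, f'.card = r →
      ∀ i' < M f', ∀ act : Bool, ∀ b < N, Disjoint (P f i) (Ab f' i' act b) := by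
    intro f hf i hi f' hf' i' hi' act b hb
    rw [Finset.disjoint_left]
    intro x hx hxA
    rcases hPmem f hf i hi x hx with ⟨_, hfL, rfl⟩ | ⟨Q, k, hQ, hk, _, hfQ, _, hxs⟩ |
      ⟨j, hj, l, hl, hxs, _⟩
    · exact Finset.disjoint_left.mp (h.dXA f' hf' i' hi' act b hb) (hL hfL) hxA
    · exact Finset.disjoint_left.mp (h.dBA Q hQ k hk f' hf' i' hi' act b hb)
        (hstB Q hQ k hk f hfQ x hxs) hxA
    · exact Finset.disjoint_left.mp (h.dWA f hf j hj f' hf' i' hi' act b hb)
        (hwmem f j l x hl hxs) hxA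
  -- pieces are pairwise disjoint
  have hPP : ∀ f : Finset V, f.card = r → ∀ i < M f, ∀ f' : Finset V, f'.card = r →
      ∀ i' < M f', (f, i) ≠ (f', i') → Disjoint (P f i) (P f' i') := by
    intro f hf i hi f' hf' i' hi' hne
    rw [Finset.disjoint_left]
    intro x hx hx'
    have hinj : part f i = part f' i' → f = f' → False := by
      rintro hpp rfl
      exact hne (by rw [(h.parts f hf).injOn (show i ∈ Set.Iio (M f) from hi)
        (show i' ∈ Set.Iio (M f) from hi') hpp])
    rcases hPmem f hf i hi x hx with ⟨hp, hfL, rfl⟩ | ⟨Q, k, hQ, hk, _, hfQ, hp, hxs⟩ |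
      ⟨j, hj, l, hl, hxs, hjl⟩
    · rcases hPmem f' hf' i' hi' x hx' with ⟨hp', hfL', he⟩ |
        ⟨Q', k', hQ', hk', _, hfQ', hp', hxs'⟩ | ⟨j', hj', l', hl', hxs', hjl'⟩
      · exact hinj (hp.trans hp'.symm) he
      · exact Finset.disjoint_left.mp (h.dXB Q' hQ' k' hk') (hL hfL)
          (hstB Q' hQ' k' hk' f' hfQ' x hxs')
      · exact Finset.disjoint_left.mp (h.dXW f' hf' j' hj') (hL hfL)
          (hwmem f' j' l' x hl' hxs')
    · rcases hPmem f' hf' i' hi' x hx' with ⟨hp', hfL', he⟩ |
        ⟨Q', k', hQ', hk', _, hfQ', hp', hxs'⟩ | ⟨j', hj', l', hl', hxs', hjl'⟩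
      · subst he
        exact Finset.disjoint_left.mp (h.dXB Q hQ k hk) (hL hfL')
          (hstB Q hQ k hk f hfQ x hxs)
      · by_cases hQk : (Q, k) = (Q', k')
        · rw [Prod.mk.injEq] at hQk
          obtain ⟨rfl, rfl⟩ := hQk
          have hff : f ≠ f' := fun hff => hinj (hp.trans hp'.symm) hff
          exact Finset.disjoint_left.mp ((h.boost Q hQ k hk).st_disj f hfQ f' hfQ' hff) hxs hxs'
        · exact Finset.disjoint_left.mp (h.dBB Q hQ k hk Q' hQ' k' hk' hQk)
            (hstB Q hQ k hk f hfQ x hxs) (hstB Q' hQ' k' hk' f' hfQ' x hxs')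
      · exact Finset.disjoint_left.mp (h.dBW Q hQ k hk f' hf' j' hj')
          (hstB Q hQ k hk f hfQ x hxs) (hwmem f' j' l' x hl' hxs')
    · rcases hPmem f' hf' i' hi' x hx' with ⟨hp', hfL', he⟩ |
        ⟨Q', k', hQ', hk', _, hfQ', hp', hxs'⟩ | ⟨j', hj', l', hl', hxs', hjl'⟩
      · subst he
        exact Finset.disjoint_left.mp (h.dXW f hf j hj) (hL hfL')
          (hwmem f j l x hl hxs)
      · exact Finset.disjoint_left.mp (h.dBW Q' hQ' k' hk' f hf j hj)
          (hstB Q' hQ' k' hk' f' hfQ' x hxs') (hwmem f j l x hl hxs)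
      · obtain ⟨rfl, rfl, rfl⟩ := hWW f hf j hj f' hf' j' hj' l hl l' hl' x hxs hxs'
        rcases hjl with ⟨h1, h2⟩ | ⟨h1, h2⟩ <;> rcases hjl' with ⟨h3, h4⟩ | ⟨h3, h4⟩
        · exact hne (by rw [← h1, ← h3])
        · omega
        · omega
        · exact hne (by rw [show i = i' by omega])
  -- rests are disjoint from the pieces
  have hRP : ∀ Q ∈ F, ∀ k < N - 1, ∀ f : Finset V, f.card = r → ∀ i < M f,
      Disjoint (R (Q, k)) (P f i) := by
    intro Q hQ k hk f hf i hi
    rw [Finset.disjoint_left]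
    intro x hxR hx
    have hxB := hRB _ hxR
    rcases hPmem f hf i hi x hx with ⟨hp, hfL, rfl⟩ | ⟨Q', k', hQ', hk', hact, hfQ, hp, hxs⟩ |
      ⟨j, hj, l, hl, hxs, hjl⟩
    · exact Finset.disjoint_left.mp (h.dXB Q hQ k hk) (hL hfL) hxB
    · by_cases hQk : (Q, k) = (Q', k')
      · rw [Prod.mk.injEq] at hQk
        obtain ⟨rfl, rfl⟩ := hQk
        rw [hR] at hxR
        dsimp only at hxR
        rw [if_pos hact, Finset.mem_sdiff] at hxR
        exact hxR.2 (Finset.mem_biUnion.mpr ⟨f, hfQ, hxs⟩)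
      · exact Finset.disjoint_left.mp (h.dBB Q hQ k hk Q' hQ' k' hk' hQk) hxB
          (hstB Q' hQ' k' hk' f hfQ x hxs)
    · exact Finset.disjoint_left.mp (h.dBW Q hQ k hk f hf j hj) hxB (hwmem f j l x hl hxs)
  -- all absorbers of a slot
  set AA : Finset V → ℕ → Finset (Finset V) := fun f i =>
    (Finset.univ ×ˢ Finset.range N : Finset (Bool × ℕ)).biUnion fun z => Ab f i z.1 z.2 with hAA
  have hvalid : ∀ f : Finset V, f.card = r → ∀ i < M f,
      (i + 1 < M f ∨ nxt N (part f i) (ac f (part f i)) (a f i) = 0) := by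
    intro f hf i hi
    by_cases hi1 : i + 1 < M f
    · exact Or.inl hi1
    · right
      rw [← has, show i + 1 = M f by omega]
      exact haM f hf
  have hAbdec : ∀ f : Finset V, f.card = r → ∀ i < M f, ∀ act : Bool, ∀ b < N,
      Decomp q r (Ab f i act b) := by
    intro f hf i hi act b hb
    by_cases hv : (i + 1 < M f ∨ nxt N (part f i) act b = 0)
    · exact (h.abs f hf i hi act b hb hv).1
    · rw [h.abs0 f hf i hi act b hb hv]
      exact Decomp.empty q r
  have hslot : ∀ f : Finset V, f.card = r → ∀ i < M f, Decomp q r (P f i ∪ AA f i) := by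
    intro f hf i hi
    set z₀ : Bool × ℕ := (ac f (part f i), a f i) with hz₀
    have hz₀m : z₀ ∈ (Finset.univ ×ˢ Finset.range N : Finset (Bool × ℕ)) := by
      rw [Finset.mem_product, Finset.mem_range]
      exact ⟨Finset.mem_univ _, halt f i⟩
    have e1 : P f i ∪ AA f i = (Ab f i z₀.1 z₀.2 ∪ P f i) ∪
        ((Finset.univ ×ˢ Finset.range N : Finset (Bool × ℕ)).erase z₀).biUnion
          fun z => Ab f i z.1 z.2 := by
      rw [hAA]
      dsimp only
      conv_lhs => rw [← Finset.insert_erase hz₀m, Finset.biUnion_insert]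
      rw [Finset.union_comm (Ab f i z₀.1 z₀.2) (P f i), Finset.union_assoc]
    rw [e1]
    refine Decomp.union ?_ (Decomp.biUnion _ _ ?_ ?_) ?_
    · exact (h.abs f hf i hi z₀.1 z₀.2 (halt f i) (hvalid f hf i hi)).2.1
    · intro z hz
      rw [Finset.mem_erase, Finset.mem_product, Finset.mem_range] at hz
      exact hAbdec f hf i hi z.1 z.2 hz.2.2
    · intro z hz z' hz' hzz
      rw [Finset.mem_erase, Finset.mem_product, Finset.mem_range] at hz hz'
      refine h.dAA f hf i hi z.1 z.2 hz.2.2 f hf i hi z'.1 z'.2 hz'.2.2 ?_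
      intro hE
      rw [Prod.mk.injEq, Prod.mk.injEq, Prod.mk.injEq] at hE
      exact hzz (Prod.ext hE.2.2.1 hE.2.2.2)
    · rw [Finset.disjoint_biUnion_right]
      intro z hz
      rw [Finset.mem_erase, Finset.mem_product, Finset.mem_range] at hz
      rw [Finset.disjoint_union_left]
      refine ⟨?_, hPA f hf i hi f hf i hi z.1 z.2 hz.2.2⟩
      refine h.dAA f hf i hi z₀.1 z₀.2 (halt f i) f hf i hi z.1 z.2 hz.2.2 ?_
      intro hE
      rw [Prod.mk.injEq, Prod.mk.injEq, Prod.mk.injEq] at hE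
      exact hz.1 (Prod.ext hE.2.2.1.symm hE.2.2.2.symm)
  have hAAmem : ∀ f i x, x ∈ AA f i → ∃ act : Bool, ∃ b < N, x ∈ Ab f i act b := by
    intro f i x hx
    obtain ⟨z, hz, hx⟩ := Finset.mem_biUnion.mp hx
    rw [Finset.mem_product, Finset.mem_range] at hz
    exact ⟨z.1, z.2, hz.2, hx⟩
  have hmemAA : ∀ f i x (act : Bool) b, b < N → x ∈ Ab f i act b → x ∈ AA f i := by
    intro f i x act b hb hx
    refine Finset.mem_biUnion.mpr ⟨(act, b), ?_, hx⟩
    rw [Finset.mem_product, Finset.mem_range]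
    exact ⟨Finset.mem_univ _, hb⟩
  -- the index sets
  set I₁ : Finset (Finset V × ℕ) := F ×ˢ Finset.range (N - 1) with hI₁
  set I₂ : Finset (Σ _ : Finset V, ℕ) :=
    (Finset.univ.powersetCard r).sigma fun f => Finset.range (M f) with hI₂
  have hI₁m : ∀ z ∈ I₁, z.1 ∈ F ∧ z.2 < N - 1 := by
    intro z hz
    rw [hI₁, Finset.mem_product, Finset.mem_range] at hz
    exact hz
  have hI₂m : ∀ z ∈ I₂, z.1.card = r ∧ z.2 < M z.1 := by
    intro z hz
    rw [hI₂, Finset.mem_sigma, Finset.mem_powersetCard, Finset.mem_range] at hz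
    exact ⟨hz.1.2, hz.2⟩
  have hmI₂ : ∀ (f : Finset V) i, f.card = r → i < M f →
      (⟨f, i⟩ : Σ _ : Finset V, ℕ) ∈ I₂ := by
    intro f i hf hi
    rw [hI₂, Finset.mem_sigma, Finset.mem_powersetCard, Finset.mem_range]
    exact ⟨⟨Finset.subset_univ _, hf⟩, hi⟩
  have hS₁ : Decomp q r (I₁.biUnion R) := by
    refine Decomp.biUnion _ _ (fun z hz => hRdec z.1 (hI₁m z hz).1 z.2 (hI₁m z hz).2) ?_
    intro z hz z' hz' hne
    exact Finset.disjoint_of_subset_left (hRB z) (Finset.disjoint_of_subset_right (hRB z')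
      (h.dBB z.1 (hI₁m z hz).1 z.2 (hI₁m z hz).2 z'.1 (hI₁m z' hz').1 z'.2 (hI₁m z' hz').2 hne))
  have hS₂ : Decomp q r (I₂.biUnion fun z => P z.1 z.2 ∪ AA z.1 z.2) := by
    refine Decomp.biUnion _ _ (fun z hz => hslot z.1 (hI₂m z hz).1 z.2 (hI₂m z hz).2) ?_
    intro z hz z' hz' hne
    obtain ⟨hz1, hz2⟩ := hI₂m z hz
    obtain ⟨hz1', hz2'⟩ := hI₂m z' hz'
    have hne' : (z.1, z.2) ≠ (z'.1, z'.2) := by
      intro hE
      rw [Prod.mk.injEq] at hE
      exact hne (Sigma.ext hE.1 (heq_of_eq hE.2))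
    rw [Finset.disjoint_left]
    intro x hx hx'
    rcases Finset.mem_union.mp hx with hx | hx <;> rcases Finset.mem_union.mp hx' with hx' | hx'
    · exact Finset.disjoint_left.mp (hPP z.1 hz1 z.2 hz2 z'.1 hz1' z'.2 hz2' hne') hx hx'
    · obtain ⟨act, b, hb, hx'⟩ := hAAmem _ _ _ hx'
      exact Finset.disjoint_left.mp (hPA z.1 hz1 z.2 hz2 z'.1 hz1' z'.2 hz2' act b hb) hx hx'
    · obtain ⟨act, b, hb, hx⟩ := hAAmem _ _ _ hx
      exact Finset.disjoint_left.mp (hPA z'.1 hz1' z'.2 hz2' z.1 hz1 z.2 hz2 act b hb) hx' hx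
    · obtain ⟨act, b, hb, hx⟩ := hAAmem _ _ _ hx
      obtain ⟨act', b', hb', hx'⟩ := hAAmem _ _ _ hx'
      refine Finset.disjoint_left.mp (h.dAA z.1 hz1 z.2 hz2 act b hb z'.1 hz1' z'.2 hz2'
        act' b' hb' ?_) hx hx'
      intro hE
      rw [Prod.mk.injEq, Prod.mk.injEq] at hE
      exact hne' (by rw [Prod.mk.injEq]; exact ⟨hE.1, hE.2.1⟩)
  have hS : Decomp q r (I₁.biUnion R ∪ I₂.biUnion fun z => P z.1 z.2 ∪ AA z.1 z.2) := by
    refine Decomp.union hS₁ hS₂ ?_
    rw [Finset.disjoint_biUnion_left]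
    intro z hz
    rw [Finset.disjoint_biUnion_right]
    intro z' hz'
    obtain ⟨hz1, hz2⟩ := hI₁m z hz
    obtain ⟨hz1', hz2'⟩ := hI₂m z' hz'
    rw [Finset.disjoint_union_right]
    refine ⟨hRP z.1 hz1 z.2 hz2 z'.1 hz1' z'.2 hz2', ?_⟩
    rw [Finset.disjoint_left]
    intro x hx hx'
    obtain ⟨act, b, hb, hx'⟩ := hAAmem _ _ _ hx'
    exact Finset.disjoint_left.mp (h.dBA z.1 hz1 z.2 hz2 z'.1 hz1' z'.2 hz2' act b hb)
      (hRB _ hx) hx'
  have hfin : omniA r N F B M Y Ab ∪ L =
      I₁.biUnion R ∪ I₂.biUnion fun z => P z.1 z.2 ∪ AA z.1 z.2 := by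
    have hin₁ : ∀ z ∈ I₁, ∀ x ∈ R z,
        x ∈ I₁.biUnion R ∪ I₂.biUnion fun z => P z.1 z.2 ∪ AA z.1 z.2 := fun z hz x hx =>
      Finset.mem_union_left _ (Finset.mem_biUnion.mpr ⟨z, hz, hx⟩)
    have hin₂ : ∀ f : Finset V, f.card = r → ∀ i < M f, ∀ x ∈ P f i,
        x ∈ I₁.biUnion R ∪ I₂.biUnion fun z => P z.1 z.2 ∪ AA z.1 z.2 := fun f hf i hi x hx =>
      Finset.mem_union_right _ (Finset.mem_biUnion.mpr
        ⟨⟨f, i⟩, hmI₂ f i hf hi, Finset.mem_union_left _ hx⟩)
    have hin₃ : ∀ f : Finset V, f.card = r → ∀ i < M f, ∀ x ∈ AA f i,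
        x ∈ I₁.biUnion R ∪ I₂.biUnion fun z => P z.1 z.2 ∪ AA z.1 z.2 := fun f hf i hi x hx =>
      Finset.mem_union_right _ (Finset.mem_biUnion.mpr
        ⟨⟨f, i⟩, hmI₂ f i hf hi, Finset.mem_union_right _ hx⟩)
    have hout₁ : ∀ z ∈ I₁, ∀ x ∈ B z, x ∈ omniA r N F B M Y Ab ∪ L := fun z hz x hx =>
      Finset.mem_union_left _ (Finset.mem_union_left _ (Finset.mem_biUnion.mpr ⟨z, hz, hx⟩))
    have hout₂ : ∀ f : Finset V, f.card = r → ∀ i < M f, ∀ x ∈ wireE r N Y f i,
        x ∈ omniA r N F B M Y Ab ∪ L := fun f hf i hi x hx =>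
      Finset.mem_union_left _ (Finset.mem_union_right _ (Finset.mem_biUnion.mpr
        ⟨f, Finset.mem_powersetCard.mpr ⟨Finset.subset_univ _, hf⟩,
          Finset.mem_biUnion.mpr ⟨i, Finset.mem_range.mpr hi, Finset.mem_union_left _ hx⟩⟩))
    have hout₃ : ∀ f : Finset V, f.card = r → ∀ i < M f, ∀ act : Bool, ∀ b < N,
        ∀ x ∈ Ab f i act b, x ∈ omniA r N F B M Y Ab ∪ L := fun f hf i hi act b hb x hx =>
      Finset.mem_union_left _ (Finset.mem_union_right _ (Finset.mem_biUnion.mpr
        ⟨f, Finset.mem_powersetCard.mpr ⟨Finset.subset_univ _, hf⟩,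
          Finset.mem_biUnion.mpr ⟨i, Finset.mem_range.mpr hi, Finset.mem_union_right _
            (Finset.mem_biUnion.mpr ⟨act, Finset.mem_univ _,
              Finset.mem_biUnion.mpr ⟨b, Finset.mem_range.mpr hb, hx⟩⟩)⟩⟩))
    refine Finset.Subset.antisymm ?_ ?_
    · intro x hx
      rcases Finset.mem_union.mp hx with hx | hxL
      · rcases Finset.mem_union.mp hx with hx | hx
        · obtain ⟨z, hz, hx⟩ := Finset.mem_biUnion.mp hx
          by_cases hxR : x ∈ R z
          · exact hin₁ z hz x hxR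
          · obtain ⟨hz1, hz2⟩ := hI₁m z hz
            have hact : z.2 < (c z.1).val := by
              by_contra hact
              apply hxR
              rw [hR]
              dsimp only
              rw [if_neg hact]
              exact hx
            rw [hR] at hxR
            dsimp only at hxR
            rw [if_pos hact, Finset.mem_sdiff] at hxR
            have hxs : x ∈ (z.1.powersetCard r).biUnion (fun f => stub r (st z f) f) := by
              by_contra hcon
              exact hxR ⟨hx, hcon⟩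
            obtain ⟨f, hfQ, hxf⟩ := Finset.mem_biUnion.mp hxs
            have hf : f.card = r := (Finset.mem_powersetCard.mp hfQ).2
            obtain ⟨i, hi, hpi⟩ := (h.parts f hf).surjOn
              (logic_Pf_mem (X := X) hz1 hfQ hz2 : some (z.1, z.2) ∈ Pf r N X F f)
            refine hin₂ f hf i hi x ?_
            rw [hP]
            simp only [piece]
            refine Finset.mem_union_left _ (Finset.mem_union_left _ ?_)
            rw [hpi, if_pos (by rw [hac2 f z.1 z.2]; exact decide_eq_true hact)]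
            exact hxf
        · obtain ⟨f, hf, hx⟩ := Finset.mem_biUnion.mp hx
          have hf : f.card = r := (Finset.mem_powersetCard.mp hf).2
          obtain ⟨i, hi, hx⟩ := Finset.mem_biUnion.mp hx
          rw [Finset.mem_range] at hi
          rcases Finset.mem_union.mp hx with hx | hx
          · obtain ⟨l, hl, hx⟩ := Finset.mem_biUnion.mp hx
            rw [Finset.mem_range] at hl
            by_cases hla : a f i ≤ l
            · refine hin₂ f hf i hi x ?_
              rw [hP]
              simp only [piece]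
              refine Finset.mem_union_left _ (Finset.mem_union_right _ ?_)
              exact Finset.mem_biUnion.mpr ⟨l, Finset.mem_Ico.mpr ⟨hla, hl⟩, hx⟩
            · cases i with
              | zero => exact absurd (by rw [ha0]; exact Nat.zero_le _) hla
              | succ i =>
                refine hin₂ f hf i (by omega) x ?_
                rw [hP]
                simp only [piece]
                refine Finset.mem_union_right _ ?_
                refine Finset.mem_biUnion.mpr ⟨l, Finset.mem_range.mpr ?_, hx⟩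
                rw [← has]
                exact not_le.mp hla
          · obtain ⟨act, _, hx⟩ := Finset.mem_biUnion.mp hx
            obtain ⟨b, hb, hx⟩ := Finset.mem_biUnion.mp hx
            rw [Finset.mem_range] at hb
            exact hin₃ f hf i hi x (hmemAA f i x act b hb hx)
      · have hxX := hL hxL
        have hf : x.card = r := hX x hxX
        obtain ⟨i, hi, hpi⟩ := (h.parts x hf).surjOn
          (logic_Pf_none (r := r) (N := N) (F := F) hxX : none ∈ Pf r N X F x)
        refine hin₂ x hf i hi x ?_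
        rw [hP]
        simp only [piece]
        refine Finset.mem_union_left _ (Finset.mem_union_left _ ?_)
        rw [hpi, if_pos (by rw [hac1 x]; exact decide_eq_true hxL)]
        exact Finset.mem_singleton_self _
    · intro x hx
      rcases Finset.mem_union.mp hx with hx | hx
      · obtain ⟨z, hz, hx⟩ := Finset.mem_biUnion.mp hx
        exact hout₁ z hz x (hRB z hx)
      · obtain ⟨z, hz, hx⟩ := Finset.mem_biUnion.mp hx
        obtain ⟨hz1, hz2⟩ := hI₂m z hz
        rcases Finset.mem_union.mp hx with hx | hx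
        · rcases hPmem z.1 hz1 z.2 hz2 x hx with ⟨hp, hfL, he⟩ |
            ⟨Q, k, hQ, hk, _, hfQ, hp, hxs⟩ | ⟨j, hj, l, hl, hxs, hjl⟩
          · rw [he]
            exact Finset.mem_union_right _ hfL
          · refine hout₁ (Q, k) ?_ x (hstB Q hQ k hk z.1 hfQ x hxs)
            rw [hI₁, Finset.mem_product, Finset.mem_range]
            exact ⟨hQ, hk⟩
          · exact hout₂ z.1 hz1 j hj x (hwmem z.1 j l x hl hxs)
        · obtain ⟨act, b, hb, hx⟩ := hAAmem _ _ _ hx
          exact hout₃ z.1 hz1 z.2 hz2 act b hb x hx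
  rw [hfin]
  exact hS

end Pool.Agent.Des
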