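import Pool.Agent.Lib_helper96.Des.Defs

/-!
# Block MDS: Reed-Solomon families

Take a prime `p = s + 1 ≥ q` (`Nat.exists_infinite_primes`; `ZMod (s+1) = Fin (s+1)`), distinct
points `a i = (i : ZMod p)`, `i : Fin q`.  `C₁` = all `i ↦ f.eval (a i)` with `f` a polynomial of
degree `< r`; `C₂` = all `i ↦ f.eval (a i) + (a i) ^ r`.  MDS property: Lagrange interpolation.
For `I` with `|I| = r` the element of `C₂` given by the monic polynomial `∏_{i ∈ I} (X - a i)`
vanishes exactly on `I`.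
-/

set_option autoImplicit false

namespace Pool.Agent.Des

open Finset Polynomial

/-- evaluation family with offset `g` -/
noncomputable def mdsFam (q r s : ℕ) (g : Fin q → ZMod (s + 1)) : Finset (Fin q → ZMod (s + 1)) := by
  classical
  exact Finset.univ.filter (fun F => ∃ f : (ZMod (s + 1))[X], f.degree < (r : WithBot ℕ) ∧
    ∀ i : Fin q, F i = f.eval ((i : ℕ) : ZMod (s + 1)) + g i)

theorem mds_mem {q r s : ℕ} {g : Fin q → ZMod (s + 1)} {F : Fin q → ZMod (s + 1)} :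
    F ∈ mdsFam q r s g ↔ ∃ f : (ZMod (s + 1))[X], f.degree < (r : WithBot ℕ) ∧
      ∀ i : Fin q, F i = f.eval ((i : ℕ) : ZMod (s + 1)) + g i := by
  classical
  unfold mdsFam
  simp

theorem mds_pt_inj {q s : ℕ} (hqs : q ≤ s + 1) :
    Function.Injective (fun i : Fin q => (((i : ℕ) : ZMod (s + 1)))) := by
  intro i j hij
  simp only at hij
  rw [ZMod.natCast_eq_natCast_iff] at hij
  have h1 : (i : ℕ) < s + 1 := lt_of_lt_of_le i.2 hqs
  have h2 : (j : ℕ) < s + 1 := lt_of_lt_of_le j.2 hqs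
  have := Nat.ModEq.eq_of_lt_of_lt hij h1 h2
  exact Fin.ext this

theorem mds_fam_unique (q r s : ℕ) (hp : (s + 1).Prime) (hqs : q ≤ s + 1)
    (g : Fin q → ZMod (s + 1)) (I : Finset (Fin q)) (x : Fin q → ZMod (s + 1)) (hI : I.card = r) :
    ∃! F, F ∈ mdsFam q r s g ∧ ∀ i ∈ I, F i = x i := by
  classical
  have : Fact (s + 1).Prime := ⟨hp⟩
  have hinj : Set.InjOn (fun i : Fin q => (((i : ℕ) : ZMod (s + 1)))) (I : Set (Fin q)) :=
    (mds_pt_inj hqs).injOn
  let P : (ZMod (s + 1))[X] := Lagrange.interpolate I (fun i : Fin q => (((i : ℕ) : ZMod (s + 1))))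
    (fun i => x i - g i)
  refine ⟨fun i => P.eval ((i : ℕ) : ZMod (s + 1)) + g i, ⟨?_, ?_⟩, ?_⟩
  · rw [mds_mem]
    refine ⟨P, ?_, fun i => rfl⟩
    have := Lagrange.degree_interpolate_lt (s := I) (v := (fun i : Fin q => (((i : ℕ) : ZMod (s + 1)))))
      (fun i => x i - g i) hinj
    rwa [hI] at this
  · intro i hi
    have := Lagrange.eval_interpolate_at_node (s := I)
      (v := (fun i : Fin q => (((i : ℕ) : ZMod (s + 1))))) (fun i => x i - g i) hinj hi
    show P.eval ((i : ℕ) : ZMod (s + 1)) + g i = x i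
    have h2 : P.eval ((i : ℕ) : ZMod (s + 1)) = x i - g i := this
    rw [h2]
    ring
  · rintro F ⟨hF, hFx⟩
    rw [mds_mem] at hF
    obtain ⟨f, hf, hFf⟩ := hF
    have : f = P := by
      refine Lagrange.eq_interpolate_of_eval_eq (s := I)
        (v := (fun i : Fin q => (((i : ℕ) : ZMod (s + 1))))) _ hinj (by rwa [hI]) ?_
      intro i hi
      have h1 : F i = x i := hFx i hi
      have h2 := hFf i
      rw [← h1, h2]
      ring
    funext i
    rw [hFf i, this]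

theorem mds_fam_vanish (q r s : ℕ) (hp : (s + 1).Prime) (hqs : q ≤ s + 1)
    (I : Finset (Fin q)) (hI : I.card = r) :
    ∃ F : Fin q → ZMod (s + 1), F ∈ mdsFam q r s (fun i => ((i : ℕ) : ZMod (s + 1)) ^ r) ∧
      ∀ i, F i = 0 ↔ i ∈ I := by
  have : Fact (s + 1).Prime := ⟨hp⟩
  let P : (ZMod (s + 1))[X] := ∏ j ∈ I, (X - C (((j : ℕ) : ZMod (s + 1))))
  have hPm : P.Monic := monic_prod_of_monic _ _ (fun j _ => monic_X_sub_C _)
  have hPd : P.natDegree = r := by
    rw [← hI]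
    exact natDegree_finsetProd_X_sub_C_eq_card I (fun j : Fin q => (((j : ℕ) : ZMod (s + 1))))
  have hPne : P ≠ 0 := hPm.ne_zero
  have hlt : (P - X ^ r).degree < (r : WithBot ℕ) := by
    have h1 : P.degree = (r : WithBot ℕ) := by rw [degree_eq_natDegree hPne, hPd]
    rw [← h1]
    refine degree_sub_lt_left ?_ hPne ?_
    · rw [h1, degree_X_pow]
    · rw [hPm.leadingCoeff, leadingCoeff_X_pow]
  refine ⟨fun i => P.eval ((i : ℕ) : ZMod (s + 1)), ?_, ?_⟩
  · rw [mds_mem]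
    exact ⟨P - X ^ r, hlt, fun i => by simp⟩
  · intro i
    show P.eval ((i : ℕ) : ZMod (s + 1)) = 0 ↔ i ∈ I
    rw [eval_prod, Finset.prod_eq_zero_iff]
    constructor
    · rintro ⟨j, hj, h⟩
      rw [eval_sub, eval_X, eval_C, sub_eq_zero] at h
      have := mds_pt_inj hqs h
      rwa [this]
    · intro hi
      exact ⟨i, hi, by simp⟩

theorem mds (q r : ℕ) (hr : 1 ≤ r) (hq : r < q) :
    ∃ (s : ℕ) (C₁ C₂ : Finset (Fin q → Fin (s + 1))), IsMDS r C₁ ∧ IsMDS r C₂ ∧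
      (fun _ => 0) ∈ C₁ ∧
      ∀ I : Finset (Fin q), I.card = r → ∃ F ∈ C₂, ∀ i, F i = 0 ↔ i ∈ I := by
  obtain ⟨p, hqp, hp⟩ := Nat.exists_infinite_primes q
  obtain ⟨s, rfl⟩ : ∃ s, p = s + 1 := ⟨p - 1, by have := hp.pos; omega⟩
  have h0 : (fun _ : Fin q => (0 : ZMod (s + 1))) ∈ mdsFam q r s 0 := by
    rw [mds_mem]
    exact ⟨0, by simp, fun i => by simp⟩
  exact ⟨s, mdsFam q r s 0, mdsFam q r s (fun i => ((i : ℕ) : ZMod (s + 1)) ^ r),
    fun I x hI => mds_fam_unique q r s hp hqp 0 I x hI,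
    fun I x hI => mds_fam_unique q r s hp hqp _ I x hI, h0,
    fun I hI => mds_fam_vanish q r s hp hqp I hI⟩

end Pool.Agent.Des
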