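import Pool.Agent.Lib_helper96.Des.Defs

/-!
# Auxiliary weight estimates for the nibble blocks
-/

set_option autoImplicit false

namespace Pool.Agent.Des

open Finset

section NibAux

variable {V : Type} [Fintype V] [DecidableEq V]

/-- total weight of the sets containing `A` -/
noncomputable def nbW (w : Finset V → ℝ) (A : Finset V) : ℝ :=
  ∑ K ∈ Finset.univ.filter (fun K => A ⊆ K), w K

variable {q r : ℕ} {E : Finset (Finset V)} {w : Finset V → ℝ} {δ B : ℝ}

theorem nbW_nonneg (hw : NibW q r E w δ B) (A : Finset V) : 0 ≤ nbW w A :=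
  Finset.sum_nonneg fun K _ => hw.nonneg K

theorem nb_mem_clq (hw : NibW q r E w δ B) {K : Finset V} (hK : w K ≠ 0) : K ∈ clq q r E := by
  obtain ⟨h1, h2⟩ := hw.supp K hK
  simp [clq, h1, h2]

theorem nb_clq {K : Finset V} (hK : K ∈ clq q r E) : K.card = q ∧ K.powersetCard r ⊆ E := by
  simpa [clq, Finset.mem_powersetCard] using hK

/-- sums over all sets are sums over cliques -/
theorem nb_sum_clq (hw : NibW q r E w δ B) (P : Finset V → Prop) [DecidablePred P]
    (f : Finset V → ℝ) :
    ∑ K ∈ Finset.univ.filter P, w K * f K = ∑ K ∈ (clq q r E).filter P, w K * f K := by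
  symm
  refine Finset.sum_subset (Finset.filter_subset_filter _ (Finset.subset_univ _)) ?_
  intro K hK hK'
  by_cases h : w K = 0
  · rw [h, zero_mul]
  · exact absurd (Finset.mem_filter.mpr ⟨nb_mem_clq hw h, (Finset.mem_filter.mp hK).2⟩) hK'

theorem nb_W_clq (hw : NibW q r E w δ B) (A : Finset V) :
    nbW w A = ∑ K ∈ (clq q r E).filter (fun K => A ⊆ K), w K := by
  have := nb_sum_clq hw (fun K => A ⊆ K) (fun _ => 1)
  simpa [nbW] using this

theorem nb_count (A : Finset V) (q : ℕ) :
    ((Finset.univ : Finset (Finset V)).filter (fun K => A ⊆ K ∧ K.card = q)).card ≤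
      Fintype.card V ^ (q - A.card) := by
  classical
  have h1 : ((Finset.univ : Finset (Finset V)).filter (fun K => A ⊆ K ∧ K.card = q)).card ≤
      ((Finset.univ : Finset V).powersetCard (q - A.card)).card := by
    refine Finset.card_le_card_of_injOn (fun K => K \ A) ?_ ?_
    · intro K hK
      rw [Finset.mem_coe, Finset.mem_filter] at hK
      rw [Finset.mem_coe, Finset.mem_powersetCard]
      exact ⟨Finset.subset_univ _, by rw [Finset.card_sdiff_of_subset hK.2.1, hK.2.2]⟩
    · intro K hK K' hK' h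
      rw [Finset.mem_coe, Finset.mem_filter] at hK hK'
      simp only at h
      rw [← Finset.sdiff_union_of_subset hK.2.1, ← Finset.sdiff_union_of_subset hK'.2.1, h]
  refine h1.trans ?_
  rw [Finset.card_powersetCard, Finset.card_univ]
  exact Nat.choose_le_pow _ _

theorem nbW_big (hw : NibW q r E w δ B) (hB : 0 ≤ B) (hq : r < q) {A : Finset V}
    (hA : r < A.card) : nbW w A ≤ B / (Fintype.card V : ℝ) := by
  classical
  have hn : 1 ≤ Fintype.card V := by
    have : A.card ≤ Fintype.card V := Finset.card_le_univ A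
    omega
  have hn0 : (0 : ℝ) < (Fintype.card V : ℝ) := by exact_mod_cast hn
  have hn1 : (1 : ℝ) ≤ (Fintype.card V : ℝ) := by exact_mod_cast hn
  have h1 : nbW w A = ∑ K ∈ Finset.univ.filter (fun K => A ⊆ K ∧ K.card = q), w K := by
    unfold nbW
    symm
    refine Finset.sum_subset ?_ ?_
    · intro K hK
      simp only [Finset.mem_filter, Finset.mem_univ, true_and] at hK ⊢
      exact hK.1
    · intro K hK hK'
      by_contra h
      simp only [Finset.mem_filter, Finset.mem_univ, true_and, not_and] at hK hK'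
      exact hK' hK (hw.supp K h).1
  rw [h1]
  have h2 : ∑ K ∈ Finset.univ.filter (fun K => A ⊆ K ∧ K.card = q), w K ≤
      ∑ K ∈ (Finset.univ : Finset (Finset V)).filter (fun K => A ⊆ K ∧ K.card = q),
        B / (Fintype.card V : ℝ) ^ (q - r) := Finset.sum_le_sum fun K _ => hw.bdd K
  refine h2.trans ?_
  rw [Finset.sum_const, nsmul_eq_mul]
  have h3 := nb_count A q
  have h4 : (((Finset.univ : Finset (Finset V)).filter (fun K => A ⊆ K ∧ K.card = q)).card : ℝ) ≤
      (Fintype.card V : ℝ) ^ (q - r - 1) := by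
    calc (((Finset.univ : Finset (Finset V)).filter (fun K => A ⊆ K ∧ K.card = q)).card : ℝ)
        ≤ ((Fintype.card V ^ (q - A.card) : ℕ) : ℝ) := by exact_mod_cast h3
      _ = (Fintype.card V : ℝ) ^ (q - A.card) := by push_cast; rfl
      _ ≤ (Fintype.card V : ℝ) ^ (q - r - 1) := pow_le_pow_right₀ hn1 (by omega)
  have h5 : (Fintype.card V : ℝ) ^ (q - r) =
      (Fintype.card V : ℝ) ^ (q - r - 1) * (Fintype.card V : ℝ) := by
    rw [← pow_succ]; congr 1; omega
  rw [h5]
  have h6 : (0 : ℝ) < (Fintype.card V : ℝ) ^ (q - r - 1) := by positivity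
  calc _ ≤ (Fintype.card V : ℝ) ^ (q - r - 1) *
        (B / ((Fintype.card V : ℝ) ^ (q - r - 1) * (Fintype.card V : ℝ))) :=
        mul_le_mul_of_nonneg_right h4 (by positivity)
    _ = B / (Fintype.card V : ℝ) := by field_simp

theorem nbW_edge (hw : NibW q r E w δ B) {e : Finset V} (he : e ∈ E) :
    1 - δ ≤ nbW w e ∧ nbW w e ≤ 1 + δ := by
  have h := abs_le.mp (hw.sum e he)
  unfold nbW
  constructor <;> linarith [h.1, h.2]

theorem nbW_nonedge (hw : NibW q r E w δ B) {e : Finset V} (hc : e.card = r) (he : e ∉ E) :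
    nbW w e = 0 := by
  unfold nbW
  refine Finset.sum_eq_zero fun K hK => ?_
  by_contra h
  simp only [Finset.mem_filter, Finset.mem_univ, true_and] at hK
  exact he ((hw.supp K h).2 (Finset.mem_powersetCard.mpr ⟨hK, hc⟩))

theorem nbW_rset (hw : NibW q r E w δ B) (hδ : 0 ≤ δ) {e : Finset V} (hc : e.card = r) :
    nbW w e ≤ 1 + δ := by
  by_cases he : e ∈ E
  · exact (nbW_edge hw he).2
  · rw [nbW_nonedge hw hc he]; linarith

theorem nbW_sub (hw : NibW q r E w δ B) (hδ : 0 ≤ δ) (hr : 1 ≤ r) (hq : r < q) {S : Finset V}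
    (hS : S.card = r - 1) : nbW w S ≤ (1 + δ) * (Fintype.card V : ℝ) := by
  classical
  have h1 : nbW w S ≤ ∑ v ∈ Finset.univ \ S, nbW w (insert v S) := by
    unfold nbW
    have h2 : ∑ v ∈ Finset.univ \ S, ∑ K ∈ Finset.univ.filter (fun K => insert v S ⊆ K), w K =
        ∑ K ∈ (Finset.univ : Finset (Finset V)),
          ∑ v ∈ (Finset.univ \ S).filter (fun v => insert v S ⊆ K), w K := by
      simp_rw [Finset.sum_filter]
      exact Finset.sum_comm
    rw [h2, Finset.sum_filter]
    refine Finset.sum_le_sum fun K _ => ?_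
    by_cases hK : w K = 0
    · simp [hK]
    split_ifs with h
    · have hcard : S.card < K.card := by rw [(hw.supp K hK).1, hS]; omega
      obtain ⟨v, hv, hv'⟩ := Finset.exists_mem_notMem_of_card_lt_card hcard
      have hmem : v ∈ (Finset.univ \ S).filter (fun v => insert v S ⊆ K) := by
        simp only [Finset.mem_filter, Finset.mem_sdiff, Finset.mem_univ, true_and]
        exact ⟨hv', Finset.insert_subset hv h⟩
      exact Finset.single_le_sum (f := fun _ => w K) (fun _ _ => hw.nonneg K) hmem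
    · exact Finset.sum_nonneg fun _ _ => hw.nonneg K
  refine h1.trans ?_
  calc ∑ v ∈ Finset.univ \ S, nbW w (insert v S)
      ≤ ∑ v ∈ Finset.univ \ S, (1 + δ) := by
        refine Finset.sum_le_sum fun v hv => nbW_rset hw hδ ?_
        rw [Finset.card_insert_of_notMem (Finset.mem_sdiff.mp hv).2, hS]
        omega
    _ = ((Finset.univ \ S).card : ℝ) * (1 + δ) := by rw [Finset.sum_const, nsmul_eq_mul]
    _ ≤ (Fintype.card V : ℝ) * (1 + δ) := by
        refine mul_le_mul_of_nonneg_right ?_ (by linarith)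
        exact_mod_cast (Finset.card_le_univ _)
    _ = (1 + δ) * (Fintype.card V : ℝ) := by ring

/-- selection probabilities -/
theorem nb_p (hw : NibW q r E w δ B) (hq : r < q) {ε : ℝ} (hε : 0 ≤ ε) (hε1 : ε ≤ 1)
    (hn : B ≤ (Fintype.card V : ℝ)) :
    ∀ K ∈ clq q r E, 0 ≤ ε * w K ∧ ε * w K ≤ 1 := by
  intro K hK
  refine ⟨mul_nonneg hε (hw.nonneg K), ?_⟩
  have hKc := (nb_clq hK).1
  have hn0 : 1 ≤ Fintype.card V := by
    have : K.card ≤ Fintype.card V := Finset.card_le_univ K
    omega
  have hn1 : (1 : ℝ) ≤ (Fintype.card V : ℝ) := by exact_mod_cast hn0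
  have h1 : w K ≤ 1 := by
    refine (hw.bdd K).trans ?_
    rw [div_le_one (by positivity)]
    refine hn.trans ?_
    calc (Fintype.card V : ℝ) = (Fintype.card V : ℝ) ^ 1 := (pow_one _).symm
      _ ≤ (Fintype.card V : ℝ) ^ (q - r) := pow_le_pow_right₀ hn1 (by omega)
  have := hw.nonneg K
  nlinarith

/-- `w K ≤ B / n` -/
theorem nb_w_le (hw : NibW q r E w δ B) (hB : 0 ≤ B) (hq : r < q) (K : Finset V) :
    w K ≤ B / (Fintype.card V : ℝ) := by
  by_cases h : w K = 0
  · rw [h]; positivity
  have hKc := (hw.supp K h).1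
  have hn0 : 1 ≤ Fintype.card V := by
    have : K.card ≤ Fintype.card V := Finset.card_le_univ K
    omega
  have hn1 : (1 : ℝ) ≤ (Fintype.card V : ℝ) := by exact_mod_cast hn0
  refine (hw.bdd K).trans ?_
  refine div_le_div_of_nonneg_left hB (by linarith) ?_
  calc (Fintype.card V : ℝ) = (Fintype.card V : ℝ) ^ 1 := (pow_one _).symm
      _ ≤ (Fintype.card V : ℝ) ^ (q - r) := pow_le_pow_right₀ hn1 (by omega)

theorem nb_union_card {e g : Finset V} (he : e.card = r) (hg : g.card = r) (hne : g ≠ e) :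
    r < (e ∪ g).card := by
  rcases Nat.lt_or_ge r (e ∪ g).card with h | h
  · exact h
  exfalso
  have h1 : e = e ∪ g := Finset.eq_of_subset_of_card_le Finset.subset_union_left (by omega)
  have h2 : g = e ∪ g := Finset.eq_of_subset_of_card_le Finset.subset_union_right (by omega)
  exact hne (h2.trans h1.symm)

end NibAux

end Pool.Agent.Des
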