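import Pool.Agent.Lib_helper96.Des.Pindep
import Pool.Agent.Lib_helper96.Des.NibAux

/-!
# Block NIB1: expected surviving weight at an edge

Selection: every clique `K ∈ clq q r E` is selected with probability `ε w K`.  Notation:
`b = q.choose r`, `n = |V|`.  For `e ∈ E`:
`bE (fe r w e) = ∑_{K ⊇ e} w K ∏_{K' ∈ Hit K} (1 - ε w K')` (`bE_subset_disj`), `Hit K` = cliques
`K'` not containing `e` and sharing an `r`-set `≠ e` with `K`.  With `σ = ε ∑_{Hit K} w K'`:
`σ ≤ ε (b-1)(1+δ)`, `σ ≥ ε (b-1)(1-δ) - ε b² B / n` (inclusion-exclusion; for `r`-sets `g ≠ g'` the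
weight of the cliques containing both is at most `B / n`: at most `n^(q-r-1)` cliques),
`exp (-σ - ε B / n) ≤ ∏ ≤ exp (-σ)`.  So `exp (ε (b-1)) ∏` is within `exp (± (ε b δ + ε b² B / n))`, and
`|∑_{K ⊇ e} w K - 1| ≤ δ` gives the claim (`(1+δ) exp x ≤ 1 + δ + 3 x` for `x ≤ 1`, `δ ≤ 1/2`).
-/

set_option autoImplicit false

namespace Pool.Agent.Des

open Finset

section Nib1

variable {V : Type} [Fintype V] [DecidableEq V]

/-- cliques not containing `e` that hit `K` off `e` -/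
noncomputable def nb1H (q r : ℕ) (E : Finset (Finset V)) (e K : Finset V) : Finset (Finset V) :=
  (clq q r E).filter
    (fun K' => ¬ e ⊆ K' ∧ ¬ Disjoint (K'.powersetCard r) ((K.powersetCard r).erase e))

theorem nb1_fe (q r : ℕ) (E : Finset (Finset V)) (w : Finset V → ℝ) (e : Finset V)
    (ω : Finset (Finset V)) (hω : ω ⊆ clq q r E) :
    fe r w e ω = ∑ K ∈ Finset.univ.filter (fun K => e ⊆ K),
      w K * (if ∅ ⊆ ω ∧ Disjoint (nb1H q r E e K) ω then (1 : ℝ) else 0) := by
  classical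
  unfold fe
  refine Finset.sum_congr rfl fun K _ => ?_
  congr 1
  have h : (∀ K' ∈ ω, ¬ e ⊆ K' → Disjoint (K'.powersetCard r) ((K.powersetCard r).erase e)) ↔
      (∅ ⊆ ω ∧ Disjoint (nb1H q r E e K) ω) := by
    constructor
    · intro h
      refine ⟨Finset.empty_subset _, ?_⟩
      rw [Finset.disjoint_left]
      intro K' hK' hω'
      simp only [nb1H, Finset.mem_filter] at hK'
      exact hK'.2.2 (h K' hω' hK'.2.1)
    · rintro ⟨-, h⟩ K' hK' he
      by_contra hd
      rw [Finset.disjoint_right] at h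
      exact h hK' (by simp only [nb1H, Finset.mem_filter]; exact ⟨hω hK', he, hd⟩)
  by_cases h1 : ∅ ⊆ ω ∧ Disjoint (nb1H q r E e K) ω
  · rw [if_pos h1, if_pos (h.mpr h1)]
  · rw [if_neg h1, if_neg (fun h2 => h1 (h.mp h2))]

theorem nb1_mean (q r : ℕ) (E : Finset (Finset V)) (w : Finset V → ℝ) (e : Finset V)
    (p : Finset V → ℝ) :
    bE (clq q r E) p (fe r w e) = ∑ K ∈ Finset.univ.filter (fun K => e ⊆ K),
      w K * ∏ K' ∈ nb1H q r E e K, (1 - p K') := by
  classical
  rw [bE_congr (fun ω hω => nb1_fe q r E w e ω hω), bE_sum]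
  refine Finset.sum_congr rfl fun K _ => ?_
  rw [bE_mul_left, bE_subset_disj _ _ ∅ (nb1H q r E e K) (Finset.empty_subset _)
    (Finset.filter_subset _ _) (Finset.disjoint_empty_left _)]
  simp

theorem nb1_log {x : ℝ} (hx0 : 0 ≤ x) (hx : x ≤ 1 / 2) : Real.exp (-x - x ^ 2) ≤ 1 - x := by
  have h1 : Real.exp (x + x ^ 2) * (1 - x) ≥ 1 := by
    have h2 : 1 + (x + x ^ 2) ≤ Real.exp (x + x ^ 2) := by
      have := Real.add_one_le_exp (x + x ^ 2); linarith
    have h3 : (0 : ℝ) ≤ x + x ^ 2 := by positivity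
    have h4 := Real.quadratic_le_exp_of_nonneg h3
    nlinarith [mul_nonneg hx0 hx0, mul_nonneg (mul_nonneg hx0 hx0) hx0,
      mul_nonneg (mul_nonneg (mul_nonneg hx0 hx0) hx0) hx0,
      mul_le_mul_of_nonneg_right h4 (by linarith : (0 : ℝ) ≤ 1 - x)]
  have h5 : Real.exp (-x - x ^ 2) = (Real.exp (x + x ^ 2))⁻¹ := by
    rw [← Real.exp_neg]; congr 1; ring
  rw [h5, inv_le_comm₀ (Real.exp_pos _) (by linarith)]
  rw [inv_le_comm₀ (by linarith) (Real.exp_pos _)] 
  have h6 := Real.exp_pos (x + x ^ 2)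
  rw [inv_eq_one_div, div_le_iff₀ h6]
  linarith

theorem nb1_prod_le {ι : Type*} (s : Finset ι) (x : ι → ℝ) (hx : ∀ i ∈ s, 0 ≤ x i ∧ x i ≤ 1) :
    ∏ i ∈ s, (1 - x i) ≤ Real.exp (- ∑ i ∈ s, x i) := by
  rw [← Finset.sum_neg_distrib, Real.exp_sum]
  refine Finset.prod_le_prod (fun i hi => by linarith [(hx i hi).2]) fun i hi => ?_
  have := Real.add_one_le_exp (-x i)
  linarith

theorem nb1_le_prod {ι : Type*} (s : Finset ι) (x : ι → ℝ) (M : ℝ)
    (hx : ∀ i ∈ s, 0 ≤ x i ∧ x i ≤ 1 / 2) (hM : ∀ i ∈ s, x i ≤ M) :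
    Real.exp (- ∑ i ∈ s, x i - M * ∑ i ∈ s, x i) ≤ ∏ i ∈ s, (1 - x i) := by
  have h1 : - ∑ i ∈ s, x i - M * ∑ i ∈ s, x i = ∑ i ∈ s, (- x i - M * x i) := by
    rw [Finset.sum_sub_distrib, Finset.sum_neg_distrib, Finset.mul_sum]
  rw [h1, Real.exp_sum]
  refine Finset.prod_le_prod (fun i _ => (Real.exp_pos _).le) fun i hi => ?_
  refine le_trans ?_ (nb1_log (hx i hi).1 (hx i hi).2)
  apply Real.exp_le_exp.mpr
  nlinarith [hM i hi, (hx i hi).1]

/-- total weight of the hitting cliques: upper bound -/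
theorem nb1_up {q r : ℕ} {E : Finset (Finset V)} {w : Finset V → ℝ} {δ B : ℝ}
    (hw : NibW q r E w δ B) (hδ : 0 ≤ δ) (e K : Finset V) :
    ∑ K' ∈ nb1H q r E e K, w K' ≤ (((K.powersetCard r).erase e).card : ℝ) * (1 + δ) := by
  classical
  have h1 : ∑ K' ∈ nb1H q r E e K, w K' ≤
      ∑ g ∈ (K.powersetCard r).erase e, nbW w g := by
    have h2 : ∑ g ∈ (K.powersetCard r).erase e, nbW w g =
        ∑ K' ∈ (Finset.univ : Finset (Finset V)),
          ∑ g ∈ ((K.powersetCard r).erase e).filter (fun g => g ⊆ K'), w K' := by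
      unfold nbW
      simp_rw [Finset.sum_filter]
      exact Finset.sum_comm
    rw [h2]
    refine le_trans ?_ (Finset.sum_le_sum_of_subset_of_nonneg (Finset.subset_univ (nb1H q r E e K))
      (fun K' _ _ => Finset.sum_nonneg fun _ _ => hw.nonneg K'))
    refine Finset.sum_le_sum fun K' hK' => ?_
    simp only [nb1H, Finset.mem_filter] at hK'
    obtain ⟨g, hg, hg'⟩ := Finset.not_disjoint_iff.mp hK'.2.2
    have hmem : g ∈ ((K.powersetCard r).erase e).filter (fun g => g ⊆ K') :=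
      Finset.mem_filter.mpr ⟨hg', (Finset.mem_powersetCard.mp hg).1⟩
    exact Finset.single_le_sum (f := fun _ => w K') (fun _ _ => hw.nonneg K') hmem
  refine h1.trans ?_
  calc ∑ g ∈ (K.powersetCard r).erase e, nbW w g
      ≤ ∑ g ∈ (K.powersetCard r).erase e, (1 + δ) := by
        refine Finset.sum_le_sum fun g hg => nbW_rset hw hδ ?_
        exact (Finset.mem_powersetCard.mp (Finset.mem_of_mem_erase hg)).2
    _ = _ := by rw [Finset.sum_const, nsmul_eq_mul]

/-- total weight of the hitting cliques: lower bound -/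
theorem nb1_low {q r : ℕ} {E : Finset (Finset V)} {w : Finset V → ℝ} {δ B : ℝ}
    (hw : NibW q r E w δ B) (hB : 0 ≤ B) (hq : r < q) (e K : Finset V) (he : e.card = r)
    (hK : K ∈ clq q r E) (m : ℝ) (hm : (((K.powersetCard r).erase e).card : ℝ) = m) :
    m * (1 - δ) - m ^ 2 * (B / (Fintype.card V : ℝ)) ≤ ∑ K' ∈ nb1H q r E e K, w K' := by
  classical
  set G := (K.powersetCard r).erase e with hG
  have hGc : ∀ g ∈ G, g.card = r ∧ g ≠ e ∧ g ∈ E := by
    intro g hg
    rw [hG, Finset.mem_erase, Finset.mem_powersetCard] at hg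
    exact ⟨hg.2.2, hg.1, (nb_clq hK).2 (Finset.mem_powersetCard.mpr hg.2)⟩
  set C := (clq q r E).filter (fun K' => ¬ e ⊆ K') with hC
  -- pointwise inequality
  have hpt : ∀ K' ∈ C, (((G.filter (fun g => g ⊆ K')).card : ℝ) -
      (((G.filter (fun g => g ⊆ K')).offDiag).card : ℝ)) * w K' ≤
      if K' ∈ nb1H q r E e K then w K' else 0 := by
    intro K' hK'
    have hoff : (((G.filter (fun g => g ⊆ K')).offDiag).card : ℝ) =
        ((G.filter (fun g => g ⊆ K')).card : ℝ) * ((G.filter (fun g => g ⊆ K')).card : ℝ) -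
          ((G.filter (fun g => g ⊆ K')).card : ℝ) := by
      rw [Finset.offDiag_card, Nat.cast_sub (Nat.le_mul_self _)]
      push_cast; ring
    rw [hoff]
    split_ifs with h
    · have h0 := hw.nonneg K'
      nlinarith [sq_nonneg (((G.filter (fun g => g ⊆ K')).card : ℝ) - 1)]
    · have h0 : G.filter (fun g => g ⊆ K') = ∅ := by
        rw [Finset.filter_eq_empty_iff]
        intro g hg hgK
        apply h
        simp only [nb1H, Finset.mem_filter]
        rw [hC, Finset.mem_filter] at hK'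
        refine ⟨hK'.1, hK'.2, ?_⟩
        rw [Finset.not_disjoint_iff]
        exact ⟨g, Finset.mem_powersetCard.mpr ⟨hgK, (hGc g hg).1⟩, hg⟩
      rw [h0]; simp
  have hsum : ∑ K' ∈ nb1H q r E e K, w K' =
      ∑ K' ∈ C, if K' ∈ nb1H q r E e K then w K' else 0 := by
    rw [← Finset.sum_filter]
    refine Finset.sum_congr ?_ fun _ _ => rfl
    ext K'
    simp only [hC, nb1H, Finset.mem_filter]
    tauto
  rw [hsum]
  refine le_trans ?_ (Finset.sum_le_sum hpt)
  have h1 : ∑ K' ∈ C, (((G.filter (fun g => g ⊆ K')).card : ℝ) -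
      (((G.filter (fun g => g ⊆ K')).offDiag).card : ℝ)) * w K' =
      ∑ g ∈ G, ∑ K' ∈ C.filter (fun K' => g ⊆ K'), w K' -
        ∑ z ∈ G.offDiag, ∑ K' ∈ C.filter (fun K' => z.1 ⊆ K' ∧ z.2 ⊆ K'), w K' := by
    simp_rw [sub_mul]
    rw [Finset.sum_sub_distrib]
    congr 1
    · simp_rw [Finset.sum_filter]
      rw [Finset.sum_comm]
      refine Finset.sum_congr rfl fun K' _ => ?_
      rw [← Finset.sum_filter, Finset.sum_const, nsmul_eq_mul]
    · simp_rw [Finset.sum_filter]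
      rw [Finset.sum_comm]
      refine Finset.sum_congr rfl fun K' _ => ?_
      rw [← Finset.sum_filter, Finset.sum_const, nsmul_eq_mul]
      congr 3
      ext z
      simp only [Finset.mem_offDiag, Finset.mem_filter]
      tauto
  rw [h1]
  have h2 : ∀ g ∈ G, (1 - δ) - B / (Fintype.card V : ℝ) ≤
      ∑ K' ∈ C.filter (fun K' => g ⊆ K'), w K' := by
    intro g hg
    have h3 : nbW w g = ∑ K' ∈ C.filter (fun K' => g ⊆ K'), w K' + nbW w (e ∪ g) := by
      rw [nb_W_clq hw g, nb_W_clq hw (e ∪ g), hC, Finset.filter_filter,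
        ← Finset.sum_filter_add_sum_filter_not ((clq q r E).filter (fun K => g ⊆ K))
          (fun K' => ¬ e ⊆ K')]
      simp only [Finset.filter_filter]
      congr 1
      · refine Finset.sum_congr ?_ fun _ _ => rfl
        ext K'; simp only [Finset.mem_filter]; tauto
      · refine Finset.sum_congr ?_ fun _ _ => rfl
        ext K'
        simp only [Finset.mem_filter, Finset.union_subset_iff, not_not]; tauto
    have h4 := nbW_big hw hB hq (nb_union_card he (hGc g hg).1 (hGc g hg).2.1)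
    have h5 := (nbW_edge hw (hGc g hg).2.2).1
    linarith
  have h6 : ∀ z ∈ G.offDiag, ∑ K' ∈ C.filter (fun K' => z.1 ⊆ K' ∧ z.2 ⊆ K'), w K' ≤
      B / (Fintype.card V : ℝ) := by
    intro z hz
    rw [Finset.mem_offDiag] at hz
    refine le_trans ?_ (nbW_big hw hB hq
      (nb_union_card (hGc _ hz.1).1 (hGc _ hz.2.1).1 hz.2.2.symm))
    rw [nb_W_clq hw]
    refine Finset.sum_le_sum_of_subset_of_nonneg ?_ (fun K' _ _ => hw.nonneg K')
    intro K' hK'
    simp only [hC, Finset.mem_filter, Finset.union_subset_iff] at hK' ⊢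
    exact ⟨hK'.1.1, hK'.2⟩
  have h7 : (G.card : ℝ) * ((1 - δ) - B / (Fintype.card V : ℝ)) ≤
      ∑ g ∈ G, ∑ K' ∈ C.filter (fun K' => g ⊆ K'), w K' := by
    have := Finset.sum_le_sum h2
    rwa [Finset.sum_const, nsmul_eq_mul] at this
  have h8 : ∑ z ∈ G.offDiag, ∑ K' ∈ C.filter (fun K' => z.1 ⊆ K' ∧ z.2 ⊆ K'), w K' ≤
      (m * m - m) * (B / (Fintype.card V : ℝ)) := by
    have := Finset.sum_le_sum h6
    rw [Finset.sum_const, nsmul_eq_mul, Finset.offDiag_card, Nat.cast_sub (Nat.le_mul_self _)] at this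
    push_cast at this
    rwa [hm] at this
  rw [hm] at h7
  nlinarith

end Nib1

theorem nib_mean (q r : ℕ) (hr : 1 ≤ r) (hq : r < q) {V : Type} [Fintype V] [DecidableEq V]
    (E : Finset (Finset V)) (w : Finset V → ℝ) (δ B ε : ℝ) (hw : NibW q r E w δ B)
    (hδ0 : 0 ≤ δ) (hδ : δ ≤ 1 / 2) (hB : 1 ≤ B) (hε : 0 < ε) (hεb : ε * (q.choose r : ℝ) ≤ 1 / 2)
    (hn : 4 * (q.choose r : ℝ) * B ≤ (Fintype.card V : ℝ)) (e : Finset V) (he : e ∈ E) :
    |Real.exp (ε * ((q.choose r : ℝ) - 1)) *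
        bE (clq q r E) (fun K => ε * w K) (fe r w e) - 1| ≤
      δ * (1 + 3 * ε * (q.choose r : ℝ)) +
        6 * ε * (q.choose r : ℝ) ^ 2 * B / (Fintype.card V : ℝ) := by
  classical
  have hb1 : (1 : ℝ) ≤ (q.choose r : ℝ) := by exact_mod_cast Nat.choose_pos hq.le
  set b : ℝ := (q.choose r : ℝ) with hb
  set n : ℝ := (Fintype.card V : ℝ) with hndef
  have hn4 : 4 ≤ n := by nlinarith
  have hn0 : 0 < n := by linarith
  have hBn : B / n ≤ 1 / (4 * b) := by
    rw [div_le_div_iff₀ hn0 (by linarith)]; nlinarith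
  have hBn0 : 0 ≤ B / n := by positivity
  have hbBn : b * (B / n) ≤ 1 / 4 := by
    calc b * (B / n) ≤ b * (1 / (4 * b)) := mul_le_mul_of_nonneg_left hBn (by linarith)
      _ = 1 / 4 := by field_simp
  have hec : e.card = r := hw.unif e he
  set y : ℝ := ε * b * δ + ε * b ^ 2 * (B / n) with hy
  have hy0 : 0 ≤ y := by positivity
  have hy1 : y ≤ 1 / 2 := by
    have h1 : ε * b * δ ≤ 1 / 4 := by nlinarith
    have h2 : ε * b ^ 2 * (B / n) = (ε * b) * (b * (B / n)) := by ring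
    have h3 : (ε * b) * (b * (B / n)) ≤ (1 / 2) * (1 / 4) :=
      mul_le_mul hεb hbBn (by positivity) (by norm_num)
    rw [hy, h2]; linarith
  have hε2 : ε ≤ 1 / 2 := by nlinarith
  -- estimate of each product
  have key : ∀ K ∈ Finset.univ.filter (fun K : Finset V => e ⊆ K), w K ≠ 0 →
      Real.exp (-y) ≤ Real.exp (ε * (b - 1)) * ∏ K' ∈ nb1H q r E e K, (1 - ε * w K') ∧
      Real.exp (ε * (b - 1)) * ∏ K' ∈ nb1H q r E e K, (1 - ε * w K') ≤ Real.exp y := by
    intro K hKe hK0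
    rw [Finset.mem_filter] at hKe
    have hKc := nb_mem_clq hw hK0
    have hcard : (((K.powersetCard r).erase e).card : ℝ) = b - 1 := by
      rw [Finset.card_erase_of_mem (Finset.mem_powersetCard.mpr ⟨hKe.2, hec⟩),
        Finset.card_powersetCard, (nb_clq hKc).1, Nat.cast_sub (Nat.choose_pos hq.le)]
      simp [hb]
    have hup := nb1_up hw hδ0 e K
    rw [hcard] at hup
    have hlow := nb1_low hw (by linarith) hq e K hec hKc (b - 1) hcard
    set σ : ℝ := ∑ K' ∈ nb1H q r E e K, w K' with hσ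
    have hσε : ∑ K' ∈ nb1H q r E e K, ε * w K' = ε * σ := by rw [hσ, Finset.mul_sum]
    have hσ0 : 0 ≤ σ := Finset.sum_nonneg fun K' _ => hw.nonneg K'
    have hwn : ∀ K' : Finset V, 0 ≤ ε * w K' ∧ ε * w K' ≤ ε * (B / n) := fun K' =>
      ⟨mul_nonneg hε.le (hw.nonneg K'), mul_le_mul_of_nonneg_left
        (nb_w_le hw (by linarith) hq K') hε.le⟩
    have hεBn : ε * (B / n) ≤ 1 / 2 := by nlinarith
    constructor
    · have h1 := nb1_le_prod (nb1H q r E e K) (fun K' => ε * w K') (ε * (B / n))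
        (fun K' _ => ⟨(hwn K').1, (hwn K').2.trans hεBn⟩) (fun K' _ => (hwn K').2)
      rw [hσε] at h1
      refine le_trans ?_ (mul_le_mul_of_nonneg_left h1 (Real.exp_pos _).le)
      rw [← Real.exp_add]
      apply Real.exp_le_exp.mpr
      have h2 : ε * σ ≤ ε * ((b - 1) * (1 + δ)) := mul_le_mul_of_nonneg_left hup hε.le
      have h3 : ε * ((b - 1) * (1 + δ)) ≤ 1 := by
        have : ε * ((b - 1) * (1 + δ)) ≤ ε * b * (3 / 2) := by
          have : (b - 1) * (1 + δ) ≤ b * (3 / 2) := by nlinarith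
          calc ε * ((b - 1) * (1 + δ)) ≤ ε * (b * (3 / 2)) := mul_le_mul_of_nonneg_left this hε.le
            _ = ε * b * (3 / 2) := by ring
        nlinarith
      have h4 : ε * (B / n) * (ε * σ) ≤ ε * b ^ 2 * (B / n) := by
        have h5 : ε * (B / n) * (ε * σ) ≤ ε * (B / n) * 1 :=
          mul_le_mul_of_nonneg_left (h2.trans h3) (by positivity)
        have h6 : ε * (B / n) * 1 ≤ ε * (B / n) * b ^ 2 :=
          mul_le_mul_of_nonneg_left (by nlinarith) (by positivity)
        nlinarith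
      have h7 : ε * ((b - 1) * (1 + δ)) = ε * (b - 1) + ε * b * δ - ε * δ := by ring
      have h8 : 0 ≤ ε * δ := by positivity
      rw [hy]
      nlinarith
    · have h1 := nb1_prod_le (nb1H q r E e K) (fun K' => ε * w K')
        (fun K' _ => ⟨(hwn K').1, (hwn K').2.trans (hεBn.trans (by norm_num))⟩)
      rw [hσε] at h1
      refine le_trans (mul_le_mul_of_nonneg_left h1 (Real.exp_pos _).le) ?_
      rw [← Real.exp_add]
      apply Real.exp_le_exp.mpr
      have h2 : ε * ((b - 1) * (1 - δ) - (b - 1) ^ 2 * (B / n)) ≤ ε * σ :=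
        mul_le_mul_of_nonneg_left hlow hε.le
      have h3 : (b - 1) ^ 2 * (B / n) ≤ b ^ 2 * (B / n) :=
        mul_le_mul_of_nonneg_right (by nlinarith) hBn0
      have h4 : ε * ((b - 1) ^ 2 * (B / n)) ≤ ε * (b ^ 2 * (B / n)) :=
        mul_le_mul_of_nonneg_left h3 hε.le
      have h8 : 0 ≤ ε * δ := by positivity
      rw [hy]
      nlinarith
  -- summation
  rw [nb1_mean]
  have hW := nbW_edge hw he
  have hT1 : Real.exp (-y) * nbW w e ≤ Real.exp (ε * (b - 1)) *
      ∑ K ∈ Finset.univ.filter (fun K => e ⊆ K), w K * ∏ K' ∈ nb1H q r E e K, (1 - ε * w K') := by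
    unfold nbW
    rw [Finset.mul_sum, Finset.mul_sum]
    refine Finset.sum_le_sum fun K hK => ?_
    by_cases h : w K = 0
    · rw [h]; simp
    · have := (key K hK h).1
      have h0 := hw.nonneg K
      nlinarith [mul_le_mul_of_nonneg_right this h0]
  have hT2 : Real.exp (ε * (b - 1)) *
      ∑ K ∈ Finset.univ.filter (fun K => e ⊆ K), w K * ∏ K' ∈ nb1H q r E e K, (1 - ε * w K') ≤
      Real.exp y * nbW w e := by
    unfold nbW
    rw [Finset.mul_sum, Finset.mul_sum]
    refine Finset.sum_le_sum fun K hK => ?_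
    by_cases h : w K = 0
    · rw [h]; simp
    · have := (key K hK h).2
      have h0 := hw.nonneg K
      nlinarith [mul_le_mul_of_nonneg_right this h0]
  have he1 : 1 - y ≤ Real.exp (-y) := by
    have := Real.add_one_le_exp (-y); linarith
  have he2 : Real.exp y ≤ 1 + 2 * y := by
    have h1 : Real.exp y * Real.exp (-y) = 1 := by rw [← Real.exp_add]; simp
    have h2 : Real.exp y * (1 - y) ≤ 1 := by
      have h2' := mul_le_mul_of_nonneg_left he1 (Real.exp_pos y).le
      rwa [h1] at h2'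
    have h3 := Real.exp_pos y
    nlinarith
  have hW0 : 0 ≤ nbW w e := nbW_nonneg hw e
  have hyt : 3 * y ≤ 3 * (ε * b * δ) + 6 * ε * b ^ 2 * B / n := by
    rw [hy]
    have : 6 * ε * b ^ 2 * B / n = 6 * (ε * b ^ 2 * (B / n)) := by ring
    rw [this]
    have : 0 ≤ ε * b ^ 2 * (B / n) := by positivity
    linarith
  rw [abs_le]
  constructor
  · have h1 : (1 - y) * (1 - δ) ≤ Real.exp (-y) * nbW w e :=
      mul_le_mul he1 hW.1 (by linarith) (Real.exp_pos _).le
    nlinarith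
  · have h1 : Real.exp y * nbW w e ≤ (1 + 2 * y) * (1 + δ) :=
      mul_le_mul he2 hW.2 hW0 (by linarith)
    nlinarith

end Pool.Agent.Des
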