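import Pool.Agent.Lib_helper96.Des.Prob

/-!
# Block PBERN: Bernstein type inequality for the product Bernoulli measure

Induction on `S` with `bE_insert`, generalizing `f`.  With `g ω = p a * f (insert a ω) +
(1 - p a) * f ω` one has `bE (insert a S) p f = bE S p g`, `|g (insert i ω) - g ω| ≤ c i`, and for
real `x` with `|x| ≤ 1`: `exp x ≤ 1 + x + x ^ 2`; hence for `|lam * d| ≤ 1`
`p exp (lam (1-p) d) + (1-p) exp (- lam p d) ≤ 1 + p (1-p) lam^2 d^2 ≤ exp (lam^2 p d^2)`.
-/

set_option autoImplicit false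

namespace Pool.Agent.Des

open Finset

variable {Ω : Type*} [DecidableEq Ω]

theorem pbern_exp (x : ℝ) (hx : |x| ≤ 1) : Real.exp x ≤ 1 + x + x ^ 2 := by
  have h := (abs_le.1 (Real.abs_exp_sub_one_sub_id_le hx)).2
  linarith

theorem pbern_two (p d c lam : ℝ) (hp0 : 0 ≤ p) (hp1 : p ≤ 1) (hd : |d| ≤ c) (hl : 0 ≤ lam)
    (hlc : lam * c ≤ 1) :
    p * Real.exp (lam * ((1 - p) * d)) + (1 - p) * Real.exp (lam * (-(p * d))) ≤
      Real.exp (lam ^ 2 * (p * c ^ 2)) := by
  have hld : |lam * d| ≤ 1 := by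
    rw [abs_mul, abs_of_nonneg hl]
    exact (mul_le_mul_of_nonneg_left hd hl).trans hlc
  have h1 : |lam * ((1 - p) * d)| ≤ 1 := by
    have : lam * ((1 - p) * d) = (1 - p) * (lam * d) := by ring
    rw [this, abs_mul, abs_of_nonneg (by linarith : (0 : ℝ) ≤ 1 - p)]
    nlinarith [abs_nonneg (lam * d)]
  have h2 : |lam * (-(p * d))| ≤ 1 := by
    have : lam * (-(p * d)) = -(p * (lam * d)) := by ring
    rw [this, abs_neg, abs_mul, abs_of_nonneg hp0]
    nlinarith [abs_nonneg (lam * d)]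
  have h3 := mul_le_mul_of_nonneg_left (pbern_exp _ h1) hp0
  have h4 := mul_le_mul_of_nonneg_left (pbern_exp _ h2) (by linarith : (0 : ℝ) ≤ 1 - p)
  have h5 : d ^ 2 ≤ c ^ 2 := sq_le_sq' (by linarith [(abs_le.1 hd).1]) (abs_le.1 hd).2
  have h6 := Real.add_one_le_exp (lam ^ 2 * (p * c ^ 2))
  have h7 : p * (1 + lam * ((1 - p) * d) + (lam * ((1 - p) * d)) ^ 2) +
      (1 - p) * (1 + lam * (-(p * d)) + (lam * (-(p * d))) ^ 2) =
      1 + lam ^ 2 * d ^ 2 * (p * (1 - p)) := by ring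
  have h8 : lam ^ 2 * d ^ 2 * (p * (1 - p)) ≤ lam ^ 2 * (p * c ^ 2) := by
    have a1 : 0 ≤ lam ^ 2 := sq_nonneg _
    have a2 : d ^ 2 * (p * (1 - p)) ≤ p * c ^ 2 := by
      have : p * (1 - p) ≤ p := by nlinarith
      calc d ^ 2 * (p * (1 - p)) ≤ d ^ 2 * p := mul_le_mul_of_nonneg_left this (sq_nonneg _)
        _ ≤ c ^ 2 * p := mul_le_mul_of_nonneg_right h5 hp0
        _ = p * c ^ 2 := by ring
    calc lam ^ 2 * d ^ 2 * (p * (1 - p)) = lam ^ 2 * (d ^ 2 * (p * (1 - p))) := by ring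
      _ ≤ _ := mul_le_mul_of_nonneg_left a2 a1
  linarith

theorem bernstein (S : Finset Ω) (p : Ω → ℝ) (hp : ∀ i ∈ S, 0 ≤ p i ∧ p i ≤ 1)
    (f : Finset Ω → ℝ) (c : Ω → ℝ) (hc : ∀ i ∈ S, 0 ≤ c i)
    (hf : ∀ i ∈ S, ∀ ω ⊆ S, i ∉ ω → |f (insert i ω) - f ω| ≤ c i) (lam : ℝ) (hl : 0 ≤ lam)
    (hl1 : ∀ i ∈ S, lam * c i ≤ 1) :
    bE S p (fun ω => Real.exp (lam * (f ω - bE S p f))) ≤
      Real.exp (lam ^ 2 * ∑ i ∈ S, p i * c i ^ 2) := by
  induction S using Finset.induction_on generalizing f with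
  | empty => rw [bE_empty, bE_empty]; simp
  | insert a S ha ih =>
    have hpa := hp a (Finset.mem_insert_self _ _)
    have hp' : ∀ i ∈ S, 0 ≤ p i ∧ p i ≤ 1 := fun i hi => hp i (Finset.mem_insert_of_mem hi)
    have hc' : ∀ i ∈ S, 0 ≤ c i := fun i hi => hc i (Finset.mem_insert_of_mem hi)
    have hl1' : ∀ i ∈ S, lam * c i ≤ 1 := fun i hi => hl1 i (Finset.mem_insert_of_mem hi)
    obtain ⟨g, hg⟩ : ∃ g : Finset Ω → ℝ, ∀ ω, g ω = p a * f (insert a ω) + (1 - p a) * f ω :=
      ⟨_, fun _ => rfl⟩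
    have hμ : bE (insert a S) p f = bE S p g := by
      rw [bE_insert ha, ← bE_mul_left, ← bE_mul_left, ← bE_add]
      exact bE_congr fun ω _ => (hg ω).symm
    have hgd : ∀ i ∈ S, ∀ ω ⊆ S, i ∉ ω → |g (insert i ω) - g ω| ≤ c i := by
      intro i hi ω hω hiω
      have hia : i ≠ a := fun h => ha (h ▸ hi)
      have h1 := hf i (Finset.mem_insert_of_mem hi) (insert a ω)
        (Finset.insert_subset_insert _ hω) (by rw [Finset.mem_insert]; tauto)
      have h2 := hf i (Finset.mem_insert_of_mem hi) ω (hω.trans (Finset.subset_insert _ _)) hiω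
      rw [Finset.insert_comm] at h1
      have e1 : g (insert i ω) - g ω = p a * (f (insert a (insert i ω)) - f (insert a ω)) +
          (1 - p a) * (f (insert i ω) - f ω) := by rw [hg, hg]; ring
      rw [e1]
      calc |p a * (f (insert a (insert i ω)) - f (insert a ω)) +
          (1 - p a) * (f (insert i ω) - f ω)|
          ≤ |p a * (f (insert a (insert i ω)) - f (insert a ω))| +
            |(1 - p a) * (f (insert i ω) - f ω)| := abs_add_le _ _
        _ = p a * |f (insert a (insert i ω)) - f (insert a ω)| +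
            (1 - p a) * |f (insert i ω) - f ω| := by
            rw [abs_mul, abs_mul, abs_of_nonneg hpa.1,
              abs_of_nonneg (by linarith [hpa.2] : (0 : ℝ) ≤ 1 - p a)]
        _ ≤ p a * c i + (1 - p a) * c i :=
            add_le_add (mul_le_mul_of_nonneg_left h1 hpa.1)
              (mul_le_mul_of_nonneg_left h2 (by linarith [hpa.2]))
        _ = c i := by ring
    have hih := ih hp' g hc' hgd hl1'
    rw [hμ, bE_insert ha, ← bE_mul_left, ← bE_mul_left, ← bE_add, Finset.sum_insert ha, mul_add,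
      Real.exp_add]
    calc bE S p (fun ω => p a * Real.exp (lam * (f (insert a ω) - bE S p g)) +
          (1 - p a) * Real.exp (lam * (f ω - bE S p g)))
        ≤ bE S p (fun ω => Real.exp (lam ^ 2 * (p a * c a ^ 2)) *
            Real.exp (lam * (g ω - bE S p g))) := by
          refine bE_mono hp' fun ω hω => ?_
          have haω : a ∉ ω := fun h => ha (hω h)
          have hd := hf a (Finset.mem_insert_self _ _) ω (hω.trans (Finset.subset_insert _ _)) haω
          have h2 := pbern_two (p a) (f (insert a ω) - f ω) (c a) lam hpa.1 hpa.2 hd hl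
            (hl1 a (Finset.mem_insert_self _ _))
          have e1 : lam * (f (insert a ω) - bE S p g) =
              lam * (g ω - bE S p g) + lam * ((1 - p a) * (f (insert a ω) - f ω)) := by
            rw [hg]; ring
          have e2 : lam * (f ω - bE S p g) =
              lam * (g ω - bE S p g) + lam * (-(p a * (f (insert a ω) - f ω))) := by
            rw [hg]; ring
          rw [e1, e2, Real.exp_add, Real.exp_add]
          have h3 := mul_le_mul_of_nonneg_left h2 (Real.exp_pos (lam * (g ω - bE S p g))).le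
          linarith
      _ = Real.exp (lam ^ 2 * (p a * c a ^ 2)) *
            bE S p (fun ω => Real.exp (lam * (g ω - bE S p g))) := bE_mul_left _ _ _ _
      _ ≤ Real.exp (lam ^ 2 * (p a * c a ^ 2)) * Real.exp (lam ^ 2 * ∑ i ∈ S, p i * c i ^ 2) :=
          mul_le_mul_of_nonneg_left hih (Real.exp_pos _).le

theorem bernstein_tail (S : Finset Ω) (p : Ω → ℝ) (hp : ∀ i ∈ S, 0 ≤ p i ∧ p i ≤ 1)
    (f : Finset Ω → ℝ) (c : Ω → ℝ) (hc : ∀ i ∈ S, 0 ≤ c i)
    (hf : ∀ i ∈ S, ∀ ω ⊆ S, i ∉ ω → |f (insert i ω) - f ω| ≤ c i) (lam : ℝ) (hl : 0 ≤ lam)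
    (hl1 : ∀ i ∈ S, lam * c i ≤ 1) (t : ℝ) :
    bP S p (fun ω => t ≤ |f ω - bE S p f|) ≤
      2 * Real.exp (- (lam * t) + lam ^ 2 * ∑ i ∈ S, p i * c i ^ 2) := by
  have h1 : bP S p (fun ω => t ≤ |f ω - bE S p f|) ≤
      bP S p (fun ω => t ≤ f ω - bE S p f ∨ t ≤ -(f ω - bE S p f)) := by
    refine bP_mono hp fun ω _ h => ?_
    exact le_abs.1 h
  refine h1.trans ((bP_or_le hp _ _).trans ?_)
  have h2 : bP S p (fun ω => t ≤ f ω - bE S p f) ≤
      Real.exp (- (lam * t) + lam ^ 2 * ∑ i ∈ S, p i * c i ^ 2) := by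
    refine (bP_le_exp hp (f := fun ω => lam * (f ω - bE S p f)) (s := lam * t)
      (fun ω _ h => mul_le_mul_of_nonneg_left h hl)).trans ?_
    rw [Real.exp_add]
    exact mul_le_mul_of_nonneg_left (bernstein S p hp f c hc hf lam hl hl1) (Real.exp_pos _).le
  have h3 : bP S p (fun ω => t ≤ -(f ω - bE S p f)) ≤
      Real.exp (- (lam * t) + lam ^ 2 * ∑ i ∈ S, p i * c i ^ 2) := by
    have hneg := bernstein S p hp (fun ω => - f ω) c hc (by
      intro i hi ω hω hiω
      have : -f (insert i ω) - -f ω = -(f (insert i ω) - f ω) := by ring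
      rw [this, abs_neg]
      exact hf i hi ω hω hiω) lam hl hl1
    rw [bE_neg] at hneg
    refine (bP_le_exp hp (f := fun ω => lam * (- f ω - - bE S p f)) (s := lam * t)
      (fun ω _ h => mul_le_mul_of_nonneg_left (by linarith) hl)).trans ?_
    rw [Real.exp_add]
    exact mul_le_mul_of_nonneg_left hneg (Real.exp_pos _).le
  linarith

end Pool.Agent.Des
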