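import Pool.Agent.Lib_helper96.Des.Pindep
import Pool.Agent.Lib_helper96.Des.Pbern
import Pool.Agent.Lib_helper96.Des.NibAux

/-!
# Blocks NIB2a (`nib_conc`), NIB2b (`nib_codeg`): concentration of the surviving weight and of the codegrees

`nib_conc`: `bernstein_tail` for `fe r w e` with `c K' = 0` if `e ⊆ K'` and otherwise
`c K' = ∑_{g ∈ K'.powersetCard r, g ≠ e} ∑_{K ⊇ e ∪ g} w K ≤ b B / n`;
`∑ ε w K' c K' ≤ ε ∑_{K ⊇ e} w K ∑_{g ⊆ K} ∑_{K' ⊇ g} w K' ≤ 3 b ε`, so
`∑ p c² ≤ 3 b² B ε / n`; take `lam = √n`.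
-/

set_option autoImplicit false

namespace Pool.Agent.Des

open Finset

section Nib2a

variable {V : Type} [Fintype V] [DecidableEq V]

/-- Lipschitz constant of the surviving weight at `e` with respect to the clique `K'` -/
noncomputable def nb2c (r : ℕ) (w : Finset V → ℝ) (e K' : Finset V) : ℝ :=
  ∑ g ∈ (K'.powersetCard r).erase e, nbW w (e ∪ g)

theorem nb2_lip {q r : ℕ} {E : Finset (Finset V)} {w : Finset V → ℝ} {δ B : ℝ}
    (hw : NibW q r E w δ B) (e K' : Finset V) (ω : Finset (Finset V)) :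
    |fe r w e (insert K' ω) - fe r w e ω| ≤ nb2c r w e K' := by
  classical
  have h0 : 0 ≤ nb2c r w e K' := Finset.sum_nonneg fun g _ => nbW_nonneg hw _
  set P : Finset (Finset V) → Finset V → Prop := fun ω K =>
    ∀ K' ∈ ω, ¬ e ⊆ K' → Disjoint (K'.powersetCard r) ((K.powersetCard r).erase e) with hP
  have hdiff : fe r w e ω - fe r w e (insert K' ω) = ∑ K ∈ Finset.univ.filter (fun K => e ⊆ K),
      w K * ((if P ω K then 1 else 0) - (if P (insert K' ω) K then 1 else 0)) := by
    unfold fe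
    rw [← Finset.sum_sub_distrib]
    refine Finset.sum_congr rfl fun K _ => ?_
    rw [mul_sub]
  have hmono : ∀ K, P (insert K' ω) K → P ω K := fun K h K'' hK'' =>
    h K'' (Finset.mem_insert_of_mem hK'')
  have hle : fe r w e ω - fe r w e (insert K' ω) ≤ nb2c r w e K' := by
    rw [hdiff]
    have h2 : nb2c r w e K' = ∑ K ∈ (Finset.univ : Finset (Finset V)),
        ∑ g ∈ ((K'.powersetCard r).erase e).filter (fun g => e ∪ g ⊆ K), w K := by
      unfold nb2c nbW
      simp_rw [Finset.sum_filter]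
      exact Finset.sum_comm
    rw [h2, Finset.sum_filter]
    refine Finset.sum_le_sum fun K _ => ?_
    have hnn : 0 ≤ ∑ g ∈ ((K'.powersetCard r).erase e).filter (fun g => e ∪ g ⊆ K), w K :=
      Finset.sum_nonneg fun _ _ => hw.nonneg K
    split_ifs with he h1 h3
    · simpa using hnn
    · -- `P ω K` but not `P (insert K' ω) K`
      have h4 : ¬ e ⊆ K' ∧ ¬ Disjoint (K'.powersetCard r) ((K.powersetCard r).erase e) := by
        by_contra hcon
        apply h3
        intro K'' hK'' he''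
        rcases Finset.mem_insert.mp hK'' with h | h
        · subst h
          by_contra hd
          exact hcon ⟨he'', hd⟩
        · exact h1 K'' h he''
      obtain ⟨g, hg, hg'⟩ := Finset.not_disjoint_iff.mp h4.2
      rw [Finset.mem_erase] at hg'
      have hmem : g ∈ ((K'.powersetCard r).erase e).filter (fun g => e ∪ g ⊆ K) := by
        rw [Finset.mem_filter, Finset.mem_erase]
        exact ⟨⟨hg'.1, hg⟩, Finset.union_subset he (Finset.mem_powersetCard.mp hg'.2).1⟩
      have := Finset.single_le_sum (f := fun _ => w K) (fun _ _ => hw.nonneg K) hmem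
      simpa using this
    · exact absurd (hmono K ‹_›) h1
    · simpa using hnn
    · exact hnn
  have hge : 0 ≤ fe r w e ω - fe r w e (insert K' ω) := by
    rw [hdiff]
    refine Finset.sum_nonneg fun K _ => mul_nonneg (hw.nonneg K) ?_
    by_cases h1 : P ω K
    · rw [if_pos h1]; split_ifs <;> norm_num
    · rw [if_neg h1, if_neg (fun h => h1 (hmono K h))]; norm_num
  rw [abs_le]
  constructor <;> linarith

theorem nb2_c_le {q r : ℕ} {E : Finset (Finset V)} {w : Finset V → ℝ} {δ B : ℝ}
    (hw : NibW q r E w δ B) (hB : 0 ≤ B) (hq : r < q) {e K' : Finset V} (he : e.card = r)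
    (hK' : K' ∈ clq q r E) :
    nb2c r w e K' ≤ (q.choose r : ℝ) * (B / (Fintype.card V : ℝ)) := by
  unfold nb2c
  calc ∑ g ∈ (K'.powersetCard r).erase e, nbW w (e ∪ g)
      ≤ ∑ g ∈ (K'.powersetCard r).erase e, B / (Fintype.card V : ℝ) := by
        refine Finset.sum_le_sum fun g hg => ?_
        rw [Finset.mem_erase, Finset.mem_powersetCard] at hg
        exact nbW_big hw hB hq (nb_union_card he hg.2.2 hg.1)
    _ = (((K'.powersetCard r).erase e).card : ℝ) * (B / (Fintype.card V : ℝ)) := by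
        rw [Finset.sum_const, nsmul_eq_mul]
    _ ≤ (q.choose r : ℝ) * (B / (Fintype.card V : ℝ)) := by
        refine mul_le_mul_of_nonneg_right ?_ (by positivity)
        have h1 : ((K'.powersetCard r).erase e).card ≤ (K'.powersetCard r).card :=
          Finset.card_le_card (Finset.erase_subset _ _)
        rw [Finset.card_powersetCard, (nb_clq hK').1] at h1
        exact_mod_cast h1

theorem nb2_sum {q r : ℕ} {E : Finset (Finset V)} {w : Finset V → ℝ} {δ B : ℝ}
    (hw : NibW q r E w δ B) (hδ0 : 0 ≤ δ) (hδ : δ ≤ 1 / 2) {e : Finset V} (he : e ∈ E) :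
    ∑ K' ∈ clq q r E, w K' * nb2c r w e K' ≤ 3 * (q.choose r : ℝ) := by
  classical
  -- exchange: `∑_{K'} w K' ∑_{g ⊆ K', g ≠ e} ∑_{K ⊇ e ∪ g} w K`
  have h1 : ∑ K' ∈ clq q r E, w K' * nb2c r w e K' ≤
      ∑ K ∈ (clq q r E).filter (fun K => e ⊆ K), w K * ∑ g ∈ K.powersetCard r, nbW w g := by
    have h2 : ∀ K' ∈ clq q r E, w K' * nb2c r w e K' ≤
        ∑ K ∈ (clq q r E).filter (fun K => e ⊆ K),
          ∑ g ∈ (K.powersetCard r).filter (fun g => g ⊆ K'), w K * w K' := by
      intro K' hK'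
      have h3 : nb2c r w e K' ≤ ∑ K ∈ (clq q r E).filter (fun K => e ⊆ K),
          ∑ g ∈ (K.powersetCard r).filter (fun g => g ⊆ K'), w K := by
        unfold nb2c
        have h4 : ∀ g ∈ (K'.powersetCard r).erase e, nbW w (e ∪ g) =
            ∑ K ∈ (clq q r E).filter (fun K => e ⊆ K), if g ⊆ K then w K else 0 := by
          intro g _
          rw [nb_W_clq hw, ← Finset.sum_filter, Finset.filter_filter]
          refine Finset.sum_congr ?_ fun _ _ => rfl
          ext K; simp only [Finset.mem_filter, Finset.union_subset_iff]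
        rw [Finset.sum_congr rfl h4, Finset.sum_comm]
        refine Finset.sum_le_sum fun K _ => ?_
        rw [← Finset.sum_filter]
        refine Finset.sum_le_sum_of_subset_of_nonneg ?_ (fun _ _ _ => hw.nonneg K)
        intro g hg
        rw [Finset.mem_filter, Finset.mem_erase, Finset.mem_powersetCard] at hg
        rw [Finset.mem_filter, Finset.mem_powersetCard]
        exact ⟨⟨hg.2, hg.1.2.2⟩, hg.1.2.1⟩
      calc w K' * nb2c r w e K' ≤ w K' * ∑ K ∈ (clq q r E).filter (fun K => e ⊆ K),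
          ∑ g ∈ (K.powersetCard r).filter (fun g => g ⊆ K'), w K :=
            mul_le_mul_of_nonneg_left h3 (hw.nonneg K')
        _ = _ := by
            rw [Finset.mul_sum]
            refine Finset.sum_congr rfl fun K _ => ?_
            rw [Finset.mul_sum]
            exact Finset.sum_congr rfl fun g _ => mul_comm _ _
    refine (Finset.sum_le_sum h2).trans ?_
    rw [Finset.sum_comm]
    refine Finset.sum_le_sum fun K _ => ?_
    have h5 : ∑ K' ∈ clq q r E, ∑ g ∈ (K.powersetCard r).filter (fun g => g ⊆ K'), w K * w K' =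
        ∑ g ∈ K.powersetCard r, ∑ K' ∈ (clq q r E).filter (fun K' => g ⊆ K'), w K * w K' := by
      simp_rw [Finset.sum_filter]
      exact Finset.sum_comm
    rw [h5, Finset.mul_sum]
    refine Finset.sum_le_sum fun g _ => ?_
    rw [nb_W_clq hw g, Finset.mul_sum]
  refine h1.trans ?_
  have h6 : ∀ K ∈ (clq q r E).filter (fun K => e ⊆ K),
      w K * ∑ g ∈ K.powersetCard r, nbW w g ≤ w K * ((q.choose r : ℝ) * (3 / 2)) := by
    intro K hK
    rw [Finset.mem_filter] at hK
    refine mul_le_mul_of_nonneg_left ?_ (hw.nonneg K)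
    calc ∑ g ∈ K.powersetCard r, nbW w g ≤ ∑ g ∈ K.powersetCard r, (3 / 2 : ℝ) := by
          refine Finset.sum_le_sum fun g hg => ?_
          have := nbW_rset hw hδ0 (Finset.mem_powersetCard.mp hg).2
          linarith
      _ = (q.choose r : ℝ) * (3 / 2) := by
          rw [Finset.sum_const, nsmul_eq_mul, Finset.card_powersetCard, (nb_clq hK.1).1]
  refine (Finset.sum_le_sum h6).trans ?_
  rw [← Finset.sum_mul, ← nb_W_clq hw]
  have h7 := (nbW_edge hw he).2
  have h8 : (0 : ℝ) ≤ (q.choose r : ℝ) := by positivity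
  nlinarith

end Nib2a

theorem nib_conc (q r : ℕ) (hr : 1 ≤ r) (hq : r < q) {V : Type} [Fintype V] [DecidableEq V]
    (E : Finset (Finset V)) (w : Finset V → ℝ) (δ B ε : ℝ) (hw : NibW q r E w δ B)
    (hδ0 : 0 ≤ δ) (hδ : δ ≤ 1 / 2) (hB : 1 ≤ B) (hε : 0 < ε) (hε1 : ε ≤ 1)
    (hn : (q.choose r : ℝ) * B ≤ Real.sqrt (Fintype.card V : ℝ)) (e : Finset V) (he : e ∈ E)
    (t : ℝ) :
    bP (clq q r E) (fun K => ε * w K)
        (fun ω => t ≤ |fe r w e ω - bE (clq q r E) (fun K => ε * w K) (fe r w e)|) ≤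
      2 * Real.exp (3 * (q.choose r : ℝ) ^ 2 * B - t * Real.sqrt (Fintype.card V : ℝ)) := by
  classical
  have hb1 : (1 : ℝ) ≤ (q.choose r : ℝ) := by exact_mod_cast Nat.choose_pos hq.le
  set b : ℝ := (q.choose r : ℝ) with hb
  set n : ℝ := (Fintype.card V : ℝ) with hndef
  have hn00 : 0 ≤ n := by positivity
  set s : ℝ := Real.sqrt n with hs
  have hs1 : 1 ≤ s := by nlinarith
  have hs2 : s * s = n := Real.mul_self_sqrt hn00
  have hn1 : 1 ≤ n := by nlinarith
  have hBn : B ≤ n := by nlinarith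
  have hp := nb_p hw hq hε.le hε1 hBn
  have hec : e.card = r := hw.unif e he
  have hcn : ∀ K' : Finset V, 0 ≤ nb2c r w e K' := fun K' =>
    Finset.sum_nonneg fun g _ => nbW_nonneg hw _
  have hc1 : ∀ K' ∈ clq q r E, nb2c r w e K' ≤ b * (B / n) := fun K' hK' =>
    nb2_c_le hw (by linarith) hq hec hK'
  have hsb : s * (b * (B / n)) ≤ 1 := by
    have : s * (b * (B / n)) = (b * B) / s := by
      rw [← hs2]; field_simp
    rw [this, div_le_one (by linarith)]
    exact hn
  have h := bernstein_tail (clq q r E) (fun K => ε * w K) hp (fe r w e) (nb2c r w e)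
    (fun K' _ => hcn K') (fun K' _ ω _ _ => nb2_lip hw e K' ω) s (by linarith)
    (fun K' hK' => (mul_le_mul_of_nonneg_left (hc1 K' hK') (by linarith)).trans hsb) t
  refine h.trans (mul_le_mul_of_nonneg_left (Real.exp_le_exp.mpr ?_) (by norm_num))
  have h1 : ∑ K' ∈ clq q r E, ε * w K' * nb2c r w e K' ^ 2 ≤ b * (B / n) * (3 * b) := by
    calc ∑ K' ∈ clq q r E, ε * w K' * nb2c r w e K' ^ 2
        ≤ ∑ K' ∈ clq q r E, b * (B / n) * (w K' * nb2c r w e K') := by
          refine Finset.sum_le_sum fun K' hK' => ?_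
          have h0 := hw.nonneg K'
          have h2 := hc1 K' hK'
          have h3 := hcn K'
          have h4 : ε * w K' * nb2c r w e K' ^ 2 ≤ w K' * nb2c r w e K' ^ 2 := by
            have : 0 ≤ w K' * nb2c r w e K' ^ 2 := by positivity
            nlinarith
          have h5 : w K' * nb2c r w e K' ^ 2 = nb2c r w e K' * (w K' * nb2c r w e K') := by ring
          rw [h5] at h4
          exact h4.trans (mul_le_mul_of_nonneg_right h2 (by positivity))
      _ = b * (B / n) * ∑ K' ∈ clq q r E, w K' * nb2c r w e K' := by rw [Finset.mul_sum]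
      _ ≤ b * (B / n) * (3 * b) :=
          mul_le_mul_of_nonneg_left (nb2_sum hw hδ0 hδ he) (by positivity)
  have h2 : s ^ 2 * ∑ K' ∈ clq q r E, ε * w K' * nb2c r w e K' ^ 2 ≤ 3 * b ^ 2 * B := by
    calc s ^ 2 * ∑ K' ∈ clq q r E, ε * w K' * nb2c r w e K' ^ 2
        ≤ s ^ 2 * (b * (B / n) * (3 * b)) := mul_le_mul_of_nonneg_left h1 (by positivity)
      _ = 3 * b ^ 2 * B := by
          rw [pow_two, hs2]; field_simp
  nlinarith

end Pool.Agent.Des
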