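import Pool.Agent.Lib_helper96.Des.Pindep
import Pool.Agent.Lib_helper96.Des.Pbern
import Pool.Agent.Lib_helper96.Des.NibAux

/-!
# Blocks NIB2a (`nib_conc`), NIB2b (`nib_codeg`): concentration of the surviving weight and of the codegrees

`nib_codeg`: `bernstein_tail` for `unc E S` with `c K = q` if `S ⊆ K`, else `0`;
`∑ p c² ≤ q² ε ∑_{K ⊇ S} w K ≤ 2 q² ε n`; mean
`∑_{g ∋ S} ∏_{K ⊇ g} (1 - ε w K) ≤ (1 - ε/4) dg E S` (`exp (-x) ≤ 1 - x/2` on `[0,1]`,
`x = ε ∑_{K ⊇ g} w K ≥ ε / 2`); `lam = 1/√n`, `t = n^(2/3)`.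
-/

set_option autoImplicit false

namespace Pool.Agent.Des

open Finset

section Nib2b

variable {V : Type} [Fintype V] [DecidableEq V]

theorem nb2b_prod_le {ι : Type*} (s : Finset ι) (x : ι → ℝ) (hx : ∀ i ∈ s, 0 ≤ x i ∧ x i ≤ 1) :
    ∏ i ∈ s, (1 - x i) ≤ Real.exp (- ∑ i ∈ s, x i) := by
  rw [← Finset.sum_neg_distrib, Real.exp_sum]
  refine Finset.prod_le_prod (fun i hi => by linarith [(hx i hi).2]) fun i hi => ?_
  have := Real.add_one_le_exp (-x i)
  linarith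

theorem nb2b_mean {q r : ℕ} {E : Finset (Finset V)} {w : Finset V → ℝ} {δ B : ℝ}
    (hw : NibW q r E w δ B) (hδ : δ ≤ 1 / 2) {ε : ℝ} (hε : 0 < ε) (hε1 : ε ≤ 1 / 2)
    (hp : ∀ K ∈ clq q r E, 0 ≤ ε * w K ∧ ε * w K ≤ 1) (S : Finset V) :
    bE (clq q r E) (fun K => ε * w K) (fun ω => (unc E S ω : ℝ)) ≤
      (1 - ε / 4) * (dg E S : ℝ) := by
  classical
  have h1 : ∀ ω ⊆ clq q r E, (unc E S ω : ℝ) = ∑ g ∈ E.filter (fun g => S ⊆ g),
      if ∅ ⊆ ω ∧ Disjoint ((clq q r E).filter (fun K => g ⊆ K)) ω then (1 : ℝ) else 0 := by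
    intro ω hω
    unfold unc
    rw [Finset.card_filter]
    push_cast
    rw [Finset.sum_filter]
    refine Finset.sum_congr rfl fun g _ => ?_
    by_cases hS : S ⊆ g
    · rw [if_pos hS]
      have hiff : (S ⊆ g ∧ ∀ K ∈ ω, ¬ g ⊆ K) ↔
          (∅ ⊆ ω ∧ Disjoint ((clq q r E).filter (fun K => g ⊆ K)) ω) := by
        constructor
        · rintro ⟨-, h⟩
          refine ⟨Finset.empty_subset _, ?_⟩
          rw [Finset.disjoint_left]
          intro K hK hKω
          exact h K hKω (Finset.mem_filter.mp hK).2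
        · rintro ⟨-, h⟩
          refine ⟨hS, fun K hK hgK => ?_⟩
          exact Finset.disjoint_left.mp h (Finset.mem_filter.mpr ⟨hω hK, hgK⟩) hK
      simp only [hiff]
    · rw [if_neg hS, if_neg (fun h => hS h.1)]
  rw [bE_congr h1, bE_sum]
  have h2 : ∀ g ∈ E.filter (fun g => S ⊆ g),
      bE (clq q r E) (fun K => ε * w K) (fun ω =>
        if ∅ ⊆ ω ∧ Disjoint ((clq q r E).filter (fun K => g ⊆ K)) ω then (1 : ℝ) else 0) ≤
      1 - ε / 4 := by
    intro g hg
    rw [Finset.mem_filter] at hg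
    rw [bE_subset_disj _ _ ∅ _ (Finset.empty_subset _) (Finset.filter_subset _ _)
      (Finset.disjoint_empty_left _)]
    rw [Finset.prod_empty, one_mul]
    refine (nb2b_prod_le _ _ fun K hK => hp K (Finset.mem_filter.mp hK).1).trans ?_
    rw [← Finset.mul_sum, ← nb_W_clq hw]
    have h3 := (nbW_edge hw hg.1).1
    have h4 : ε / 2 ≤ ε * nbW w g := by nlinarith
    have h5 : Real.exp (-(ε * nbW w g)) ≤ Real.exp (-(ε / 2)) :=
      Real.exp_le_exp.mpr (by linarith)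
    refine h5.trans ?_
    -- `exp (-x) ≤ 1 - x / 2` on `[0, 1/4]`
    have h6 : Real.exp (-(ε / 2)) * (1 + ε / 2) ≤ 1 := by
      have h7 := Real.add_one_le_exp (ε / 2)
      have h8 : Real.exp (-(ε / 2)) * Real.exp (ε / 2) = 1 := by rw [← Real.exp_add]; simp
      have h9 := mul_le_mul_of_nonneg_left h7 (Real.exp_pos (-(ε / 2))).le
      rw [h8] at h9
      linarith
    have h10 := Real.exp_pos (-(ε / 2))
    by_contra hcon
    push Not at hcon
    have h11 : (1 - ε / 4) * (1 + ε / 2) < Real.exp (-(ε / 2)) * (1 + ε / 2) :=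
      mul_lt_mul_of_pos_right hcon (by linarith)
    nlinarith
  refine (Finset.sum_le_sum h2).trans ?_
  rw [Finset.sum_const, nsmul_eq_mul]
  unfold dg
  rw [mul_comm]

theorem nb2b_lip {q r : ℕ} {E : Finset (Finset V)} (hE : Unif r E) (hr : 1 ≤ r) (S : Finset V)
    (hS : S.card = r - 1)
    (K : Finset V) (hK : K ∈ clq q r E) (ω : Finset (Finset V)) :
    |(unc E S (insert K ω) : ℝ) - (unc E S ω : ℝ)| ≤ if S ⊆ K then (q : ℝ) else 0 := by
  classical
  have hsub : E.filter (fun g => S ⊆ g ∧ ∀ K' ∈ insert K ω, ¬ g ⊆ K') ⊆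
      E.filter (fun g => S ⊆ g ∧ ∀ K' ∈ ω, ¬ g ⊆ K') := by
    intro g hg
    rw [Finset.mem_filter] at hg ⊢
    exact ⟨hg.1, hg.2.1, fun K' hK' => hg.2.2 K' (Finset.mem_insert_of_mem hK')⟩
  have hcard : (E.filter (fun g => S ⊆ g ∧ ∀ K' ∈ ω, ¬ g ⊆ K')).card ≤
      (E.filter (fun g => S ⊆ g ∧ ∀ K' ∈ insert K ω, ¬ g ⊆ K')).card +
        (E.filter (fun g => S ⊆ g ∧ g ⊆ K)).card := by
    refine (Finset.card_le_card ?_).trans (Finset.card_union_le _ _)
    intro g hg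
    rw [Finset.mem_filter] at hg
    rw [Finset.mem_union, Finset.mem_filter, Finset.mem_filter]
    by_cases hgK : g ⊆ K
    · exact Or.inr ⟨hg.1, hg.2.1, hgK⟩
    · refine Or.inl ⟨hg.1, hg.2.1, fun K' hK' => ?_⟩
      rcases Finset.mem_insert.mp hK' with h | h
      · subst h; exact hgK
      · exact hg.2.2 K' h
  have hcount : ((E.filter (fun g => S ⊆ g ∧ g ⊆ K)).card : ℝ) ≤ if S ⊆ K then (q : ℝ) else 0 := by
    split_ifs with hSK
    · have h1 : (E.filter (fun g => S ⊆ g ∧ g ⊆ K)).card ≤ K.card := by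
        have h2 : E.filter (fun g => S ⊆ g ∧ g ⊆ K) ⊆ K.image (fun v => insert v S) := by
          intro g hg
          rw [Finset.mem_filter] at hg
          have hgc := hE g hg.1
          have hlt : S.card < g.card := by omega
          obtain ⟨v, hv, hv'⟩ := Finset.exists_mem_notMem_of_card_lt_card hlt
          refine Finset.mem_image.mpr ⟨v, hg.2.2 hv, ?_⟩
          refine Finset.eq_of_subset_of_card_le (Finset.insert_subset hv hg.2.1) ?_
          rw [Finset.card_insert_of_notMem hv', hgc, hS]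
          omega
        exact (Finset.card_le_card h2).trans Finset.card_image_le
      rw [(nb_clq hK).1] at h1
      exact_mod_cast h1
    · have h1 : E.filter (fun g => S ⊆ g ∧ g ⊆ K) = ∅ := by
        rw [Finset.filter_eq_empty_iff]
        intro g _ hg
        exact hSK (hg.1.trans hg.2)
      rw [h1]; simp
  have h3 : (unc E S ω : ℝ) ≤ (unc E S (insert K ω) : ℝ) +
      ((E.filter (fun g => S ⊆ g ∧ g ⊆ K)).card : ℝ) := by
    unfold unc; exact_mod_cast hcard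
  have h4 : (unc E S (insert K ω) : ℝ) ≤ (unc E S ω : ℝ) := by
    unfold unc; exact_mod_cast Finset.card_le_card hsub
  rw [abs_le]
  constructor <;> linarith

end Nib2b

theorem nib_codeg (q r : ℕ) (hr : 1 ≤ r) (hq : r < q) {V : Type} [Fintype V] [DecidableEq V]
    (E : Finset (Finset V)) (w : Finset V → ℝ) (δ B ε : ℝ) (hw : NibW q r E w δ B)
    (hδ0 : 0 ≤ δ) (hδ : δ ≤ 1 / 2) (hB : 1 ≤ B) (hε : 0 < ε) (hε1 : ε ≤ 1 / 2)
    (hn : B ≤ (Fintype.card V : ℝ)) (hn2 : (q : ℝ) ^ 2 ≤ (Fintype.card V : ℝ)) (S : Finset V)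
    (hS : S.card = r - 1) :
    bP (clq q r E) (fun K => ε * w K)
        (fun ω => (1 - ε / 4) * (dg E S : ℝ) + (Fintype.card V : ℝ) ^ ((2 : ℝ) / 3) ≤
          (unc E S ω : ℝ)) ≤
      2 * Real.exp (2 * (q : ℝ) ^ 2 - (Fintype.card V : ℝ) ^ ((1 : ℝ) / 6)) := by
  classical
  set n : ℝ := (Fintype.card V : ℝ) with hndef
  have hn1 : 1 ≤ n := hB.trans hn
  have hn0 : 0 < n := by linarith
  set s : ℝ := Real.sqrt n with hs
  have hs0 : 0 < s := Real.sqrt_pos.mpr hn0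
  have hs2 : s * s = n := Real.mul_self_sqrt hn0.le
  have hp := nb_p hw hq hε.le (by linarith : ε ≤ 1) hn
  have hmean := nb2b_mean hw hδ hε hε1 hp S
  have hq0 : (0 : ℝ) ≤ q := by positivity
  have hqs : (q : ℝ) ≤ s := by
    rw [hs]; exact Real.le_sqrt_of_sq_le hn2
  have h := bernstein_tail (clq q r E) (fun K => ε * w K) hp (fun ω => (unc E S ω : ℝ))
    (fun K => if S ⊆ K then (q : ℝ) else 0) (fun K _ => by split_ifs <;> linarith)
    (fun K hK ω _ _ => nb2b_lip hw.unif hr S hS K hK ω) s⁻¹ (by positivity)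
    (fun K _ => by
      split_ifs
      · rw [inv_mul_le_iff₀ hs0]; linarith
      · simp) (n ^ ((2 : ℝ) / 3))
  refine (bP_mono hp fun ω _ hω => ?_).trans (h.trans
    (mul_le_mul_of_nonneg_left (Real.exp_le_exp.mpr ?_) (by norm_num)))
  · refine le_trans ?_ (le_abs_self _)
    linarith
  · have h1 : ∑ K ∈ clq q r E, ε * w K * (if S ⊆ K then (q : ℝ) else 0) ^ 2 ≤
        (q : ℝ) ^ 2 * (ε * nbW w S) := by
      rw [nb_W_clq hw, Finset.sum_filter, Finset.mul_sum, Finset.mul_sum]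
      refine Finset.sum_le_sum fun K _ => ?_
      split_ifs
      · apply le_of_eq; ring
      · simp
    have h2 := nbW_sub hw hδ0 hr hq hS
    have h3 : ε * nbW w S ≤ n := by
      have h4 := nbW_nonneg hw S
      have h5 : nbW w S ≤ (3 / 2) * n := by
        refine h2.trans ?_
        nlinarith
      nlinarith
    have h6 : s⁻¹ ^ 2 * ∑ K ∈ clq q r E, ε * w K * (if S ⊆ K then (q : ℝ) else 0) ^ 2 ≤
        2 * (q : ℝ) ^ 2 := by
      calc s⁻¹ ^ 2 * ∑ K ∈ clq q r E, ε * w K * (if S ⊆ K then (q : ℝ) else 0) ^ 2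
          ≤ s⁻¹ ^ 2 * ((q : ℝ) ^ 2 * n) := by
            refine mul_le_mul_of_nonneg_left (h1.trans ?_) (by positivity)
            exact mul_le_mul_of_nonneg_left h3 (by positivity)
        _ = (q : ℝ) ^ 2 := by
            rw [← hs2]; field_simp
        _ ≤ 2 * (q : ℝ) ^ 2 := by nlinarith [sq_nonneg (q : ℝ)]
    have h7 : s⁻¹ * n ^ ((2 : ℝ) / 3) = n ^ ((1 : ℝ) / 6) := by
      rw [hs, Real.sqrt_eq_rpow, ← Real.rpow_neg hn0.le, ← Real.rpow_add hn0]
      norm_num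
    rw [h7]
    linarith

end Pool.Agent.Des
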