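import Pool.Agent.Lib_helper96.Des.Pcard
import Pool.Agent.Lib_helper96.Des.NibAux

/-!
# Block NIB3a (`nib_max`)

`nib_max`: `card_tail` with `x = log (1/ε)` and union bound over `g ∈ E`
(`∑_{K ⊇ g} ε w K ≤ 2 ε`).
-/

set_option autoImplicit false

namespace Pool.Agent.Des

open Finset

theorem nib_max (q r : ℕ) (hr : 1 ≤ r) (hq : r < q) {V : Type} [Fintype V] [DecidableEq V]
    (E : Finset (Finset V)) (w : Finset V → ℝ) (δ B ε : ℝ) (hw : NibW q r E w δ B)
    (hδ0 : 0 ≤ δ) (hδ : δ ≤ 1 / 2) (hB : 1 ≤ B) (hε : 0 < ε) (hε1 : ε ≤ 1 / 2)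
    (hn : B ≤ (Fintype.card V : ℝ)) (Λ : ℕ) :
    bP (clq q r E) (fun K => ε * w K)
        (fun ω => ∃ g ∈ E, Λ ≤ (ω.filter (fun K => g ⊆ K)).card) ≤
      (Fintype.card V : ℝ) ^ r * (Real.exp 2 * ε ^ Λ) := by
  classical
  have hp := nb_p hw hq hε.le (by linarith : ε ≤ 1) hn
  refine (bP_exists_le hp E
    (fun g ω => Λ ≤ (ω.filter (fun K => g ⊆ K)).card)).trans ?_
  have h1 : ∀ g ∈ E, bP (clq q r E) (fun K => ε * w K)
      (fun ω => Λ ≤ (ω.filter (fun K => g ⊆ K)).card) ≤ Real.exp 2 * ε ^ Λ := by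
    intro g hg
    have hx : 0 ≤ Real.log (1 / ε) := by
      apply Real.log_nonneg
      rw [le_div_iff₀ hε]; linarith
    have h2 := card_tail (clq q r E) (fun K => ε * w K) hp
      ((clq q r E).filter (fun K => g ⊆ K)) (Finset.filter_subset _ _) (Real.log (1 / ε))
      (Λ : ℝ) hx
    refine (bP_mono hp (fun ω hω hA => ?_)).trans (h2.trans ?_)
    · have h3 : ω.filter (fun K => g ⊆ K) ⊆ ω ∩ (clq q r E).filter (fun K => g ⊆ K) := by
        intro K hK
        rw [Finset.mem_filter] at hK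
        rw [Finset.mem_inter, Finset.mem_filter]
        exact ⟨hK.1, hω hK.1, hK.2⟩
      have h4 := hA.trans (Finset.card_le_card h3)
      exact_mod_cast h4
    · rw [Real.exp_log (by positivity : (0 : ℝ) < 1 / ε), ← Finset.mul_sum, ← nb_W_clq hw]
      have h5 : (1 / ε - 1) * (ε * nbW w g) ≤ 2 := by
        have h6 : (1 / ε - 1) * (ε * nbW w g) = (1 - ε) * nbW w g := by
          field_simp
        rw [h6]
        have h7 := (nbW_edge hw hg).2
        have h8 := nbW_nonneg hw g
        nlinarith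
      have h9 : Real.exp 2 * ε ^ Λ = Real.exp (2 - Real.log (1 / ε) * Λ) := by
        rw [sub_eq_add_neg, Real.exp_add]
        congr 1
        rw [one_div, Real.log_inv, neg_mul, neg_neg, mul_comm, Real.exp_nat_mul,
          Real.exp_log hε]
      rw [h9]
      exact Real.exp_le_exp.mpr (by linarith)
  refine (Finset.sum_le_sum h1).trans ?_
  rw [Finset.sum_const, nsmul_eq_mul]
  refine mul_le_mul_of_nonneg_right ?_ (by positivity)
  have h10 : E ⊆ (Finset.univ : Finset V).powersetCard r := fun g hg =>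
    Finset.mem_powersetCard.mpr ⟨Finset.subset_univ _, hw.unif g hg⟩
  have h11 := Finset.card_le_card h10
  rw [Finset.card_powersetCard, Finset.card_univ] at h11
  exact_mod_cast h11.trans (Nat.choose_le_pow _ _)

end Pool.Agent.Des
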