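import Pool.Agent.Lib_helper96.Des.Ppairs

/-!
# Blocks NIB3a (`nib_max`), NIB3b (`nib_waste`): waste

`nib_max`: `card_tail` with `x = log (1/ε)` and union bound over `g ∈ E`
(`∑_{K ⊇ g} ε w K ≤ 2 ε`).

`nib_waste`: let `P` = all pairs `(K, K')` of distinct cliques with `S ⊆ K` and a common `r`-set.
`∑_P ε² w K w K' ≤ 2 b ε² ∑_{K ⊇ S} w K ≤ 4 b ε² n` (each `K ⊇ S` contains an edge
`g ⊇ S`, `∑_{K ⊇ S} w K ≤ ∑_{g ∈ E, g ⊇ S} ∑_{K ⊇ g} w K ≤ 2 n`).  By `pairs_tail`, with
`s = 8 b ε² n + √n`, no `s` pairwise disjoint pairs of `P` lie in `ω`, up to probability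
`exp (-√n)`.  Take a maximal family `ℱ` of pairwise disjoint pairs of `P` in `ω`: every conflicting
`K ∈ ω` with `S ⊆ K` is in a pair of `ℱ` or conflicts with a clique `K'` of a pair of `ℱ`; in the
second case `K ⊇ S ∪ {v}` for some `v ∈ K' \ S`, and for each of the `≤ q` such `v` at most `Λ`
selected cliques contain the edge `S ∪ {v}`.  So there are at most `2 s (1 + q Λ)` conflicting
`K ⊇ S`, each covers at most `q` edges at `S`.
-/

set_option autoImplicit false

namespace Pool.Agent.Des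

open Finset

/-- codegrees are at most the number of vertices -/
theorem nib3b_dg_le {V : Type} [Fintype V] [DecidableEq V] (r : ℕ) (hr : 1 ≤ r)
    (E : Finset (Finset V)) (hE : Unif r E) (S : Finset V) (hS : S.card = r - 1) :
    (E.filter (fun e => S ⊆ e)).card ≤ Fintype.card V := by
  have hsub : E.filter (fun e => S ⊆ e) ⊆ Finset.univ.image (fun v => insert v S) := by
    intro e he
    rw [Finset.mem_filter] at he
    have hc : (e \ S).card = 1 := by
      rw [Finset.card_sdiff_of_subset he.2, hE e he.1, hS]; omega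
    obtain ⟨v, hv⟩ := Finset.card_eq_one.mp hc
    rw [Finset.mem_image]
    refine ⟨v, Finset.mem_univ _, ?_⟩
    rw [Finset.insert_eq, ← hv]
    exact Finset.sdiff_union_of_subset he.2
  exact (Finset.card_le_card hsub).trans (Finset.card_image_le.trans (le_of_eq Finset.card_univ))

/-- covering bound for sums -/
theorem nib3b_cover {V : Type} [Fintype V] [DecidableEq V] (A G : Finset (Finset V))
    (f : Finset V → ℝ) (hf : ∀ K, 0 ≤ f K) (h : ∀ K ∈ A, ∃ g ∈ G, g ⊆ K) :
    ∑ K ∈ A, f K ≤ ∑ g ∈ G, ∑ K ∈ Finset.univ.filter (fun K => g ⊆ K), f K := by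
  have h1 : ∀ K ∈ A, f K ≤ ∑ g ∈ G, (if g ⊆ K then f K else 0) := by
    intro K hK
    obtain ⟨g, hg, hgK⟩ := h K hK
    have h2 := Finset.single_le_sum (f := fun g : Finset V => if g ⊆ K then f K else 0)
      (s := G) (fun i _ => by split_ifs; exacts [hf K, le_rfl]) hg
    simp only [if_pos hgK] at h2
    exact h2
  refine (Finset.sum_le_sum h1).trans ?_
  rw [Finset.sum_comm]
  refine Finset.sum_le_sum fun g _ => ?_
  rw [Finset.sum_filter]
  exact Finset.sum_le_sum_of_subset_of_nonneg (Finset.subset_univ _)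
    (fun K _ _ => by split_ifs; exacts [hf K, le_rfl])

/-- an edge between `S` and a clique -/
theorem nib3b_edge {V : Type} [DecidableEq V] (r : ℕ) (hr : 1 ≤ r) (S K : Finset V) (v : V)
    (hS : S.card = r - 1) (hSK : S ⊆ K) (hv : v ∈ K) (hvS : v ∉ S) :
    insert v S ∈ K.powersetCard r := by
  rw [Finset.mem_powersetCard]
  refine ⟨Finset.insert_subset hv hSK, ?_⟩
  rw [Finset.card_insert_of_notMem hvS, hS]; omega

open Classical in
/-- the pairs of conflicting cliques -/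
noncomputable def nib3b_P {V : Type} [Fintype V] [DecidableEq V] (q r : ℕ)
    (E : Finset (Finset V)) (S : Finset V) : Finset (Finset V × Finset V) :=
  (clq q r E ×ˢ clq q r E).filter (fun z => z.1 ≠ z.2 ∧ S ⊆ z.1 ∧
    ¬ Disjoint (z.1.powersetCard r) (z.2.powersetCard r))

theorem nib3b_sum (q r : ℕ) (hr : 1 ≤ r) (hq : r < q) {V : Type} [Fintype V] [DecidableEq V]
    (E : Finset (Finset V)) (w : Finset V → ℝ) (δ B ε : ℝ) (hw : NibW q r E w δ B)
    (hδ : δ ≤ 1 / 2) (hε : 0 < ε) (S : Finset V) (hS : S.card = r - 1) :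
    2 * ∑ z ∈ nib3b_P q r E S, (ε * w z.1) * (ε * w z.2) ≤
      8 * (q.choose r : ℝ) * ε ^ 2 * (Fintype.card V : ℝ) := by
  classical
  have hf : ∀ K, 0 ≤ ε * w K := fun K => mul_nonneg hε.le (hw.nonneg K)
  have hsum : ∀ g ∈ E, ∑ K ∈ Finset.univ.filter (fun K => g ⊆ K), ε * w K ≤ ε * (3 / 2) := by
    intro g hg
    rw [← Finset.mul_sum]
    refine mul_le_mul_of_nonneg_left ?_ hε.le
    have := (abs_le.mp (hw.sum g hg)).2
    linarith
  -- inner sums
  have inner : ∀ K ∈ clq q r E, ∑ K' ∈ (clq q r E).filter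
      (fun K' => ¬ Disjoint (K.powersetCard r) (K'.powersetCard r)), ε * w K' ≤
      (q.choose r : ℝ) * (ε * (3 / 2)) := by
    intro K hK
    have hK2 := hK
    unfold clq at hK2
    rw [Finset.mem_filter, Finset.mem_powersetCard] at hK2
    refine (nib3b_cover _ (K.powersetCard r) (fun K => ε * w K) hf ?_).trans ?_
    · intro K' hK'
      rw [Finset.mem_filter, Finset.not_disjoint_iff] at hK'
      obtain ⟨_, g, hg1, hg2⟩ := hK'
      exact ⟨g, hg1, (Finset.mem_powersetCard.mp hg2).1⟩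
    · refine (Finset.sum_le_card_nsmul _ _ _ (fun g hg => hsum g (hK2.2 hg))).trans ?_
      rw [nsmul_eq_mul, Finset.card_powersetCard, hK2.1.2]
  have outer : ∑ K ∈ (clq q r E).filter (fun K => S ⊆ K), ε * w K ≤
      (Fintype.card V : ℝ) * (ε * (3 / 2)) := by
    refine (nib3b_cover _ (E.filter (fun g => S ⊆ g)) (fun K => ε * w K) hf ?_).trans ?_
    · intro K hK
      rw [Finset.mem_filter] at hK
      obtain ⟨hK, hSK⟩ := hK
      unfold clq at hK
      rw [Finset.mem_filter, Finset.mem_powersetCard] at hK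
      have hne : ∃ v ∈ K, v ∉ S := by
        by_contra hcon
        push Not at hcon
        have := Finset.card_le_card (show K ⊆ S from hcon)
        omega
      obtain ⟨v, hv, hvS⟩ := hne
      have he := nib3b_edge r hr S K v hS hSK hv hvS
      exact ⟨insert v S, Finset.mem_filter.mpr ⟨hK.2 he, Finset.subset_insert _ _⟩,
        (Finset.mem_powersetCard.mp he).1⟩
    · refine (Finset.sum_le_card_nsmul _ _ _ (fun g hg => hsum g (Finset.mem_filter.mp hg).1)).trans ?_
      rw [nsmul_eq_mul]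
      refine mul_le_mul_of_nonneg_right ?_ (by positivity)
      exact_mod_cast nib3b_dg_le r hr E hw.unif S hS
  have h1 : ∑ z ∈ nib3b_P q r E S, (ε * w z.1) * (ε * w z.2) ≤
      ∑ K ∈ (clq q r E).filter (fun K => S ⊆ K), (ε * w K) * ∑ K' ∈ (clq q r E).filter
      (fun K' => ¬ Disjoint (K.powersetCard r) (K'.powersetCard r)), ε * w K' := by
    unfold nib3b_P
    rw [Finset.sum_filter, Finset.sum_product, Finset.sum_filter]
    refine Finset.sum_le_sum fun K _ => ?_
    by_cases hSK : S ⊆ K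
    · rw [if_pos hSK, Finset.mul_sum, Finset.sum_filter]
      refine Finset.sum_le_sum fun K' _ => ?_
      by_cases hd : Disjoint (K.powersetCard r) (K'.powersetCard r)
      · rw [if_neg (fun h => h.2.2 hd), if_neg (fun h => h hd)]
      · rw [if_pos hd]
        split_ifs
        · exact le_rfl
        · exact mul_nonneg (hf K) (hf K')
    · rw [if_neg hSK]
      refine le_of_eq (Finset.sum_eq_zero fun K' _ => ?_)
      rw [if_neg (fun h => hSK h.2.1)]
  have h2 : ∑ K ∈ (clq q r E).filter (fun K => S ⊆ K), (ε * w K) * ∑ K' ∈ (clq q r E).filter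
      (fun K' => ¬ Disjoint (K.powersetCard r) (K'.powersetCard r)), ε * w K' ≤
      ∑ K ∈ (clq q r E).filter (fun K => S ⊆ K), (ε * w K) * ((q.choose r : ℝ) * (ε * (3 / 2))) :=
    Finset.sum_le_sum fun K hK => mul_le_mul_of_nonneg_left
      (inner K (Finset.mem_filter.mp hK).1) (hf K)
  rw [← Finset.sum_mul] at h2
  have h3 := mul_le_mul_of_nonneg_right outer
    (show 0 ≤ (q.choose r : ℝ) * (ε * (3 / 2)) by positivity)
  have h4 : (Fintype.card V : ℝ) * (ε * (3 / 2)) * ((q.choose r : ℝ) * (ε * (3 / 2))) =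
      9 / 4 * ((q.choose r : ℝ) * ε ^ 2 * (Fintype.card V : ℝ)) := by ring
  have h5 : 0 ≤ (q.choose r : ℝ) * ε ^ 2 * (Fintype.card V : ℝ) := by positivity
  nlinarith

/-- the deterministic part -/
theorem nib3b_det (q r : ℕ) (hr : 1 ≤ r) {V : Type} [Fintype V] [DecidableEq V]
    (E : Finset (Finset V)) (hE : Unif r E) (Λ : ℕ) (S : Finset V) (hS : S.card = r - 1)
    (ω : Finset (Finset V)) (hω : ω ⊆ clq q r E)
    (hΛ : ∀ g ∈ E, (ω.filter (fun K => g ⊆ K)).card ≤ Λ) :
    ∃ ℱ ⊆ nib3b_P q r E S, (∀ z ∈ ℱ, z.1 ∈ ω ∧ z.2 ∈ ω) ∧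
      (∀ z ∈ ℱ, ∀ z' ∈ ℱ, z ≠ z' →
        Disjoint ({z.1, z.2} : Finset (Finset V)) {z'.1, z'.2}) ∧
      wst r E S ω ≤ 2 * q * (1 + q * Λ) * ℱ.card := by
  classical
  have mC : ∀ K ∈ ω, K.card = q ∧ K.powersetCard r ⊆ E := by
    intro K hK
    have := hω hK
    unfold clq at this
    rw [Finset.mem_filter, Finset.mem_powersetCard] at this
    exact ⟨this.1.2, this.2⟩
  obtain ⟨𝒢, h𝒢⟩ : ∃ 𝒢 : Finset (Finset (Finset V × Finset V)), 𝒢 =
      (nib3b_P q r E S).powerset.filter (fun ℱ => (∀ z ∈ ℱ, z.1 ∈ ω ∧ z.2 ∈ ω) ∧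
      (∀ z ∈ ℱ, ∀ z' ∈ ℱ, z ≠ z' →
        Disjoint ({z.1, z.2} : Finset (Finset V)) {z'.1, z'.2})) := ⟨_, rfl⟩
  have m𝒢 : ∀ ℱ, ℱ ∈ 𝒢 ↔ ℱ ⊆ nib3b_P q r E S ∧ (∀ z ∈ ℱ, z.1 ∈ ω ∧ z.2 ∈ ω) ∧
      (∀ z ∈ ℱ, ∀ z' ∈ ℱ, z ≠ z' →
        Disjoint ({z.1, z.2} : Finset (Finset V)) {z'.1, z'.2}) := by
    intro ℱ
    rw [h𝒢, Finset.mem_filter, Finset.mem_powerset]
  have hne : 𝒢.Nonempty := ⟨∅, (m𝒢 ∅).mpr (by simp)⟩
  obtain ⟨ℱ, hℱ, hmax⟩ := Finset.exists_max_image 𝒢 (fun ℱ => ℱ.card) hne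
  obtain ⟨f1, f2, f3⟩ := (m𝒢 ℱ).mp hℱ
  refine ⟨ℱ, f1, f2, f3, ?_⟩
  obtain ⟨U, hU⟩ : ∃ U : Finset (Finset V), U = ℱ.biUnion (fun z => {z.1, z.2}) := ⟨_, rfl⟩
  have hUcard : U.card ≤ ℱ.card * 2 := by
    rw [hU]
    exact Finset.card_biUnion_le_card_mul _ _ _ (fun z _ => Finset.card_le_two)
  have hUω : ∀ K ∈ U, K ∈ ω := by
    intro K hK
    rw [hU, Finset.mem_biUnion] at hK
    obtain ⟨z, hz, hKz⟩ := hK
    rw [Finset.mem_insert, Finset.mem_singleton] at hKz
    rcases hKz with h | h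
    · rw [h]; exact (f2 z hz).1
    · rw [h]; exact (f2 z hz).2
  obtain ⟨C, hC⟩ : ∃ C : Finset (Finset V), C = ω.filter (fun K => S ⊆ K ∧
      ∃ K' ∈ ω, K' ≠ K ∧ ¬ Disjoint (K.powersetCard r) (K'.powersetCard r)) := ⟨_, rfl⟩
  have hCsub : C ⊆ U ∪ U.biUnion (fun K' => (K' \ S).biUnion (fun v =>
      ω.filter (fun K => insert v S ⊆ K ∧ insert v S ∈ E))) := by
    intro K hK
    rw [hC, Finset.mem_filter] at hK
    obtain ⟨hKω, hSK, K', hK'ω, hne', hnd⟩ := hK
    have hzP : (K, K') ∈ nib3b_P q r E S := by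
      unfold nib3b_P
      rw [Finset.mem_filter, Finset.mem_product]
      exact ⟨⟨hω hKω, hω hK'ω⟩, Ne.symm hne', hSK, hnd⟩
    have hUor : K ∈ U ∨ K' ∈ U := by
      by_contra hcon
      push Not at hcon
      have hznot : (K, K') ∉ ℱ := by
        intro hz
        apply hcon.1
        rw [hU, Finset.mem_biUnion]
        exact ⟨(K, K'), hz, Finset.mem_insert_self _ _⟩
      have hdis : ∀ z ∈ ℱ, Disjoint ({K, K'} : Finset (Finset V)) {z.1, z.2} := by
        intro z hz
        rw [Finset.disjoint_left]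
        intro L hL hLz
        have hLU : L ∈ U := by
          rw [hU, Finset.mem_biUnion]; exact ⟨z, hz, hLz⟩
        rw [Finset.mem_insert, Finset.mem_singleton] at hL
        rcases hL with h | h
        · exact hcon.1 (h ▸ hLU)
        · exact hcon.2 (h ▸ hLU)
      have hins : insert (K, K') ℱ ∈ 𝒢 := by
        rw [m𝒢]
        refine ⟨Finset.insert_subset hzP f1, ?_, ?_⟩
        · intro z hz
          rcases Finset.mem_insert.mp hz with h | h
          · rw [h]; exact ⟨hKω, hK'ω⟩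
          · exact f2 z h
        · intro z hz z' hz' hzz
          rcases Finset.mem_insert.mp hz with h | h <;>
            rcases Finset.mem_insert.mp hz' with h' | h'
          · exact absurd (h.trans h'.symm) hzz
          · rw [h]; exact hdis z' h'
          · rw [h']; exact (hdis z h).symm
          · exact f3 z h z' h' hzz
      have := hmax _ hins
      rw [Finset.card_insert_of_notMem hznot] at this
      omega
    rw [Finset.mem_union]
    rcases hUor with h | h
    · exact Or.inl h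
    · right
      rw [Finset.not_disjoint_iff] at hnd
      obtain ⟨g, hg1, hg2⟩ := hnd
      rw [Finset.mem_powersetCard] at hg1 hg2
      have hv : ∃ v ∈ g, v ∉ S := by
        by_contra hcon
        push Not at hcon
        have := Finset.card_le_card (show g ⊆ S from hcon)
        omega
      obtain ⟨v, hvg, hvS⟩ := hv
      have he := nib3b_edge r hr S K v hS hSK (hg1.1 hvg) hvS
      rw [Finset.mem_biUnion]
      refine ⟨K', h, ?_⟩
      rw [Finset.mem_biUnion]
      refine ⟨v, Finset.mem_sdiff.mpr ⟨hg2.1 hvg, hvS⟩, ?_⟩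
      rw [Finset.mem_filter]
      exact ⟨hKω, (Finset.mem_powersetCard.mp he).1, (mC K hKω).2 he⟩
  have hinner : ∀ v : V, (ω.filter (fun K => insert v S ⊆ K ∧ insert v S ∈ E)).card ≤ Λ := by
    intro v
    by_cases h : insert v S ∈ E
    · refine le_trans (Finset.card_le_card ?_) (hΛ _ h)
      intro K hK
      rw [Finset.mem_filter] at hK ⊢
      exact ⟨hK.1, hK.2.1⟩
    · have : ω.filter (fun K => insert v S ⊆ K ∧ insert v S ∈ E) = ∅ := by
        rw [Finset.filter_eq_empty_iff]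
        intro K _ h'
        exact h h'.2
      rw [this]; simp
  have hCcard : C.card ≤ (1 + q * Λ) * (ℱ.card * 2) := by
    refine (Finset.card_le_card hCsub).trans ((Finset.card_union_le _ _).trans ?_)
    have h2 : (U.biUnion (fun K' => (K' \ S).biUnion (fun v =>
        ω.filter (fun K => insert v S ⊆ K ∧ insert v S ∈ E)))).card ≤ U.card * (q * Λ) := by
      refine Finset.card_biUnion_le_card_mul _ _ _ (fun K' hK' => ?_)
      refine (Finset.card_biUnion_le_card_mul _ _ Λ (fun v _ => hinner v)).trans ?_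
      refine Nat.mul_le_mul_right _ ?_
      rw [← (mC K' (hUω K' hK')).1]
      exact Finset.card_le_card Finset.sdiff_subset
    calc U.card + _ ≤ U.card + U.card * (q * Λ) := Nat.add_le_add_left h2 _
      _ = (1 + q * Λ) * U.card := by ring
      _ ≤ (1 + q * Λ) * (ℱ.card * 2) := Nat.mul_le_mul_left _ hUcard
  have hw : wst r E S ω ≤ C.card * q := by
    unfold wst
    have hsub : E.filter (fun g => S ⊆ g ∧ ∃ K ∈ ω, g ⊆ K ∧
        ∃ K' ∈ ω, K' ≠ K ∧ ¬ Disjoint (K.powersetCard r) (K'.powersetCard r)) ⊆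
        C.biUnion (fun K => (K.powersetCard r).filter (fun g => S ⊆ g)) := by
      intro g hg
      rw [Finset.mem_filter] at hg
      obtain ⟨hgE, hSg, K, hK, hgK, K', hK', hne', hnd⟩ := hg
      have hgr : g.card = r := hE g hgE
      rw [Finset.mem_biUnion]
      refine ⟨K, ?_, ?_⟩
      · rw [hC, Finset.mem_filter]
        exact ⟨hK, hSg.trans hgK, K', hK', hne', hnd⟩
      · rw [Finset.mem_filter, Finset.mem_powersetCard]
        exact ⟨⟨hgK, hgr⟩, hSg⟩
    refine (Finset.card_le_card hsub).trans ?_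
    refine Finset.card_biUnion_le_card_mul _ _ _ (fun K hK => ?_)
    have hKω : K ∈ ω := by
      rw [hC, Finset.mem_filter] at hK; exact hK.1
    have hsub2 : (K.powersetCard r).filter (fun g => S ⊆ g) ⊆
        K.image (fun v => insert v S) := by
      intro e he
      rw [Finset.mem_filter, Finset.mem_powersetCard] at he
      have hc : (e \ S).card = 1 := by
        rw [Finset.card_sdiff_of_subset he.2, he.1.2, hS]; omega
      obtain ⟨v, hv⟩ := Finset.card_eq_one.mp hc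
      have hve : v ∈ e \ S := by rw [hv]; exact Finset.mem_singleton_self _
      rw [Finset.mem_image]
      refine ⟨v, he.1.1 (Finset.mem_sdiff.mp hve).1, ?_⟩
      rw [Finset.insert_eq, ← hv]
      exact Finset.sdiff_union_of_subset he.2
    calc _ ≤ (K.image (fun v => insert v S)).card := Finset.card_le_card hsub2
      _ ≤ K.card := Finset.card_image_le
      _ = q := (mC K hKω).1
  calc wst r E S ω ≤ C.card * q := hw
    _ ≤ (1 + q * Λ) * (ℱ.card * 2) * q := Nat.mul_le_mul_right _ hCcard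
    _ = 2 * q * (1 + q * Λ) * ℱ.card := by ring

theorem nib_waste (q r : ℕ) (hr : 1 ≤ r) (hq : r < q) {V : Type} [Fintype V] [DecidableEq V]
    (E : Finset (Finset V)) (w : Finset V → ℝ) (δ B ε : ℝ) (hw : NibW q r E w δ B)
    (hδ0 : 0 ≤ δ) (hδ : δ ≤ 1 / 2) (hB : 1 ≤ B) (hε : 0 < ε) (hε1 : ε ≤ 1 / 2)
    (hn : B ≤ (Fintype.card V : ℝ)) (Λ : ℕ) (S : Finset V) (hS : S.card = r - 1) :
    bP (clq q r E) (fun K => ε * w K)
        (fun ω => (∀ g ∈ E, (ω.filter (fun K => g ⊆ K)).card ≤ Λ) ∧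
          2 * (q : ℝ) * (1 + q * Λ) *
            (8 * (q.choose r : ℝ) * ε ^ 2 * (Fintype.card V : ℝ) +
              Real.sqrt (Fintype.card V : ℝ) + 1) ≤ (wst r E S ω : ℝ)) ≤
      Real.exp (- Real.sqrt (Fintype.card V : ℝ)) := by
  have hV1 : (1 : ℝ) ≤ (Fintype.card V : ℝ) := hB.trans hn
  have hp : ∀ K ∈ clq q r E, 0 ≤ ε * w K ∧ ε * w K ≤ 1 := by
    intro K _
    refine ⟨mul_nonneg hε.le (hw.nonneg K), ?_⟩
    have h1 : w K ≤ 1 := by
      refine (hw.bdd K).trans ?_
      rw [div_le_one (by positivity)]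
      refine hn.trans ?_
      calc (Fintype.card V : ℝ) = (Fintype.card V : ℝ) ^ 1 := (pow_one _).symm
        _ ≤ (Fintype.card V : ℝ) ^ (q - r) := pow_le_pow_right₀ hV1 (by omega)
    have h2 : ε * w K ≤ 1 * 1 := mul_le_mul (by linarith) h1 (hw.nonneg K) (by norm_num)
    linarith
  have hP : ∀ z ∈ nib3b_P q r E S, z.1 ∈ clq q r E ∧ z.2 ∈ clq q r E ∧ z.1 ≠ z.2 := by
    intro z hz
    unfold nib3b_P at hz
    rw [Finset.mem_filter, Finset.mem_product] at hz
    exact ⟨hz.1.1, hz.1.2, hz.2.1⟩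
  have hpairs := pairs_tail (clq q r E) (fun K => ε * w K) hp (nib3b_P q r E S) hP
    (8 * (q.choose r : ℝ) * ε ^ 2 * (Fintype.card V : ℝ) + Real.sqrt (Fintype.card V : ℝ))
  have hsum := nib3b_sum q r hr hq E w δ B ε hw hδ hε S hS
  have hexp : Real.exp (2 * ∑ z ∈ nib3b_P q r E S, (ε * w z.1) * (ε * w z.2) -
      (8 * (q.choose r : ℝ) * ε ^ 2 * (Fintype.card V : ℝ) + Real.sqrt (Fintype.card V : ℝ))) ≤
      Real.exp (- Real.sqrt (Fintype.card V : ℝ)) := by
    refine Real.exp_le_exp.mpr ?_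
    linarith
  refine le_trans (bP_mono hp ?_) (hpairs.trans hexp)
  intro ω hω hA
  obtain ⟨hA1, hA2⟩ := hA
  obtain ⟨ℱ, f1, f2, f3, f4⟩ := nib3b_det q r hr E hw.unif Λ S hS ω hω hA1
  refine ⟨ℱ, f1, f2, f3, ?_⟩
  have f5 : (wst r E S ω : ℝ) ≤ 2 * (q : ℝ) * (1 + q * Λ) * (ℱ.card : ℝ) := by
    exact_mod_cast f4
  have hq0 : (0 : ℝ) < q := by exact_mod_cast (by omega : 0 < q)
  have hpos : 0 < 2 * (q : ℝ) * (1 + q * Λ) := by positivity
  have h6 := le_of_mul_le_mul_left (hA2.trans f5) hpos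
  linarith

end Pool.Agent.Des
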