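import Pool.Agent.Lib_helper96.Des.Nib1
import Pool.Agent.Lib_helper96.Des.Nib2a
import Pool.Agent.Lib_helper96.Des.Nib2b
import Pool.Agent.Lib_helper96.Des.Nib3a
import Pool.Agent.Lib_helper96.Des.Nib3b
import Pool.Agent.Lib_helper96.Des.Dec

/-!
# Block NIB4: one nibble step with `ε = n^(-1/8)`

Union bound over `nib_conc` (`t = n^(-1/4)`), `nib_codeg`, `nib_max`
(`Λ` a constant with `n^r ε^Λ` small), `nib_waste`.  For the outcome `ω`:
`E' = {g ∈ E : no K ∈ ω contains g}`, `D` = members of `ω` (with `K ∈ clq q r E`) sharing no `r`-set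
with another member of `ω`.  For `e ∈ E'` no `K' ∈ ω` contains `e`, so `fe r w e ω` is the sum of
`w K` over the `K ⊇ e` with all `r`-subsets in `E'`.  The edges of `E \ E'` not covered by `D` are
those counted by `wst`.
-/

set_option autoImplicit false

namespace Pool.Agent.Des

open Finset

/-- number of sets of size at most `r` -/
theorem nib4_card {V : Type} [Fintype V] [DecidableEq V] (r m : ℕ) (hm : m ≤ r)
    (hn : 1 ≤ Fintype.card V) (E : Finset (Finset V)) (hE : Unif m E) :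
    (E.card : ℝ) ≤ (Fintype.card V : ℝ) ^ r := by
  have h1 : E ⊆ Finset.univ.powersetCard m := by
    intro e he
    rw [Finset.mem_powersetCard]
    exact ⟨Finset.subset_univ _, hE e he⟩
  have h2 : E.card ≤ (Fintype.card V) ^ r := by
    refine (Finset.card_le_card h1).trans ?_
    rw [Finset.card_powersetCard, Finset.card_univ]
    exact (Nat.choose_le_pow _ _).trans (Nat.pow_le_pow_right hn hm)
  exact_mod_cast h2

/-- surviving weight at a surviving edge -/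
theorem nib4_fe {V : Type} [Fintype V] [DecidableEq V] (q r : ℕ) (E : Finset (Finset V))
    (w : Finset V → ℝ) (δ B : ℝ) (hw : NibW q r E w δ B) (ω E' : Finset (Finset V))
    (hE' : ∀ g, g ∈ E' ↔ g ∈ E ∧ ∀ K ∈ ω, ¬ g ⊆ K) (e : Finset V) (he : e ∈ E') (c : ℝ) :
    ∑ K ∈ Finset.univ.filter (fun K => e ⊆ K),
      (if K.powersetCard r ⊆ E' then c * w K else 0) = c * fe r w e ω := by
  classical
  unfold fe
  rw [Finset.mul_sum]
  refine Finset.sum_congr rfl fun K hK => ?_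
  by_cases hw0 : w K = 0
  · simp [hw0]
  · obtain ⟨_, hKE⟩ := hw.supp K hw0
    have heω := (hE' e).mp he
    have key : K.powersetCard r ⊆ E' ↔
        ∀ K' ∈ ω, ¬ e ⊆ K' → Disjoint (K'.powersetCard r) ((K.powersetCard r).erase e) := by
      constructor
      · intro h K' hK' _
        rw [Finset.disjoint_left]
        intro g hg hg'
        have hgK := Finset.mem_of_mem_erase hg'
        have := ((hE' g).mp (h hgK)).2 K' hK'
        exact this (Finset.mem_powersetCard.mp hg).1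
      · intro h g hg
        by_cases hge : g = e
        · rw [hge]; exact he
        · rw [hE']
          refine ⟨hKE hg, fun K' hK' hgK' => ?_⟩
          have h1 := h K' hK' (heω.2 K' hK')
          rw [Finset.disjoint_left] at h1
          exact h1 (Finset.mem_powersetCard.mpr ⟨hgK', (Finset.mem_powersetCard.mp hg).2⟩)
            (Finset.mem_erase.mpr ⟨hge, hg⟩)
    by_cases h : K.powersetCard r ⊆ E'
    · rw [if_pos h, if_pos (key.mp h), mul_one]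
    · rw [if_neg h, if_neg (fun h' => h (key.mpr h')), mul_zero, mul_zero]

/-- the deterministic part of the step -/
theorem nib4_det {V : Type} [Fintype V] [DecidableEq V] (q r : ℕ) (E : Finset (Finset V))
    (w : Finset V → ℝ) (δ B ε : ℝ) (hw : NibW q r E w δ B) (hε : 0 ≤ ε * ((q.choose r : ℝ) - 1))
    (δ' : ℝ) (ω : Finset (Finset V)) (hω : ω ⊆ clq q r E)
    (h1 : ∀ e ∈ E, |Real.exp (ε * ((q.choose r : ℝ) - 1)) * fe r w e ω - 1| ≤ δ') :
    ∃ (D E' : Finset (Finset V)), (∀ K ∈ D, K.card = q ∧ K.powersetCard r ⊆ E \ E') ∧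
      (∀ K ∈ D, ∀ K' ∈ D, K ≠ K' → Disjoint (K.powersetCard r) (K'.powersetCard r)) ∧
      E' ⊆ E ∧
      NibW q r E' (fun K => if K.powersetCard r ⊆ E' then
          Real.exp (ε * ((q.choose r : ℝ) - 1)) * w K else 0) δ'
        (Real.exp (ε * ((q.choose r : ℝ) - 1)) * B) ∧
      (∀ S : Finset V, dg E' S = unc E S ω) ∧
      (∀ S : Finset V,
        dg ((E \ E') \ D.biUnion (fun K => K.powersetCard r)) S ≤ wst r E S ω) := by
  classical
  obtain ⟨E', hE'⟩ : ∃ E' : Finset (Finset V), E' = E.filter (fun g => ∀ K ∈ ω, ¬ g ⊆ K) :=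
    ⟨_, rfl⟩
  obtain ⟨D, hD⟩ : ∃ D : Finset (Finset V), D = ω.filter (fun K => ∀ K' ∈ ω, K' ≠ K →
    Disjoint (K.powersetCard r) (K'.powersetCard r)) := ⟨_, rfl⟩
  have mE' : ∀ g, g ∈ E' ↔ g ∈ E ∧ ∀ K ∈ ω, ¬ g ⊆ K := by
    intro g; rw [hE', Finset.mem_filter]
  have mD : ∀ K, K ∈ D ↔ K ∈ ω ∧ ∀ K' ∈ ω, K' ≠ K →
      Disjoint (K.powersetCard r) (K'.powersetCard r) := by
    intro K; rw [hD, Finset.mem_filter]
  have mC : ∀ K ∈ ω, K.card = q ∧ K.powersetCard r ⊆ E := by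
    intro K hK
    have := hω hK
    unfold clq at this
    rw [Finset.mem_filter, Finset.mem_powersetCard] at this
    exact ⟨this.1.2, this.2⟩
  have hsub : E' ⊆ E := fun g hg => ((mE' g).mp hg).1
  refine ⟨D, E', ?_, ?_, hsub, ?_, ?_, ?_⟩
  · intro K hK
    have hKω := ((mD K).mp hK).1
    refine ⟨(mC K hKω).1, fun g hg => ?_⟩
    rw [Finset.mem_sdiff]
    exact ⟨(mC K hKω).2 hg, fun h => ((mE' g).mp h).2 K hKω (Finset.mem_powersetCard.mp hg).1⟩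
  · intro K hK K' hK' hne
    exact ((mD K).mp hK).2 K' ((mD K').mp hK').1 (Ne.symm hne)
  · have hexp : 0 < Real.exp (ε * ((q.choose r : ℝ) - 1)) := Real.exp_pos _
    have hB0 : 0 ≤ B / (Fintype.card V : ℝ) ^ (q - r) := (hw.nonneg ∅).trans (hw.bdd ∅)
    refine ⟨fun g hg => hw.unif g (hsub hg), ?_, ?_, ?_, ?_⟩
    · intro K
      split_ifs
      · exact mul_nonneg hexp.le (hw.nonneg K)
      · exact le_rfl
    · intro K hK
      simp only [ne_eq, ite_eq_right_iff, Classical.not_imp] at hK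
      obtain ⟨hK1, hK2⟩ := hK
      have hw0 : w K ≠ 0 := fun h => hK2 (by rw [h, mul_zero])
      exact ⟨(hw.supp K hw0).1, hK1⟩
    · intro e he
      rw [nib4_fe q r E w δ B hw ω E' mE' e he]
      exact h1 e (hsub he)
    · intro K
      show (if K.powersetCard r ⊆ E' then _ else _) ≤ _
      rw [mul_div_assoc]
      split_ifs
      · exact mul_le_mul_of_nonneg_left (hw.bdd K) hexp.le
      · exact mul_nonneg hexp.le hB0
  · intro S
    unfold dg unc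
    congr 1
    ext g
    rw [Finset.mem_filter, Finset.mem_filter, mE']
    tauto
  · intro S
    unfold dg wst
    refine Finset.card_le_card ?_
    intro g hg
    rw [Finset.mem_filter, Finset.mem_sdiff, Finset.mem_sdiff, Finset.mem_biUnion] at hg
    obtain ⟨⟨⟨hgE, hgE'⟩, hgD⟩, hSg⟩ := hg
    rw [mE'] at hgE'
    push Not at hgE'
    obtain ⟨K, hK, hgK⟩ := hgE' hgE
    rw [Finset.mem_filter]
    refine ⟨hgE, hSg, K, hK, hgK, ?_⟩
    by_contra hcon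
    push Not at hcon
    refine hgD ⟨K, (mD K).mpr ⟨hK, hcon⟩, ?_⟩
    exact Finset.mem_powersetCard.mpr ⟨hgK, hw.unif g hgE⟩

/-- everything which has to be large -/
theorem nib4_large (q r : ℕ) (b : ℝ) (Λ : ℕ) (hΛ : Λ = 8 * r + 8) :
    ∃ n₁ : ℕ, ∀ n : ℕ, n₁ ≤ n →
    1 ≤ (n : ℝ) ∧ (n : ℝ) ^ (-(1 : ℝ) / 8) * b ≤ 1 / 2 ∧ (n : ℝ) ^ (-(1 : ℝ) / 8) ≤ 1 / 2 ∧
    4 * b * (n : ℝ) ^ ((1 : ℝ) / 10) ≤ (n : ℝ) ∧ b * (n : ℝ) ^ ((1 : ℝ) / 10) ≤ Real.sqrt n ∧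
    (q : ℝ) ^ 2 ≤ (n : ℝ) ∧
    (n : ℝ) ^ r * (2 * Real.exp (3 * b ^ 2 * (n : ℝ) ^ ((1 : ℝ) / 10) -
      (n : ℝ) ^ (-(1 : ℝ) / 4) * Real.sqrt n)) +
    (n : ℝ) ^ r * (2 * Real.exp (2 * (q : ℝ) ^ 2 - (n : ℝ) ^ ((1 : ℝ) / 6))) +
    (n : ℝ) ^ r * (Real.exp 2 * ((n : ℝ) ^ (-(1 : ℝ) / 8)) ^ Λ) +
    (n : ℝ) ^ r * Real.exp (- Real.sqrt n) < 1 := by
  -- reduce to real variables
  have hnat : Filter.Tendsto (fun n : ℕ => (n : ℝ)) Filter.atTop Filter.atTop :=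
    tendsto_natCast_atTop_atTop
  have pw : ∀ (c a : ℝ), 0 < a → ∀ᶠ x : ℝ in Filter.atTop, c ≤ x ^ a := by
    intro c a ha
    exact (tendsto_rpow_atTop ha).eventually_ge_atTop c
  have key : ∀ᶠ x : ℝ in Filter.atTop,
      1 ≤ x ∧ 2 * b ≤ x ^ ((1 : ℝ) / 8) ∧ 2 ≤ x ^ ((1 : ℝ) / 8) ∧ 4 * b ≤ x ^ ((9 : ℝ) / 10) ∧
      b ≤ x ^ ((4 : ℝ) / 10) ∧ (q : ℝ) ^ 2 ≤ x ∧ 3 * b ^ 2 * 4 ≤ x ^ ((1 : ℝ) / 15) ∧
      2 * (q : ℝ) ^ 2 * 4 ≤ x ^ ((1 : ℝ) / 6) ∧ 4 * ((r : ℝ) * 100) ≤ x ^ ((1 : ℝ) / 6 - 1 / 100) ∧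
      4 * Real.log 16 ≤ x ^ ((1 : ℝ) / 6) ∧ 8 * Real.exp 2 ≤ x := by
    have e1 := Filter.eventually_ge_atTop (1 : ℝ)
    have e6 := Filter.eventually_ge_atTop ((q : ℝ) ^ 2)
    have e11 := Filter.eventually_ge_atTop (8 * Real.exp 2)
    filter_upwards [e1, pw (2 * b) ((1 : ℝ) / 8) (by norm_num), pw 2 ((1 : ℝ) / 8) (by norm_num),
      pw (4 * b) ((9 : ℝ) / 10) (by norm_num), pw b ((4 : ℝ) / 10) (by norm_num), e6,
      pw (3 * b ^ 2 * 4) ((1 : ℝ) / 15) (by norm_num),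
      pw (2 * (q : ℝ) ^ 2 * 4) ((1 : ℝ) / 6) (by norm_num),
      pw (4 * ((r : ℝ) * 100)) ((1 : ℝ) / 6 - 1 / 100) (by norm_num),
      pw (4 * Real.log 16) ((1 : ℝ) / 6) (by norm_num), e11] with x a1 a2 a3 a4 a5 a6 a7 a8 a9 a10 a11
    exact ⟨a1, a2, a3, a4, a5, a6, a7, a8, a9, a10, a11⟩
  obtain ⟨n₁, hn₁⟩ := Filter.eventually_atTop.mp (hnat.eventually key)
  refine ⟨n₁, fun n hn => ?_⟩
  obtain ⟨a1, a2, a3, a4, a5, a6, a7, a8, a9, a10, a11⟩ := hn₁ n hn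
  generalize (n : ℝ) = x at *
  have hx0 : 0 < x := by linarith
  have p8 : x ^ (-(1 : ℝ) / 8) * x ^ ((1 : ℝ) / 8) = 1 := by
    rw [← Real.rpow_add hx0]; norm_num
  have n8 : 0 < x ^ (-(1 : ℝ) / 8) := by positivity
  have hsq : Real.sqrt x = x ^ ((1 : ℝ) / 2) := Real.sqrt_eq_rpow x
  have g1 : x ^ ((1 : ℝ) / 10) * x ^ ((9 : ℝ) / 10) = x := by
    rw [← Real.rpow_add hx0]; norm_num
  have g2 : x ^ ((1 : ℝ) / 10) * x ^ ((4 : ℝ) / 10) = x ^ ((1 : ℝ) / 2) := by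
    rw [← Real.rpow_add hx0]; norm_num
  have g3 : x ^ ((1 : ℝ) / 10) * x ^ ((1 : ℝ) / 15) = x ^ ((1 : ℝ) / 6) := by
    rw [← Real.rpow_add hx0]; norm_num
  have g10 : 0 < x ^ ((1 : ℝ) / 10) := by positivity
  refine ⟨a1, ?_, ?_, ?_, ?_, a6, ?_⟩
  · have := mul_le_mul_of_nonneg_left a2 n8.le
    linarith
  · have := mul_le_mul_of_nonneg_left a3 n8.le
    linarith
  · have := mul_le_mul_of_nonneg_left a4 g10.le
    linarith
  · have := mul_le_mul_of_nonneg_left a5 g10.le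
    rw [hsq]; linarith
  · -- the probabilities
    have hlog : Real.log x ≤ x ^ (0.01 : ℝ) / 0.01 := Real.log_le_rpow_div hx0.le (by norm_num)
    have hrl : r * Real.log x ≤ x ^ ((1 : ℝ) / 6) / 4 := by
      have h1 : (r : ℝ) * Real.log x ≤ r * (x ^ (0.01 : ℝ) / 0.01) :=
        mul_le_mul_of_nonneg_left hlog (Nat.cast_nonneg _)
      have h2 : x ^ (0.01 : ℝ) * x ^ ((1 : ℝ) / 6 - 1 / 100) = x ^ ((1 : ℝ) / 6) := by
        rw [← Real.rpow_add hx0]; norm_num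
      have h3 : 0 < x ^ (0.01 : ℝ) := by positivity
      have h4 := mul_le_mul_of_nonneg_left a9 h3.le
      rw [h2] at h4
      have h5 : (r : ℝ) * (x ^ (0.01 : ℝ) / 0.01) = x ^ (0.01 : ℝ) * (4 * ((r : ℝ) * 100)) / 4 := by
        ring
      linarith
    have hxr : x ^ r = Real.exp (r * Real.log x) := by
      rw [mul_comm, ← Real.rpow_def_of_pos hx0, Real.rpow_natCast]
    have h16 : Real.exp (-Real.log 16) = 1 / 16 := by
      rw [Real.exp_neg, Real.exp_log (by norm_num)]; norm_num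
    have hmono : ∀ y : ℝ, x ^ ((1 : ℝ) / 6) ≤ x ^ y ∨ y < 1 / 6 := by
      intro y
      by_cases h : y < 1 / 6
      · exact Or.inr h
      · push Not at h
        exact Or.inl (Real.rpow_le_rpow_of_exponent_le a1 h)
    have h6pos : 0 < x ^ ((1 : ℝ) / 6) := by positivity
    have m4 : x ^ (-(1 : ℝ) / 4) * Real.sqrt x = x ^ ((1 : ℝ) / 4) := by
      rw [hsq, ← Real.rpow_add hx0]; norm_num
    have m4' : x ^ ((1 : ℝ) / 6) ≤ x ^ ((1 : ℝ) / 4) :=
      Real.rpow_le_rpow_of_exponent_le a1 (by norm_num)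
    have m2' : x ^ ((1 : ℝ) / 6) ≤ x ^ ((1 : ℝ) / 2) :=
      Real.rpow_le_rpow_of_exponent_le a1 (by norm_num)
    have t1 : x ^ r * (2 * Real.exp (3 * b ^ 2 * x ^ ((1 : ℝ) / 10) -
        x ^ (-(1 : ℝ) / 4) * Real.sqrt x)) ≤ 1 / 8 := by
      rw [m4, hxr]
      have h1 : r * Real.log x + (3 * b ^ 2 * x ^ ((1 : ℝ) / 10) - x ^ ((1 : ℝ) / 4)) ≤
          - Real.log 16 := by
        have h2 := mul_le_mul_of_nonneg_left a7 g10.le
        rw [g3] at h2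
        linarith
      calc Real.exp (r * Real.log x) * (2 * Real.exp (3 * b ^ 2 * x ^ ((1 : ℝ) / 10) -
            x ^ ((1 : ℝ) / 4))) = 2 * Real.exp (r * Real.log x +
            (3 * b ^ 2 * x ^ ((1 : ℝ) / 10) - x ^ ((1 : ℝ) / 4))) := by
            rw [Real.exp_add]; ring
        _ ≤ 2 * Real.exp (-Real.log 16) := by
            have := Real.exp_le_exp.mpr h1
            linarith
        _ = 1 / 8 := by rw [h16]; norm_num
    have t2 : x ^ r * (2 * Real.exp (2 * (q : ℝ) ^ 2 - x ^ ((1 : ℝ) / 6))) ≤ 1 / 8 := by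
      rw [hxr]
      have h1 : r * Real.log x + (2 * (q : ℝ) ^ 2 - x ^ ((1 : ℝ) / 6)) ≤ - Real.log 16 := by
        linarith
      calc Real.exp (r * Real.log x) * (2 * Real.exp (2 * (q : ℝ) ^ 2 - x ^ ((1 : ℝ) / 6))) =
            2 * Real.exp (r * Real.log x + (2 * (q : ℝ) ^ 2 - x ^ ((1 : ℝ) / 6))) := by
            rw [Real.exp_add]; ring
        _ ≤ 2 * Real.exp (-Real.log 16) := by
            have := Real.exp_le_exp.mpr h1
            linarith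
        _ = 1 / 8 := by rw [h16]; norm_num
    have t3 : x ^ r * (Real.exp 2 * (x ^ (-(1 : ℝ) / 8)) ^ Λ) ≤ 1 / 8 := by
      have h1 : (x ^ (-(1 : ℝ) / 8)) ^ Λ = x ^ (-((r : ℝ) + 1)) := by
        rw [← Real.rpow_natCast, ← Real.rpow_mul hx0.le]
        congr 1
        rw [hΛ]; push_cast; ring
      have h2 : x ^ r * x ^ (-((r : ℝ) + 1)) = x⁻¹ := by
        rw [← Real.rpow_natCast, ← Real.rpow_add hx0, ← Real.rpow_neg_one]
        congr 1; ring
      have h3 : x ^ r * (Real.exp 2 * x ^ (-((r : ℝ) + 1))) = Real.exp 2 * x⁻¹ := by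
        rw [← h2]; ring
      rw [h1, h3, ← div_eq_mul_inv, div_le_iff₀ hx0]
      linarith
    have t4 : x ^ r * Real.exp (- Real.sqrt x) ≤ 1 / 16 := by
      rw [hxr, hsq, ← Real.exp_add, ← h16]
      refine Real.exp_le_exp.mpr ?_
      linarith
    linarith

theorem nib_step (q r : ℕ) (hr : 1 ≤ r) (hq : r < q) : ∃ (C : ℝ) (n₀ : ℕ), 1 ≤ C ∧
    ∀ (V : Type) [Fintype V] [DecidableEq V], n₀ ≤ Fintype.card V →
    ∀ (E : Finset (Finset V)) (w : Finset V → ℝ) (δ B ε : ℝ),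
    ε = (Fintype.card V : ℝ) ^ (-(1 : ℝ) / 8) → NibW q r E w δ B → 0 ≤ δ → δ ≤ 1 / 2 → 1 ≤ B →
    B ≤ (Fintype.card V : ℝ) ^ ((1 : ℝ) / 10) →
    ∃ (D E' : Finset (Finset V)), (∀ K ∈ D, K.card = q ∧ K.powersetCard r ⊆ E \ E') ∧
      (∀ K ∈ D, ∀ K' ∈ D, K ≠ K' → Disjoint (K.powersetCard r) (K'.powersetCard r)) ∧
      E' ⊆ E ∧
      NibW q r E' (fun K => if K.powersetCard r ⊆ E' then
          Real.exp (ε * ((q.choose r : ℝ) - 1)) * w K else 0)
        (δ * (1 + 3 * ε * (q.choose r : ℝ)) + C * (Fintype.card V : ℝ) ^ (-(1 : ℝ) / 4))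
        (Real.exp (ε * ((q.choose r : ℝ) - 1)) * B) ∧
      (∀ S : Finset V, S.card = r - 1 → (dg E' S : ℝ) ≤
        (1 - ε / 4) * (dg E S : ℝ) + (Fintype.card V : ℝ) ^ ((2 : ℝ) / 3)) ∧
      (∀ S : Finset V, S.card = r - 1 →
        (dg ((E \ E') \ D.biUnion (fun K => K.powersetCard r)) S : ℝ) ≤
          C * (Fintype.card V : ℝ) ^ ((3 : ℝ) / 4)) := by
  have hb1 : (1 : ℝ) ≤ (q.choose r : ℝ) := by
    exact_mod_cast Nat.succ_le_of_lt (Nat.choose_pos hq.le)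
  obtain ⟨Λ, hΛ⟩ : ∃ Λ : ℕ, Λ = 8 * r + 8 := ⟨_, rfl⟩
  obtain ⟨n₁, hn₁⟩ := nib4_large q r (q.choose r : ℝ) Λ hΛ
  obtain ⟨C, hC⟩ : ∃ C : ℝ, C = 6 * (q.choose r : ℝ) ^ 2 + 2 +
      2 * (q : ℝ) * (1 + q * Λ) * (8 * (q.choose r : ℝ) + 2) := ⟨_, rfl⟩
  have hC0 : 0 ≤ 2 * (q : ℝ) * (1 + q * Λ) * (8 * (q.choose r : ℝ) + 2) := by positivity
  have hC1 : 0 ≤ 6 * (q.choose r : ℝ) ^ 2 := by positivity
  refine ⟨C, n₁, by linarith, ?_⟩
  intro V _ _ hV E w δ B ε hε hw hδ0 hδ hB hBn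
  obtain ⟨a1, a2, a3, a4, a5, a6, a7⟩ := hn₁ _ hV
  have hVpos : 1 ≤ Fintype.card V := by exact_mod_cast a1
  have hx0 : (0 : ℝ) < (Fintype.card V : ℝ) := by linarith
  rw [← hε] at a2 a3 a7
  have hε0 : 0 < ε := by rw [hε]; positivity
  have hB4 : 4 * (q.choose r : ℝ) * B ≤ (Fintype.card V : ℝ) :=
    (mul_le_mul_of_nonneg_left hBn (by positivity)).trans a4
  have hBs : (q.choose r : ℝ) * B ≤ Real.sqrt (Fintype.card V : ℝ) :=
    (mul_le_mul_of_nonneg_left hBn (by positivity)).trans a5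
  have hBV : B ≤ (Fintype.card V : ℝ) := by nlinarith
  -- probabilities are in `[0,1]`
  have hp : ∀ K ∈ clq q r E, 0 ≤ ε * w K ∧ ε * w K ≤ 1 := by
    intro K _
    refine ⟨mul_nonneg hε0.le (hw.nonneg K), ?_⟩
    have h1 : w K ≤ 1 := by
      refine (hw.bdd K).trans ?_
      rw [div_le_one (by positivity)]
      refine hBV.trans ?_
      calc (Fintype.card V : ℝ) = (Fintype.card V : ℝ) ^ 1 := (pow_one _).symm
        _ ≤ (Fintype.card V : ℝ) ^ (q - r) := pow_le_pow_right₀ a1 (by omega)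
    have h2 : ε * w K ≤ 1 * 1 := mul_le_mul (by linarith) h1 (hw.nonneg K) (by norm_num)
    linarith
  -- bad events
  obtain ⟨A1, hA1⟩ : ∃ A1 : Finset V → Finset (Finset V) → Prop, A1 = fun e ω =>
      (Fintype.card V : ℝ) ^ (-(1 : ℝ) / 4) ≤
        |fe r w e ω - bE (clq q r E) (fun K => ε * w K) (fe r w e)| := ⟨_, rfl⟩
  obtain ⟨A2, hA2⟩ : ∃ A2 : Finset V → Finset (Finset V) → Prop, A2 = fun S ω =>
      (1 - ε / 4) * (dg E S : ℝ) + (Fintype.card V : ℝ) ^ ((2 : ℝ) / 3) ≤ (unc E S ω : ℝ) :=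
    ⟨_, rfl⟩
  obtain ⟨A3, hA3⟩ : ∃ A3 : Finset (Finset V) → Prop, A3 = fun ω =>
      ∃ g ∈ E, Λ ≤ (ω.filter (fun K => g ⊆ K)).card := ⟨_, rfl⟩
  obtain ⟨A4, hA4⟩ : ∃ A4 : Finset V → Finset (Finset V) → Prop, A4 = fun S ω =>
      ((∀ g ∈ E, (ω.filter (fun K => g ⊆ K)).card ≤ Λ) ∧
          2 * (q : ℝ) * (1 + q * Λ) *
            (8 * (q.choose r : ℝ) * ε ^ 2 * (Fintype.card V : ℝ) +
              Real.sqrt (Fintype.card V : ℝ) + 1) ≤ (wst r E S ω : ℝ)) := ⟨_, rfl⟩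
  set P := bP (clq q r E) (fun K => ε * w K) with hPdef
  have b1 : ∀ e ∈ E, P (A1 e) ≤ 2 * Real.exp (3 * (q.choose r : ℝ) ^ 2 *
      (Fintype.card V : ℝ) ^ ((1 : ℝ) / 10) -
      (Fintype.card V : ℝ) ^ (-(1 : ℝ) / 4) * Real.sqrt (Fintype.card V : ℝ)) := by
    intro e he
    have h := nib_conc q r hr hq E w δ B ε hw hδ0 hδ hB hε0 (by linarith) hBs e he
      ((Fintype.card V : ℝ) ^ (-(1 : ℝ) / 4))
    rw [hPdef, hA1]
    refine h.trans ?_
    have h2 : 3 * (q.choose r : ℝ) ^ 2 * B ≤ 3 * (q.choose r : ℝ) ^ 2 *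
        (Fintype.card V : ℝ) ^ ((1 : ℝ) / 10) := mul_le_mul_of_nonneg_left hBn (by positivity)
    have h3 := Real.exp_le_exp.mpr (show 3 * (q.choose r : ℝ) ^ 2 * B -
      (Fintype.card V : ℝ) ^ (-(1 : ℝ) / 4) * Real.sqrt (Fintype.card V : ℝ) ≤
      3 * (q.choose r : ℝ) ^ 2 * (Fintype.card V : ℝ) ^ ((1 : ℝ) / 10) -
      (Fintype.card V : ℝ) ^ (-(1 : ℝ) / 4) * Real.sqrt (Fintype.card V : ℝ) by linarith)
    linarith
  have b2 : ∀ S ∈ (Finset.univ : Finset V).powersetCard (r - 1), P (A2 S) ≤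
      2 * Real.exp (2 * (q : ℝ) ^ 2 - (Fintype.card V : ℝ) ^ ((1 : ℝ) / 6)) := by
    intro S hS
    rw [hPdef, hA2]
    exact nib_codeg q r hr hq E w δ B ε hw hδ0 hδ hB hε0 a3 hBV a6 S
      (Finset.mem_powersetCard.mp hS).2
  have b3 : P A3 ≤ (Fintype.card V : ℝ) ^ r * (Real.exp 2 * ε ^ Λ) := by
    rw [hPdef, hA3]
    exact nib_max q r hr hq E w δ B ε hw hδ0 hδ hB hε0 a3 hBV Λ
  have b4 : ∀ S ∈ (Finset.univ : Finset V).powersetCard (r - 1), P (A4 S) ≤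
      Real.exp (- Real.sqrt (Fintype.card V : ℝ)) := by
    intro S hS
    rw [hPdef, hA4]
    exact nib_waste q r hr hq E w δ B ε hw hδ0 hδ hB hε0 a3 hBV Λ S
      (Finset.mem_powersetCard.mp hS).2
  have c1 : (E.card : ℝ) ≤ (Fintype.card V : ℝ) ^ r := nib4_card r r le_rfl hVpos E hw.unif
  have c2 : (((Finset.univ : Finset V).powersetCard (r - 1)).card : ℝ) ≤
      (Fintype.card V : ℝ) ^ r := by
    refine nib4_card r (r - 1) (by omega) hVpos _ ?_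
    intro S hS
    exact (Finset.mem_powersetCard.mp hS).2
  have u1 : P (fun ω => ∃ e ∈ E, A1 e ω) ≤ (Fintype.card V : ℝ) ^ r * (2 * Real.exp
      (3 * (q.choose r : ℝ) ^ 2 * (Fintype.card V : ℝ) ^ ((1 : ℝ) / 10) -
      (Fintype.card V : ℝ) ^ (-(1 : ℝ) / 4) * Real.sqrt (Fintype.card V : ℝ))) := by
    refine (bP_exists_le hp E A1).trans ((Finset.sum_le_card_nsmul _ _ _ b1).trans ?_)
    rw [nsmul_eq_mul]
    exact mul_le_mul_of_nonneg_right c1 (by positivity)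
  have u2 : P (fun ω => ∃ S ∈ (Finset.univ : Finset V).powersetCard (r - 1), A2 S ω) ≤
      (Fintype.card V : ℝ) ^ r * (2 * Real.exp (2 * (q : ℝ) ^ 2 -
        (Fintype.card V : ℝ) ^ ((1 : ℝ) / 6))) := by
    refine (bP_exists_le hp _ A2).trans ((Finset.sum_le_card_nsmul _ _ _ b2).trans ?_)
    rw [nsmul_eq_mul]
    exact mul_le_mul_of_nonneg_right c2 (by positivity)
  have u4 : P (fun ω => ∃ S ∈ (Finset.univ : Finset V).powersetCard (r - 1), A4 S ω) ≤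
      (Fintype.card V : ℝ) ^ r * Real.exp (- Real.sqrt (Fintype.card V : ℝ)) := by
    refine (bP_exists_le hp _ A4).trans ((Finset.sum_le_card_nsmul _ _ _ b4).trans ?_)
    rw [nsmul_eq_mul]
    exact mul_le_mul_of_nonneg_right c2 (by positivity)
  have tot : P (fun ω => (∃ e ∈ E, A1 e ω) ∨
      ((∃ S ∈ (Finset.univ : Finset V).powersetCard (r - 1), A2 S ω) ∨ (A3 ω ∨
      ∃ S ∈ (Finset.univ : Finset V).powersetCard (r - 1), A4 S ω))) < 1 := by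
    have v1 := bP_or_le hp (fun ω => ∃ e ∈ E, A1 e ω) (fun ω =>
      ((∃ S ∈ (Finset.univ : Finset V).powersetCard (r - 1), A2 S ω) ∨ (A3 ω ∨
      ∃ S ∈ (Finset.univ : Finset V).powersetCard (r - 1), A4 S ω)))
    have v2 := bP_or_le hp (fun ω =>
      (∃ S ∈ (Finset.univ : Finset V).powersetCard (r - 1), A2 S ω)) (fun ω => (A3 ω ∨
      ∃ S ∈ (Finset.univ : Finset V).powersetCard (r - 1), A4 S ω))
    have v3 := bP_or_le hp A3 (fun ω =>
      ∃ S ∈ (Finset.univ : Finset V).powersetCard (r - 1), A4 S ω)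
    rw [← hPdef] at v1 v2 v3
    linarith
  obtain ⟨ω, hω, hnot⟩ := exists_not_of_bP_lt hp tot
  push Not at hnot
  obtain ⟨w1, w2, w3, w4⟩ := hnot
  have hexp1 : Real.exp (ε * ((q.choose r : ℝ) - 1)) ≤ 2 := by
    have h1 : ε * ((q.choose r : ℝ) - 1) ≤ 1 / 2 := by nlinarith
    have h2 := Real.exp_le_exp.mpr h1
    have h3 : Real.exp (1 / 2) ≤ 2 := by
      have h4 : Real.exp (1 / 2) * Real.exp (1 / 2) = Real.exp 1 := by
        rw [← Real.exp_add]; norm_num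
      have h5 := Real.exp_one_lt_d9
      nlinarith [Real.exp_pos (1 / 2 : ℝ)]
    linarith
  have hδ' : ∀ e ∈ E, |Real.exp (ε * ((q.choose r : ℝ) - 1)) * fe r w e ω - 1| ≤
      δ * (1 + 3 * ε * (q.choose r : ℝ)) + C * (Fintype.card V : ℝ) ^ (-(1 : ℝ) / 4) := by
    intro e he
    have h1 := w1 e he
    rw [hA1] at h1
    push Not at h1
    have h2 := nib_mean q r hr hq E w δ B ε hw hδ0 hδ hB hε0 a2 hB4 e he
    set m := bE (clq q r E) (fun K => ε * w K) (fe r w e) with hm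
    have h3 : Real.exp (ε * ((q.choose r : ℝ) - 1)) * fe r w e ω - 1 =
        (Real.exp (ε * ((q.choose r : ℝ) - 1)) * m - 1) +
        Real.exp (ε * ((q.choose r : ℝ) - 1)) * (fe r w e ω - m) := by ring
    have h4 : |Real.exp (ε * ((q.choose r : ℝ) - 1)) * (fe r w e ω - m)| ≤
        2 * (Fintype.card V : ℝ) ^ (-(1 : ℝ) / 4) := by
      rw [abs_mul, abs_of_pos (Real.exp_pos _)]
      exact mul_le_mul hexp1 h1.le (abs_nonneg _) (by norm_num)
    have h5 : 6 * ε * (q.choose r : ℝ) ^ 2 * B / (Fintype.card V : ℝ) ≤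
        6 * (q.choose r : ℝ) ^ 2 * (Fintype.card V : ℝ) ^ (-(1 : ℝ) / 4) := by
      have g1 : 6 * ε * (q.choose r : ℝ) ^ 2 * B / (Fintype.card V : ℝ) =
          6 * (q.choose r : ℝ) ^ 2 * (ε * B / (Fintype.card V : ℝ)) := by ring
      rw [g1]
      refine mul_le_mul_of_nonneg_left ?_ hC1
      rw [div_le_iff₀ hx0]
      have g2 : (Fintype.card V : ℝ) ^ (-(1 : ℝ) / 4) * (Fintype.card V : ℝ) =
          (Fintype.card V : ℝ) ^ ((3 : ℝ) / 4) := by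
        conv_lhs => rw [← Real.rpow_one (Fintype.card V : ℝ), ← Real.rpow_mul hx0.le,
          ← Real.rpow_add hx0]
        norm_num
      have g3 : (Fintype.card V : ℝ) ^ ((1 : ℝ) / 10) ≤ (Fintype.card V : ℝ) ^ ((3 : ℝ) / 4) :=
        Real.rpow_le_rpow_of_exponent_le a1 (by norm_num)
      rw [g2]
      nlinarith
    rw [h3]
    refine (abs_add_le _ _).trans ?_
    have h6 : 0 < (Fintype.card V : ℝ) ^ (-(1 : ℝ) / 4) := by positivity
    have h7 : C * (Fintype.card V : ℝ) ^ (-(1 : ℝ) / 4) =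
        6 * (q.choose r : ℝ) ^ 2 * (Fintype.card V : ℝ) ^ (-(1 : ℝ) / 4) +
        2 * (Fintype.card V : ℝ) ^ (-(1 : ℝ) / 4) +
        2 * (q : ℝ) * (1 + q * Λ) * (8 * (q.choose r : ℝ) + 2) *
          (Fintype.card V : ℝ) ^ (-(1 : ℝ) / 4) := by rw [hC]; ring
    have h8 : 0 ≤ 2 * (q : ℝ) * (1 + q * Λ) * (8 * (q.choose r : ℝ) + 2) *
          (Fintype.card V : ℝ) ^ (-(1 : ℝ) / 4) := mul_nonneg hC0 h6.le
    linarith
  obtain ⟨D, E', d1, d2, d3, d4, d5, d6⟩ := nib4_det q r E w δ B ε hw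
    (mul_nonneg hε0.le (by linarith)) _ ω hω hδ'
  refine ⟨D, E', d1, d2, d3, d4, ?_, ?_⟩
  · intro S hS
    have h1 := w2 S (Finset.mem_powersetCard.mpr ⟨Finset.subset_univ _, hS⟩)
    rw [hA2] at h1
    push Not at h1
    rw [d5 S]
    exact h1.le
  · intro S hS
    have h1 := w4 S (Finset.mem_powersetCard.mpr ⟨Finset.subset_univ _, hS⟩)
    rw [hA3] at w3
    push Not at w3
    rw [hA4] at h1
    have h2 := mt (fun h => (⟨fun g hg => (w3 g hg).le, h⟩ :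
      (∀ g ∈ E, (ω.filter (fun K => g ⊆ K)).card ≤ Λ) ∧
          2 * (q : ℝ) * (1 + q * Λ) *
            (8 * (q.choose r : ℝ) * ε ^ 2 * (Fintype.card V : ℝ) +
              Real.sqrt (Fintype.card V : ℝ) + 1) ≤ (wst r E S ω : ℝ))) h1
    push Not at h2
    have h3 : (dg ((E \ E') \ D.biUnion (fun K => K.powersetCard r)) S : ℝ) ≤
        (wst r E S ω : ℝ) := by exact_mod_cast d6 S
    have h4 : ε ^ 2 * (Fintype.card V : ℝ) = (Fintype.card V : ℝ) ^ ((3 : ℝ) / 4) := by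
      rw [hε, ← Real.rpow_natCast, ← Real.rpow_mul hx0.le]
      conv_lhs => rw [← Real.rpow_one (Fintype.card V : ℝ), ← Real.rpow_mul hx0.le,
          ← Real.rpow_add hx0]
      norm_num
    have h5 : Real.sqrt (Fintype.card V : ℝ) ≤ (Fintype.card V : ℝ) ^ ((3 : ℝ) / 4) := by
      rw [Real.sqrt_eq_rpow]
      exact Real.rpow_le_rpow_of_exponent_le a1 (by norm_num)
    have h6 : (1 : ℝ) ≤ (Fintype.card V : ℝ) ^ ((3 : ℝ) / 4) := Real.one_le_rpow a1 (by norm_num)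
    have h7 : 8 * (q.choose r : ℝ) * ε ^ 2 * (Fintype.card V : ℝ) +
              Real.sqrt (Fintype.card V : ℝ) + 1 ≤
        (8 * (q.choose r : ℝ) + 2) * (Fintype.card V : ℝ) ^ ((3 : ℝ) / 4) := by
      rw [mul_assoc (8 * (q.choose r : ℝ)), h4]
      linarith
    have h8 : 2 * (q : ℝ) * (1 + q * Λ) * (8 * (q.choose r : ℝ) * ε ^ 2 * (Fintype.card V : ℝ) +
              Real.sqrt (Fintype.card V : ℝ) + 1) ≤ 2 * (q : ℝ) * (1 + q * Λ) *
        ((8 * (q.choose r : ℝ) + 2) * (Fintype.card V : ℝ) ^ ((3 : ℝ) / 4)) :=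
      mul_le_mul_of_nonneg_left h7 (by positivity)
    have h9 : 0 ≤ (6 * (q.choose r : ℝ) ^ 2 + 2) * (Fintype.card V : ℝ) ^ ((3 : ℝ) / 4) := by
      positivity
    have h10 : C * (Fintype.card V : ℝ) ^ ((3 : ℝ) / 4) =
        (6 * (q.choose r : ℝ) ^ 2 + 2) * (Fintype.card V : ℝ) ^ ((3 : ℝ) / 4) +
        2 * (q : ℝ) * (1 + q * Λ) *
        ((8 * (q.choose r : ℝ) + 2) * (Fintype.card V : ℝ) ^ ((3 : ℝ) / 4)) := by
      rw [hC]; ring
    linarith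

end Pool.Agent.Des
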