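import Pool.Agent.Lib_helper96.Des.Pindep
import Pool.Agent.Lib_helper96.Des.Pbern

/-!
# Block PBLOCKS: concentration of the number of fully selected disjoint blocks

Apply `bernstein_tail` with `c = 1` on the union of the blocks and `0` elsewhere; the expectation is
`|I| P` by `bE_subset_disj`.
-/

set_option autoImplicit false

namespace Pool.Agent.Des

open Finset

variable {Ω ι : Type*} [DecidableEq Ω] [DecidableEq ι]

theorem blocks_tail (S : Finset Ω) (p : Ω → ℝ) (hp : ∀ i ∈ S, 0 ≤ p i ∧ p i ≤ 1) (I : Finset ι)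
    (B : ι → Finset Ω) (hB : ∀ i ∈ I, B i ⊆ S)
    (hd : ∀ i ∈ I, ∀ j ∈ I, i ≠ j → Disjoint (B i) (B j)) (k : ℕ)
    (hk : ∀ i ∈ I, (B i).card ≤ k) (P : ℝ) (hP : ∀ i ∈ I, ∏ j ∈ B i, p j = P) (lam : ℝ)
    (hl : 0 ≤ lam) (hl1 : lam ≤ 1) (t : ℝ) :
    bP S p (fun ω => t ≤ |(((I.filter (fun i => B i ⊆ ω)).card : ℕ) : ℝ) - I.card * P|) ≤
      2 * Real.exp (- (lam * t) + lam ^ 2 * (k * I.card)) := by
  classical
  obtain ⟨U, hU⟩ : ∃ U : Finset Ω, U = I.biUnion B := ⟨_, rfl⟩
  have hUS : U ⊆ S := by rw [hU, Finset.biUnion_subset]; exact hB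
  obtain ⟨f, hf⟩ : ∃ f : Finset Ω → ℝ, ∀ ω, f ω = (((I.filter (fun i => B i ⊆ ω)).card : ℕ) : ℝ) :=
    ⟨_, fun _ => rfl⟩
  have hfs : ∀ ω, f ω = ∑ i ∈ I, if B i ⊆ ω then (1 : ℝ) else 0 := by
    intro ω; rw [hf, Finset.card_filter]; push_cast; rfl
  have hE : bE S p f = I.card * P := by
    have h1 : bE S p f = bE S p (fun ω => ∑ i ∈ I, if B i ⊆ ω ∧ Disjoint ∅ ω then (1 : ℝ) else 0) := by
      refine bE_congr fun ω _ => ?_
      rw [hfs]
      refine Finset.sum_congr rfl fun i _ => ?_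
      by_cases h : B i ⊆ ω
      · rw [if_pos h, if_pos ⟨h, Finset.disjoint_empty_left _⟩]
      · rw [if_neg h, if_neg (fun h' => h h'.1)]
    rw [h1, bE_sum]
    have h2 : ∀ i ∈ I, bE S p (fun ω => if B i ⊆ ω ∧ Disjoint ∅ ω then (1 : ℝ) else 0) = P := by
      intro i hi
      rw [bE_subset_disj S p (B i) ∅ (hB i hi) (Finset.empty_subset _)
        (Finset.disjoint_empty_right _), Finset.prod_empty, mul_one, hP i hi]
    rw [Finset.sum_congr rfl h2, Finset.sum_const, nsmul_eq_mul]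
  have hlip : ∀ a ∈ S, ∀ ω ⊆ S, a ∉ ω → |f (insert a ω) - f ω| ≤ (if a ∈ U then 1 else 0) := by
    intro a _ ω _ haω
    have hmono : ∀ i ∈ I, (if B i ⊆ ω then (1 : ℝ) else 0) ≤
        if B i ⊆ insert a ω then (1 : ℝ) else 0 := by
      intro i _
      by_cases h : B i ⊆ ω
      · rw [if_pos h, if_pos (h.trans (Finset.subset_insert _ _))]
      · rw [if_neg h]; split_ifs <;> norm_num
    by_cases haU : a ∈ U
    · rw [if_pos haU]
      rw [hU, Finset.mem_biUnion] at haU
      obtain ⟨j, hj, haj⟩ := haU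
      have hother : ∀ i ∈ I, i ≠ j → (if B i ⊆ insert a ω then (1 : ℝ) else 0) =
          if B i ⊆ ω then (1 : ℝ) else 0 := by
        intro i hi hij
        have hai : a ∉ B i := fun h => Finset.disjoint_left.1 (hd i hi j hj hij) h haj
        have : B i ⊆ insert a ω ↔ B i ⊆ ω := by
          rw [Finset.subset_insert_iff, Finset.erase_eq_of_notMem hai]
        simp only [this]
      have e1 : f (insert a ω) - f ω = (if B j ⊆ insert a ω then (1 : ℝ) else 0) -
          if B j ⊆ ω then (1 : ℝ) else 0 := by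
        rw [hfs, hfs, ← Finset.sum_sub_distrib, Finset.sum_eq_single_of_mem j hj]
        intro i hi hij
        rw [hother i hi hij, sub_self]
      rw [e1]
      split_ifs <;> norm_num
    · rw [if_neg haU]
      have hother : ∀ i ∈ I, (if B i ⊆ insert a ω then (1 : ℝ) else 0) =
          if B i ⊆ ω then (1 : ℝ) else 0 := by
        intro i hi
        have hai : a ∉ B i := fun h => haU (by rw [hU, Finset.mem_biUnion]; exact ⟨i, hi, h⟩)
        have : B i ⊆ insert a ω ↔ B i ⊆ ω := by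
          rw [Finset.subset_insert_iff, Finset.erase_eq_of_notMem hai]
        simp only [this]
      rw [hfs, hfs, Finset.sum_congr rfl hother, sub_self, abs_zero]
  have hb := bernstein_tail S p hp f (fun a => if a ∈ U then 1 else 0)
    (fun a _ => by split_ifs <;> norm_num) hlip lam hl
    (fun a _ => by split_ifs <;> simp [hl1]) t
  rw [hE] at hb
  have h0 : bP S p (fun ω => t ≤ |(((I.filter (fun i => B i ⊆ ω)).card : ℕ) : ℝ) - I.card * P|) =
      bP S p (fun ω => t ≤ |f ω - I.card * P|) := bP_congr fun ω _ => by rw [hf]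
  rw [h0]
  refine hb.trans ?_
  have hsum : ∑ i ∈ S, p i * (if i ∈ U then (1 : ℝ) else 0) ^ 2 ≤ k * I.card := by
    calc ∑ i ∈ S, p i * (if i ∈ U then (1 : ℝ) else 0) ^ 2
        ≤ ∑ i ∈ S, (if i ∈ U then (1 : ℝ) else 0) := by
          refine Finset.sum_le_sum fun i hi => ?_
          have := hp i hi
          split_ifs <;> simp [this.2]
      _ = (U.card : ℝ) := by
          rw [← Finset.sum_filter, Finset.sum_const, nsmul_eq_mul, mul_one]
          congr 2
          ext i
          rw [Finset.mem_filter]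
          exact ⟨fun h => h.2, fun h => ⟨hUS h, h⟩⟩
      _ ≤ k * I.card := by
          have : U.card ≤ I.card * k := by
            rw [hU]; exact Finset.card_biUnion_le_card_mul _ _ _ hk
          rw [mul_comm]
          exact_mod_cast this
  have h2 : lam ^ 2 * ∑ i ∈ S, p i * (if i ∈ U then (1 : ℝ) else 0) ^ 2 ≤
      lam ^ 2 * (k * I.card) := mul_le_mul_of_nonneg_left hsum (sq_nonneg _)
  have h3 : Real.exp (-(lam * t) + lam ^ 2 * ∑ i ∈ S, p i * (if i ∈ U then (1 : ℝ) else 0) ^ 2) ≤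
      Real.exp (-(lam * t) + lam ^ 2 * (k * I.card)) := Real.exp_le_exp.2 (by linarith)
  linarith

end Pool.Agent.Des
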