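import Pool.Agent.Lib_helper96.Des.Prob

/-!
# Block PCARD: exponential moment of the number of chosen elements of a set
-/

set_option autoImplicit false

namespace Pool.Agent.Des

open Finset

variable {Ω : Type*} [DecidableEq Ω]

theorem pcard_mgf (S : Finset Ω) (p : Ω → ℝ) (hp : ∀ i ∈ S, 0 ≤ p i ∧ p i ≤ 1) (B : Finset Ω)
    (x : ℝ) (hx : 0 ≤ x) :
    bE S p (fun ω => Real.exp (x * ((ω ∩ B).card : ℝ))) ≤
      Real.exp ((Real.exp x - 1) * ∑ i ∈ S ∩ B, p i) := by
  induction S using Finset.induction_on with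
  | empty => rw [bE_empty]; simp
  | insert a S ha ih =>
    have hpa := hp a (Finset.mem_insert_self _ _)
    have hp' : ∀ i ∈ S, 0 ≤ p i ∧ p i ≤ 1 := fun i hi => hp i (Finset.mem_insert_of_mem hi)
    have hih := ih hp'
    have hEnn : 0 ≤ bE S p (fun ω => Real.exp (x * ((ω ∩ B).card : ℝ))) :=
      bE_nonneg hp' fun ω _ => (Real.exp_pos _).le
    rw [bE_insert ha]
    by_cases haB : a ∈ B
    · have h1 : bE S p (fun ω => Real.exp (x * (((insert a ω) ∩ B).card : ℝ))) =
          Real.exp x * bE S p (fun ω => Real.exp (x * ((ω ∩ B).card : ℝ))) := by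
        rw [← bE_mul_left]
        refine bE_congr fun ω hω => ?_
        have haω : a ∉ ω ∩ B := fun h => ha (hω (Finset.mem_inter.1 h).1)
        rw [Finset.insert_inter_of_mem haB, Finset.card_insert_of_notMem haω, ← Real.exp_add]
        push_cast
        congr 1; ring
      rw [h1, Finset.insert_inter_of_mem haB, Finset.sum_insert
        (fun h => ha (Finset.mem_inter.1 h).1), mul_add, Real.exp_add]
      have h2 : p a * Real.exp x + (1 - p a) ≤ Real.exp ((Real.exp x - 1) * p a) := by
        have := Real.add_one_le_exp ((Real.exp x - 1) * p a)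
        linarith
      calc p a * (Real.exp x * bE S p (fun ω => Real.exp (x * ((ω ∩ B).card : ℝ)))) +
          (1 - p a) * bE S p (fun ω => Real.exp (x * ((ω ∩ B).card : ℝ)))
          = (p a * Real.exp x + (1 - p a)) *
            bE S p (fun ω => Real.exp (x * ((ω ∩ B).card : ℝ))) := by ring
        _ ≤ Real.exp ((Real.exp x - 1) * p a) *
            bE S p (fun ω => Real.exp (x * ((ω ∩ B).card : ℝ))) :=
            mul_le_mul_of_nonneg_right h2 hEnn
        _ ≤ _ := mul_le_mul_of_nonneg_left hih (Real.exp_pos _).le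
    · have h1 : bE S p (fun ω => Real.exp (x * (((insert a ω) ∩ B).card : ℝ))) =
          bE S p (fun ω => Real.exp (x * ((ω ∩ B).card : ℝ))) := by
        refine bE_congr fun ω _ => ?_
        rw [Finset.insert_inter_of_notMem haB]
      rw [h1, Finset.insert_inter_of_notMem haB]
      linarith

/-- upper tail for the number of chosen elements of `B` (MGF with parameter `x`) -/
theorem card_tail (S : Finset Ω) (p : Ω → ℝ) (hp : ∀ i ∈ S, 0 ≤ p i ∧ p i ≤ 1) (B : Finset Ω)
    (hB : B ⊆ S) (x s : ℝ) (hx : 0 ≤ x) :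
    bP S p (fun ω => s ≤ ((ω ∩ B).card : ℝ)) ≤
      Real.exp ((Real.exp x - 1) * ∑ i ∈ B, p i - x * s) := by
  refine (bP_le_exp hp (f := fun ω => x * ((ω ∩ B).card : ℝ)) (s := x * s)
    (fun ω _ h => mul_le_mul_of_nonneg_left h hx)).trans ?_
  have h := pcard_mgf S p hp B x hx
  rw [Finset.inter_eq_right.2 hB] at h
  calc Real.exp (-(x * s)) * bE S p (fun ω => Real.exp (x * ((ω ∩ B).card : ℝ)))
      ≤ Real.exp (-(x * s)) * Real.exp ((Real.exp x - 1) * ∑ i ∈ B, p i) :=
        mul_le_mul_of_nonneg_left h (Real.exp_pos _).le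
    _ = _ := by rw [← Real.exp_add]; congr 1; ring

end Pool.Agent.Des
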