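import Pool.Agent.Lib_helper96.Des.Prob

/-!
# Block PINDEP: product formulas, marginals, fibres
-/

set_option autoImplicit false

namespace Pool.Agent.Des

open Finset

variable {Ω : Type*} [DecidableEq Ω]

/-- Induction on `S` with `bE_insert`. -/
theorem bE_subset_disj (S : Finset Ω) (p : Ω → ℝ) (A B : Finset Ω) (hA : A ⊆ S) (hB : B ⊆ S)
    (hAB : Disjoint A B) :
    bE S p (fun ω => if A ⊆ ω ∧ Disjoint B ω then 1 else 0) =
      (∏ i ∈ A, p i) * ∏ i ∈ B, (1 - p i) := by
  induction S using Finset.induction_on generalizing A B with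
  | empty =>
    rw [Finset.subset_empty] at hA hB
    subst hA hB
    rw [bE_empty]; simp
  | insert a S ha ih =>
    rw [bE_insert ha]
    by_cases haA : a ∈ A
    · have haB : a ∉ B := Finset.disjoint_left.1 hAB haA
      have h1 : bE S p (fun ω => if A ⊆ insert a ω ∧ Disjoint B (insert a ω) then (1 : ℝ) else 0) =
          bE S p (fun ω => if A.erase a ⊆ ω ∧ Disjoint B ω then (1 : ℝ) else 0) := by
        refine bE_congr fun ω hω => ?_
        have e1 : A ⊆ insert a ω ↔ A.erase a ⊆ ω := Finset.subset_insert_iff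
        have e2 : Disjoint B (insert a ω) ↔ Disjoint B ω := by
          rw [Finset.disjoint_insert_right]; exact ⟨fun h => h.2, fun h => ⟨haB, h⟩⟩
        by_cases h1 : A.erase a ⊆ ω <;> by_cases h2 : Disjoint B ω <;> simp [e1, e2, h1, h2]
      have h2 : bE S p (fun ω => if A ⊆ ω ∧ Disjoint B ω then (1 : ℝ) else 0) = 0 := by
        refine (bE_congr (g := fun _ => (0 : ℝ)) fun ω hω => ?_).trans (bE_const S p 0)
        rw [if_neg]
        rintro ⟨h, _⟩
        exact ha (hω (h haA))
      rw [h1, h2, ih (A.erase a) B ?_ ?_ ?_]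
      · rw [← Finset.mul_prod_erase A _ haA]; ring
      · intro x hx
        rw [Finset.mem_erase] at hx
        exact (Finset.mem_insert.1 (hA hx.2)).resolve_left hx.1
      · intro x hx
        rcases Finset.mem_insert.1 (hB hx) with h | h
        · exact absurd (h ▸ hx) haB
        · exact h
      · exact hAB.mono_left (Finset.erase_subset _ _)
    · by_cases haB : a ∈ B
      · have h1 : bE S p (fun ω => if A ⊆ insert a ω ∧ Disjoint B (insert a ω) then (1 : ℝ) else 0)
            = 0 := by
          refine (bE_congr (g := fun _ => (0 : ℝ)) fun ω hω => ?_).trans (bE_const S p 0)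
          rw [if_neg]
          rintro ⟨_, h⟩
          exact Finset.disjoint_left.1 h haB (Finset.mem_insert_self _ _)
        have h2 : bE S p (fun ω => if A ⊆ ω ∧ Disjoint B ω then (1 : ℝ) else 0) =
            bE S p (fun ω => if A ⊆ ω ∧ Disjoint (B.erase a) ω then (1 : ℝ) else 0) := by
          refine bE_congr fun ω hω => ?_
          have e2 : Disjoint B ω ↔ Disjoint (B.erase a) ω := by
            constructor
            · intro h; exact h.mono_left (Finset.erase_subset _ _)
            · intro h
              rw [Finset.disjoint_left] at h ⊢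
              intro x hx hxω
              exact h (Finset.mem_erase.2 ⟨fun hxa => ha (hω (hxa ▸ hxω)), hx⟩) hxω
          by_cases h1 : A ⊆ ω <;> by_cases h2 : Disjoint (B.erase a) ω <;> simp [e2, h1, h2]
        rw [h1, h2, ih A (B.erase a) ?_ ?_ ?_]
        · rw [← Finset.mul_prod_erase B _ haB]; ring
        · intro x hx
          rcases Finset.mem_insert.1 (hA hx) with h | h
          · exact absurd (h ▸ hx) haA
          · exact h
        · intro x hx
          rw [Finset.mem_erase] at hx
          exact (Finset.mem_insert.1 (hB hx.2)).resolve_left hx.1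
        · exact hAB.mono_right (Finset.erase_subset _ _)
      · have h1 : bE S p (fun ω => if A ⊆ insert a ω ∧ Disjoint B (insert a ω) then (1 : ℝ) else 0)
            = bE S p (fun ω => if A ⊆ ω ∧ Disjoint B ω then (1 : ℝ) else 0) := by
          refine bE_congr fun ω hω => ?_
          have e1 : A ⊆ insert a ω ↔ A ⊆ ω := by
            rw [Finset.subset_insert_iff, Finset.erase_eq_of_notMem haA]
          have e2 : Disjoint B (insert a ω) ↔ Disjoint B ω := by
            rw [Finset.disjoint_insert_right]; exact ⟨fun h => h.2, fun h => ⟨haB, h⟩⟩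
          by_cases h1 : A ⊆ ω <;> by_cases h2 : Disjoint B ω <;> simp [e1, e2, h1, h2]
        rw [h1, ih A B ?_ ?_ hAB]
        · ring
        · intro x hx
          rcases Finset.mem_insert.1 (hA hx) with h | h
          · exact absurd (h ▸ hx) haA
          · exact h
        · intro x hx
          rcases Finset.mem_insert.1 (hB hx) with h | h
          · exact absurd (h ▸ hx) haB
          · exact h

theorem pindep_marg (S' : Finset Ω) (p : Ω → ℝ) (T : Finset Ω) (hd : Disjoint S' T)
    (f : Finset Ω → ℝ) (hf : ∀ ω ⊆ S' ∪ T, f ω = f (ω ∩ S')) : bE (S' ∪ T) p f = bE S' p f := by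
  induction T using Finset.induction_on with
  | empty => rw [Finset.union_empty]
  | insert a T ha ih =>
    have haS : a ∉ S' := fun h => Finset.disjoint_left.1 hd h (Finset.mem_insert_self _ _)
    have haU : a ∉ S' ∪ T := by
      rw [Finset.mem_union]; rintro (h | h)
      · exact haS h
      · exact ha h
    have hsub : S' ∪ T ⊆ S' ∪ insert a T :=
      Finset.union_subset_union_right (Finset.subset_insert _ _)
    have h2 := ih (hd.mono_right (Finset.subset_insert _ _))
      (fun ω hω => hf ω (hω.trans hsub))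
    rw [Finset.union_insert] at hf hsub ⊢
    rw [bE_insert haU]
    have h1 : bE (S' ∪ T) p (fun ω => f (insert a ω)) = bE (S' ∪ T) p f := by
      refine bE_congr fun ω hω => ?_
      rw [hf (insert a ω) (Finset.insert_subset_insert _ hω), Finset.insert_inter_of_notMem haS,
        ← hf ω (hω.trans hsub)]
    rw [h1, h2]; ring

/-- if `f` depends only on `ω ∩ S'` then its expectation can be computed on `S'` -/
theorem bE_marginal (S S' : Finset Ω) (hS : S' ⊆ S) (p : Ω → ℝ) (f : Finset Ω → ℝ)
    (hf : ∀ ω ⊆ S, f ω = f (ω ∩ S')) : bE S p f = bE S' p f := by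
  have h := pindep_marg S' p (S \ S') Finset.disjoint_sdiff f
    (by rw [Finset.union_sdiff_of_subset hS]; exact hf)
  rwa [Finset.union_sdiff_of_subset hS] at h

theorem pindep_prod (S₁ S₂ : Finset Ω) (hd : Disjoint S₁ S₂)
    (p : Ω → ℝ) (f g : Finset Ω → ℝ) (hf : ∀ ω ⊆ S₁ ∪ S₂, f ω = f (ω ∩ S₁))
    (hg : ∀ ω ⊆ S₁ ∪ S₂, g ω = g (ω ∩ S₂)) :
    bE (S₁ ∪ S₂) p (fun ω => f ω * g ω) = bE S₁ p f * bE S₂ p g := by
  induction S₁ using Finset.induction_on generalizing f with
  | empty =>
    rw [Finset.empty_union] at hf ⊢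
    rw [bE_empty, ← bE_mul_left]
    refine bE_congr fun ω hω => ?_
    rw [hf ω hω, Finset.inter_empty]
  | insert a S₁ ha ih =>
    have haS : a ∉ S₂ := fun h => Finset.disjoint_left.1 hd (Finset.mem_insert_self _ _) h
    have haU : a ∉ S₁ ∪ S₂ := by
      rw [Finset.mem_union]; rintro (h | h)
      · exact ha h
      · exact haS h
    have hd' : Disjoint S₁ S₂ := hd.mono_left (Finset.subset_insert _ _)
    rw [Finset.insert_union] at hf hg ⊢
    have hsub : S₁ ∪ S₂ ⊆ insert a (S₁ ∪ S₂) := Finset.subset_insert _ _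
    have hg' : ∀ ω ⊆ S₁ ∪ S₂, g ω = g (ω ∩ S₂) := fun ω hω => hg ω (hω.trans hsub)
    have hf1 : ∀ ω ⊆ S₁ ∪ S₂, f (insert a ω) = f (insert a (ω ∩ S₁)) := by
      intro ω hω
      rw [hf (insert a ω) (Finset.insert_subset_insert _ hω), ← Finset.insert_inter_distrib]
    have hf2 : ∀ ω ⊆ S₁ ∪ S₂, f ω = f (ω ∩ S₁) := by
      intro ω hω
      have haω : a ∉ ω := fun h => haU (hω h)
      rw [hf ω (hω.trans hsub)]
      congr 1
      ext x
      simp only [Finset.mem_inter, Finset.mem_insert]
      constructor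
      · rintro ⟨h1, h2 | h2⟩
        · exact absurd (h2 ▸ h1) haω
        · exact ⟨h1, h2⟩
      · rintro ⟨h1, h2⟩; exact ⟨h1, Or.inr h2⟩
    rw [bE_insert haU, bE_insert ha]
    have h1 : bE (S₁ ∪ S₂) p (fun ω => f (insert a ω) * g (insert a ω)) =
        bE (S₁ ∪ S₂) p (fun ω => f (insert a ω) * g ω) := by
      refine bE_congr fun ω hω => ?_
      rw [hg (insert a ω) (Finset.insert_subset_insert _ hω), Finset.insert_inter_of_notMem haS,
        ← hg ω (hω.trans hsub)]
    rw [h1, ih hd' (fun ω => f (insert a ω)) hf1 hg', ih hd' f hf2 hg']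
    ring

/-- independence -/
theorem bE_mul_indep (S S₁ S₂ : Finset Ω) (h₁ : S₁ ⊆ S) (h₂ : S₂ ⊆ S) (hd : Disjoint S₁ S₂)
    (p : Ω → ℝ) (f g : Finset Ω → ℝ) (hf : ∀ ω ⊆ S, f ω = f (ω ∩ S₁))
    (hg : ∀ ω ⊆ S, g ω = g (ω ∩ S₂)) :
    bE S p (fun ω => f ω * g ω) = bE S p f * bE S p g := by
  have hU : S₁ ∪ S₂ ⊆ S := Finset.union_subset h₁ h₂
  rw [bE_marginal S S₁ h₁ p f hf, bE_marginal S S₂ h₂ p g hg,
    bE_marginal S (S₁ ∪ S₂) hU p (fun ω => f ω * g ω) ?_,
    pindep_prod S₁ S₂ hd p f g (fun ω hω => hf ω (hω.trans hU)) (fun ω hω => hg ω (hω.trans hU))]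
  intro ω hω
  have h3 : ω ∩ (S₁ ∪ S₂) ⊆ S := Finset.inter_subset_left.trans hω
  have e1 : ω ∩ (S₁ ∪ S₂) ∩ S₁ = ω ∩ S₁ := by
    ext x; simp only [Finset.mem_inter, Finset.mem_union]; tauto
  have e2 : ω ∩ (S₁ ∪ S₂) ∩ S₂ = ω ∩ S₂ := by
    ext x; simp only [Finset.mem_inter, Finset.mem_union]; tauto
  rw [hf ω hω, hg ω hω, hf _ h3, hg _ h3, e1, e2]

/-- expectation along a fibre: `S` is a set of pairs `(a, b)`; the fibre of `ω` over `a` is a
Bernoulli random subset of the fibre of `S` over `a`. -/
theorem bE_fiber {α β : Type*} [DecidableEq α] [DecidableEq β] (S : Finset (α × β))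
    (p : α × β → ℝ) (a : α) (f : Finset β → ℝ) :
    bE S p (fun ω => f ((ω.filter (fun z => z.1 = a)).image Prod.snd)) =
      bE ((S.filter (fun z => z.1 = a)).image Prod.snd) (fun b => p (a, b)) f := by
  induction S using Finset.induction_on generalizing f with
  | empty => simp [bE_empty]
  | insert z S hz ih =>
    rw [bE_insert hz]
    by_cases hza : z.1 = a
    · have hzm : z.2 ∉ (S.filter (fun z => z.1 = a)).image Prod.snd := by
        rw [Finset.mem_image]
        rintro ⟨w, hw, hw2⟩
        rw [Finset.mem_filter] at hw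
        apply hz
        have : z = w := Prod.ext (hza.trans hw.2.symm) hw2.symm
        rw [this]; exact hw.1
      rw [Finset.filter_insert, if_pos hza, Finset.image_insert, bE_insert hzm]
      have hp : p (a, z.2) = p z := by rw [← hza]
      rw [hp, ← ih, ← ih]
      congr 2
      refine bE_congr fun ω _ => ?_
      rw [Finset.filter_insert, if_pos hza, Finset.image_insert]
    · rw [Finset.filter_insert, if_neg hza]
      have h1 : bE S p (fun ω => f (((insert z ω).filter (fun z => z.1 = a)).image Prod.snd)) =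
          bE S p (fun ω => f ((ω.filter (fun z => z.1 = a)).image Prod.snd)) := by
        refine bE_congr fun ω _ => ?_
        rw [Finset.filter_insert, if_neg hza]
      rw [h1, ih]; ring

end Pool.Agent.Des
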