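import Pool.Agent.Lib_helper96.Des.Dec

/-!
# Block PLACE: the placement lemma (deterministic, potential function)

Tasks `i ∈ I` are processed one by one.  Let `n = |V|`, `U A` = current value of
`∑_{placed i} ∑_l [A ⊆ ctx i l ∪ nw i (o i)]`, `p i A = 2 K ∑_l n^(-|A \ ctx i l|)` and
`Φ = ∑_{|A| < r} exp (U A - (e^b - 1) ∑_{placed} p i A)`.  Invariant `Φ ≤ #{A : |A| < r} ≤ (n+1)^r`.
Consequence of the invariant: `U A ≤ (e^b - 1) ∑_i p i A + r log (n+1) ≤ Cpl r b K θ n^(r-|A|)`,
because `∑_i p i A ≤ 2 K ∑_{A' ⊆ A} n^(-|A \ A'|) θ n^(r-|A'|) ≤ 2^(r+1) K θ n^(r-|A|)`.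
In particular (`|S| = r - 1`) the edges used so far together with `F` have codegree at most
`(u + M Cpl θ) n` (a placed edge containing `S` has `S ⊆ root ∪ nw ⊆ ctx ∪ nw`).  Hence at most half
of the options of the next task meet a used or forbidden edge: for a used `γ` with
`γ ∩ root = γ₀`, `|γ \ root| = k ≥ 1` the options containing it are at most `K n^(-k) |Opt|`, and
there are at most `n^(k-1) (u + M Cpl θ) n` such `γ` for each of the `2^h` sets `γ₀`.
Among the remaining (at least half) options, the average of `exp (increment of U A)` is at most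
`1 + (e^b - 1) p i A ≤ exp ((e^b - 1) p i A)`, so some option does not increase `Φ`.
(The `i`-th option must also avoid earlier edges, so the final edge sets are pairwise disjoint.)
-/

set_option autoImplicit false

namespace Pool.Agent.Des

open Finset

/-- the constant of the placement lemma -/
noncomputable def Cpl (r b : ℕ) (K : ℝ) : ℝ := Real.exp b * 2 ^ (r + 2) * K + 1


/-- the number of small sets -/
theorem place_card_small (V : Type) [Fintype V] [DecidableEq V] (r : ℕ) :
    ((Finset.univ : Finset (Finset V)).filter (fun A => A.card < r)).card ≤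
      (Fintype.card V + 1) ^ r := by
  have h1 : ((Finset.univ : Finset (Finset V)).filter (fun A => A.card < r)).card =
      ∑ j ∈ Finset.range r, (Fintype.card V).choose j := by
    rw [Finset.card_eq_sum_card_fiberwise (f := fun A : Finset V => A.card) (t := Finset.range r)
      (fun A hA => by
        rw [Finset.mem_coe, Finset.mem_filter] at hA
        exact Finset.mem_coe.2 (Finset.mem_range.2 hA.2))]
    refine Finset.sum_congr rfl fun j hj => ?_
    rw [← Finset.card_univ, ← Finset.card_powersetCard]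
    congr 1
    ext A
    rw [Finset.mem_filter, Finset.mem_filter, Finset.mem_powersetCard]
    have hj' := Finset.mem_range.1 hj
    constructor
    · rintro ⟨_, h⟩
      exact ⟨Finset.subset_univ _, h⟩
    · rintro ⟨_, h⟩
      exact ⟨⟨Finset.mem_univ _, by rw [h]; exact hj'⟩, h⟩
  rw [h1, add_pow]
  calc ∑ j ∈ Finset.range r, (Fintype.card V).choose j
      ≤ ∑ j ∈ Finset.range r, Fintype.card V ^ j * 1 ^ (r - j) * r.choose j := by
        refine Finset.sum_le_sum fun j hj => ?_
        have hj' := Finset.mem_range.1 hj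
        have h2 : 1 ≤ r.choose j := Nat.choose_pos hj'.le
        calc (Fintype.card V).choose j ≤ Fintype.card V ^ j := Nat.choose_le_pow _ _
          _ = Fintype.card V ^ j * 1 ^ (r - j) * 1 := by rw [one_pow, mul_one, mul_one]
          _ ≤ _ := Nat.mul_le_mul_left _ h2
    _ ≤ _ := Finset.sum_le_sum_of_subset (Finset.range_mono (Nat.le_succ r))

/-- degrees from codegrees: number of members containing a smaller set -/
theorem dg_le_of_codeg {V : Type} [Fintype V] [DecidableEq V] (r : ℕ) (hr : 1 ≤ r)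
    (F : Finset (Finset V)) (hF : Unif r F) (u : ℝ) (hu : 0 ≤ u)
    (hcod : ∀ S : Finset V, S.card = r - 1 → (dg F S : ℝ) ≤ u) (A : Finset V) (hA : A.card < r) :
    (dg F A : ℝ) ≤ (Fintype.card V : ℝ) ^ (r - 1 - A.card) * u := by
  obtain ⟨k, hk⟩ : ∃ k, r - 1 - A.card = k := ⟨_, rfl⟩
  induction k generalizing A with
  | zero =>
    rw [hk, pow_zero, one_mul]
    exact hcod A (by omega)
  | succ k ih =>
    have h1 : F.filter (fun e => A ⊆ e) ⊆
        (Finset.univ \ A).biUnion (fun x => F.filter (fun e => insert x A ⊆ e)) := by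
      intro e he
      rw [Finset.mem_filter] at he
      have h2 : ∃ x ∈ e, x ∉ A := by
        by_contra hcon
        push Not at hcon
        have h3 := Finset.card_le_card (show e ⊆ A from hcon)
        rw [hF e he.1] at h3
        omega
      obtain ⟨x, hx, hxA⟩ := h2
      rw [Finset.mem_biUnion]
      refine ⟨x, Finset.mem_sdiff.2 ⟨Finset.mem_univ _, hxA⟩, Finset.mem_filter.2 ⟨he.1, ?_⟩⟩
      exact Finset.insert_subset hx he.2
    have h4 : (dg F A : ℝ) ≤ ∑ x ∈ Finset.univ \ A, (dg F (insert x A) : ℝ) := by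
      have h5 := (Finset.card_le_card h1).trans Finset.card_biUnion_le
      unfold dg
      exact_mod_cast h5
    refine h4.trans ?_
    have h6 : ∀ x ∈ Finset.univ \ A, (dg F (insert x A) : ℝ) ≤ (Fintype.card V : ℝ) ^ k * u := by
      intro x hx
      have hxA := (Finset.mem_sdiff.1 hx).2
      have hc : (insert x A).card = A.card + 1 := Finset.card_insert_of_notMem hxA
      have h7 := ih (insert x A) (by omega) (by omega)
      rwa [show r - 1 - (insert x A).card = k by omega] at h7
    refine (Finset.sum_le_sum h6).trans ?_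
    rw [Finset.sum_const, nsmul_eq_mul, hk, pow_succ]
    have h8 : ((Finset.univ \ A : Finset V).card : ℝ) ≤ (Fintype.card V : ℝ) := by
      exact_mod_cast Finset.card_le_univ _
    calc ((Finset.univ \ A : Finset V).card : ℝ) * ((Fintype.card V : ℝ) ^ k * u)
        ≤ (Fintype.card V : ℝ) * ((Fintype.card V : ℝ) ^ k * u) :=
          mul_le_mul_of_nonneg_right h8 (by positivity)
      _ = _ := by ring

/-- the sum of the probabilities -/
theorem place_sum_p {V ι : Type} [Fintype V] [DecidableEq V] (r b : ℕ) (θ : ℝ)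
    (hn : 1 ≤ Fintype.card V) (J : Finset ι) (ctx : ι → Fin b → Finset V)
    (hdeg : ∀ A : Finset V, A.card < r →
      (∑ i ∈ J, ∑ l, if A ⊆ ctx i l then (1 : ℝ) else 0) ≤
        θ * (Fintype.card V : ℝ) ^ (r - A.card)) (A : Finset V) (hA : A.card < r) :
    (∑ i ∈ J, ∑ l, ((Fintype.card V : ℝ) ^ (A \ ctx i l).card)⁻¹) ≤
      2 ^ A.card * (θ * (Fintype.card V : ℝ) ^ (r - A.card)) := by
  have hnpos : (0 : ℝ) < Fintype.card V := by exact_mod_cast hn
  have h1 : ∀ i l, ((Fintype.card V : ℝ) ^ (A \ ctx i l).card)⁻¹ ≤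
      ∑ A' ∈ A.powerset, ((Fintype.card V : ℝ) ^ (A \ A').card)⁻¹ *
        (if A' ⊆ ctx i l then (1 : ℝ) else 0) := by
    intro i l
    have h2 : ((Fintype.card V : ℝ) ^ (A \ ctx i l).card)⁻¹ =
        ((Fintype.card V : ℝ) ^ (A \ (A ∩ ctx i l)).card)⁻¹ *
        (if A ∩ ctx i l ⊆ ctx i l then (1 : ℝ) else 0) := by
      rw [if_pos Finset.inter_subset_right, mul_one, Finset.sdiff_inter_self_left]
    rw [h2]
    refine Finset.single_le_sum (f := fun A' => ((Fintype.card V : ℝ) ^ (A \ A').card)⁻¹ *
        (if A' ⊆ ctx i l then (1 : ℝ) else 0)) (fun A' _ => ?_)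
        (Finset.mem_powerset.2 Finset.inter_subset_left)
    split_ifs
    · positivity
    · rw [mul_zero]
  calc (∑ i ∈ J, ∑ l, ((Fintype.card V : ℝ) ^ (A \ ctx i l).card)⁻¹)
      ≤ ∑ i ∈ J, ∑ l, ∑ A' ∈ A.powerset, ((Fintype.card V : ℝ) ^ (A \ A').card)⁻¹ *
        (if A' ⊆ ctx i l then (1 : ℝ) else 0) :=
        Finset.sum_le_sum fun i _ => Finset.sum_le_sum fun l _ => h1 i l
    _ = ∑ A' ∈ A.powerset, ((Fintype.card V : ℝ) ^ (A \ A').card)⁻¹ *
        ∑ i ∈ J, ∑ l, (if A' ⊆ ctx i l then (1 : ℝ) else 0) := by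
        have e1 : ∀ i ∈ J, (∑ l, ∑ A' ∈ A.powerset, ((Fintype.card V : ℝ) ^ (A \ A').card)⁻¹ *
            (if A' ⊆ ctx i l then (1 : ℝ) else 0)) =
            ∑ A' ∈ A.powerset, ((Fintype.card V : ℝ) ^ (A \ A').card)⁻¹ *
              ∑ l, (if A' ⊆ ctx i l then (1 : ℝ) else 0) := by
          intro i _
          rw [Finset.sum_comm]
          refine Finset.sum_congr rfl fun A' _ => ?_
          rw [Finset.mul_sum]
        rw [Finset.sum_congr rfl e1, Finset.sum_comm]
        refine Finset.sum_congr rfl fun A' _ => ?_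
        rw [Finset.mul_sum]
    _ ≤ ∑ A' ∈ A.powerset, θ * (Fintype.card V : ℝ) ^ (r - A.card) := by
        refine Finset.sum_le_sum fun A' hA' => ?_
        have hsub := Finset.mem_powerset.1 hA'
        have hc := Finset.card_le_card hsub
        calc ((Fintype.card V : ℝ) ^ (A \ A').card)⁻¹ *
            ∑ i ∈ J, ∑ l, (if A' ⊆ ctx i l then (1 : ℝ) else 0)
            ≤ ((Fintype.card V : ℝ) ^ (A \ A').card)⁻¹ *
              (θ * (Fintype.card V : ℝ) ^ (r - A'.card)) :=
              mul_le_mul_of_nonneg_left (hdeg A' (by omega)) (by positivity)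
          _ = θ * (Fintype.card V : ℝ) ^ (r - A.card) := by
              rw [Finset.card_sdiff_of_subset hsub,
                show r - A'.card = (r - A.card) + (A.card - A'.card) by omega, pow_add]
              field_simp
    _ = _ := by
        rw [Finset.sum_const, Finset.card_powerset, nsmul_eq_mul]
        push_cast
        ring

/-- the average of the exponential of the increment -/
theorem place_avg {V O : Type} [Fintype V] [DecidableEq V] [DecidableEq O] (r b : ℕ)
    (K : ℝ) (hK : 1 ≤ K) (hn : 1 ≤ Fintype.card V) (Opt G : Finset O) (hG : G ⊆ Opt)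
    (hG2 : (Opt.card : ℝ) ≤ 2 * (G.card : ℝ)) (nw : O → Finset V)
    (hsp : ∀ A : Finset V, A.Nonempty → A.card ≤ r →
      (((Opt.filter (fun o => A ⊆ nw o)).card : ℕ) : ℝ) * (Fintype.card V : ℝ) ^ A.card ≤
        K * (Opt.card : ℝ))
    (c : Fin b → Finset V) (A : Finset V) (hA : A.card < r) :
    (∑ x ∈ G, Real.exp (∑ l, if A ⊆ c l ∪ nw x then (1 : ℝ) else 0)) ≤
      (G.card : ℝ) * Real.exp ((Real.exp b - 1) *
        (2 * K * ∑ l, ((Fintype.card V : ℝ) ^ (A \ c l).card)⁻¹)) := by
  have hnpos : (0 : ℝ) < Fintype.card V := by exact_mod_cast hn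
  have heb : 0 ≤ Real.exp b - 1 := by
    have := Real.add_one_le_exp (b : ℝ)
    have hb : (0 : ℝ) ≤ b := Nat.cast_nonneg b
    linarith
  have h1 : ∀ x ∈ G, Real.exp (∑ l, if A ⊆ c l ∪ nw x then (1 : ℝ) else 0) ≤
      1 + (Real.exp b - 1) * ∑ l, if A ⊆ c l ∪ nw x then (1 : ℝ) else 0 := by
    intro x _
    by_cases hex : ∃ l, A ⊆ c l ∪ nw x
    · obtain ⟨l, hl⟩ := hex
      have h2 : (1 : ℝ) ≤ ∑ l, if A ⊆ c l ∪ nw x then (1 : ℝ) else 0 := by
        have h3 : (if A ⊆ c l ∪ nw x then (1 : ℝ) else 0) = 1 := if_pos hl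
        refine h3.symm.le.trans (Finset.single_le_sum
          (f := fun l => if A ⊆ c l ∪ nw x then (1 : ℝ) else 0)
          (fun l _ => ?_) (Finset.mem_univ l))
        split_ifs <;> norm_num
      have h4 : (∑ l, if A ⊆ c l ∪ nw x then (1 : ℝ) else 0) ≤ b := by
        calc (∑ l, if A ⊆ c l ∪ nw x then (1 : ℝ) else 0) ≤ ∑ _l : Fin b, (1 : ℝ) :=
              Finset.sum_le_sum fun l _ => by split_ifs <;> norm_num
          _ = b := by simp
      have h5 := Real.exp_le_exp.2 h4
      nlinarith
    · push Not at hex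
      have h2 : (∑ l, if A ⊆ c l ∪ nw x then (1 : ℝ) else 0) = 0 :=
        Finset.sum_eq_zero fun l _ => if_neg (hex l)
      rw [h2, Real.exp_zero, mul_zero, add_zero]
  have h6 : ∀ l, ((G.filter (fun x => A ⊆ c l ∪ nw x)).card : ℝ) ≤
      2 * K * ((Fintype.card V : ℝ) ^ (A \ c l).card)⁻¹ * (G.card : ℝ) := by
    intro l
    have h7 : ((G.filter (fun x => A ⊆ c l ∪ nw x)).card : ℝ) ≤
        ((Opt.filter (fun x => A \ c l ⊆ nw x)).card : ℝ) := by
      have : G.filter (fun x => A ⊆ c l ∪ nw x) ⊆ Opt.filter (fun x => A \ c l ⊆ nw x) := by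
        intro x hx
        rw [Finset.mem_filter] at hx
        exact Finset.mem_filter.2 ⟨hG hx.1, sdiff_le_iff.2 hx.2⟩
      exact_mod_cast Finset.card_le_card this
    by_cases hne : (A \ c l).Nonempty
    · have h8 := hsp (A \ c l) hne
        ((Finset.card_le_card Finset.sdiff_subset).trans hA.le)
      have h9 : ((Opt.filter (fun x => A \ c l ⊆ nw x)).card : ℝ) ≤
          K * (Opt.card : ℝ) * ((Fintype.card V : ℝ) ^ (A \ c l).card)⁻¹ := by
        rw [← div_eq_mul_inv, le_div_iff₀ (by positivity)]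
        exact h8
      refine h7.trans (h9.trans ?_)
      calc K * (Opt.card : ℝ) * ((Fintype.card V : ℝ) ^ (A \ c l).card)⁻¹
          ≤ K * (2 * (G.card : ℝ)) * ((Fintype.card V : ℝ) ^ (A \ c l).card)⁻¹ := by
            apply mul_le_mul_of_nonneg_right _ (by positivity)
            exact mul_le_mul_of_nonneg_left hG2 (by linarith)
        _ = _ := by ring
    · rw [Finset.not_nonempty_iff_eq_empty] at hne
      have h8 : ((Opt.filter (fun x => A \ c l ⊆ nw x)).card : ℝ) ≤ (Opt.card : ℝ) := by
        exact_mod_cast Finset.card_filter_le _ _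
      rw [hne, Finset.card_empty, pow_zero, inv_one, mul_one]
      refine h7.trans (h8.trans (hG2.trans ?_))
      have : (0 : ℝ) ≤ (G.card : ℝ) := Nat.cast_nonneg _
      nlinarith
  calc (∑ x ∈ G, Real.exp (∑ l, if A ⊆ c l ∪ nw x then (1 : ℝ) else 0))
      ≤ ∑ x ∈ G, (1 + (Real.exp b - 1) * ∑ l, if A ⊆ c l ∪ nw x then (1 : ℝ) else 0) :=
        Finset.sum_le_sum h1
    _ = (G.card : ℝ) + (Real.exp b - 1) * ∑ l, ((G.filter (fun x => A ⊆ c l ∪ nw x)).card : ℝ) := by
        rw [Finset.sum_add_distrib, Finset.sum_const, nsmul_eq_mul, mul_one, ← Finset.mul_sum,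
          Finset.sum_comm]
        congr 2
        refine Finset.sum_congr rfl fun l _ => ?_
        rw [Finset.sum_boole]
    _ ≤ (G.card : ℝ) + (Real.exp b - 1) * ∑ l,
          (2 * K * ((Fintype.card V : ℝ) ^ (A \ c l).card)⁻¹ * (G.card : ℝ)) := by
        have := Finset.sum_le_sum (s := (Finset.univ : Finset (Fin b))) fun l _ => h6 l
        have := mul_le_mul_of_nonneg_left this heb
        linarith
    _ = (G.card : ℝ) * ((Real.exp b - 1) *
        (2 * K * ∑ l, ((Fintype.card V : ℝ) ^ (A \ c l).card)⁻¹) + 1) := by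
        rw [← Finset.sum_mul, ← Finset.mul_sum]
        ring
    _ ≤ _ := mul_le_mul_of_nonneg_left (Real.add_one_le_exp _) (Nat.cast_nonneg _)

/-- few options meet a used edge -/
theorem place_bad {V O : Type} [Fintype V] [DecidableEq V] [DecidableEq O] (r h : ℕ)
    (hr : 1 ≤ r) (K w : ℝ) (hK : 1 ≤ K) (hw : 0 ≤ w) (hn : 1 ≤ Fintype.card V)
    (root : Finset V) (hroot : root.card ≤ h)
    (Opt : Finset O) (nw : O → Finset V) (ed : O → Finset (Finset V))
    (hed : ∀ o ∈ Opt, ∀ γ ∈ ed o, γ.card = r ∧ γ ⊆ root ∪ nw o ∧ ¬ γ ⊆ root)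
    (hsp : ∀ A : Finset V, A.Nonempty → A.card ≤ r →
      (((Opt.filter (fun o => A ⊆ nw o)).card : ℕ) : ℝ) * (Fintype.card V : ℝ) ^ A.card ≤
        K * (Opt.card : ℝ))
    (F : Finset (Finset V)) (hFr : Unif r F)
    (hF : ∀ S : Finset V, S.card = r - 1 → (dg F S : ℝ) ≤ w * (Fintype.card V : ℝ)) :
    ((Opt.filter (fun o => ¬ Disjoint (ed o) F)).card : ℝ) ≤ 2 ^ h * K * w * (Opt.card : ℝ) := by
  have hnpos : (0 : ℝ) < Fintype.card V := by exact_mod_cast hn
  -- the relevant edges
  set F' := F.filter (fun γ => ¬ γ ⊆ root) with hF'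
  have hsub : Opt.filter (fun o => ¬ Disjoint (ed o) F) ⊆
      (root.powerset.filter (fun g => g.card < r)).biUnion (fun g =>
        (F.filter (fun γ => γ ∩ root = g)).biUnion (fun γ =>
          Opt.filter (fun o => γ \ root ⊆ nw o))) := by
    intro o ho
    rw [Finset.mem_filter] at ho
    obtain ⟨ho1, ho2⟩ := ho
    rw [Finset.not_disjoint_iff] at ho2
    obtain ⟨γ, hγ1, hγ2⟩ := ho2
    obtain ⟨hγr, hγs, hγn⟩ := hed o ho1 γ hγ1
    rw [Finset.mem_biUnion]
    refine ⟨γ ∩ root, Finset.mem_filter.2 ⟨Finset.mem_powerset.2 Finset.inter_subset_right, ?_⟩, ?_⟩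
    · rw [← hγr]
      apply Finset.card_lt_card
      rw [Finset.ssubset_iff_subset_ne]
      refine ⟨Finset.inter_subset_left, fun heq => hγn ?_⟩
      rw [← heq]
      exact Finset.inter_subset_right
    · rw [Finset.mem_biUnion]
      exact ⟨γ, Finset.mem_filter.2 ⟨hγ2, rfl⟩, Finset.mem_filter.2
        ⟨ho1, sdiff_le_iff.2 hγs⟩⟩
  have h1 : ((Opt.filter (fun o => ¬ Disjoint (ed o) F)).card : ℝ) ≤
      ∑ g ∈ root.powerset.filter (fun g => g.card < r),
        ∑ γ ∈ F.filter (fun γ => γ ∩ root = g),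
          ((Opt.filter (fun o => γ \ root ⊆ nw o)).card : ℝ) := by
    have h2 := (Finset.card_le_card hsub).trans Finset.card_biUnion_le
    have h3 := h2.trans (Finset.sum_le_sum fun g _ => Finset.card_biUnion_le)
    exact_mod_cast h3
  have h4 : ∀ g ∈ root.powerset.filter (fun g => g.card < r),
      ∑ γ ∈ F.filter (fun γ => γ ∩ root = g),
          ((Opt.filter (fun o => γ \ root ⊆ nw o)).card : ℝ) ≤ K * w * (Opt.card : ℝ) := by
    intro g hg
    rw [Finset.mem_filter, Finset.mem_powerset] at hg
    have h5 : ∀ γ ∈ F.filter (fun γ => γ ∩ root = g),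
        ((Opt.filter (fun o => γ \ root ⊆ nw o)).card : ℝ) ≤
          K * (Opt.card : ℝ) * ((Fintype.card V : ℝ) ^ (r - g.card))⁻¹ := by
      intro γ hγ
      rw [Finset.mem_filter] at hγ
      have hc : (γ \ root).card = r - g.card := by
        rw [← hγ.2, ← Finset.sdiff_inter_self_left, Finset.card_sdiff_of_subset
          Finset.inter_subset_left, hFr γ hγ.1]
      have hne : (γ \ root).Nonempty := by
        rw [← Finset.card_pos, hc]
        omega
      have h6 := hsp (γ \ root) hne (by rw [hc]; omega)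
      rw [hc] at h6
      rw [← div_eq_mul_inv, le_div_iff₀ (by positivity)]
      exact h6
    refine (Finset.sum_le_sum h5).trans ?_
    rw [Finset.sum_const, nsmul_eq_mul]
    have h7 : ((F.filter (fun γ => γ ∩ root = g)).card : ℝ) ≤
        (Fintype.card V : ℝ) ^ (r - 1 - g.card) * (w * (Fintype.card V : ℝ)) := by
      refine le_trans ?_ (dg_le_of_codeg r hr F hFr (w * (Fintype.card V : ℝ)) (by positivity)
        hF g hg.2)
      unfold dg
      have : F.filter (fun γ => γ ∩ root = g) ⊆ F.filter (fun e => g ⊆ e) := by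
        intro γ hγ
        rw [Finset.mem_filter] at hγ
        refine Finset.mem_filter.2 ⟨hγ.1, ?_⟩
        rw [← hγ.2]
        exact Finset.inter_subset_left
      exact_mod_cast Finset.card_le_card this
    have h8 : (Fintype.card V : ℝ) ^ (r - 1 - g.card) * (w * (Fintype.card V : ℝ)) =
        w * (Fintype.card V : ℝ) ^ (r - g.card) := by
      rw [show r - g.card = (r - 1 - g.card) + 1 by omega, pow_succ]
      ring
    rw [h8] at h7
    calc ((F.filter (fun γ => γ ∩ root = g)).card : ℝ) *
          (K * (Opt.card : ℝ) * ((Fintype.card V : ℝ) ^ (r - g.card))⁻¹)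
        ≤ (w * (Fintype.card V : ℝ) ^ (r - g.card)) *
          (K * (Opt.card : ℝ) * ((Fintype.card V : ℝ) ^ (r - g.card))⁻¹) :=
          mul_le_mul_of_nonneg_right h7 (by
            have : (0 : ℝ) ≤ K := by linarith
            positivity)
      _ = K * w * (Opt.card : ℝ) := by
          field_simp
  refine h1.trans ((Finset.sum_le_sum h4).trans ?_)
  rw [Finset.sum_const, nsmul_eq_mul]
  have h9 : ((root.powerset.filter (fun g => g.card < r)).card : ℝ) ≤ 2 ^ h := by
    have h10 : (root.powerset.filter (fun g => g.card < r)).card ≤ 2 ^ h := by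
      refine (Finset.card_filter_le _ _).trans ?_
      rw [Finset.card_powerset]
      exact Nat.pow_le_pow_right (by norm_num) hroot
    exact_mod_cast h10
  have h11 : 0 ≤ K * w * (Opt.card : ℝ) := by
    have : (0 : ℝ) ≤ K := by linarith
    positivity
  calc ((root.powerset.filter (fun g => g.card < r)).card : ℝ) * (K * w * (Opt.card : ℝ))
      ≤ 2 ^ h * (K * w * (Opt.card : ℝ)) := mul_le_mul_of_nonneg_right h9 h11
    _ = _ := by ring

/-- the load -/
noncomputable def place_U {V ι : Type} [DecidableEq V] {b : ℕ} (J : Finset ι)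
    (ctx : ι → Fin b → Finset V) (N : ι → Finset V) (A : Finset V) : ℝ :=
  ∑ i ∈ J, ∑ l, if A ⊆ ctx i l ∪ N i then (1 : ℝ) else 0

/-- the expected load up to the factor `e^b - 1` -/
noncomputable def place_P {V ι : Type} [Fintype V] [DecidableEq V] {b : ℕ} (K : ℝ) (J : Finset ι)
    (ctx : ι → Fin b → Finset V) (A : Finset V) : ℝ :=
  2 * K * ∑ i ∈ J, ∑ l, ((Fintype.card V : ℝ) ^ (A \ ctx i l).card)⁻¹

/-- the potential -/
noncomputable def place_Phi {V ι : Type} [Fintype V] [DecidableEq V] {b : ℕ} (r : ℕ) (K : ℝ)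
    (J : Finset ι) (ctx : ι → Fin b → Finset V) (N : ι → Finset V) : ℝ :=
  ∑ A ∈ (Finset.univ : Finset (Finset V)).filter (fun A => A.card < r),
    Real.exp (place_U J ctx N A - (Real.exp b - 1) * place_P K J ctx A)

theorem place_load {V ι : Type} [Fintype V] [DecidableEq V] (r b : ℕ) (K θ : ℝ) (hK : 1 ≤ K)
    (hθ : 0 < θ) (hn : 1 ≤ Fintype.card V) (J : Finset ι) (ctx : ι → Fin b → Finset V)
    (N : ι → Finset V)
    (hdeg : ∀ A : Finset V, A.card < r →
      (∑ i ∈ J, ∑ l, if A ⊆ ctx i l then (1 : ℝ) else 0) ≤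
        θ * (Fintype.card V : ℝ) ^ (r - A.card))
    (hlog : r * Real.log ((Fintype.card V : ℝ) + 1) ≤ θ * (Fintype.card V : ℝ))
    (hPhi : place_Phi r K J ctx N ≤
      (((Finset.univ : Finset (Finset V)).filter (fun A => A.card < r)).card : ℝ))
    (A : Finset V) (hA : A.card < r) :
    place_U J ctx N A ≤ Cpl r b K * θ * (Fintype.card V : ℝ) ^ (r - A.card) := by
  have hn1 : (1 : ℝ) ≤ Fintype.card V := by exact_mod_cast hn
  have hnpos : (0 : ℝ) < Fintype.card V := by linarith
  have heb : 0 ≤ Real.exp b - 1 := by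
    have := Real.add_one_le_exp (b : ℝ)
    have hb : (0 : ℝ) ≤ b := Nat.cast_nonneg b
    linarith
  have h1 : Real.exp (place_U J ctx N A - (Real.exp b - 1) * place_P K J ctx A) ≤
      ((Fintype.card V : ℝ) + 1) ^ r := by
    have h2 : Real.exp (place_U J ctx N A - (Real.exp b - 1) * place_P K J ctx A) ≤
        place_Phi r K J ctx N := by
      unfold place_Phi
      exact Finset.single_le_sum
        (f := fun A => Real.exp (place_U J ctx N A - (Real.exp b - 1) * place_P K J ctx A))
        (fun _ _ => (Real.exp_pos _).le) (Finset.mem_filter.2 ⟨Finset.mem_univ A, hA⟩)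
    have h3 : (((Finset.univ : Finset (Finset V)).filter (fun A => A.card < r)).card : ℝ) ≤
        ((Fintype.card V : ℝ) + 1) ^ r := by
      exact_mod_cast place_card_small V r
    exact h2.trans (hPhi.trans h3)
  have h4 : place_U J ctx N A - (Real.exp b - 1) * place_P K J ctx A ≤
      r * Real.log ((Fintype.card V : ℝ) + 1) := by
    have h5 := Real.log_le_log (Real.exp_pos _) h1
    rwa [Real.log_exp, Real.log_pow] at h5
  have h6 : place_P K J ctx A ≤ 2 ^ r * K * (θ * (Fintype.card V : ℝ) ^ (r - A.card)) := by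
    unfold place_P
    have h7 := place_sum_p r b θ hn J ctx hdeg A hA
    have h8 : (2 : ℝ) ^ A.card * 2 ≤ 2 ^ r := by
      rw [← pow_succ]
      exact pow_le_pow_right₀ (by norm_num) hA
    calc 2 * K * ∑ i ∈ J, ∑ l, ((Fintype.card V : ℝ) ^ (A \ ctx i l).card)⁻¹
        ≤ 2 * K * (2 ^ A.card * (θ * (Fintype.card V : ℝ) ^ (r - A.card))) :=
          mul_le_mul_of_nonneg_left h7 (by linarith)
      _ = (2 ^ A.card * 2) * (K * (θ * (Fintype.card V : ℝ) ^ (r - A.card))) := by ring
      _ ≤ 2 ^ r * (K * (θ * (Fintype.card V : ℝ) ^ (r - A.card))) :=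
          mul_le_mul_of_nonneg_right h8 (by
            have : (0 : ℝ) ≤ K := by linarith
            positivity)
      _ = _ := by ring
  have h9 : θ * (Fintype.card V : ℝ) ≤ θ * (Fintype.card V : ℝ) ^ (r - A.card) := by
    apply mul_le_mul_of_nonneg_left _ hθ.le
    calc (Fintype.card V : ℝ) = (Fintype.card V : ℝ) ^ 1 := (pow_one _).symm
      _ ≤ _ := pow_le_pow_right₀ hn1 (by omega)
  set X := θ * (Fintype.card V : ℝ) ^ (r - A.card) with hX
  have hX0 : 0 ≤ X := by rw [hX]; positivity
  have h10 : (Real.exp b - 1) * place_P K J ctx A ≤ Real.exp b * (2 ^ r * K * X) := by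
    have h11 : (0 : ℝ) ≤ 2 ^ r * K * X := by
      have : (0 : ℝ) ≤ K := by linarith
      positivity
    calc (Real.exp b - 1) * place_P K J ctx A ≤ (Real.exp b - 1) * (2 ^ r * K * X) :=
          mul_le_mul_of_nonneg_left h6 heb
      _ ≤ Real.exp b * (2 ^ r * K * X) := mul_le_mul_of_nonneg_right (by linarith) h11
  have h12 : Cpl r b K * θ * (Fintype.card V : ℝ) ^ (r - A.card) =
      Real.exp b * (2 ^ r * K * X) * 4 + X := by
    rw [hX]
    unfold Cpl
    rw [pow_add]
    ring
  rw [h12]
  have h13 : 0 ≤ Real.exp b * (2 ^ r * K * X) := by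
    have : (0 : ℝ) ≤ K := by linarith
    have := Real.exp_pos (b : ℝ)
    positivity
  linarith

theorem place {V O ι : Type} [Fintype V] [DecidableEq V] [DecidableEq O] [DecidableEq ι]
    [Nonempty O]
    (r h M b : ℕ) (hr : 1 ≤ r) (K θ u : ℝ) (hK : 1 ≤ K) (hθ : 0 < θ) (hu : 0 ≤ u)
    (I : Finset ι) (root : ι → Finset V) (hroot : ∀ i ∈ I, (root i).card ≤ h)
    (Opt : ι → Finset O) (hne : ∀ i ∈ I, (Opt i).Nonempty)
    (nw : ι → O → Finset V) (ed : ι → O → Finset (Finset V))
    (hed : ∀ i ∈ I, ∀ o ∈ Opt i, ∀ γ ∈ ed i o, γ.card = r ∧ γ ⊆ root i ∪ nw i o ∧ ¬ γ ⊆ root i)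
    (hM : ∀ i ∈ I, ∀ o ∈ Opt i, (ed i o).card ≤ M)
    (hsp : ∀ i ∈ I, ∀ A : Finset V, A.Nonempty → A.card ≤ r →
      ((((Opt i).filter (fun o => A ⊆ nw i o)).card : ℕ) : ℝ) * (Fintype.card V : ℝ) ^ A.card ≤
        K * ((Opt i).card : ℝ))
    (ctx : ι → Fin b → Finset V) (hctx : ∀ i ∈ I, ∃ l, root i ⊆ ctx i l)
    (hdeg : ∀ A : Finset V, A.card < r →
      (∑ i ∈ I, ∑ l, if A ⊆ ctx i l then (1 : ℝ) else 0) ≤
        θ * (Fintype.card V : ℝ) ^ (r - A.card))
    (F : Finset (Finset V)) (hFr : Unif r F)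
    (hF : ∀ S : Finset V, S.card = r - 1 → (dg F S : ℝ) ≤ u * (Fintype.card V : ℝ))
    (hsmall : 2 ^ h * K * (u + M * Cpl r b K * θ) ≤ 1 / 2)
    (hlog : r * Real.log ((Fintype.card V : ℝ) + 1) ≤ θ * (Fintype.card V : ℝ)) :
    ∃ o : ι → O, (∀ i ∈ I, o i ∈ Opt i) ∧ (∀ i ∈ I, Disjoint (ed i (o i)) F) ∧
      (∀ i ∈ I, ∀ j ∈ I, i ≠ j → Disjoint (ed i (o i)) (ed j (o j))) ∧
      ∀ A : Finset V, A.card < r →
        (∑ i ∈ I, ∑ l, if A ⊆ ctx i l ∪ nw i (o i) then (1 : ℝ) else 0) ≤
          Cpl r b K * θ * (Fintype.card V : ℝ) ^ (r - A.card) := by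
  classical
  have hK0 : (0 : ℝ) ≤ K := by linarith
  have hCpl : 0 ≤ Cpl r b K := by
    unfold Cpl
    have := Real.exp_pos (b : ℝ)
    positivity
  rcases Nat.eq_zero_or_pos (Fintype.card V) with hn0 | hn
  · -- empty vertex set
    have hI : I = ∅ := by
      rw [Finset.eq_empty_iff_forall_notMem]
      intro i hi
      obtain ⟨l, _⟩ := hctx i hi
      have h1 := hdeg ∅ (by rw [Finset.card_empty]; omega)
      rw [hn0, Finset.card_empty, Nat.sub_zero, Nat.cast_zero, zero_pow (by omega), mul_zero] at h1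
      have h2 : (1 : ℝ) ≤ ∑ i ∈ I, ∑ l, if (∅ : Finset V) ⊆ ctx i l then (1 : ℝ) else 0 := by
        have h3 : (1 : ℝ) ≤ ∑ l, if (∅ : Finset V) ⊆ ctx i l then (1 : ℝ) else 0 := by
          have h4 : (if (∅ : Finset V) ⊆ ctx i l then (1 : ℝ) else 0) = 1 :=
            if_pos (Finset.empty_subset _)
          refine h4.symm.le.trans (Finset.single_le_sum
            (f := fun l => if (∅ : Finset V) ⊆ ctx i l then (1 : ℝ) else 0)
            (fun l _ => ?_) (Finset.mem_univ l))
          split_ifs <;> norm_num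
        refine h3.trans (Finset.single_le_sum
          (f := fun i => ∑ l, if (∅ : Finset V) ⊆ ctx i l then (1 : ℝ) else 0)
          (fun i _ => Finset.sum_nonneg fun l _ => ?_) hi)
        split_ifs <;> norm_num
      linarith
    subst hI
    refine ⟨fun _ => Classical.arbitrary O, by simp, by simp, by simp, fun A hA => ?_⟩
    rw [Finset.sum_empty]
    positivity
  have hn1 : (1 : ℝ) ≤ Fintype.card V := by exact_mod_cast hn
  have hnpos : (0 : ℝ) < Fintype.card V := by linarith
  have hdegJ : ∀ J ⊆ I, ∀ A : Finset V, A.card < r →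
      (∑ i ∈ J, ∑ l, if A ⊆ ctx i l then (1 : ℝ) else 0) ≤
        θ * (Fintype.card V : ℝ) ^ (r - A.card) := by
    intro J hJ A hA
    refine le_trans (Finset.sum_le_sum_of_subset_of_nonneg hJ fun i _ _ =>
      Finset.sum_nonneg fun l _ => ?_) (hdeg A hA)
    split_ifs <;> norm_num
  -- the induction
  have key : ∀ J : Finset ι, J ⊆ I → ∃ o : ι → O, (∀ i ∈ J, o i ∈ Opt i) ∧
      (∀ i ∈ J, Disjoint (ed i (o i)) F) ∧
      (∀ i ∈ J, ∀ j ∈ J, i ≠ j → Disjoint (ed i (o i)) (ed j (o j))) ∧
      place_Phi r K J ctx (fun i => nw i (o i)) ≤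
        (((Finset.univ : Finset (Finset V)).filter (fun A => A.card < r)).card : ℝ) := by
    intro J
    induction J using Finset.induction_on with
    | empty =>
      intro _
      refine ⟨fun _ => Classical.arbitrary O, by simp, by simp, by simp, ?_⟩
      unfold place_Phi place_U place_P
      simp
    | insert a J ha ih =>
      intro hJI
      obtain ⟨haI, hJ⟩ := Finset.insert_subset_iff.1 hJI
      obtain ⟨o, ho1, ho2, ho3, ho4⟩ := ih hJ
      have hload := place_load r b K θ hK hθ hn J ctx (fun i => nw i (o i)) (hdegJ J hJ) hlog ho4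
      -- the used and forbidden edges
      set F' : Finset (Finset V) := F ∪ J.biUnion (fun i => ed i (o i)) with hF'
      have hF'r : Unif r F' := by
        intro e he
        rw [hF', Finset.mem_union, Finset.mem_biUnion] at he
        rcases he with he | ⟨i, hi, he⟩
        · exact hFr e he
        · exact (hed i (hJ hi) (o i) (ho1 i hi) e he).1
      have hF'deg : ∀ S : Finset V, S.card = r - 1 →
          (dg F' S : ℝ) ≤ (u + M * Cpl r b K * θ) * (Fintype.card V : ℝ) := by
        intro S hS
        have h1 : (dg F' S : ℝ) ≤ (dg F S : ℝ) + ∑ i ∈ J, (dg (ed i (o i)) S : ℝ) := by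
          have h2 : F'.filter (fun e => S ⊆ e) ⊆ F.filter (fun e => S ⊆ e) ∪
              J.biUnion (fun i => (ed i (o i)).filter (fun e => S ⊆ e)) := by
            intro e he
            rw [Finset.mem_filter, hF', Finset.mem_union, Finset.mem_biUnion] at he
            rw [Finset.mem_union, Finset.mem_biUnion]
            rcases he with ⟨he | ⟨i, hi, he⟩, hSe⟩
            · exact Or.inl (Finset.mem_filter.2 ⟨he, hSe⟩)
            · exact Or.inr ⟨i, hi, Finset.mem_filter.2 ⟨he, hSe⟩⟩
          have h3 := (Finset.card_le_card h2).trans ((Finset.card_union_le _ _).trans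
            (Nat.add_le_add_left Finset.card_biUnion_le _))
          unfold dg
          exact_mod_cast h3
        have h4 : ∀ i ∈ J, (dg (ed i (o i)) S : ℝ) ≤
            M * ∑ l, (if S ⊆ ctx i l ∪ nw i (o i) then (1 : ℝ) else 0) := by
          intro i hi
          by_cases hz : dg (ed i (o i)) S = 0
          · rw [hz, Nat.cast_zero]
            refine mul_nonneg (Nat.cast_nonneg _) (Finset.sum_nonneg fun l _ => ?_)
            split_ifs <;> norm_num
          · have hpos : 0 < dg (ed i (o i)) S := Nat.pos_of_ne_zero hz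
            unfold dg at hpos
            rw [Finset.card_pos] at hpos
            obtain ⟨γ, hγ⟩ := hpos
            rw [Finset.mem_filter] at hγ
            obtain ⟨_, h5, _⟩ := hed i (hJ hi) (o i) (ho1 i hi) γ hγ.1
            obtain ⟨l, hl⟩ := hctx i (hJ hi)
            have h6 : S ⊆ ctx i l ∪ nw i (o i) :=
              hγ.2.trans (h5.trans (Finset.union_subset_union_left hl))
            have h7 : (1 : ℝ) ≤ ∑ l, (if S ⊆ ctx i l ∪ nw i (o i) then (1 : ℝ) else 0) := by
              have h8 : (if S ⊆ ctx i l ∪ nw i (o i) then (1 : ℝ) else 0) = 1 := if_pos h6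
              refine h8.symm.le.trans (Finset.single_le_sum
                (f := fun l => if S ⊆ ctx i l ∪ nw i (o i) then (1 : ℝ) else 0)
                (fun l _ => ?_) (Finset.mem_univ l))
              split_ifs <;> norm_num
            have h9 : (dg (ed i (o i)) S : ℝ) ≤ M := by
              have : dg (ed i (o i)) S ≤ M :=
                (Finset.card_filter_le _ _).trans (hM i (hJ hi) (o i) (ho1 i hi))
              exact_mod_cast this
            calc (dg (ed i (o i)) S : ℝ) ≤ M * 1 := by rw [mul_one]; exact h9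
              _ ≤ _ := mul_le_mul_of_nonneg_left h7 (Nat.cast_nonneg _)
        have h10 : ∑ i ∈ J, (dg (ed i (o i)) S : ℝ) ≤
            M * (Cpl r b K * θ * (Fintype.card V : ℝ)) := by
          refine (Finset.sum_le_sum h4).trans ?_
          rw [← Finset.mul_sum]
          apply mul_le_mul_of_nonneg_left _ (Nat.cast_nonneg _)
          have h11 := hload S (by omega)
          rw [show r - S.card = 1 by omega, pow_one] at h11
          exact h11
        calc (dg F' S : ℝ) ≤ (dg F S : ℝ) + ∑ i ∈ J, (dg (ed i (o i)) S : ℝ) := h1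
          _ ≤ u * (Fintype.card V : ℝ) + M * (Cpl r b K * θ * (Fintype.card V : ℝ)) :=
              add_le_add (hF S hS) h10
          _ = _ := by ring
      -- the good options
      set G : Finset O := (Opt a).filter (fun x => Disjoint (ed a x) F') with hG
      have hGsub : G ⊆ Opt a := Finset.filter_subset _ _
      have hOptpos : (0 : ℝ) < ((Opt a).card : ℝ) := by
        exact_mod_cast Finset.card_pos.2 (hne a haI)
      have hGcard : ((Opt a).card : ℝ) ≤ 2 * (G.card : ℝ) := by
        have h1 := place_bad r h hr K (u + M * Cpl r b K * θ) hK (by positivity) hn (root a)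
          (hroot a haI) (Opt a) (nw a) (ed a) (hed a haI) (hsp a haI) F' hF'r hF'deg
        have h2 : (G.card : ℝ) + (((Opt a).filter (fun x => ¬ Disjoint (ed a x) F')).card : ℝ) =
            ((Opt a).card : ℝ) := by
          have h3 := Finset.card_filter_add_card_filter_not (s := Opt a)
            (fun x => Disjoint (ed a x) F')
          exact_mod_cast h3
        have h4 : 2 ^ h * K * (u + M * Cpl r b K * θ) * ((Opt a).card : ℝ) ≤
            1 / 2 * ((Opt a).card : ℝ) := mul_le_mul_of_nonneg_right hsmall hOptpos.le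
        linarith
      have hGpos : (0 : ℝ) < (G.card : ℝ) := by linarith
      have hGne : G.Nonempty := by
        rw [← Finset.card_pos]
        exact_mod_cast hGpos
      -- averaging
      set T := (Finset.univ : Finset (Finset V)).filter (fun A => A.card < r) with hT
      set q : Finset V → ℝ := fun A => (Real.exp b - 1) *
        (2 * K * ∑ l, ((Fintype.card V : ℝ) ^ (A \ ctx a l).card)⁻¹) with hq
      set wt : Finset V → ℝ := fun A => Real.exp (place_U J ctx (fun i => nw i (o i)) A -
        (Real.exp b - 1) * place_P K J ctx A) with hwt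
      have havg : ∑ x ∈ G, ∑ A ∈ T, wt A * Real.exp (-(q A)) *
          Real.exp (∑ l, if A ⊆ ctx a l ∪ nw a x then (1 : ℝ) else 0) ≤
          ∑ _x ∈ G, ∑ A ∈ T, wt A := by
        rw [Finset.sum_comm]
        calc ∑ A ∈ T, ∑ x ∈ G, wt A * Real.exp (-(q A)) *
              Real.exp (∑ l, if A ⊆ ctx a l ∪ nw a x then (1 : ℝ) else 0)
            = ∑ A ∈ T, wt A * Real.exp (-(q A)) *
              ∑ x ∈ G, Real.exp (∑ l, if A ⊆ ctx a l ∪ nw a x then (1 : ℝ) else 0) := by
              refine Finset.sum_congr rfl fun A _ => ?_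
              rw [Finset.mul_sum]
          _ ≤ ∑ A ∈ T, wt A * Real.exp (-(q A)) * ((G.card : ℝ) * Real.exp (q A)) := by
              refine Finset.sum_le_sum fun A hA => ?_
              refine mul_le_mul_of_nonneg_left ?_ (by positivity)
              exact place_avg r b K hK hn (Opt a) G hGsub hGcard (nw a) (hsp a haI) (ctx a) A
                (Finset.mem_filter.1 hA).2
          _ = ∑ A ∈ T, (G.card : ℝ) * wt A := by
              refine Finset.sum_congr rfl fun A _ => ?_
              have h1 : Real.exp (-(q A)) * Real.exp (q A) = 1 := by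
                rw [← Real.exp_add, neg_add_cancel, Real.exp_zero]
              calc wt A * Real.exp (-(q A)) * ((G.card : ℝ) * Real.exp (q A))
                  = (G.card : ℝ) * wt A * (Real.exp (-(q A)) * Real.exp (q A)) := by ring
                _ = _ := by rw [h1, mul_one]
          _ = _ := by
              rw [← Finset.mul_sum, Finset.sum_const, nsmul_eq_mul]
      obtain ⟨x, hxG, hx⟩ := Finset.exists_le_of_sum_le hGne havg
      have hxOpt : x ∈ Opt a := hGsub hxG
      have hxdis : Disjoint (ed a x) F' := (Finset.mem_filter.1 hxG).2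
      have hne' : ∀ i ∈ J, i ≠ a := fun i hi h => ha (h ▸ hi)
      have hupd : ∀ i ∈ J, Function.update o a x i = o i := fun i hi =>
        Function.update_of_ne (hne' i hi) _ _
      refine ⟨Function.update o a x, ?_, ?_, ?_, ?_⟩
      · intro i hi
        rcases Finset.mem_insert.1 hi with rfl | hi
        · rw [Function.update_self]
          exact hxOpt
        · rw [hupd i hi]
          exact ho1 i hi
      · intro i hi
        rcases Finset.mem_insert.1 hi with rfl | hi
        · rw [Function.update_self]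
          exact Finset.disjoint_of_subset_right Finset.subset_union_left hxdis
        · rw [hupd i hi]
          exact ho2 i hi
      · have h1 : ∀ j ∈ J, Disjoint (ed a x) (ed j (o j)) := by
          intro j hj
          refine Finset.disjoint_of_subset_right ?_ hxdis
          exact (Finset.subset_biUnion_of_mem (fun i => ed i (o i)) hj).trans
            Finset.subset_union_right
        intro i hi j hj hij
        rcases Finset.mem_insert.1 hi with hia | hiJ
        · rcases Finset.mem_insert.1 hj with hja | hjJ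
          · exact absurd (hia.trans hja.symm) hij
          · rw [hia, Function.update_self, hupd j hjJ]
            exact h1 j hjJ
        · rcases Finset.mem_insert.1 hj with hja | hjJ
          · rw [hja, Function.update_self, hupd i hiJ]
            exact (h1 i hiJ).symm
          · rw [hupd i hiJ, hupd j hjJ]
            exact ho3 i hiJ j hjJ hij
      · refine le_trans (le_of_eq ?_) (hx.trans ho4)
        unfold place_Phi
        refine Finset.sum_congr rfl fun A _ => ?_
        rw [hwt, hq]
        simp only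
        rw [← Real.exp_add, ← Real.exp_add]
        congr 1
        unfold place_U place_P
        rw [Finset.sum_insert ha, Finset.sum_insert ha]
        beta_reduce
        rw [Function.update_self]
        have h1 : (∑ i ∈ J, ∑ l, if A ⊆ ctx i l ∪ nw i (Function.update o a x i) then (1 : ℝ)
            else 0) = ∑ i ∈ J, ∑ l, if A ⊆ ctx i l ∪ nw i (o i) then (1 : ℝ) else 0 := by
          refine Finset.sum_congr rfl fun i hi => ?_
          rw [hupd i hi]
        rw [h1]
        ring
  obtain ⟨o, ho1, ho2, ho3, ho4⟩ := key I (Finset.Subset.refl I)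
  refine ⟨o, ho1, ho2, ho3, fun A hA => ?_⟩
  exact place_load r b K θ hK hθ hn I ctx (fun i => nw i (o i)) hdeg hlog ho4 A hA

end Pool.Agent.Des
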