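import Pool.Agent.Lib_helper96.Des.Pindep

/-!
# Block PPAIRS: disjoint pairs
-/

set_option autoImplicit false

namespace Pool.Agent.Des

open Finset

variable {Ω : Type*} [DecidableEq Ω]

/-- upper tail for the maximal number of pairwise disjoint pairs from `P` contained in `ω`:
`exp |ℱ| ≤ ∑ over disjoint families contained in ω of (e-1)^size`, and the expectation of the
right side is at most `∏ (1 + (e-1) p p') ≤ exp (2 ∑ p p')`. -/
theorem pairs_tail (S : Finset Ω) (p : Ω → ℝ) (hp : ∀ i ∈ S, 0 ≤ p i ∧ p i ≤ 1)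
    (P : Finset (Ω × Ω)) (hP : ∀ z ∈ P, z.1 ∈ S ∧ z.2 ∈ S ∧ z.1 ≠ z.2) (s : ℝ) :
    bP S p (fun ω => ∃ ℱ ⊆ P, (∀ z ∈ ℱ, z.1 ∈ ω ∧ z.2 ∈ ω) ∧
      (∀ z ∈ ℱ, ∀ z' ∈ ℱ, z ≠ z' → Disjoint ({z.1, z.2} : Finset Ω) {z'.1, z'.2}) ∧
      s ≤ (ℱ.card : ℝ)) ≤
      Real.exp (2 * ∑ z ∈ P, p z.1 * p z.2 - s) := by
  classical
  obtain ⟨q, hq⟩ : ∃ q : ℝ, q = Real.exp 1 - 1 := ⟨_, rfl⟩
  have hq0 : 0 ≤ q := by
    have := Real.add_one_le_exp (1 : ℝ)
    rw [hq]; linarith
  have hq2 : q ≤ 2 := by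
    have := Real.exp_one_lt_d9
    rw [hq]; linarith
  obtain ⟨PD, hPD⟩ : ∃ PD : Finset (Finset (Ω × Ω)), PD = P.powerset.filter (fun G =>
      ∀ z ∈ G, ∀ z' ∈ G, z ≠ z' → Disjoint ({z.1, z.2} : Finset Ω) {z'.1, z'.2}) := ⟨_, rfl⟩
  obtain ⟨U, hU⟩ : ∃ U : Finset (Ω × Ω) → Finset Ω, ∀ G, U G =
      G.biUnion (fun z => {z.1, z.2}) := ⟨_, fun _ => rfl⟩
  have hUω : ∀ (G : Finset (Ω × Ω)) (ω : Finset Ω),
      U G ⊆ ω ↔ ∀ z ∈ G, z.1 ∈ ω ∧ z.2 ∈ ω := by
    intro G ω
    rw [hU, Finset.biUnion_subset]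
    constructor
    · intro h z hz
      have := h z hz
      exact ⟨this (by simp), this (by simp)⟩
    · intro h z hz x hx
      rw [Finset.mem_insert, Finset.mem_singleton] at hx
      rcases hx with rfl | rfl
      · exact (h z hz).1
      · exact (h z hz).2
  -- Markov
  have h1 := bP_le_bE (p := p) hp (A := fun ω => ∃ ℱ ⊆ P, (∀ z ∈ ℱ, z.1 ∈ ω ∧ z.2 ∈ ω) ∧
      (∀ z ∈ ℱ, ∀ z' ∈ ℱ, z ≠ z' → Disjoint ({z.1, z.2} : Finset Ω) {z'.1, z'.2}) ∧
      s ≤ (ℱ.card : ℝ))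
    (f := fun ω => Real.exp (-s) * ∑ G ∈ PD, q ^ G.card *
      (if U G ⊆ ω ∧ Disjoint ∅ ω then 1 else 0)) ?_ ?_
  · refine h1.trans ?_
    rw [bE_mul_left, bE_sum]
    have h2 : ∀ G ∈ PD, bE S p (fun ω => q ^ G.card *
        (if U G ⊆ ω ∧ Disjoint ∅ ω then 1 else 0)) = ∏ z ∈ G, (q * (p z.1 * p z.2)) := by
      intro G hG
      rw [hPD, Finset.mem_filter, Finset.mem_powerset] at hG
      rw [bE_mul_left, bE_subset_disj S p (U G) ∅ ?_ (Finset.empty_subset _)
        (Finset.disjoint_empty_right _), Finset.prod_empty, mul_one, hU, Finset.prod_biUnion]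
      · rw [Finset.prod_mul_distrib, Finset.prod_const]
        congr 1
        refine Finset.prod_congr rfl fun z hz => ?_
        rw [Finset.prod_pair (hP z (hG.1 hz)).2.2]
      · intro z hz z' hz' hne
        exact hG.2 z hz z' hz' hne
      · rw [hUω]
        intro z hz
        exact ⟨(hP z (hG.1 hz)).1, (hP z (hG.1 hz)).2.1⟩
    rw [Finset.sum_congr rfl h2]
    have h3 : ∑ G ∈ PD, ∏ z ∈ G, (q * (p z.1 * p z.2)) ≤
        ∑ G ∈ P.powerset, ∏ z ∈ G, (q * (p z.1 * p z.2)) := by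
      refine Finset.sum_le_sum_of_subset_of_nonneg (by rw [hPD]; exact Finset.filter_subset _ _) ?_
      intro G hG _
      rw [Finset.mem_powerset] at hG
      refine Finset.prod_nonneg fun z hz => ?_
      have := hP z (hG hz)
      exact mul_nonneg hq0 (mul_nonneg (hp _ this.1).1 (hp _ this.2.1).1)
    have h4 : ∑ G ∈ P.powerset, ∏ z ∈ G, (q * (p z.1 * p z.2)) =
        ∏ z ∈ P, (1 + q * (p z.1 * p z.2)) := by
      rw [Finset.prod_one_add]
    have h5 : ∏ z ∈ P, (1 + q * (p z.1 * p z.2)) ≤ Real.exp (2 * ∑ z ∈ P, p z.1 * p z.2) := by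
      rw [Finset.mul_sum, Real.exp_sum]
      refine Finset.prod_le_prod (fun z hz => ?_) fun z hz => ?_
      · have := hP z hz
        have := mul_nonneg hq0 (mul_nonneg (hp _ this.1).1 (hp _ this.2.1).1)
        linarith
      · have h6 := hP z hz
        have h7 := mul_nonneg (hp _ h6.1).1 (hp _ h6.2.1).1
        have h8 := Real.add_one_le_exp (2 * (p z.1 * p z.2))
        have h9 := mul_le_mul_of_nonneg_right hq2 h7
        linarith
    calc Real.exp (-s) * ∑ G ∈ PD, ∏ z ∈ G, (q * (p z.1 * p z.2))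
        ≤ Real.exp (-s) * Real.exp (2 * ∑ z ∈ P, p z.1 * p z.2) :=
          mul_le_mul_of_nonneg_left (h3.trans (h4.le.trans h5)) (Real.exp_pos _).le
      _ = _ := by rw [← Real.exp_add]; congr 1; ring
  · intro ω _
    refine mul_nonneg (Real.exp_pos _).le (Finset.sum_nonneg fun G _ => ?_)
    refine mul_nonneg (pow_nonneg hq0 _) ?_
    split_ifs <;> norm_num
  · rintro ω _ ⟨F, hF, hFω, hFd, hFs⟩
    have h2 : (∑ G ∈ F.powerset, q ^ G.card) ≤ ∑ G ∈ PD, q ^ G.card *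
        (if U G ⊆ ω ∧ Disjoint ∅ ω then 1 else 0) := by
      have h3 : F.powerset ⊆ PD := by
        intro G hG
        rw [Finset.mem_powerset] at hG
        rw [hPD, Finset.mem_filter, Finset.mem_powerset]
        exact ⟨hG.trans hF, fun z hz z' hz' hne => hFd z (hG hz) z' (hG hz') hne⟩
      refine le_trans (le_of_eq ?_) (Finset.sum_le_sum_of_subset_of_nonneg h3 ?_)
      · refine Finset.sum_congr rfl fun G hG => ?_
        rw [Finset.mem_powerset] at hG
        rw [if_pos, mul_one]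
        refine ⟨?_, Finset.disjoint_empty_left _⟩
        rw [hUω]
        exact fun z hz => hFω z (hG hz)
      · intro G _ _
        refine mul_nonneg (pow_nonneg hq0 _) ?_
        split_ifs <;> norm_num
    have h4 : (∑ G ∈ F.powerset, q ^ G.card) = Real.exp 1 ^ F.card := by
      have := Finset.prod_one_add (f := fun _ : Ω × Ω => q) (s := F)
      rw [Finset.prod_const] at this
      simp only [Finset.prod_const] at this
      rw [← this, hq]; congr 1; ring
    rw [h4, ← Real.exp_nat_mul, mul_one] at h2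
    calc (1 : ℝ) ≤ Real.exp (-s) * Real.exp F.card := by
          rw [← Real.exp_add]; exact Real.one_le_exp (by linarith)
      _ ≤ _ := mul_le_mul_of_nonneg_left h2 (Real.exp_pos _).le

end Pool.Agent.Des
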