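import Pool.Agent.Lib_helper96.Des.Defs

/-!
# Basic facts on the product Bernoulli measure on subsets of a finite set
-/

set_option autoImplicit false

namespace Pool.Agent.Des

open Finset

variable {Ω : Type*} [DecidableEq Ω]

theorem bw_nonneg {S : Finset Ω} {p : Ω → ℝ} (hp : ∀ i ∈ S, 0 ≤ p i ∧ p i ≤ 1) {ω : Finset Ω}
    (hω : ω ⊆ S) : 0 ≤ bw S p ω := by
  unfold bw
  refine mul_nonneg (Finset.prod_nonneg fun i hi => (hp i (hω hi)).1)
    (Finset.prod_nonneg fun i hi => ?_)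
  have := (hp i (Finset.mem_sdiff.mp hi).1).2
  linarith

theorem bE_congr {S : Finset Ω} {p : Ω → ℝ} {f g : Finset Ω → ℝ} (h : ∀ ω ⊆ S, f ω = g ω) :
    bE S p f = bE S p g := by
  unfold bE
  exact Finset.sum_congr rfl fun ω hω => by rw [h ω (Finset.mem_powerset.mp hω)]

theorem bE_congr_p {S : Finset Ω} {p p' : Ω → ℝ} (f : Finset Ω → ℝ) (h : ∀ i ∈ S, p i = p' i) :
    bE S p f = bE S p' f := by
  unfold bE
  refine Finset.sum_congr rfl fun ω hω => ?_
  rw [Finset.mem_powerset] at hω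
  have h1 : ∏ i ∈ ω, p i = ∏ i ∈ ω, p' i := Finset.prod_congr rfl fun i hi => h i (hω hi)
  have h2 : ∏ i ∈ S \ ω, (1 - p i) = ∏ i ∈ S \ ω, (1 - p' i) :=
    Finset.prod_congr rfl fun i hi => by rw [h i (Finset.mem_sdiff.mp hi).1]
  unfold bw
  rw [h1, h2]

theorem bE_empty (p : Ω → ℝ) (f : Finset Ω → ℝ) : bE ∅ p f = f ∅ := by
  simp [bE, bw]

theorem bE_insert {S : Finset Ω} {a : Ω} (ha : a ∉ S) (p : Ω → ℝ) (f : Finset Ω → ℝ) :
    bE (insert a S) p f = p a * bE S p (fun ω => f (insert a ω)) + (1 - p a) * bE S p f := by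
  unfold bE
  rw [Finset.sum_powerset_insert ha, add_comm, Finset.mul_sum, Finset.mul_sum]
  congr 1
  · refine Finset.sum_congr rfl fun ω hω => ?_
    rw [Finset.mem_powerset] at hω
    have haω : a ∉ ω := fun h => ha (hω h)
    unfold bw
    rw [Finset.prod_insert haω, Finset.insert_sdiff_insert, Finset.sdiff_insert_of_notMem]
    · ring
    · exact ha
  · refine Finset.sum_congr rfl fun ω hω => ?_
    rw [Finset.mem_powerset] at hω
    have haω : a ∉ ω := fun h => ha (hω h)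
    unfold bw
    rw [Finset.insert_sdiff_of_notMem _ haω, Finset.prod_insert]
    · ring
    · intro h; exact ha (Finset.mem_sdiff.mp h).1

theorem bE_const (S : Finset Ω) (p : Ω → ℝ) (c : ℝ) : bE S p (fun _ => c) = c := by
  induction S using Finset.induction_on with
  | empty => exact bE_empty _ _
  | insert a S ha ih => rw [bE_insert ha, ih]; ring

theorem bE_add (S : Finset Ω) (p : Ω → ℝ) (f g : Finset Ω → ℝ) :
    bE S p (fun ω => f ω + g ω) = bE S p f + bE S p g := by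
  unfold bE; rw [← Finset.sum_add_distrib]
  exact Finset.sum_congr rfl fun ω _ => by ring

theorem bE_mul_left (S : Finset Ω) (p : Ω → ℝ) (c : ℝ) (f : Finset Ω → ℝ) :
    bE S p (fun ω => c * f ω) = c * bE S p f := by
  unfold bE; rw [Finset.mul_sum]
  exact Finset.sum_congr rfl fun ω _ => by ring

theorem bE_mul_right (S : Finset Ω) (p : Ω → ℝ) (c : ℝ) (f : Finset Ω → ℝ) :
    bE S p (fun ω => f ω * c) = bE S p f * c := by
  unfold bE; rw [Finset.sum_mul]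
  exact Finset.sum_congr rfl fun ω _ => by ring

theorem bE_neg (S : Finset Ω) (p : Ω → ℝ) (f : Finset Ω → ℝ) :
    bE S p (fun ω => - f ω) = - bE S p f := by
  have := bE_mul_left S p (-1) f
  simpa using this

theorem bE_sub (S : Finset Ω) (p : Ω → ℝ) (f g : Finset Ω → ℝ) :
    bE S p (fun ω => f ω - g ω) = bE S p f - bE S p g := by
  unfold bE; rw [← Finset.sum_sub_distrib]
  exact Finset.sum_congr rfl fun ω _ => by ring

theorem bE_sum {ι : Type*} (S : Finset Ω) (p : Ω → ℝ) (I : Finset ι) (f : ι → Finset Ω → ℝ) :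
    bE S p (fun ω => ∑ i ∈ I, f i ω) = ∑ i ∈ I, bE S p (f i) := by
  unfold bE; rw [Finset.sum_comm]
  exact Finset.sum_congr rfl fun ω _ => by rw [Finset.mul_sum]

theorem bE_mono {S : Finset Ω} {p : Ω → ℝ} (hp : ∀ i ∈ S, 0 ≤ p i ∧ p i ≤ 1)
    {f g : Finset Ω → ℝ} (h : ∀ ω ⊆ S, f ω ≤ g ω) : bE S p f ≤ bE S p g := by
  unfold bE
  refine Finset.sum_le_sum fun ω hω => ?_
  rw [Finset.mem_powerset] at hω
  exact mul_le_mul_of_nonneg_left (h ω hω) (bw_nonneg hp hω)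

theorem bE_nonneg {S : Finset Ω} {p : Ω → ℝ} (hp : ∀ i ∈ S, 0 ≤ p i ∧ p i ≤ 1)
    {f : Finset Ω → ℝ} (h : ∀ ω ⊆ S, 0 ≤ f ω) : 0 ≤ bE S p f := by
  have := bE_mono (p := p) hp (f := fun _ => 0) (g := f) h
  rwa [bE_const] at this

/-- some outcome is at least as good as the average -/
theorem exists_le_bE {S : Finset Ω} {p : Ω → ℝ} (hp : ∀ i ∈ S, 0 ≤ p i ∧ p i ≤ 1)
    (f : Finset Ω → ℝ) : ∃ ω ⊆ S, f ω ≤ bE S p f := by
  induction S using Finset.induction_on generalizing f with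
  | empty => exact ⟨∅, Finset.Subset.refl _, by rw [bE_empty]⟩
  | insert a S ha ih =>
    have hp' : ∀ i ∈ S, 0 ≤ p i ∧ p i ≤ 1 := fun i hi => hp i (Finset.mem_insert_of_mem hi)
    obtain ⟨ω₁, h₁, h₁'⟩ := ih hp' (fun ω => f (insert a ω))
    obtain ⟨ω₂, h₂, h₂'⟩ := ih hp' f
    have hpa := hp a (Finset.mem_insert_self _ _)
    rw [bE_insert ha]
    by_cases h : f (insert a ω₁) ≤ f ω₂
    · refine ⟨insert a ω₁, Finset.insert_subset_insert _ h₁, ?_⟩
      nlinarith [hpa.1, hpa.2, mul_le_mul_of_nonneg_left h₁' hpa.1,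
        mul_le_mul_of_nonneg_left (h.trans h₂') (sub_nonneg.mpr hpa.2)]
    · push Not at h
      refine ⟨ω₂, h₂.trans (Finset.subset_insert _ _), ?_⟩
      nlinarith [hpa.1, hpa.2, mul_le_mul_of_nonneg_left (h.le.trans h₁') hpa.1,
        mul_le_mul_of_nonneg_left h₂' (sub_nonneg.mpr hpa.2)]

open Classical in
theorem bP_def (S : Finset Ω) (p : Ω → ℝ) (A : Finset Ω → Prop) :
    bP S p A = bE S p (fun ω => if A ω then 1 else 0) := rfl

theorem bP_nonneg {S : Finset Ω} {p : Ω → ℝ} (hp : ∀ i ∈ S, 0 ≤ p i ∧ p i ≤ 1)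
    (A : Finset Ω → Prop) : 0 ≤ bP S p A := by
  classical
  rw [bP_def]
  exact bE_nonneg hp fun ω _ => by split_ifs <;> norm_num

theorem bP_le_one {S : Finset Ω} {p : Ω → ℝ} (hp : ∀ i ∈ S, 0 ≤ p i ∧ p i ≤ 1)
    (A : Finset Ω → Prop) : bP S p A ≤ 1 := by
  classical
  have h := bE_mono (p := p) hp (f := fun ω => if A ω then (1 : ℝ) else 0) (g := fun _ => 1)
    (fun ω _ => by split_ifs <;> norm_num)
  rwa [bE_const] at h

theorem bP_mono {S : Finset Ω} {p : Ω → ℝ} (hp : ∀ i ∈ S, 0 ≤ p i ∧ p i ≤ 1)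
    {A B : Finset Ω → Prop} (h : ∀ ω ⊆ S, A ω → B ω) : bP S p A ≤ bP S p B := by
  classical
  rw [bP_def, bP_def]
  refine bE_mono hp fun ω hω => ?_
  have := h ω hω
  split_ifs <;> first | exact absurd (this ‹_›) ‹_› | norm_num

theorem bP_congr {S : Finset Ω} {p : Ω → ℝ}
    {A B : Finset Ω → Prop} (h : ∀ ω ⊆ S, (A ω ↔ B ω)) : bP S p A = bP S p B := by
  classical
  rw [bP_def, bP_def]
  exact bE_congr fun ω hω => by simp only [h ω hω]

/-- Markov inequality -/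
theorem bP_le_bE {S : Finset Ω} {p : Ω → ℝ} (hp : ∀ i ∈ S, 0 ≤ p i ∧ p i ≤ 1)
    {A : Finset Ω → Prop} {f : Finset Ω → ℝ} (hf : ∀ ω ⊆ S, 0 ≤ f ω)
    (h : ∀ ω ⊆ S, A ω → 1 ≤ f ω) : bP S p A ≤ bE S p f := by
  classical
  rw [bP_def]
  refine bE_mono hp fun ω hω => ?_
  split_ifs with hA
  · exact h ω hω hA
  · exact hf ω hω

/-- exponential Markov inequality -/
theorem bP_le_exp {S : Finset Ω} {p : Ω → ℝ} (hp : ∀ i ∈ S, 0 ≤ p i ∧ p i ≤ 1)
    {A : Finset Ω → Prop} {f : Finset Ω → ℝ} {s : ℝ} (h : ∀ ω ⊆ S, A ω → s ≤ f ω) :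
    bP S p A ≤ Real.exp (-s) * bE S p (fun ω => Real.exp (f ω)) := by
  rw [← bE_mul_left]
  refine bP_le_bE hp (fun ω _ => by positivity) fun ω hω hA => ?_
  rw [← Real.exp_add]
  exact Real.one_le_exp (by linarith [h ω hω hA])

/-- union bound -/
theorem bP_exists_le {ι : Type*} {S : Finset Ω} {p : Ω → ℝ} (hp : ∀ i ∈ S, 0 ≤ p i ∧ p i ≤ 1)
    (I : Finset ι) (A : ι → Finset Ω → Prop) :
    bP S p (fun ω => ∃ i ∈ I, A i ω) ≤ ∑ i ∈ I, bP S p (A i) := by
  classical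
  simp_rw [bP_def]
  rw [← bE_sum]
  refine bE_mono hp fun ω _ => ?_
  split_ifs with h
  · obtain ⟨i, hi, hA⟩ := h
    refine le_trans (by rw [if_pos hA]) (Finset.single_le_sum
      (f := fun i => if A i ω then (1 : ℝ) else 0) (fun j _ => ?_) hi)
    split_ifs <;> norm_num
  · exact Finset.sum_nonneg fun j _ => by split_ifs <;> norm_num

theorem bP_or_le {S : Finset Ω} {p : Ω → ℝ} (hp : ∀ i ∈ S, 0 ≤ p i ∧ p i ≤ 1)
    (A B : Finset Ω → Prop) : bP S p (fun ω => A ω ∨ B ω) ≤ bP S p A + bP S p B := by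
  classical
  simp_rw [bP_def]
  rw [← bE_add]
  refine bE_mono hp fun ω _ => ?_
  by_cases hA : A ω <;> by_cases hB : B ω <;> simp [hA, hB]

/-- an outcome avoiding an event of probability less than one -/
theorem exists_not_of_bP_lt {S : Finset Ω} {p : Ω → ℝ} (hp : ∀ i ∈ S, 0 ≤ p i ∧ p i ≤ 1)
    {A : Finset Ω → Prop} (h : bP S p A < 1) : ∃ ω ⊆ S, ¬ A ω := by
  classical
  rw [bP_def] at h
  obtain ⟨ω, hω, hle⟩ := exists_le_bE hp (fun ω => if A ω then (1 : ℝ) else 0)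
  refine ⟨ω, hω, fun hA => ?_⟩
  rw [if_pos hA] at hle
  linarith

/-- an outcome avoiding all bad events -/
theorem exists_good {ι : Type*} {S : Finset Ω} {p : Ω → ℝ} (hp : ∀ i ∈ S, 0 ≤ p i ∧ p i ≤ 1)
    (I : Finset ι) (A : ι → Finset Ω → Prop) (h : ∑ i ∈ I, bP S p (A i) < 1) :
    ∃ ω ⊆ S, ∀ i ∈ I, ¬ A i ω := by
  obtain ⟨ω, hω, hn⟩ := exists_not_of_bP_lt hp
    ((bP_exists_le hp I A).trans_lt h)
  exact ⟨ω, hω, fun i hi hA => hn ⟨i, hi, hA⟩⟩

end Pool.Agent.Des
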