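import Pool.Agent.Lib_helper96.Des.RandSpan
import Pool.Agent.Lib_helper96.Des.Pcard

/-!
# Definitions for the random families (block RANDFAMS)
-/

set_option autoImplicit false

namespace Pool.Agent.Des

open Finset

variable {V : Type} [Fintype V] [DecidableEq V]

/-- the active sets -/
def actv (r : ℕ) (X : Finset (Finset V)) : Finset (Finset V) :=
  (Finset.univ : Finset (Finset V)).filter (fun T => T.card < r ∨ T ∈ X)

/-- ground set of pairs `(T, Q)` -/
def rfS (q r : ℕ) (X : Finset (Finset V)) (U : Finset V → Finset V) :
    Finset (Finset V × Finset V) :=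
  (actv r X).biUnion fun T => ((U T).powersetCard (q - T.card)).image fun Q => (T, Q)

/-- probabilities (`D = lam^(-1/2)`) -/
noncomputable def rfp (q r n : ℕ) (lam D : ℝ) (z : Finset V × Finset V) : ℝ :=
  D / ((n : ℝ) * lam ^ sx r z.1.card / 2) ^ (q - r)

/-- the random families -/
def rfF (ω : Finset (Finset V × Finset V)) (T : Finset V) : Finset (Finset V) :=
  (ω.filter (fun z => z.1 = T)).image Prod.snd

end Pool.Agent.Des
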