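import Pool.Agent.Lib_helper96.Des.RFdef

/-!
# Block RFSPAN: each random family spans with overwhelming probability

`bE_fiber` (the probabilities `rfp .. (T, Q)` do not depend on `Q`) and `randspan` with
`ρ = r - |T|` and `q - |T|` (finitely many `|T| ≤ r`: take the largest constant `C`);
`(q-|T|) - (r-|T|) = q - r`, `N (U T).card^(r-|T|) ≤ N n^r`,
`π |U T|^(q-r) ≥ D = lam^(-1/2) = n^(κ/2)` by `IsRS.size`.  Also
`0 ≤ rfp ≤ 1` (`rfp_mem`).
-/

set_option autoImplicit false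

namespace Pool.Agent.Des

open Finset

theorem rfs_sx_le (r j : ℕ) (hr : 1 ≤ r) : sx r j ≤ r ^ r := by
  unfold sx
  split_ifs with h
  · exact Nat.pow_le_pow_right hr h.le
  · exact Nat.sub_le _ _

theorem rfs_lam (r j : ℕ) (hr : 1 ≤ r) (n κ : ℝ) (hn : 1 ≤ n) (hκ0 : 0 < κ)
    (hκ : κ * (r : ℝ) ^ r ≤ 1 / 4) :
    n ^ ((3 : ℝ) / 4) ≤ n * (n ^ (-κ)) ^ sx r j := by
  have hn0 : 0 < n := by linarith
  have h1 : n * (n ^ (-κ)) ^ sx r j = n ^ (1 - κ * sx r j) := by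
    rw [← Real.rpow_natCast, ← Real.rpow_mul hn0.le, sub_eq_add_neg, Real.rpow_add hn0,
      Real.rpow_one]
    congr 2; ring
  rw [h1]
  apply Real.rpow_le_rpow_of_exponent_le hn
  have h2 : (sx r j : ℝ) ≤ (r : ℝ) ^ r := by exact_mod_cast rfs_sx_le r j hr
  have h3 := mul_le_mul_of_nonneg_left h2 hκ0.le
  linarith

theorem rfs_D (n κ : ℝ) (hn : 1 ≤ n) : (n ^ (-κ)) ^ (-(1 : ℝ) / 2) = n ^ (κ / 2) := by
  rw [← Real.rpow_mul (by linarith)]
  congr 1; ring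

theorem rfp_mem (q r : ℕ) (hr : 1 ≤ r) (hq : r < q) :
    ∃ κ₁ : ℝ, 0 < κ₁ ∧ ∀ κ : ℝ, 0 < κ → κ ≤ κ₁ → ∃ n₀ : ℕ,
    ∀ (V : Type) [Fintype V] [DecidableEq V], n₀ ≤ Fintype.card V →
    ∀ lam : ℝ, lam = (Fintype.card V : ℝ) ^ (-κ) → ∀ z : Finset V × Finset V, z.1.card ≤ r →
    0 ≤ rfp q r (Fintype.card V) lam (lam ^ (-(1 : ℝ) / 2)) z ∧
      rfp q r (Fintype.card V) lam (lam ^ (-(1 : ℝ) / 2)) z ≤ 1 := by
  have hrr : (0 : ℝ) < (r : ℝ) ^ r := by positivity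
  refine ⟨1 / (4 * (r : ℝ) ^ r), by positivity, fun κ hκ0 hκ => ⟨4, ?_⟩⟩
  intro V _ _ hV lam hlam z _
  obtain ⟨n, hn⟩ : ∃ n : ℝ, n = (Fintype.card V : ℝ) := ⟨_, rfl⟩
  have hn4 : 4 ≤ n := by rw [hn]; exact_mod_cast hV
  have hn1 : 1 ≤ n := by linarith
  have hn0 : 0 < n := by linarith
  have hκr : κ * (r : ℝ) ^ r ≤ 1 / 4 := by
    calc κ * (r : ℝ) ^ r ≤ 1 / (4 * (r : ℝ) ^ r) * (r : ℝ) ^ r :=
          mul_le_mul_of_nonneg_right hκ hrr.le
      _ = 1 / 4 := by field_simp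
  have hrr1 : (1 : ℝ) ≤ (r : ℝ) ^ r := one_le_pow₀ (by exact_mod_cast hr)
  have hκ4 : κ ≤ 1 / 4 := by nlinarith
  rw [← hn] at hlam
  unfold rfp
  rw [← hn, hlam, rfs_D n κ hn1]
  have h1 := rfs_lam r z.1.card hr n κ hn1 hκ0 hκr
  obtain ⟨b, hb⟩ : ∃ b : ℝ, b = n * (n ^ (-κ)) ^ sx r z.1.card / 2 := ⟨_, rfl⟩
  rw [← hb]
  have hDpos : 0 < n ^ (κ / 2) := Real.rpow_pos_of_pos hn0 _
  -- `n^(κ/2) ≤ b`
  have h2 : n ^ (κ / 2) ≤ n ^ ((1 : ℝ) / 4) :=
    Real.rpow_le_rpow_of_exponent_le hn1 (by linarith)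
  have h3 : (2 : ℝ) * n ^ ((1 : ℝ) / 4) ≤ n ^ ((3 : ℝ) / 4) := by
    have e1 : n ^ ((3 : ℝ) / 4) = n ^ ((1 : ℝ) / 2) * n ^ ((1 : ℝ) / 4) := by
      rw [← Real.rpow_add hn0]; norm_num
    rw [e1]
    refine mul_le_mul_of_nonneg_right ?_ (Real.rpow_nonneg hn0.le _)
    rw [← Real.sqrt_eq_rpow]
    rw [show (2 : ℝ) = Real.sqrt 4 by
      rw [show (4 : ℝ) = 2 ^ 2 by norm_num, Real.sqrt_sq (by norm_num)]]
    exact Real.sqrt_le_sqrt hn4
  have h4 : n ^ (κ / 2) ≤ b := by rw [hb]; linarith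
  have h5 : 1 ≤ b := by
    refine le_trans ?_ h4
    exact Real.one_le_rpow hn1 (by linarith)
  have h6 : b ≤ b ^ (q - r) := by
    have : b ^ 1 ≤ b ^ (q - r) := pow_le_pow_right₀ h5 (by omega)
    rwa [pow_one] at this
  have hbpos : 0 < b ^ (q - r) := by positivity
  refine ⟨div_nonneg hDpos.le hbpos.le, ?_⟩
  rw [div_le_one hbpos]
  exact h4.trans h6

theorem rfs_fiber {V : Type} [Fintype V] [DecidableEq V] (q r : ℕ) (X : Finset (Finset V))
    (U : Finset V → Finset V) (T : Finset V) (hT : T ∈ actv r X) :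
    ((rfS q r X U).filter (fun z => z.1 = T)).image Prod.snd =
      (U T).powersetCard (q - T.card) := by
  ext Q
  rw [Finset.mem_image]
  constructor
  · rintro ⟨z, hz, rfl⟩
    rw [Finset.mem_filter, rfS, Finset.mem_biUnion] at hz
    obtain ⟨⟨T', _, hz1⟩, hz2⟩ := hz
    rw [Finset.mem_image] at hz1
    obtain ⟨Q, hQ, rfl⟩ := hz1
    simp only at hz2
    subst hz2
    exact hQ
  · intro hQ
    refine ⟨(T, Q), ?_, rfl⟩
    rw [Finset.mem_filter, rfS, Finset.mem_biUnion]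
    exact ⟨⟨T, hT, Finset.mem_image_of_mem _ hQ⟩, rfl⟩

theorem rf_span (q r N : ℕ) (hr : 1 ≤ r) (hq : r < q) (hN0 : 0 < N)
    (hN : ∀ i ≤ r, (q - i).choose (r - i) ∣ N) :
    ∃ κ₁ : ℝ, 0 < κ₁ ∧ ∀ κ : ℝ, 0 < κ → κ ≤ κ₁ → ∃ n₀ : ℕ,
    ∀ (V : Type) [Fintype V] [DecidableEq V], n₀ ≤ Fintype.card V →
    ∀ (X : Finset (Finset V)) (U : Finset V → Finset V), Unif r X → ∀ lam : ℝ,
    lam = (Fintype.card V : ℝ) ^ (-κ) → IsRS q r lam X U → ∀ T ∈ actv r X,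
    bP (rfS q r X U) (rfp q r (Fintype.card V) lam (lam ^ (-(1 : ℝ) / 2)))
        (fun ω => ¬ Spans (ZMod N) (r - T.card) (q - T.card) (U T) (rfF ω T)) ≤
      Real.exp (- (Fintype.card V : ℝ) ^ (κ / 4)) := by
  classical
  have hrr : (0 : ℝ) < (r : ℝ) ^ r := by positivity
  obtain ⟨κ₂, hκ₂, hmem⟩ := rfp_mem q r hr hq
  -- constants
  have hC : ∀ j : ℕ, ∃ C : ℝ, 0 < C ∧ (j ≤ r → ∀ (V : Type) [Fintype V] [DecidableEq V]
      (U : Finset V), (q - j) + (r - j) ≤ U.card → ∀ π : ℝ, 0 ≤ π → π ≤ 1 →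
        bP (U.powersetCard (q - j)) (fun _ => π) (fun 𝓠 => ¬ Spans (ZMod N) (r - j) (q - j) U 𝓠) ≤
          Real.exp (N * (U.card : ℝ) ^ (r - j) *
            Real.exp (- (π * (U.card : ℝ) ^ ((q - j) - (r - j)) / C))) - 1) := by
    intro j
    by_cases hj : j ≤ r
    · obtain ⟨C, hC, h⟩ := randspan (r - j) (q - j) N (by omega) hN0 (by
        intro i hi
        have := hN (i + j) (by omega)
        have e1 : q - (i + j) = q - j - i := by omega
        have e2 : r - (i + j) = r - j - i := by omega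
        rwa [e1, e2] at this)
      exact ⟨C, hC, fun _ => h⟩
    · exact ⟨1, one_pos, fun h => absurd h hj⟩
  choose Cj hCj0 hCj using hC
  obtain ⟨C, hCdef⟩ : ∃ C : ℝ, C = ∑ j ∈ Finset.range (r + 1), Cj j := ⟨_, rfl⟩
  have hCle : ∀ j ≤ r, Cj j ≤ C := by
    intro j hj
    rw [hCdef]
    exact Finset.single_le_sum (f := Cj) (fun i _ => (hCj0 i).le)
      (Finset.mem_range.2 (Nat.lt_succ_of_le hj))
  have hCpos : 0 < C := (hCj0 0).trans_le (hCle 0 (Nat.zero_le _))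
  refine ⟨min κ₂ (1 / (4 * (r : ℝ) ^ r)), lt_min hκ₂ (by positivity), fun κ hκ0 hκ => ?_⟩
  obtain ⟨n₁, hn₁⟩ := hmem κ hκ0 (hκ.trans (min_le_left _ _))
  have hκr : κ * (r : ℝ) ^ r ≤ 1 / 4 := by
    calc κ * (r : ℝ) ^ r ≤ 1 / (4 * (r : ℝ) ^ r) * (r : ℝ) ^ r :=
          mul_le_mul_of_nonneg_right (hκ.trans (min_le_right _ _)) hrr.le
      _ = 1 / 4 := by field_simp
  -- threshold
  obtain ⟨t₀, ht₀⟩ : ∃ t₀ : ℝ, t₀ = C * (Real.log (2 * N) + 4 * r / κ + 1) + 1 := ⟨_, rfl⟩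
  have hlogN : 0 ≤ Real.log (2 * N) := by
    apply Real.log_nonneg
    have : (1 : ℝ) ≤ N := by exact_mod_cast hN0
    linarith
  have hev1 : ∀ᶠ n : ℕ in Filter.atTop, t₀ ≤ (n : ℝ) ^ (κ / 4) :=
    ((tendsto_rpow_atTop (by positivity : 0 < κ / 4)).comp
      tendsto_natCast_atTop_atTop).eventually_ge_atTop t₀
  have hev2 : ∀ᶠ n : ℕ in Filter.atTop, 2 * ((q : ℝ) + r) ≤ (n : ℝ) ^ ((3 : ℝ) / 4) :=
    ((tendsto_rpow_atTop (by norm_num : (0 : ℝ) < 3 / 4)).comp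
      tendsto_natCast_atTop_atTop).eventually_ge_atTop _
  obtain ⟨n₂, hn₂⟩ := Filter.eventually_atTop.1 (hev1.and hev2)
  refine ⟨max n₁ (max n₂ 1), ?_⟩
  intro V _ _ hV X U hX lam hlam hRS T hT
  have hTr : T.card ≤ r := by
    unfold actv at hT
    rw [Finset.mem_filter] at hT
    rcases hT.2 with h | h
    · exact h.le
    · exact (hX T h).le
  have hV1 : n₁ ≤ Fintype.card V := (le_max_left _ _).trans hV
  have hV2 : n₂ ≤ Fintype.card V := ((le_max_left _ _).trans (le_max_right _ _)).trans hV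
  have hV3 : 1 ≤ Fintype.card V := ((le_max_right _ _).trans (le_max_right _ _)).trans hV
  obtain ⟨h1, h2⟩ := hn₂ _ hV2
  have h3 := hn₁ V hV1 lam hlam (T, ∅) hTr
  obtain ⟨n, hn⟩ : ∃ n : ℝ, n = (Fintype.card V : ℝ) := ⟨_, rfl⟩
  have hn1 : 1 ≤ n := by rw [hn]; exact_mod_cast hV3
  have hn0 : 0 < n := by linarith
  obtain ⟨π, hπ⟩ : ∃ π : ℝ, π = rfp q r (Fintype.card V) lam (lam ^ (-(1 : ℝ) / 2)) (T, ∅) :=
    ⟨_, rfl⟩
  rw [← hπ] at h3
  have hsz := (hRS.size T hTr).1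
  -- reduce to the fibre
  have hred : bP (rfS q r X U) (rfp q r (Fintype.card V) lam (lam ^ (-(1 : ℝ) / 2)))
        (fun ω => ¬ Spans (ZMod N) (r - T.card) (q - T.card) (U T) (rfF ω T)) =
      bP ((U T).powersetCard (q - T.card)) (fun _ => π)
        (fun 𝓠 => ¬ Spans (ZMod N) (r - T.card) (q - T.card) (U T) 𝓠) := by
    have := bE_fiber (rfS q r X U) (rfp q r (Fintype.card V) lam (lam ^ (-(1 : ℝ) / 2))) T
      (fun 𝓠 => @ite ℝ (¬ Spans (ZMod N) (r - T.card) (q - T.card) (U T) 𝓠)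
        (Classical.propDecidable _) 1 0)
    rw [rfs_fiber q r X U T hT] at this
    rw [bP_def, bP_def]
    unfold rfF
    refine this.trans ?_
    refine bE_congr_p _ fun Q _ => ?_
    rw [hπ]
    unfold rfp
    rfl
  rw [hred]
  have hlam1 := rfs_lam r T.card hr n κ hn1 hκ0 hκr
  rw [← hn] at h1 h2 hsz hlam ⊢
  rw [← hlam] at hlam1
  have hm : (q - T.card) + (r - T.card) ≤ (U T).card := by
    have h4 : ((q : ℝ) + r) ≤ (U T).card := by linarith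
    have h5 : q + r ≤ (U T).card := by exact_mod_cast h4
    omega
  refine (hCj T.card hTr V (U T) hm π h3.1 h3.2).trans ?_
  -- the estimate
  have e1 : (q - T.card) - (r - T.card) = q - r := by omega
  rw [e1]
  have hmn : ((U T).card : ℝ) ≤ n := by
    rw [hn]; exact_mod_cast Finset.card_le_univ _
  have hm0 : (0 : ℝ) ≤ (U T).card := Nat.cast_nonneg _
  have hpow : ((U T).card : ℝ) ^ (r - T.card) ≤ n ^ r :=
    (pow_le_pow_left₀ hm0 hmn _).trans (pow_le_pow_right₀ hn1 (Nat.sub_le _ _))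
  have hbpos : 0 < n * lam ^ sx r T.card / 2 := by
    have := Real.rpow_pos_of_pos hn0 ((3 : ℝ) / 4)
    linarith
  have hD : π * ((U T).card : ℝ) ^ (q - r) ≥ n ^ (κ / 2) := by
    rw [hπ]
    unfold rfp
    simp only
    rw [← hn, hlam, rfs_D n κ hn1, ← hlam]
    rw [ge_iff_le, div_mul_eq_mul_div, le_div_iff₀ (by positivity)]
    exact mul_le_mul_of_nonneg_left (pow_le_pow_left₀ hbpos.le hsz _)
      (Real.rpow_nonneg hn0.le _)
  obtain ⟨t, ht⟩ : ∃ t : ℝ, t = n ^ (κ / 4) := ⟨_, rfl⟩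
  have htt : n ^ (κ / 2) = t ^ 2 := by
    rw [ht, ← Real.rpow_natCast, ← Real.rpow_mul hn0.le]; congr 1; push_cast; ring
  have ht1 : 1 ≤ t := by rw [ht]; exact Real.one_le_rpow hn1 (by positivity)
  rw [← ht] at h1 ⊢
  rw [htt] at hD
  have hexp1 : Real.exp (- (π * ((U T).card : ℝ) ^ (q - r) / Cj T.card)) ≤
      Real.exp (- (t ^ 2 / C)) := by
    apply Real.exp_le_exp.2
    apply neg_le_neg
    calc t ^ 2 / C ≤ t ^ 2 / Cj T.card :=
          div_le_div_of_nonneg_left (sq_nonneg _) (hCj0 _) (hCle _ hTr)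
      _ ≤ π * ((U T).card : ℝ) ^ (q - r) / Cj T.card :=
          div_le_div_of_nonneg_right hD (hCj0 _).le
  have hlogn : Real.log n ≤ 4 / κ * t := by
    have h5 : Real.log t = κ / 4 * Real.log n := by rw [ht, Real.log_rpow hn0]
    have h6 : Real.log t ≤ t := by
      have := Real.log_le_sub_one_of_pos (by linarith : 0 < t)
      linarith
    rw [h5] at h6
    have : Real.log n = 4 / κ * (κ / 4 * Real.log n) := by field_simp
    rw [this]
    exact mul_le_mul_of_nonneg_left h6 (by positivity)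
  have hNn : (N : ℝ) * n ^ r * Real.exp (-(t ^ 2 / C)) ≤ Real.exp (-t) / 2 := by
    have hNpos : (0 : ℝ) < N := by exact_mod_cast hN0
    have h5 : (2 : ℝ) * N * n ^ r = Real.exp (Real.log (2 * N) + r * Real.log n) := by
      rw [Real.exp_add, Real.exp_log (by positivity), mul_comm (r : ℝ), Real.exp_mul,
        Real.exp_log hn0, Real.rpow_natCast]
    have h6 : (2 : ℝ) * N * n ^ r * Real.exp (-(t ^ 2 / C)) ≤ Real.exp (-t) := by
      rw [h5, ← Real.exp_add]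
      apply Real.exp_le_exp.2
      have h7 : t * (Real.log (2 * N) + 4 * r / κ + 1) ≤ t ^ 2 / C := by
        rw [le_div_iff₀ hCpos]
        have : C * (Real.log (2 * N) + 4 * r / κ + 1) ≤ t := by rw [ht₀] at h1; linarith
        nlinarith [mul_le_mul_of_nonneg_left this (by linarith : (0 : ℝ) ≤ t)]
      have h8 : (r : ℝ) * Real.log n ≤ t * (4 * r / κ) := by
        calc (r : ℝ) * Real.log n ≤ r * (4 / κ * t) :=
              mul_le_mul_of_nonneg_left hlogn (Nat.cast_nonneg _)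
          _ = _ := by ring
      nlinarith
    linarith
  have hy : (N : ℝ) * ((U T).card : ℝ) ^ (r - T.card) *
      Real.exp (- (π * ((U T).card : ℝ) ^ (q - r) / Cj T.card)) ≤ Real.exp (-t) / 2 := by
    refine le_trans ?_ hNn
    exact mul_le_mul (mul_le_mul_of_nonneg_left hpow (Nat.cast_nonneg _)) hexp1
      (Real.exp_pos _).le (by positivity)
  have hexpt : Real.exp (-t) ≤ 1 := Real.exp_le_one_iff.2 (by linarith)
  have hfin : ∀ y : ℝ, 0 ≤ y → y ≤ 1 / 2 → Real.exp y - 1 ≤ 2 * y := by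
    intro y hy0 hy1
    have h5 : |y| ≤ 1 := by rw [abs_of_nonneg hy0]; linarith
    have h6 := (abs_le.1 (Real.abs_exp_sub_one_sub_id_le h5)).2
    nlinarith
  have hy0 : 0 ≤ (N : ℝ) * ((U T).card : ℝ) ^ (r - T.card) *
      Real.exp (- (π * ((U T).card : ℝ) ^ (q - r) / Cj T.card)) := by positivity
  have := hfin _ hy0 (by linarith)
  linarith

end Pool.Agent.Des
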