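import Pool.Agent.Lib_helper96.Des.Pblocks

/-!
# Definitions for the random sets (block RANDSETS)
-/

set_option autoImplicit false

namespace Pool.Agent.Des

open Finset

variable {V : Type} [Fintype V] [DecidableEq V]

/-- ground set -/
def rsS (r : ℕ) (G : Finset (Finset V)) : Finset (Finset V × Option V) :=
  (((Finset.univ : Finset (Finset V)).filter (fun T => T.card < r)) ×ˢ
    (Finset.univ : Finset V).image some) ∪ G.image (fun e => (e, none))

/-- probabilities -/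
noncomputable def rsp (r : ℕ) (lam : ℝ) (z : Finset V × Option V) : ℝ :=
  match z.2 with
  | some _ => lam ^ ((r - 1) ^ z.1.card)
  | none => lam ^ (r ^ r)

/-- the random reserve -/
def rsX (G : Finset (Finset V)) (ω : Finset (Finset V × Option V)) : Finset (Finset V) :=
  G.filter (fun e => (e, none) ∈ ω)

/-- the random sets -/
def rsU (r : ℕ) (ω : Finset (Finset V × Option V)) (T : Finset V) : Finset V :=
  (Finset.univ : Finset V).filter
    (fun u => u ∉ T ∧ ∀ T' ∈ T.powerset, T'.card < r → (T', some u) ∈ ω)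

/-- next vertices -/
def rsH (r : ℕ) (ω : Finset (Finset V × Option V)) (T₀ g : Finset V) : Finset V :=
  (Finset.univ : Finset V).filter (fun v => v ∉ T₀ ∧ ∀ T' ∈ T₀.powerset, T'.card + 1 < r →
    ∀ u ∈ g, (insert v T', some u) ∈ ω)

theorem sx_aux (r : ℕ) (hr : 1 ≤ r) : (r - 1) ^ r + r ^ (r - 1) ≤ r ^ r := by
  obtain ⟨m, rfl⟩ : ∃ m, r = m + 1 := ⟨r - 1, by omega⟩
  simp only [Nat.add_sub_cancel]
  have h1 : m ^ m ≤ (m + 1) ^ m := Nat.pow_le_pow_left (by omega) m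
  calc m ^ (m + 1) + (m + 1) ^ m = m * m ^ m + (m + 1) ^ m := by ring
    _ ≤ m * (m + 1) ^ m + (m + 1) ^ m := by
        exact Nat.add_le_add_right (Nat.mul_le_mul_left m h1) _
    _ = (m + 1) ^ (m + 1) := by ring

theorem sx_pow_sum (r : ℕ) (hr : 1 ≤ r) (T : Finset V) :
    ∑ T' ∈ T.powerset, (r - 1) ^ T'.card = r ^ T.card := by
  have h := Finset.sum_pow_mul_eq_add_pow (r - 1) 1 T
  simp only [one_pow, mul_one] at h
  rw [h, Nat.sub_add_cancel hr]

/-- the exponent identity used for the sizes: `∑_{T' ⊆ T, |T'| < r} (r-1)^|T'| = sx r |T|` -/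
theorem sx_sum (r : ℕ) (hr : 1 ≤ r) (T : Finset V) (hT : T.card ≤ r) :
    ∑ T' ∈ T.powerset.filter (fun T' => T'.card < r), (r - 1) ^ T'.card = sx r T.card := by
  classical
  unfold sx
  by_cases h : T.card < r
  · rw [if_pos h, Finset.filter_true_of_mem, sx_pow_sum r hr]
    intro T' hT'
    exact lt_of_le_of_lt (Finset.card_le_card (Finset.mem_powerset.1 hT')) h
  · have hc : T.card = r := by omega
    rw [if_neg h]
    have h1 : T.powerset.filter (fun T' => T'.card < r) = T.powerset.erase T := by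
      ext T'
      rw [Finset.mem_filter, Finset.mem_erase, Finset.mem_powerset]
      constructor
      · rintro ⟨h1, h2⟩
        exact ⟨fun h3 => by rw [h3] at h2; omega, h1⟩
      · rintro ⟨h1, h2⟩
        exact ⟨h2, hc ▸ Finset.card_lt_card (lt_of_le_of_ne h2 h1)⟩
    have h2 := Finset.sum_erase_add T.powerset (fun T' => (r - 1) ^ T'.card)
      (Finset.mem_powerset_self T)
    rw [sx_pow_sum r hr] at h2
    rw [h1]
    simp only [hc] at h2
    omega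

/-- the increments: `∑_{T' ⊆ T₀, |T'| + 1 < r} (r-1)^(|T'|+1) = sx (|T₀|+1) - sx |T₀|` -/
theorem sx_step (r : ℕ) (hr : 1 ≤ r) (T₀ : Finset V) (hT : T₀.card < r) :
    ∑ T' ∈ T₀.powerset.filter (fun T' => T'.card + 1 < r), (r - 1) ^ (T'.card + 1) =
      sx r (T₀.card + 1) - sx r T₀.card := by
  classical
  have hr1 : r ^ (T₀.card + 1) = (r - 1) * r ^ T₀.card + r ^ T₀.card := by
    obtain ⟨m, rfl⟩ : ∃ m, r = m + 1 := ⟨r - 1, by omega⟩
    simp only [Nat.add_sub_cancel]; ring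
  have hall : ∑ T' ∈ T₀.powerset, (r - 1) ^ (T'.card + 1) = (r - 1) * r ^ T₀.card := by
    rw [← sx_pow_sum r hr T₀, Finset.mul_sum]
    exact Finset.sum_congr rfl fun T' _ => by ring
  have e2 : sx r T₀.card = r ^ T₀.card := if_pos hT
  by_cases h : T₀.card + 1 < r
  · have e1 : sx r (T₀.card + 1) = r ^ (T₀.card + 1) := if_pos h
    rw [e1, e2, Finset.filter_true_of_mem, hall, hr1]
    · omega
    · intro T' hT'
      have := Finset.card_le_card (Finset.mem_powerset.1 hT')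
      omega
  · have hc : T₀.card + 1 = r := by omega
    have e1 : sx r (T₀.card + 1) = r ^ r - (r - 1) ^ r := if_neg h
    have h1 : T₀.powerset.filter (fun T' => T'.card + 1 < r) = T₀.powerset.erase T₀ := by
      ext T'
      rw [Finset.mem_filter, Finset.mem_erase, Finset.mem_powerset]
      constructor
      · rintro ⟨h1, h2⟩
        exact ⟨fun h3 => by rw [h3] at h2; omega, h1⟩
      · rintro ⟨h1, h2⟩
        have := Finset.card_lt_card (lt_of_le_of_ne h2 h1)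
        exact ⟨h2, by omega⟩
    have h2 := Finset.sum_erase_add T₀.powerset (fun T' => (r - 1) ^ (T'.card + 1))
      (Finset.mem_powerset_self T₀)
    rw [hall] at h2
    rw [h1, e1, e2]
    rw [hc] at hr1
    simp only [hc] at h2
    omega

theorem sx_mono (r : ℕ) (hr : 1 ≤ r) {i j : ℕ} (hij : i ≤ j) (hj : j ≤ r) :
    sx r i ≤ sx r j := by
  unfold sx
  by_cases h : j < r
  · rw [if_pos h, if_pos (lt_of_le_of_lt hij h)]
    exact Nat.pow_le_pow_right (by omega) hij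
  · by_cases hi : i < r
    · rw [if_pos hi, if_neg h]
      have h1 : r ^ i ≤ r ^ (r - 1) := Nat.pow_le_pow_right (by omega) (by omega)
      have h2 := sx_aux r hr
      omega
    · rw [if_neg hi, if_neg h]

theorem rs_num (K : ℕ) (hK : 1 ≤ K) (n : ℕ) (hn : (8 * K) ^ 8 ≤ n) (P : ℝ)
    (hP : (n : ℝ) ^ (-(1 / 4 : ℝ)) ≤ P) (k m : ℕ) (hk : k ≤ K) (hm : m ≤ n) :
    2 * Real.exp (-((n : ℝ) ^ (-(1 / 2 : ℝ)) * ((n : ℝ) * P / 4)) +
      ((n : ℝ) ^ (-(1 / 2 : ℝ))) ^ 2 * (k * m)) ≤ 2 * Real.exp (-(n : ℝ) ^ ((1 : ℝ) / 8)) := by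
  have hn1 : 1 ≤ n := le_trans (Nat.one_le_pow _ _ (by omega)) hn
  have hn0 : (0 : ℝ) < n := by exact_mod_cast hn1
  obtain ⟨y, hy⟩ : ∃ y : ℝ, y = (n : ℝ) ^ ((1 : ℝ) / 8) := ⟨_, rfl⟩
  have hy0 : 0 < y := by rw [hy]; exact Real.rpow_pos_of_pos hn0 _
  have hyK : 8 * (K : ℝ) ≤ y := by
    have h1 : ((8 * (K : ℝ)) ^ 8 : ℝ) ≤ n := by exact_mod_cast hn
    have h2 : (8 * (K : ℝ)) = ((8 * (K : ℝ)) ^ 8) ^ ((1 : ℝ) / 8) := by
      rw [← Real.rpow_natCast, ← Real.rpow_mul (by positivity)]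
      norm_num
    rw [h2, hy]
    exact Real.rpow_le_rpow (by positivity) h1 (by norm_num)
  have hK1 : (1 : ℝ) ≤ K := by exact_mod_cast hK
  have hy2 : (n : ℝ) ^ ((1 : ℝ) / 4) = y ^ 2 := by
    rw [hy, ← Real.rpow_natCast, ← Real.rpow_mul hn0.le]; norm_num
  have h1 : ((n : ℝ) ^ (-(1 / 2 : ℝ))) ^ 2 * (k * m) ≤ K := by
    have h2 : ((n : ℝ) ^ (-(1 / 2 : ℝ))) ^ 2 = (n : ℝ)⁻¹ := by
      rw [← Real.rpow_natCast, ← Real.rpow_mul hn0.le]
      norm_num
      exact Real.rpow_neg_one _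
    rw [h2]
    have h3 : (k : ℝ) * m ≤ K * n := by
      have : k * m ≤ K * n := Nat.mul_le_mul hk hm
      exact_mod_cast this
    calc (n : ℝ)⁻¹ * (k * m) ≤ (n : ℝ)⁻¹ * (K * n) :=
          mul_le_mul_of_nonneg_left h3 (by positivity)
      _ = K := by field_simp
  have h2 : y ^ 2 / 4 ≤ (n : ℝ) ^ (-(1 / 2 : ℝ)) * ((n : ℝ) * P / 4) := by
    have h3 : (n : ℝ) ^ (-(1 / 2 : ℝ)) * ((n : ℝ) * (n : ℝ) ^ (-(1 / 4 : ℝ)) / 4) = y ^ 2 / 4 := by
      rw [← hy2]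
      have h4 : (n : ℝ) ^ ((1 : ℝ) / 4) =
          (n : ℝ) ^ (-(1 / 2 : ℝ)) * ((n : ℝ) * (n : ℝ) ^ (-(1 / 4 : ℝ))) := by
        have h5 : (n : ℝ) * (n : ℝ) ^ (-(1 / 4 : ℝ)) = (n : ℝ) ^ (1 + (-(1 / 4 : ℝ))) := by
          rw [Real.rpow_add hn0, Real.rpow_one]
        rw [h5, ← Real.rpow_add hn0]
        norm_num
      rw [h4]; ring
    rw [← h3]
    apply mul_le_mul_of_nonneg_left _ (Real.rpow_nonneg hn0.le _)
    apply div_le_div_of_nonneg_right _ (by norm_num)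
    exact mul_le_mul_of_nonneg_left hP hn0.le
  have h3 : -((n : ℝ) ^ (-(1 / 2 : ℝ)) * ((n : ℝ) * P / 4)) +
      ((n : ℝ) ^ (-(1 / 2 : ℝ))) ^ 2 * (k * m) ≤ -y := by
    nlinarith
  rw [← hy]
  exact mul_le_mul_of_nonneg_left (Real.exp_le_exp.2 h3) (by norm_num)

theorem rs_lam (E : ℕ) (n : ℕ) (hn : 1 ≤ n) (κ : ℝ) (hκ : 0 < κ) (hκ1 : κ ≤ 1 / (4 * (E + 1)))
    (lam : ℝ) (hl : lam = (n : ℝ) ^ (-κ)) :
    0 < lam ∧ lam ≤ 1 ∧ ∀ e ≤ E, (n : ℝ) ^ (-(1 / 4 : ℝ)) ≤ lam ^ e := by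
  have hn0 : (0 : ℝ) < n := by exact_mod_cast hn
  have hn1 : (1 : ℝ) ≤ n := by exact_mod_cast hn
  have h0 : 0 < lam := by rw [hl]; exact Real.rpow_pos_of_pos hn0 _
  have h1 : lam ≤ 1 := by
    rw [hl]; exact Real.rpow_le_one_of_one_le_of_nonpos hn1 (by linarith)
  refine ⟨h0, h1, fun e he => ?_⟩
  rw [hl, ← Real.rpow_natCast, ← Real.rpow_mul hn0.le]
  apply Real.rpow_le_rpow_of_exponent_le hn1
  have he' : (e : ℝ) ≤ E := by exact_mod_cast he
  have h3 : κ * (4 * (E + 1)) ≤ 1 := by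
    rw [le_div_iff₀ (by positivity)] at hκ1; exact hκ1
  nlinarith

end Pool.Agent.Des
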