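import Pool.Agent.Lib_helper96.Des.RSdef

/-!
# Block RSDEG: deterministic consequences of the bounds on next vertices

Every `T ⊇ T'` with `|T| = j`, `g ⊆ rsU r ω T` is obtained from `T'` by adding vertices one by one,
each new vertex being in `rsH r ω T₀ g` of the current set `T₀` (`T' ⊆ T₀ ⊆ T`): for
`T'' ⊆ T₀`, `|T''| + 1 < r`, `insert v T'' ⊆ T` has size `< r`, so `(insert v T'', some u) ∈ ω`
for `u ∈ g ⊆ rsU r ω T`.  So induction on `j` (number of `T` of size `j+1` `≤` number of pairs
`(T₀, v)`), with `∏ lam^(|g| (sx (s+1) - sx s)) = lam^(|g| (sx j - sx t))`.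
-/

set_option autoImplicit false

namespace Pool.Agent.Des

open Finset

section

variable {V : Type} [Fintype V] [DecidableEq V]

theorem rsU_anti (r : ℕ) (ω : Finset (Finset V × Option V)) {T T' : Finset V} (h : T' ⊆ T) :
    rsU r ω T ⊆ rsU r ω T' := by
  intro u hu
  unfold rsU at hu ⊢
  rw [Finset.mem_filter] at hu ⊢
  exact ⟨hu.1, fun h' => hu.2.1 (h h'), fun T'' hT'' hc =>
    hu.2.2 T'' (Finset.mem_powerset.2 ((Finset.mem_powerset.1 hT'').trans h)) hc⟩

theorem mem_rsH_erase (r : ℕ) (ω : Finset (Finset V × Option V)) {T g : Finset V} {v : V}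
    (hv : v ∈ T) (hg : g ⊆ rsU r ω T) : v ∈ rsH r ω (T.erase v) g := by
  unfold rsH
  rw [Finset.mem_filter]
  refine ⟨Finset.mem_univ _, Finset.notMem_erase v T, fun T'' hT'' hc u hu => ?_⟩
  have h1 := hg hu
  unfold rsU at h1
  rw [Finset.mem_filter] at h1
  refine h1.2.2 _ ?_ (lt_of_le_of_lt (Finset.card_insert_le _ _) hc)
  rw [Finset.mem_powerset, Finset.insert_subset_iff]
  exact ⟨hv, (Finset.mem_powerset.1 hT'').trans (Finset.erase_subset _ _)⟩

/-- counting through pairs -/
theorem rs_count {A C : Finset (Finset V)} (F : Finset V → Finset V) (b : ℝ)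
    (hb : ∀ T₀ ∈ A, ((F T₀).card : ℝ) ≤ b)
    (h : ∀ T ∈ C, ∃ v ∈ T, T.erase v ∈ A ∧ v ∈ F (T.erase v)) :
    ((C.card : ℕ) : ℝ) ≤ (A.card : ℝ) * b := by
  have h1 : C ⊆ A.biUnion (fun T₀ => (F T₀).image (fun v => insert v T₀)) := by
    intro T hT
    obtain ⟨v, hv, h2, h3⟩ := h T hT
    rw [Finset.mem_biUnion]
    exact ⟨_, h2, Finset.mem_image.2 ⟨v, h3, Finset.insert_erase hv⟩⟩
  have h2 : C.card ≤ ∑ T₀ ∈ A, (F T₀).card :=
    le_trans (Finset.card_le_card h1) (le_trans Finset.card_biUnion_le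
      (Finset.sum_le_sum fun T₀ _ => Finset.card_image_le))
  calc ((C.card : ℕ) : ℝ) ≤ ((∑ T₀ ∈ A, (F T₀).card : ℕ) : ℝ) := by exact_mod_cast h2
    _ = ∑ T₀ ∈ A, ((F T₀).card : ℝ) := by push_cast; rfl
    _ ≤ ∑ T₀ ∈ A, b := Finset.sum_le_sum hb
    _ = (A.card : ℝ) * b := by rw [Finset.sum_const, nsmul_eq_mul]

end

theorem rs_deg (r : ℕ) (hr : 1 ≤ r) {V : Type} [Fintype V] [DecidableEq V]
    (G : Finset (Finset V)) (hG : Unif r G) (ω : Finset (Finset V × Option V)) (lam : ℝ)
    (hl : 0 < lam) (hl1 : lam ≤ 1)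
    (h1 : ∀ T₀ g : Finset V, T₀.card < r → g.card ≤ r → ((rsH r ω T₀ g).card : ℝ) ≤
        2 * (Fintype.card V : ℝ) * lam ^ (g.card * (sx r (T₀.card + 1) - sx r T₀.card)))
    (h2 : ∀ T₀ g : Finset V, T₀.card = r - 1 → g.card ≤ r →
      (((rsH r ω T₀ g).filter (fun v => insert v T₀ ∈ rsX G ω)).card : ℝ) ≤
        2 * (Fintype.card V : ℝ) * lam ^ (r ^ r + g.card * (sx r r - sx r (r - 1)))) :
    (∀ T' g : Finset V, T'.card + g.card < r → ∀ j < r, T'.card ≤ j →
      ((((Finset.univ.powersetCard j).filter (fun T => T' ⊆ T ∧ g ⊆ rsU r ω T)).card : ℕ) : ℝ) ≤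
      (2 * (Fintype.card V : ℝ)) ^ (j - T'.card) * lam ^ (g.card * (sx r j - sx r T'.card))) ∧
    (∀ T' g : Finset V, T'.card + g.card < r →
      ((((rsX G ω).filter (fun e => T' ⊆ e ∧ g ⊆ rsU r ω e)).card : ℕ) : ℝ) ≤
      (2 * (Fintype.card V : ℝ)) ^ (r - T'.card) *
        lam ^ (r ^ r + g.card * (sx r r - sx r T'.card))) := by
  have part1 : ∀ T' g : Finset V, T'.card + g.card < r → ∀ j < r, T'.card ≤ j →
      ((((Finset.univ.powersetCard j).filter (fun T => T' ⊆ T ∧ g ⊆ rsU r ω T)).card : ℕ) : ℝ) ≤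
      (2 * (Fintype.card V : ℝ)) ^ (j - T'.card) * lam ^ (g.card * (sx r j - sx r T'.card)) := by
    intro T' g hTg j hj htj
    induction j, htj using Nat.le_induction with
    | base =>
      rw [Nat.sub_self, Nat.sub_self, Nat.mul_zero, pow_zero, pow_zero, mul_one]
      have h3 : (Finset.univ.powersetCard T'.card).filter (fun T => T' ⊆ T ∧ g ⊆ rsU r ω T) ⊆
          {T'} := by
        intro T hT
        rw [Finset.mem_filter, Finset.mem_powersetCard] at hT
        rw [Finset.mem_singleton]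
        exact (Finset.eq_of_subset_of_card_le hT.2.1 hT.1.2.le).symm
      have h4 := Finset.card_le_card h3
      rw [Finset.card_singleton] at h4
      exact_mod_cast h4
    | succ j htj ih =>
      have ih' := ih (by omega)
      have h3 := rs_count (A := (Finset.univ.powersetCard j).filter
          (fun T => T' ⊆ T ∧ g ⊆ rsU r ω T))
        (C := (Finset.univ.powersetCard (j + 1)).filter (fun T => T' ⊆ T ∧ g ⊆ rsU r ω T))
        (fun T₀ => rsH r ω T₀ g)
        (2 * (Fintype.card V : ℝ) * lam ^ (g.card * (sx r (j + 1) - sx r j)))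
        (by
          intro T₀ hT₀
          rw [Finset.mem_filter, Finset.mem_powersetCard] at hT₀
          have h4 := h1 T₀ g (by omega) (by omega)
          rw [hT₀.1.2] at h4
          exact h4)
        (by
          intro T hT
          rw [Finset.mem_filter, Finset.mem_powersetCard] at hT
          obtain ⟨v, hvT, hvT'⟩ : ∃ v ∈ T, v ∉ T' := by
            by_contra hcon
            push Not at hcon
            have := Finset.card_le_card (show T ⊆ T' from hcon)
            omega
          refine ⟨v, hvT, ?_, mem_rsH_erase r ω hvT hT.2.2⟩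
          rw [Finset.mem_filter, Finset.mem_powersetCard]
          refine ⟨⟨Finset.subset_univ _, ?_⟩, ?_, hT.2.2.trans
            (rsU_anti r ω (Finset.erase_subset _ _))⟩
          · rw [Finset.card_erase_of_mem hvT]; omega
          · exact Finset.subset_erase.2 ⟨hT.2.1, hvT'⟩)
      refine le_trans h3 (le_trans (mul_le_mul_of_nonneg_right ih' (by positivity)) ?_)
      apply le_of_eq
      have m1 := sx_mono r hr htj (by omega)
      have m2 := sx_mono r hr (i := j) (j := j + 1) (Nat.le_succ j) (by omega)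
      have e1 : sx r (j + 1) - sx r T'.card =
          (sx r j - sx r T'.card) + (sx r (j + 1) - sx r j) := by
        omega
      have e2 : j + 1 - T'.card = (j - T'.card) + 1 := by omega
      rw [e1, e2, Nat.mul_add, pow_add, pow_succ]
      ring
  refine ⟨part1, ?_⟩
  intro T' g hTg
  have hp := part1 T' g hTg (r - 1) (by omega) (by omega)
  have h3 := rs_count (A := (Finset.univ.powersetCard (r - 1)).filter
      (fun T => T' ⊆ T ∧ g ⊆ rsU r ω T))
    (C := (rsX G ω).filter (fun e => T' ⊆ e ∧ g ⊆ rsU r ω e))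
    (fun T₀ => (rsH r ω T₀ g).filter (fun v => insert v T₀ ∈ rsX G ω))
    (2 * (Fintype.card V : ℝ) * lam ^ (r ^ r + g.card * (sx r r - sx r (r - 1))))
    (by
      intro T₀ hT₀
      rw [Finset.mem_filter, Finset.mem_powersetCard] at hT₀
      exact h2 T₀ g hT₀.1.2 (by omega))
    (by
      intro T hT
      rw [Finset.mem_filter] at hT
      have hTX := hT.1
      unfold rsX at hTX
      rw [Finset.mem_filter] at hTX
      have hTc : T.card = r := hG T hTX.1
      obtain ⟨v, hvT, hvT'⟩ : ∃ v ∈ T, v ∉ T' := by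
        by_contra hcon
        push Not at hcon
        have := Finset.card_le_card (show T ⊆ T' from hcon)
        omega
      refine ⟨v, hvT, ?_, ?_⟩
      · rw [Finset.mem_filter, Finset.mem_powersetCard]
        refine ⟨⟨Finset.subset_univ _, ?_⟩, ?_, hT.2.2.trans
          (rsU_anti r ω (Finset.erase_subset _ _))⟩
        · rw [Finset.card_erase_of_mem hvT]; omega
        · exact Finset.subset_erase.2 ⟨hT.2.1, hvT'⟩
      · rw [Finset.mem_filter, Finset.insert_erase hvT]
        exact ⟨mem_rsH_erase r ω hvT hT.2.2, hT.1⟩)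
  refine le_trans h3 (le_trans (mul_le_mul_of_nonneg_right hp (by positivity)) ?_)
  apply le_of_eq
  have m1 := sx_mono r hr (i := T'.card) (j := r - 1) (by omega) (by omega)
  have m2 := sx_mono r hr (i := r - 1) (j := r) (by omega) le_rfl
  have e1 : sx r r - sx r T'.card =
      (sx r (r - 1) - sx r T'.card) + (sx r r - sx r (r - 1)) := by
    omega
  have e2 : r - T'.card = (r - 1 - T'.card) + 1 := by omega
  rw [e1, e2, Nat.mul_add, ← Nat.add_assoc, pow_add, pow_succ, pow_add, pow_add]
  ring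

end Pool.Agent.Des
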