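import Pool.Agent.Lib_helper96.Des.RSdef

/-!
# Block RSEXT: richness of the random reserve

`bernstein_tail` for `f ω = |ext q r (rsX G ω) e| = #{Z ∈ ext q r G e : all (γ, none) ∈ ω for
γ ∈ (e ∪ Z).powersetCard r, γ ≠ e}`; mean `= |ext q r G e| * lam^(r^r (b - 1))`,
`b = q.choose r` (`bE_subset_disj`).
`c (γ, none) = n^(q-r-|γ \ e|)` for `γ ≠ e`, `|γ| = r` (number of `Z ⊇ γ \ e`), else `0`;
`∑ p c² ≤ ∑_{k=1}^r (r.choose k) n^k n^(2(q-r-k)) ≤ 2^r n^(2(q-r)-1)`, `c ≤ n^(q-r-1)`.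
`lam_B = n^(1/2) / n^(q-r)`, `t = α/2 n^(q-r) lam^(r^r (b-1)) ≥ n^(q-r-1/4)`.
(`κ r^r (b-1) ≤ min β/2 1/8`.)  For `q - r ≥ 1`.
-/

set_option autoImplicit false

namespace Pool.Agent.Des

open Finset

section

variable {V : Type} [Fintype V] [DecidableEq V]

/-- block of `Z` -/
def exB (r : ℕ) (e Z : Finset V) : Finset (Finset V × Option V) :=
  (((e ∪ Z).powersetCard r).erase e).image (fun γ => (γ, none))

theorem mem_exB {r : ℕ} {e Z : Finset V} {z : Finset V × Option V} :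
    z ∈ exB r e Z ↔ z.2 = none ∧ z.1 ≠ e ∧ z.1 ⊆ e ∪ Z ∧ z.1.card = r := by
  unfold exB
  rw [Finset.mem_image]
  constructor
  · rintro ⟨γ, h, rfl⟩
    rw [Finset.mem_erase, Finset.mem_powersetCard] at h
    exact ⟨rfl, h.1, h.2.1, h.2.2⟩
  · rintro ⟨h1, h2, h3, h4⟩
    refine ⟨z.1, ?_, Prod.ext rfl h1.symm⟩
    rw [Finset.mem_erase, Finset.mem_powersetCard]
    exact ⟨h2, h3, h4⟩

theorem mem_ext {q r : ℕ} {G : Finset (Finset V)} {e Z : Finset V} :
    Z ∈ ext q r G e ↔ (Disjoint e Z ∧ Z.card = q - r) ∧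
      ∀ γ : Finset V, γ ⊆ e ∪ Z → γ.card = r → γ ≠ e → γ ∈ G := by
  unfold ext
  rw [Finset.mem_filter, Finset.mem_powersetCard]
  constructor
  · rintro ⟨⟨h1, h2⟩, h3⟩
    refine ⟨⟨?_, h2⟩, fun γ h4 h5 h6 => h3 γ (Finset.mem_powersetCard.2 ⟨h4, h5⟩) h6⟩
    rw [Finset.disjoint_left]
    intro a ha ha'
    exact (Finset.mem_sdiff.1 (h1 ha')).2 ha
  · rintro ⟨⟨h1, h2⟩, h3⟩
    refine ⟨⟨?_, h2⟩, fun γ h4 h6 => h3 γ (Finset.mem_powersetCard.1 h4).1
      (Finset.mem_powersetCard.1 h4).2 h6⟩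
    intro a ha
    exact Finset.mem_sdiff.2 ⟨Finset.mem_univ _, fun h => Finset.disjoint_left.1 h1 h ha⟩

theorem ext_eq (q r : ℕ) (G : Finset (Finset V)) (e : Finset V)
    (ω : Finset (Finset V × Option V)) :
    ext q r (rsX G ω) e = (ext q r G e).filter (fun Z => exB r e Z ⊆ ω) := by
  ext Z
  rw [Finset.mem_filter, mem_ext, mem_ext]
  constructor
  · rintro ⟨h1, h2⟩
    refine ⟨⟨h1, fun γ h3 h4 h5 => ?_⟩, fun z hz => ?_⟩
    · have := h2 γ h3 h4 h5
      unfold rsX at this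
      exact (Finset.mem_filter.1 this).1
    · rw [mem_exB] at hz
      have := h2 z.1 hz.2.2.1 hz.2.2.2 hz.2.1
      unfold rsX at this
      have h6 := (Finset.mem_filter.1 this).2
      have h7 : z = (z.1, none) := Prod.ext rfl hz.1
      rw [h7]; exact h6
  · rintro ⟨⟨h1, h2⟩, h3⟩
    refine ⟨h1, fun γ h4 h5 h6 => ?_⟩
    unfold rsX
    rw [Finset.mem_filter]
    exact ⟨h2 γ h4 h5 h6, h3 (mem_exB.2 ⟨rfl, h6, h4, h5⟩)⟩

theorem exB_sub {q r : ℕ} {G : Finset (Finset V)} {e Z : Finset V} (hZ : Z ∈ ext q r G e) :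
    exB r e Z ⊆ rsS r G := by
  intro z hz
  rw [mem_exB] at hz
  rw [mem_ext] at hZ
  unfold rsS
  rw [Finset.mem_union]
  right
  exact Finset.mem_image.2 ⟨z.1, hZ.2 z.1 hz.2.2.1 hz.2.2.2 hz.2.1, Prod.ext rfl hz.1.symm⟩

theorem exB_prod {q r : ℕ} (hqr : r < q) {G : Finset (Finset V)} {e Z : Finset V}
    (he : e.card = r) (hZ : Z ∈ ext q r G e) (lam : ℝ) :
    ∏ z ∈ exB r e Z, rsp r lam z = lam ^ (r ^ r * (q.choose r - 1)) := by
  rw [mem_ext] at hZ
  have h1 : ∀ z ∈ exB r e Z, rsp r lam z = lam ^ (r ^ r) := by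
    intro z hz
    rw [mem_exB] at hz
    unfold rsp
    rw [hz.1]
  rw [Finset.prod_congr rfl h1, Finset.prod_const, ← pow_mul]
  congr 2
  unfold exB
  rw [Finset.card_image_of_injective _ (fun a b h => (Prod.ext_iff.1 h).1),
    Finset.card_erase_of_mem (Finset.mem_powersetCard.2 ⟨Finset.subset_union_left, he⟩),
    Finset.card_powersetCard, Finset.card_union_of_disjoint hZ.1.1, he, hZ.1.2,
    Nat.add_sub_cancel' hqr.le]

/-- Lipschitz constants -/
def exc (q r : ℕ) (e : Finset V) (z : Finset V × Option V) : ℕ :=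
  if z.2 = none ∧ z.1 ≠ e ∧ z.1.card = r ∧ (z.1 \ e).card ≤ q - r then
    (Fintype.card V) ^ (q - r - (z.1 \ e).card) else 0

theorem ext_count {q r : ℕ} {G : Finset (Finset V)} {e : Finset V} (z : Finset V × Option V) :
    ((ext q r G e).filter (fun Z => z ∈ exB r e Z)).card ≤ exc q r e z := by
  by_cases h : ((ext q r G e).filter (fun Z => z ∈ exB r e Z)) = ∅
  · rw [h, Finset.card_empty]; exact Nat.zero_le _
  · obtain ⟨Z₀, hZ₀⟩ := Finset.nonempty_of_ne_empty h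
    rw [Finset.mem_filter, mem_exB, mem_ext] at hZ₀
    obtain ⟨⟨⟨hd, hc⟩, _⟩, h1, h2, h3, h4⟩ := hZ₀
    have hsub : ∀ Z : Finset V, z.1 ⊆ e ∪ Z → z.1 \ e ⊆ Z := by
      intro Z hZ a ha
      rw [Finset.mem_sdiff] at ha
      rcases Finset.mem_union.1 (hZ ha.1) with h' | h'
      · exact absurd h' ha.2
      · exact h'
    have h5 : (z.1 \ e).card ≤ q - r := hc ▸ Finset.card_le_card (hsub Z₀ h3)
    unfold exc
    rw [if_pos ⟨h1, h2, h4, h5⟩]
    refine le_trans ?_ (Nat.choose_le_pow (Fintype.card V) (q - r - (z.1 \ e).card))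
    rw [← Finset.card_univ, ← Finset.card_powersetCard]
    refine Finset.card_le_card_of_injOn (fun Z => Z \ (z.1 \ e)) ?_ ?_
    · intro Z hZ
      have hZ' := Finset.mem_coe.1 hZ
      rw [Finset.mem_filter, mem_exB, mem_ext] at hZ'
      apply Finset.mem_coe.2
      rw [Finset.mem_powersetCard, Finset.card_sdiff_of_subset (hsub Z hZ'.2.2.2.1), hZ'.1.1.2]
      exact ⟨Finset.subset_univ _, rfl⟩
    · intro Z hZ Z' hZ' heq
      have hZ1 := Finset.mem_coe.1 hZ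
      have hZ2 := Finset.mem_coe.1 hZ'
      rw [Finset.mem_filter, mem_exB, mem_ext] at hZ1 hZ2
      have e1 := Finset.sdiff_union_of_subset (hsub Z hZ1.2.2.2.1)
      have e2 := Finset.sdiff_union_of_subset (hsub Z' hZ2.2.2.2.1)
      simp only at heq
      rw [← e1, ← e2, heq]

theorem sdiff_card_pos {e γ : Finset V} (h : γ ≠ e) (hc : γ.card = e.card) :
    1 ≤ (γ \ e).card := by
  rw [Nat.one_le_iff_ne_zero, Ne, Finset.card_eq_zero, Finset.sdiff_eq_empty_iff_subset]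
  intro h1
  exact h (Finset.eq_of_subset_of_card_le h1 hc.symm.le)

theorem exc_le {q r : ℕ} {e : Finset V} (he : e.card = r) (hV : 1 ≤ Fintype.card V)
    (z : Finset V × Option V) :
    exc q r e z ≤ (Fintype.card V) ^ (q - r - 1) := by
  unfold exc
  split_ifs with h
  · have := sdiff_card_pos h.2.1 (h.2.2.1.trans he.symm)
    exact Nat.pow_le_pow_right hV (by omega)
  · exact Nat.zero_le _

theorem exc_sum {q r : ℕ} (hqr : r < q) {e : Finset V} (he : e.card = r)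
    (hV : 1 ≤ Fintype.card V) (S : Finset (Finset V × Option V)) :
    ∑ z ∈ S, exc q r e z ^ 2 ≤ ((r + 1) * 2 ^ r) * (Fintype.card V) ^ (2 * (q - r) - 1) := by
  -- restrict to the support
  obtain ⟨F, hF⟩ : ∃ F : Finset (Finset V), F = Finset.univ.filter
      (fun γ => γ ≠ e ∧ γ.card = r ∧ (γ \ e).card ≤ q - r) := ⟨_, rfl⟩
  have h1 : ∑ z ∈ S, exc q r e z ^ 2 ≤
      ∑ γ ∈ F, (Fintype.card V) ^ (2 * (q - r - (γ \ e).card)) := by
    have h2 : ∑ z ∈ S, exc q r e z ^ 2 =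
        ∑ z ∈ S.filter (fun z => z.2 = none ∧ z.1 ∈ F), exc q r e z ^ 2 := by
      rw [Finset.sum_filter]
      refine Finset.sum_congr rfl fun z _ => ?_
      split_ifs with h3
      · rfl
      · unfold exc
        rw [if_neg, zero_pow (by norm_num)]
        rintro ⟨h4, h5, h6, h7⟩
        exact h3 ⟨h4, by rw [hF, Finset.mem_filter]; exact ⟨Finset.mem_univ _, h5, h6, h7⟩⟩
    rw [h2]
    have h3 : ∑ z ∈ S.filter (fun z => z.2 = none ∧ z.1 ∈ F), exc q r e z ^ 2 =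
        ∑ γ ∈ (S.filter (fun z => z.2 = none ∧ z.1 ∈ F)).image Prod.fst,
          (Fintype.card V) ^ (2 * (q - r - (γ \ e).card)) := by
      rw [Finset.sum_image]
      · refine Finset.sum_congr rfl fun z hz => ?_
        rw [Finset.mem_filter] at hz
        have hz2 := hz.2.2
        rw [hF, Finset.mem_filter] at hz2
        unfold exc
        rw [if_pos ⟨hz.2.1, hz2.2.1, hz2.2.2.1, hz2.2.2.2⟩, ← pow_mul, mul_comm]
      · intro a ha b hb hab
        have ha' := Finset.mem_filter.1 (Finset.mem_coe.1 ha)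
        have hb' := Finset.mem_filter.1 (Finset.mem_coe.1 hb)
        exact Prod.ext hab (ha'.2.1.trans hb'.2.1.symm)
    rw [h3]
    refine Finset.sum_le_sum_of_subset ?_
    intro γ hγ
    obtain ⟨z, hz, rfl⟩ := Finset.mem_image.1 hγ
    exact (Finset.mem_filter.1 hz).2.2
  refine le_trans h1 ?_
  have hmaps : ∀ γ ∈ F, (γ \ e).card ∈ Finset.range (r + 1) := by
    intro γ hγ
    rw [hF, Finset.mem_filter] at hγ
    rw [Finset.mem_range, Nat.lt_succ_iff]
    exact le_trans (Finset.card_le_card Finset.sdiff_subset) hγ.2.2.1.le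
  rw [← Finset.sum_fiberwise_of_maps_to hmaps]
  have h4 : ∀ k ∈ Finset.range (r + 1),
      ∑ γ ∈ F.filter (fun γ => (γ \ e).card = k), (Fintype.card V) ^ (2 * (q - r - (γ \ e).card))
        ≤ 2 ^ r * (Fintype.card V) ^ (2 * (q - r) - 1) := by
    intro k _
    by_cases hne : (F.filter (fun γ => (γ \ e).card = k)) = ∅
    · rw [hne, Finset.sum_empty]; exact Nat.zero_le _
    · obtain ⟨γ₀, hγ₀⟩ := Finset.nonempty_of_ne_empty hne
      rw [Finset.mem_filter, hF, Finset.mem_filter] at hγ₀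
      have hk1 : 1 ≤ k := hγ₀.2 ▸ sdiff_card_pos hγ₀.1.2.1 (hγ₀.1.2.2.1.trans he.symm)
      have hk2 : k ≤ q - r := hγ₀.2 ▸ hγ₀.1.2.2.2
      have h5 : ∑ γ ∈ F.filter (fun γ => (γ \ e).card = k),
          (Fintype.card V) ^ (2 * (q - r - (γ \ e).card)) =
          (F.filter (fun γ => (γ \ e).card = k)).card * (Fintype.card V) ^ (2 * (q - r - k)) := by
        rw [← smul_eq_mul, ← Finset.sum_const]
        exact Finset.sum_congr rfl fun γ hγ => by rw [(Finset.mem_filter.1 hγ).2]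
      rw [h5]
      have h6 : (F.filter (fun γ => (γ \ e).card = k)).card ≤ 2 ^ r * (Fintype.card V) ^ k := by
        have h7 : (F.filter (fun γ => (γ \ e).card = k)).card ≤
            (e.powerset ×ˢ (Finset.univ : Finset V).powersetCard k).card := by
          refine Finset.card_le_card_of_injOn (fun γ => (γ ∩ e, γ \ e)) ?_ ?_
          · intro γ hγ
            have hγ' := Finset.mem_filter.1 (Finset.mem_coe.1 hγ)
            apply Finset.mem_coe.2
            rw [Finset.mem_product, Finset.mem_powerset, Finset.mem_powersetCard]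
            exact ⟨Finset.inter_subset_right, Finset.subset_univ _, hγ'.2⟩
          · intro a _ b _ hab
            simp only [Prod.mk.injEq] at hab
            rw [← Finset.sdiff_union_inter a e, hab.1, hab.2, Finset.sdiff_union_inter]
        refine le_trans h7 ?_
        rw [Finset.card_product, Finset.card_powerset, he, Finset.card_powersetCard,
          Finset.card_univ]
        exact Nat.mul_le_mul_left _ (Nat.choose_le_pow _ _)
      calc (F.filter (fun γ => (γ \ e).card = k)).card * (Fintype.card V) ^ (2 * (q - r - k))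
          ≤ (2 ^ r * (Fintype.card V) ^ k) * (Fintype.card V) ^ (2 * (q - r - k)) :=
            Nat.mul_le_mul_right _ h6
        _ = 2 ^ r * (Fintype.card V) ^ (k + 2 * (q - r - k)) := by rw [pow_add]; ring
        _ ≤ 2 ^ r * (Fintype.card V) ^ (2 * (q - r) - 1) :=
            Nat.mul_le_mul_left _ (Nat.pow_le_pow_right hV (by omega))
  refine le_trans (Finset.sum_le_sum h4) ?_
  rw [Finset.sum_const, Finset.card_range, smul_eq_mul, mul_assoc]

end

theorem rs_ext (q r : ℕ) (hr : 1 ≤ r) (hq : r < q) (α β : ℝ) (hα : 0 < α) (hβ : 0 < β) :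
    ∃ κ₁ : ℝ, 0 < κ₁ ∧ ∀ κ : ℝ, 0 < κ → κ ≤ κ₁ → ∃ n₀ : ℕ,
    ∀ (V : Type) [Fintype V] [DecidableEq V], n₀ ≤ Fintype.card V →
    ∀ G : Finset (Finset V), Unif r G → ∀ e ∈ G,
    α * (Fintype.card V : ℝ) ^ (q - r) ≤ ((ext q r G e).card : ℝ) → ∀ lam : ℝ,
    lam = (Fintype.card V : ℝ) ^ (-κ) →
    bP (rsS r G) (rsp r lam) (fun ω => ¬ ((Fintype.card V : ℝ) ^ ((q : ℝ) - r - β) ≤
      ((ext q r (rsX G ω) e).card : ℝ))) ≤
      2 * Real.exp (- (Fintype.card V : ℝ) ^ ((1 : ℝ) / 8)) := by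
  obtain ⟨E, hE⟩ : ∃ E : ℕ, E = r ^ r * (q.choose r - 1) := ⟨_, rfl⟩
  obtain ⟨K, hK⟩ : ∃ K : ℕ, K = (r + 1) * 2 ^ r := ⟨_, rfl⟩
  refine ⟨min (1 / 4) (β / 2) / (E + 1), by positivity, fun κ hκ hκ1 => ?_⟩
  have hκE : κ * E ≤ min (1 / 4) (β / 2) := by
    rw [le_div_iff₀ (by positivity)] at hκ1
    have : κ * E ≤ κ * (E + 1) := mul_le_mul_of_nonneg_left (by linarith) hκ.le
    linarith
  have hκE1 : κ * E ≤ 1 / 4 := hκE.trans (min_le_left _ _)
  have hκE2 : κ * E ≤ β / 2 := hκE.trans (min_le_right _ _)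
  have hev : ∀ᶠ n : ℕ in Filter.atTop, 1 ≤ n ∧
      max 1 (2 * (K + 1) / α) ≤ (n : ℝ) ^ ((1 : ℝ) / 8) ∧ 2 / α ≤ (n : ℝ) ^ (β / 2) := by
    refine (Filter.eventually_ge_atTop 1).and (Filter.Eventually.and ?_ ?_)
    · exact ((tendsto_rpow_atTop (by norm_num)).comp tendsto_natCast_atTop_atTop).eventually_ge_atTop _
    · exact ((tendsto_rpow_atTop (by positivity)).comp
        tendsto_natCast_atTop_atTop).eventually_ge_atTop _
  obtain ⟨n₀, hn₀⟩ := Filter.eventually_atTop.1 hev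
  refine ⟨n₀, ?_⟩
  intro V _ _ hV G hG e he hext lam hlam
  obtain ⟨hn1, hy, hnβ⟩ := hn₀ _ hV
  obtain ⟨n, hn⟩ : ∃ n : ℕ, n = Fintype.card V := ⟨_, rfl⟩
  rw [← hn] at hn1 hy hnβ hext hlam ⊢
  have hn0 : (0 : ℝ) < n := by exact_mod_cast hn1
  have hn1' : (1 : ℝ) ≤ n := by exact_mod_cast hn1
  have hec : e.card = r := hG e he
  have hl0 : 0 < lam := by rw [hlam]; exact Real.rpow_pos_of_pos hn0 _
  have hl1 : lam ≤ 1 := by
    rw [hlam]; exact Real.rpow_le_one_of_one_le_of_nonpos hn1' (by linarith)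
  have hp : ∀ i ∈ rsS r G, 0 ≤ rsp r lam i ∧ rsp r lam i ≤ 1 := by
    intro i _
    unfold rsp
    split
    · exact ⟨by positivity, pow_le_one₀ hl0.le hl1⟩
    · exact ⟨by positivity, pow_le_one₀ hl0.le hl1⟩
  obtain ⟨P, hP⟩ : ∃ P : ℝ, P = lam ^ E := ⟨_, rfl⟩
  have hP0 : 0 < P := by rw [hP]; positivity
  have hPr : P = (n : ℝ) ^ (-(κ * E)) := by
    rw [hP, hlam, ← Real.rpow_natCast, ← Real.rpow_mul hn0.le]
    congr 1; ring
  have hP1 : (n : ℝ) ^ (-(1 / 4 : ℝ)) ≤ P := by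
    rw [hPr]; exact Real.rpow_le_rpow_of_exponent_le hn1' (by linarith)
  have hP2 : (n : ℝ) ^ (-(β / 2)) ≤ P := by
    rw [hPr]; exact Real.rpow_le_rpow_of_exponent_le hn1' (by linarith)
  obtain ⟨f, hf⟩ : ∃ f : Finset (Finset V × Option V) → ℝ,
      ∀ ω, f ω = ((ext q r (rsX G ω) e).card : ℝ) := ⟨_, fun _ => rfl⟩
  have hfs : ∀ ω, f ω = ∑ Z ∈ ext q r G e, if exB r e Z ⊆ ω then (1 : ℝ) else 0 := by
    intro ω; rw [hf, ext_eq, Finset.card_filter]; push_cast; rfl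
  have hEf : bE (rsS r G) (rsp r lam) f = (ext q r G e).card * P := by
    have h1 : bE (rsS r G) (rsp r lam) f = bE (rsS r G) (rsp r lam)
        (fun ω => ∑ Z ∈ ext q r G e, if exB r e Z ⊆ ω ∧ Disjoint ∅ ω then (1 : ℝ) else 0) := by
      refine bE_congr fun ω _ => ?_
      rw [hfs]
      refine Finset.sum_congr rfl fun i _ => ?_
      by_cases h : exB r e i ⊆ ω
      · rw [if_pos h, if_pos ⟨h, Finset.disjoint_empty_left _⟩]
      · rw [if_neg h, if_neg (fun h' => h h'.1)]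
    rw [h1, bE_sum]
    have h2 : ∀ Z ∈ ext q r G e, bE (rsS r G) (rsp r lam)
        (fun ω => if exB r e Z ⊆ ω ∧ Disjoint ∅ ω then (1 : ℝ) else 0) = P := by
      intro Z hZ
      rw [bE_subset_disj _ _ (exB r e Z) ∅ (exB_sub hZ) (Finset.empty_subset _)
        (Finset.disjoint_empty_right _), Finset.prod_empty, mul_one, exB_prod hq hec hZ, hP, hE]
    rw [Finset.sum_congr rfl h2, Finset.sum_const, nsmul_eq_mul]
  have hlip : ∀ a ∈ rsS r G, ∀ ω ⊆ rsS r G, a ∉ ω →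
      |f (insert a ω) - f ω| ≤ (exc q r e a : ℝ) := by
    intro a _ ω _ haω
    have hmono : ∀ Z ∈ ext q r G e, (if exB r e Z ⊆ ω then (1 : ℝ) else 0) ≤
        if exB r e Z ⊆ insert a ω then (1 : ℝ) else 0 := by
      intro Z _
      by_cases h : exB r e Z ⊆ ω
      · rw [if_pos h, if_pos (h.trans (Finset.subset_insert _ _))]
      · rw [if_neg h]; split_ifs <;> norm_num
    rw [hfs, hfs, abs_of_nonneg (by
      rw [sub_nonneg]; exact Finset.sum_le_sum hmono), ← Finset.sum_sub_distrib]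
    have h3 : ∀ Z ∈ ext q r G e, (if exB r e Z ⊆ insert a ω then (1 : ℝ) else 0) -
        (if exB r e Z ⊆ ω then (1 : ℝ) else 0) ≤ if a ∈ exB r e Z then (1 : ℝ) else 0 := by
      intro Z _
      by_cases h : a ∈ exB r e Z
      · rw [if_pos h]
        split_ifs <;> norm_num
      · rw [if_neg h]
        by_cases h' : exB r e Z ⊆ insert a ω
        · have h'' : exB r e Z ⊆ ω := by
            intro x hx
            rcases Finset.mem_insert.1 (h' hx) with h4 | h4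
            · exact absurd (h4 ▸ hx) h
            · exact h4
          rw [if_pos h', if_pos h'']; norm_num
        · rw [if_neg h']
          split_ifs <;> norm_num
    refine le_trans (Finset.sum_le_sum h3) ?_
    rw [← Finset.sum_filter, Finset.sum_const, nsmul_eq_mul, mul_one]
    exact_mod_cast ext_count a
  obtain ⟨d, hd⟩ : ∃ d : ℕ, d = q - r := ⟨_, rfl⟩
  have hd1 : 1 ≤ d := by omega
  have hlamB : ((n : ℝ) ^ ((1 : ℝ) / 2) / (n : ℝ) ^ d) * (n : ℝ) ^ (d - 1) ≤ 1 := by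
    obtain ⟨m, rfl⟩ : ∃ m, d = m + 1 := ⟨d - 1, by omega⟩
    have h1 : (n : ℝ) ^ ((1 : ℝ) / 2) ≤ n := by
      calc (n : ℝ) ^ ((1 : ℝ) / 2) ≤ (n : ℝ) ^ (1 : ℝ) :=
            Real.rpow_le_rpow_of_exponent_le hn1' (by norm_num)
        _ = n := Real.rpow_one _
    have h2 : (0 : ℝ) < (n : ℝ) ^ m := by positivity
    simp only [Nat.add_sub_cancel]
    rw [pow_succ, div_mul_eq_mul_div, div_le_one (by positivity)]
    nlinarith
  have hmain := bernstein_tail (rsS r G) (rsp r lam) hp f (fun z => (exc q r e z : ℝ))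
    (fun z _ => Nat.cast_nonneg _) hlip ((n : ℝ) ^ ((1 : ℝ) / 2) / (n : ℝ) ^ d) (by positivity)
    (fun z _ => by
      refine le_trans (mul_le_mul_of_nonneg_left ?_ (by positivity)) hlamB
      have h := exc_le (q := q) hec (hn ▸ hn1) z
      rw [← hn, ← hd] at h
      exact_mod_cast h)
    (α / 2 * (n : ℝ) ^ d * P)
  refine le_trans (bP_mono hp ?_) (le_trans hmain ?_)
  · intro ω _ hbad
    by_contra hcon
    rw [not_le, hEf, abs_lt] at hcon
    apply hbad
    rw [← hf]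
    have h1 : α * (n : ℝ) ^ d * P ≤ ((ext q r G e).card : ℝ) * P := by
      rw [hd]; exact mul_le_mul_of_nonneg_right hext hP0.le
    have h2 : (n : ℝ) ^ ((q : ℝ) - r - β) ≤ α / 2 * (n : ℝ) ^ d * P := by
      have h3 : (n : ℝ) ^ ((q : ℝ) - r - β) =
          (n : ℝ) ^ d * ((n : ℝ) ^ (-(β / 2)) * (n : ℝ) ^ (-(β / 2))) := by
        rw [← Real.rpow_natCast, ← Real.rpow_add hn0, ← Real.rpow_add hn0, hd,
          Nat.cast_sub hq.le]
        congr 1; ring
      have h4 : (n : ℝ) ^ (-(β / 2)) ≤ α / 2 := by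
        rw [Real.rpow_neg hn0.le, inv_le_comm₀ (by positivity) (by positivity), inv_div]
        exact hnβ
      rw [h3]
      have h5 : (0 : ℝ) < (n : ℝ) ^ d := by positivity
      have h6 : (0 : ℝ) < (n : ℝ) ^ (-(β / 2)) := Real.rpow_pos_of_pos hn0 _
      calc (n : ℝ) ^ d * ((n : ℝ) ^ (-(β / 2)) * (n : ℝ) ^ (-(β / 2)))
          ≤ (n : ℝ) ^ d * ((α / 2) * P) :=
            mul_le_mul_of_nonneg_left (mul_le_mul h4 hP2 h6.le (by positivity)) h5.le
        _ = α / 2 * (n : ℝ) ^ d * P := by ring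
    linarith [hcon.1]
  · apply mul_le_mul_of_nonneg_left _ (by norm_num)
    apply Real.exp_le_exp.2
    obtain ⟨y, hy'⟩ : ∃ y : ℝ, y = (n : ℝ) ^ ((1 : ℝ) / 8) := ⟨_, rfl⟩
    rw [← hy'] at hy ⊢
    have hy1 : 1 ≤ y := (le_max_left _ _).trans hy
    have hy2 : 2 * (K + 1) / α ≤ y := (le_max_right _ _).trans hy
    have hlt : α / 2 * y ^ 2 ≤
        ((n : ℝ) ^ ((1 : ℝ) / 2) / (n : ℝ) ^ d) * (α / 2 * (n : ℝ) ^ d * P) := by
      have h1 : ((n : ℝ) ^ ((1 : ℝ) / 2) / (n : ℝ) ^ d) * (α / 2 * (n : ℝ) ^ d * P) =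
          α / 2 * ((n : ℝ) ^ ((1 : ℝ) / 2) * P) := by
        have : (0 : ℝ) < (n : ℝ) ^ d := by positivity
        field_simp
      rw [h1]
      apply mul_le_mul_of_nonneg_left _ (by positivity)
      have h2 : y ^ 2 = (n : ℝ) ^ ((1 : ℝ) / 2) * (n : ℝ) ^ (-(1 / 4 : ℝ)) := by
        rw [hy', ← Real.rpow_natCast, ← Real.rpow_mul hn0.le, ← Real.rpow_add hn0]
        norm_num
      rw [h2]
      exact mul_le_mul_of_nonneg_left hP1 (by positivity)
    have hsum : ((n : ℝ) ^ ((1 : ℝ) / 2) / (n : ℝ) ^ d) ^ 2 *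
        ∑ i ∈ rsS r G, rsp r lam i * (exc q r e i : ℝ) ^ 2 ≤ K := by
      have h1 : ∑ i ∈ rsS r G, rsp r lam i * (exc q r e i : ℝ) ^ 2 ≤
          K * (n : ℝ) ^ (2 * d - 1) := by
        calc ∑ i ∈ rsS r G, rsp r lam i * (exc q r e i : ℝ) ^ 2
            ≤ ∑ i ∈ rsS r G, (exc q r e i : ℝ) ^ 2 := by
              refine Finset.sum_le_sum fun i hi => ?_
              have := (hp i hi).2
              nlinarith [sq_nonneg (exc q r e i : ℝ)]
          _ = ((∑ i ∈ rsS r G, exc q r e i ^ 2 : ℕ) : ℝ) := by push_cast; rfl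
          _ ≤ ((K * n ^ (2 * d - 1) : ℕ) : ℝ) := by
              have h := exc_sum hq hec (hn ▸ hn1) (rsS r G)
              rw [← hn, ← hd, ← hK] at h
              exact_mod_cast h
          _ = K * (n : ℝ) ^ (2 * d - 1) := by push_cast; rfl
      have h2 : ((n : ℝ) ^ ((1 : ℝ) / 2) / (n : ℝ) ^ d) ^ 2 * (n : ℝ) ^ (2 * d - 1) = 1 := by
        obtain ⟨m, rfl⟩ : ∃ m, d = m + 1 := ⟨d - 1, by omega⟩
        have h3 : ((n : ℝ) ^ ((1 : ℝ) / 2)) ^ 2 = n := by
          rw [← Real.rpow_natCast, ← Real.rpow_mul hn0.le]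
          norm_num
        have e1 : 2 * (m + 1) - 1 = 2 * m + 1 := by omega
        rw [div_pow, h3, e1]
        field_simp
        ring
      calc ((n : ℝ) ^ ((1 : ℝ) / 2) / (n : ℝ) ^ d) ^ 2 *
          ∑ i ∈ rsS r G, rsp r lam i * (exc q r e i : ℝ) ^ 2
          ≤ ((n : ℝ) ^ ((1 : ℝ) / 2) / (n : ℝ) ^ d) ^ 2 * (K * (n : ℝ) ^ (2 * d - 1)) :=
            mul_le_mul_of_nonneg_left h1 (by positivity)
        _ = K * (((n : ℝ) ^ ((1 : ℝ) / 2) / (n : ℝ) ^ d) ^ 2 * (n : ℝ) ^ (2 * d - 1)) := by ring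
        _ = K := by rw [h2, mul_one]
    have h7 : (K + 1) ≤ α / 2 * y := by
      rw [div_le_iff₀ hα] at hy2
      linarith
    have hK0 : (0 : ℝ) ≤ K := Nat.cast_nonneg _
    have h8 : (K + 1) * y ≤ α / 2 * y ^ 2 := by nlinarith
    have h9 : (K : ℝ) ≤ K * y := by nlinarith
    linarith

end Pool.Agent.Des
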