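import Pool.Agent.Lib_helper96.Des.RSdef

/-!
# Block RSH2: numbers of next vertices

`rs_h2`: `blocks_tail` over `v ∉ T₀` with the blocks
`{(insert v T', some u) : T' ⊆ T₀, |T'| + 1 < r, u ∈ g}` (disjoint for different `v`), product
`lam^(|g| (sx (s+1) - sx s))` by `sx_step`, `lam_B = n^(-1/2)`.  `rs_h2X`: the same with
`(insert v T₀, none)` added, over the `v ∉ T₀` with `insert v T₀ ∈ G` (`|T₀| = r - 1`).
For `κ₁` small all means are `≥ n^(3/4)` (when the number of blocks is `n - s`; for `rs_h2X` only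
the upper bound with `n` in place of the number of blocks is needed).
-/

set_option autoImplicit false

namespace Pool.Agent.Des

open Finset

section

variable {V : Type} [Fintype V] [DecidableEq V]

/-- the block of `v` -/
def rsB (r : ℕ) (T₀ g : Finset V) (v : V) : Finset (Finset V × Option V) :=
  ((T₀.powerset.filter (fun T' => T'.card + 1 < r)) ×ˢ g).image
    (fun x => (insert v x.1, some x.2))

theorem mem_rsB {r : ℕ} {T₀ g : Finset V} {v : V} {z : Finset V × Option V} :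
    z ∈ rsB r T₀ g v ↔ ∃ T' u, T' ⊆ T₀ ∧ T'.card + 1 < r ∧ u ∈ g ∧ z = (insert v T', some u) := by
  unfold rsB
  rw [Finset.mem_image]
  constructor
  · rintro ⟨x, hx, rfl⟩
    rw [Finset.mem_product, Finset.mem_filter, Finset.mem_powerset] at hx
    exact ⟨x.1, x.2, hx.1.1, hx.1.2, hx.2, rfl⟩
  · rintro ⟨T', u, h1, h2, h3, rfl⟩
    exact ⟨(T', u), by rw [Finset.mem_product, Finset.mem_filter, Finset.mem_powerset];
                       exact ⟨⟨h1, h2⟩, h3⟩, rfl⟩

theorem rsB_sub {r : ℕ} (G : Finset (Finset V)) {T₀ g : Finset V} {v : V} (hv : v ∉ T₀) :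
    rsB r T₀ g v ⊆ rsS r G := by
  intro z hz
  obtain ⟨T', u, h1, h2, h3, rfl⟩ := mem_rsB.1 hz
  unfold rsS
  rw [Finset.mem_union]
  left
  rw [Finset.mem_product]
  refine ⟨Finset.mem_filter.2 ⟨Finset.mem_univ _, ?_⟩,
    Finset.mem_image_of_mem _ (Finset.mem_univ _)⟩
  rw [Finset.card_insert_of_notMem (fun h => hv (h1 h))]
  exact h2

theorem rs_insert_inj {T₀ T' T'' : Finset V} {v w : V} (hv : v ∉ T₀) (h' : T'' ⊆ T₀)
    (h : insert v T' = insert w T'') : v = w := by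
  have h1 : v ∈ insert w T'' := h ▸ Finset.mem_insert_self v T'
  rcases Finset.mem_insert.1 h1 with h2 | h2
  · exact h2
  · exact absurd (h' h2) hv

theorem rsB_disj {r : ℕ} {T₀ g : Finset V} {v w : V} (hv : v ∉ T₀) (hvw : v ≠ w) :
    Disjoint (rsB r T₀ g v) (rsB r T₀ g w) := by
  rw [Finset.disjoint_left]
  intro z hz hz'
  obtain ⟨T', u, h1, h2, h3, rfl⟩ := mem_rsB.1 hz
  obtain ⟨T'', u', h4, h5, h6, h7⟩ := mem_rsB.1 hz'
  simp only [Prod.mk.injEq] at h7
  exact hvw (rs_insert_inj hv h4 h7.1)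

theorem rsB_card {r : ℕ} {T₀ g : Finset V} {v : V} (hT : T₀.card ≤ r) (hg : g.card ≤ r) :
    (rsB r T₀ g v).card ≤ 2 ^ r * r := by
  unfold rsB
  refine le_trans Finset.card_image_le ?_
  rw [Finset.card_product]
  refine Nat.mul_le_mul (le_trans (Finset.card_filter_le _ _) ?_) hg
  rw [Finset.card_powerset]
  exact Nat.pow_le_pow_right (by norm_num) hT

theorem rsB_prod {r : ℕ} (hr : 1 ≤ r) {T₀ g : Finset V} {v : V} (lam : ℝ) (hT : T₀.card < r)
    (hv : v ∉ T₀) :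
    ∏ z ∈ rsB r T₀ g v, rsp r lam z =
      lam ^ (g.card * (sx r (T₀.card + 1) - sx r T₀.card)) := by
  unfold rsB
  rw [Finset.prod_image]
  · rw [Finset.prod_product]
    have h1 : ∀ T' ∈ T₀.powerset.filter (fun T' => T'.card + 1 < r),
        ∏ u ∈ g, rsp r lam (insert v T', some u) = lam ^ (g.card * (r - 1) ^ (T'.card + 1)) := by
      intro T' hT'
      rw [Finset.mem_filter, Finset.mem_powerset] at hT'
      have h2 : ∀ u ∈ g, rsp r lam (insert v T', some u) = lam ^ ((r - 1) ^ (T'.card + 1)) := by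
        intro u _
        show lam ^ ((r - 1) ^ (insert v T').card) = _
        rw [Finset.card_insert_of_notMem (fun h => hv (hT'.1 h))]
      rw [Finset.prod_congr rfl h2, Finset.prod_const, ← pow_mul, mul_comm]
    rw [Finset.prod_congr rfl h1, Finset.prod_pow_eq_pow_sum, ← Finset.mul_sum,
      sx_step r hr T₀ hT]
  · intro a ha b hb hab
    have ha' := Finset.mem_coe.1 ha
    have hb' := Finset.mem_coe.1 hb
    rw [Finset.mem_product, Finset.mem_filter, Finset.mem_powerset] at ha' hb'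
    simp only [Prod.mk.injEq, Option.some.injEq] at hab
    refine Prod.ext ?_ hab.2
    have h1 : (insert v a.1).erase v = (insert v b.1).erase v := by rw [hab.1]
    rwa [Finset.erase_insert (fun h => hv (ha'.1.1 h)),
      Finset.erase_insert (fun h => hv (hb'.1.1 h))] at h1

theorem rsH_eq (r : ℕ) (T₀ g : Finset V) (ω : Finset (Finset V × Option V)) :
    rsH r ω T₀ g = (Finset.univ \ T₀).filter (fun v => rsB r T₀ g v ⊆ ω) := by
  ext v
  unfold rsH
  simp only [Finset.mem_filter, Finset.mem_univ, true_and, Finset.mem_sdiff]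
  constructor
  · rintro ⟨h1, h2⟩
    refine ⟨h1, fun z hz => ?_⟩
    obtain ⟨T', u, h3, h4, h5, rfl⟩ := mem_rsB.1 hz
    exact h2 T' (Finset.mem_powerset.2 h3) h4 u h5
  · rintro ⟨h1, h2⟩
    exact ⟨h1, fun T' hT' hc u hu =>
      h2 (mem_rsB.2 ⟨T', u, Finset.mem_powerset.1 hT', hc, hu, rfl⟩)⟩

theorem rsp_mem (r : ℕ) {lam : ℝ} (h0 : 0 < lam) (h1 : lam ≤ 1) (i : Finset V × Option V) :
    0 ≤ rsp r lam i ∧ rsp r lam i ≤ 1 := by
  unfold rsp
  split
  · exact ⟨by positivity, pow_le_one₀ h0.le h1⟩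
  · exact ⟨by positivity, pow_le_one₀ h0.le h1⟩

end

theorem sx_le (r : ℕ) (hr : 1 ≤ r) {j : ℕ} (hj : j ≤ r) : sx r j ≤ r ^ r := by
  unfold sx
  split_ifs with h
  · exact Nat.pow_le_pow_right hr hj
  · omega

theorem rs_h2 (r : ℕ) (hr : 1 ≤ r) : ∃ κ₁ : ℝ, 0 < κ₁ ∧ ∀ κ : ℝ, 0 < κ → κ ≤ κ₁ → ∃ n₀ : ℕ,
    ∀ (V : Type) [Fintype V] [DecidableEq V], n₀ ≤ Fintype.card V →
    ∀ G : Finset (Finset V), Unif r G → ∀ T₀ g : Finset V, T₀.card < r → g.card ≤ r →
    ∀ lam : ℝ, lam = (Fintype.card V : ℝ) ^ (-κ) →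
    bP (rsS r G) (rsp r lam) (fun ω => ¬ (((rsH r ω T₀ g).card : ℝ) ≤
        2 * (Fintype.card V : ℝ) * lam ^ (g.card * (sx r (T₀.card + 1) - sx r T₀.card)))) ≤
      2 * Real.exp (- (Fintype.card V : ℝ) ^ ((1 : ℝ) / 8)) := by
  refine ⟨1 / (4 * ((r * r ^ r : ℕ) + 1)), by positivity, fun κ hκ hκ1 =>
    ⟨(8 * (2 ^ r * r + 1)) ^ 8, ?_⟩⟩
  intro V _ _ hV G hG T₀ g hT hg lam hlam
  have hn1 : 1 ≤ Fintype.card V := le_trans (Nat.one_le_pow _ _ (by positivity)) hV
  obtain ⟨hl0, hl1, hlE⟩ := rs_lam (r * r ^ r) (Fintype.card V) hn1 κ hκ hκ1 lam hlam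
  obtain ⟨P, hP⟩ : ∃ P : ℝ, P = lam ^ (g.card * (sx r (T₀.card + 1) - sx r T₀.card)) := ⟨_, rfl⟩
  have hexp : g.card * (sx r (T₀.card + 1) - sx r T₀.card) ≤ r * r ^ r :=
    Nat.mul_le_mul hg (le_trans (Nat.sub_le _ _) (sx_le r hr hT))
  have hmain := blocks_tail (rsS r G) (rsp r lam) (fun i _ => rsp_mem r hl0 hl1 i)
    (Finset.univ \ T₀) (rsB r T₀ g)
    (fun v hv => rsB_sub G (Finset.mem_sdiff.1 hv).2)
    (fun v hv w _ hvw => rsB_disj (Finset.mem_sdiff.1 hv).2 hvw) (2 ^ r * r)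
    (fun v _ => rsB_card hT.le hg) P
    (fun v hv => by rw [hP]; exact rsB_prod hr lam hT (Finset.mem_sdiff.1 hv).2)
    ((Fintype.card V : ℝ) ^ (-(1 / 2 : ℝ))) (by positivity)
    (Real.rpow_le_one_of_one_le_of_nonpos (by exact_mod_cast hn1) (by norm_num))
    ((Fintype.card V : ℝ) * P / 4)
  have hIle : (Finset.univ \ T₀ : Finset V).card ≤ Fintype.card V := Finset.card_le_univ _
  refine le_trans (bP_mono (fun i _ => rsp_mem r hl0 hl1 i) ?_) (le_trans hmain
    (rs_num (2 ^ r * r + 1) (by omega) (Fintype.card V) hV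
      P (by rw [hP]; exact hlE _ hexp) (2 ^ r * r) _ (Nat.le_succ _) hIle))
  intro ω _ hbad
  by_contra hcon
  rw [not_le, abs_lt] at hcon
  apply hbad
  rw [rsH_eq, ← hP]
  have hP0 : 0 < P := by rw [hP]; positivity
  have hIr : ((Finset.univ \ T₀ : Finset V).card : ℝ) ≤ Fintype.card V := by exact_mod_cast hIle
  have h5 := mul_le_mul_of_nonneg_right hIr hP0.le
  have h7 : 0 ≤ (Fintype.card V : ℝ) * P := by positivity
  nlinarith [hcon.2]

theorem rs_h2X (r : ℕ) (hr : 1 ≤ r) : ∃ κ₁ : ℝ, 0 < κ₁ ∧ ∀ κ : ℝ, 0 < κ → κ ≤ κ₁ → ∃ n₀ : ℕ,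
    ∀ (V : Type) [Fintype V] [DecidableEq V], n₀ ≤ Fintype.card V →
    ∀ G : Finset (Finset V), Unif r G → ∀ T₀ g : Finset V, T₀.card = r - 1 → g.card ≤ r →
    ∀ lam : ℝ, lam = (Fintype.card V : ℝ) ^ (-κ) →
    bP (rsS r G) (rsp r lam) (fun ω =>
      ¬ ((((rsH r ω T₀ g).filter (fun v => insert v T₀ ∈ rsX G ω)).card : ℝ) ≤
        2 * (Fintype.card V : ℝ) *
          lam ^ (r ^ r + g.card * (sx r r - sx r (r - 1))))) ≤
      2 * Real.exp (- (Fintype.card V : ℝ) ^ ((1 : ℝ) / 8)) := by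
  refine ⟨1 / (4 * ((r ^ r + r * r ^ r : ℕ) + 1)), by positivity, fun κ hκ hκ1 =>
    ⟨(8 * (2 ^ r * r + 1)) ^ 8, ?_⟩⟩
  intro V _ _ hV G hG T₀ g hTe hg lam hlam
  have hT : T₀.card < r := by omega
  have hn1 : 1 ≤ Fintype.card V := le_trans (Nat.one_le_pow _ _ (by positivity)) hV
  obtain ⟨hl0, hl1, hlE⟩ := rs_lam (r ^ r + r * r ^ r) (Fintype.card V) hn1 κ hκ hκ1 lam hlam
  obtain ⟨P, hP⟩ : ∃ P : ℝ, P = lam ^ (r ^ r + g.card * (sx r r - sx r (r - 1))) := ⟨_, rfl⟩
  have hexp : r ^ r + g.card * (sx r r - sx r (r - 1)) ≤ r ^ r + r * r ^ r :=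
    Nat.add_le_add_left (Nat.mul_le_mul hg (le_trans (Nat.sub_le _ _) (sx_le r hr le_rfl))) _
  have hnone : ∀ v w : V, (insert v T₀, (none : Option V)) ∉ rsB r T₀ g w := by
    intro v w h
    obtain ⟨T', u, _, _, _, h4⟩ := mem_rsB.1 h
    simp only [Prod.mk.injEq, reduceCtorEq, and_false] at h4
  have hmain := blocks_tail (rsS r G) (rsp r lam) (fun i _ => rsp_mem r hl0 hl1 i)
    ((Finset.univ \ T₀).filter (fun v => insert v T₀ ∈ G))
    (fun v => insert (insert v T₀, none) (rsB r T₀ g v))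
    (fun v hv => by
      rw [Finset.mem_filter] at hv
      apply Finset.insert_subset
      · unfold rsS
        rw [Finset.mem_union]
        right
        exact Finset.mem_image_of_mem _ hv.2
      · exact rsB_sub G (Finset.mem_sdiff.1 hv.1).2)
    (fun v hv w _ hvw => by
      rw [Finset.mem_filter] at hv
      rw [Finset.disjoint_insert_left, Finset.mem_insert, not_or, Finset.disjoint_insert_right]
      refine ⟨⟨?_, hnone v w⟩, hnone w v, rsB_disj (Finset.mem_sdiff.1 hv.1).2 hvw⟩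
      intro h
      simp only [Prod.mk.injEq, and_true] at h
      exact hvw (rs_insert_inj (Finset.mem_sdiff.1 hv.1).2 (Finset.Subset.refl _) h))
    (2 ^ r * r + 1)
    (fun v _ => le_trans (Finset.card_insert_le _ _)
      (Nat.add_le_add_right (rsB_card hT.le hg) 1)) P
    (fun v hv => by
      rw [Finset.mem_filter] at hv
      rw [Finset.prod_insert (hnone v v), rsB_prod hr lam hT (Finset.mem_sdiff.1 hv.1).2, hTe,
        Nat.sub_add_cancel hr, hP, pow_add]
      rfl)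
    ((Fintype.card V : ℝ) ^ (-(1 / 2 : ℝ))) (by positivity)
    (Real.rpow_le_one_of_one_le_of_nonpos (by exact_mod_cast hn1) (by norm_num))
    ((Fintype.card V : ℝ) * P / 4)
  have hIle : ((Finset.univ \ T₀ : Finset V).filter (fun v => insert v T₀ ∈ G)).card ≤
      Fintype.card V := Finset.card_le_univ _
  refine le_trans (bP_mono (fun i _ => rsp_mem r hl0 hl1 i) ?_) (le_trans hmain
    (rs_num (2 ^ r * r + 1) (by omega) (Fintype.card V) hV
      P (by rw [hP]; exact hlE _ hexp) (2 ^ r * r + 1) _ le_rfl hIle))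
  intro ω _ hbad
  by_contra hcon
  rw [not_le, abs_lt] at hcon
  apply hbad
  have hset : (rsH r ω T₀ g).filter (fun v => insert v T₀ ∈ rsX G ω) =
      ((Finset.univ \ T₀).filter (fun v => insert v T₀ ∈ G)).filter
        (fun v => insert (insert v T₀, none) (rsB r T₀ g v) ⊆ ω) := by
    rw [rsH_eq]
    ext v
    unfold rsX
    simp only [Finset.mem_filter, Finset.insert_subset_iff]
    tauto
  rw [hset, ← hP]
  have hP0 : 0 < P := by rw [hP]; positivity
  have hIr : (((Finset.univ \ T₀ : Finset V).filter (fun v => insert v T₀ ∈ G)).card : ℝ) ≤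
      Fintype.card V := by exact_mod_cast hIle
  have h5 := mul_le_mul_of_nonneg_right hIr hP0.le
  have h7 : 0 ≤ (Fintype.card V : ℝ) * P := by positivity
  nlinarith [hcon.2]

end Pool.Agent.Des
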