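import Pool.Agent.Lib_helper96.Des.RSdef

/-!
# Block RSSIZE: sizes of the random sets

`rs_size`: `blocks_tail` over `u ∉ T` with the blocks `{(T', some u) : T' ⊆ T, |T'| < r}`
(`k = 2^r`, product `lam^(sx r |T|)` by `sx_sum`), `t = n lam^(sx ..) / 4`, `lam_B = n^(-1/2)`.

For `κ₁` small all means are `≥ n^(3/4)`.
-/

set_option autoImplicit false

namespace Pool.Agent.Des

open Finset

theorem rs_size (r : ℕ) (hr : 1 ≤ r) : ∃ κ₁ : ℝ, 0 < κ₁ ∧ ∀ κ : ℝ, 0 < κ → κ ≤ κ₁ → ∃ n₀ : ℕ,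
    ∀ (V : Type) [Fintype V] [DecidableEq V], n₀ ≤ Fintype.card V →
    ∀ G : Finset (Finset V), Unif r G → ∀ T : Finset V, T.card ≤ r → ∀ lam : ℝ,
    lam = (Fintype.card V : ℝ) ^ (-κ) →
    bP (rsS r G) (rsp r lam) (fun ω => ¬ ((Fintype.card V : ℝ) * lam ^ sx r T.card / 2 ≤
      ((rsU r ω T).card : ℝ) ∧ ((rsU r ω T).card : ℝ) ≤
        2 * (Fintype.card V : ℝ) * lam ^ sx r T.card)) ≤
      2 * Real.exp (- (Fintype.card V : ℝ) ^ ((1 : ℝ) / 8)) := by
  refine ⟨1 / (4 * ((r ^ r : ℕ) + 1)), by positivity, fun κ hκ hκ1 =>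
    ⟨(8 * 2 ^ r) ^ 8 + 4 * r, ?_⟩⟩
  intro V _ _ hV G hG T hT lam hlam
  have hn1 : 1 ≤ Fintype.card V := le_trans
    (le_trans (Nat.one_le_pow _ _ (by positivity)) (Nat.le_add_right _ _)) hV
  obtain ⟨hl0, hl1, hlE⟩ := rs_lam (r ^ r) (Fintype.card V) hn1 κ hκ hκ1 lam hlam
  have hsx : sx r T.card ≤ r ^ r := by
    unfold sx
    split_ifs with h
    · exact Nat.pow_le_pow_right hr hT
    · omega
  have hp : ∀ i ∈ rsS r G, 0 ≤ rsp r lam i ∧ rsp r lam i ≤ 1 := by
    intro i _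
    unfold rsp
    split
    · exact ⟨by positivity, pow_le_one₀ hl0.le hl1⟩
    · exact ⟨by positivity, pow_le_one₀ hl0.le hl1⟩
  -- blocks
  obtain ⟨B, hB⟩ : ∃ B : V → Finset (Finset V × Option V),
      ∀ u, B u = (T.powerset.filter (fun T' => T'.card < r)).image (fun T' => (T', some u)) :=
    ⟨_, fun _ => rfl⟩
  have hBS : ∀ u ∈ (Finset.univ \ T : Finset V), B u ⊆ rsS r G := by
    intro u _
    rw [hB]
    intro z hz
    obtain ⟨T', hT', rfl⟩ := Finset.mem_image.1 hz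
    unfold rsS
    rw [Finset.mem_union]
    left
    rw [Finset.mem_product]
    exact ⟨Finset.mem_filter.2 ⟨Finset.mem_univ _, (Finset.mem_filter.1 hT').2⟩,
      Finset.mem_image_of_mem _ (Finset.mem_univ _)⟩
  have hBd : ∀ u ∈ (Finset.univ \ T : Finset V), ∀ v ∈ (Finset.univ \ T : Finset V), u ≠ v →
      Disjoint (B u) (B v) := by
    intro u _ v _ huv
    rw [Finset.disjoint_left]
    intro z hz hz'
    rw [hB] at hz hz'
    obtain ⟨T', _, rfl⟩ := Finset.mem_image.1 hz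
    obtain ⟨T'', _, h2⟩ := Finset.mem_image.1 hz'
    simp only [Prod.mk.injEq, Option.some.injEq] at h2
    exact huv h2.2.symm
  have hBc : ∀ u ∈ (Finset.univ \ T : Finset V), (B u).card ≤ 2 ^ r := by
    intro u _
    rw [hB]
    refine le_trans Finset.card_image_le (le_trans (Finset.card_filter_le _ _) ?_)
    rw [Finset.card_powerset]
    exact Nat.pow_le_pow_right (by norm_num) hT
  have hBP : ∀ u ∈ (Finset.univ \ T : Finset V), ∏ j ∈ B u, rsp r lam j = lam ^ sx r T.card := by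
    intro u _
    rw [hB, Finset.prod_image (by
      intro a _ b _ hab
      simp only [Prod.mk.injEq] at hab
      exact hab.1)]
    rw [← sx_sum r hr T hT, ← Finset.prod_pow_eq_pow_sum]
    rfl
  have hmain := blocks_tail (rsS r G) (rsp r lam) hp (Finset.univ \ T) B hBS hBd (2 ^ r) hBc
    (lam ^ sx r T.card) hBP ((Fintype.card V : ℝ) ^ (-(1 / 2 : ℝ))) (by positivity)
    (Real.rpow_le_one_of_one_le_of_nonpos (by exact_mod_cast hn1) (by norm_num))
    ((Fintype.card V : ℝ) * lam ^ sx r T.card / 4)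
  have hIc : (Finset.univ \ T : Finset V).card = Fintype.card V - T.card := by
    rw [Finset.card_sdiff_of_subset (Finset.subset_univ _), Finset.card_univ]
  have hIle : (Finset.univ \ T : Finset V).card ≤ Fintype.card V := by omega
  have hrsU : ∀ ω, rsU r ω T = (Finset.univ \ T).filter (fun i => B i ⊆ ω) := by
    intro ω
    ext u
    unfold rsU
    simp only [Finset.mem_filter, Finset.mem_univ, true_and, Finset.mem_sdiff, hB]
    constructor
    · rintro ⟨h1, h2⟩
      refine ⟨h1, ?_⟩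
      intro z hz
      obtain ⟨T', hT', rfl⟩ := Finset.mem_image.1 hz
      exact h2 T' (Finset.mem_filter.1 hT').1 (Finset.mem_filter.1 hT').2
    · rintro ⟨h1, h2⟩
      exact ⟨h1, fun T' hT' hc => h2 (Finset.mem_image_of_mem _ (Finset.mem_filter.2 ⟨hT', hc⟩))⟩
  refine le_trans (bP_mono hp ?_) (le_trans hmain
    (rs_num (2 ^ r) (Nat.one_le_pow _ _ (by norm_num)) (Fintype.card V) (by omega)
      (lam ^ sx r T.card) (hlE _ hsx) (2 ^ r) _ le_rfl hIle))
  intro ω _ hbad
  by_contra hcon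
  push_neg at hcon
  apply hbad
  rw [hrsU]
  have hcr : ((Finset.univ \ T : Finset V).card : ℝ) = Fintype.card V - T.card := by
    rw [hIc, Nat.cast_sub]
    exact Finset.card_le_univ _
  rw [abs_lt, hcr] at hcon
  have hP0 : 0 < lam ^ sx r T.card := by positivity
  have hTn : (4 : ℝ) * T.card ≤ Fintype.card V := by
    have : 4 * T.card ≤ Fintype.card V := by omega
    exact_mod_cast this
  have hT0 : (0 : ℝ) ≤ T.card := Nat.cast_nonneg _
  have h5 : 0 ≤ (Fintype.card V - 4 * (T.card : ℝ)) * lam ^ sx r T.card :=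
    mul_nonneg (by linarith) hP0.le
  have h6 : 0 ≤ (T.card : ℝ) * lam ^ sx r T.card := mul_nonneg hT0 hP0.le
  have h7 : 0 ≤ (Fintype.card V : ℝ) * lam ^ sx r T.card := by positivity
  constructor
  · nlinarith [hcon.1]
  · nlinarith [hcon.2]

end Pool.Agent.Des
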