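import Pool.Agent.Lib_helper96.Des.RSsize
import Pool.Agent.Lib_helper96.Des.RSh2
import Pool.Agent.Lib_helper96.Des.RSdeg
import Pool.Agent.Lib_helper96.Des.RSext

/-!
# Block RANDSETS: the random reserve `X` and the random sets `U T`

`lam = n^(-κ)`.  Ground set `S ⊆ Finset V × Option V`: all `(T, some u)` with `|T| < r`, chosen with
probability `lam^((r-1)^|T|)`, and all `(e, none)`, `e ∈ G`, chosen with probability `lam^(r^r)`.
Given the outcome `ω`: `X = {e ∈ G : (e, none) ∈ ω}`,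
`U T = {u ∉ T : (T', some u) ∈ ω for all T' ⊆ T with |T'| < r}` for `|T| ≤ r`.
`∏ over T' ⊆ T, |T'| < r` of `lam^((r-1)^|T'|)` is `lam^(sx r |T|)`
(`∑_i C(j,i) (r-1)^i = r^j`, and `r^r - (r-1)^r` for `j = r`).

size: `blocks_tail` over `u ∉ T`, blocks `{(T', some u) : T' ⊆ T}`.

deg, degX: first `(H2)`: for every `T₀` with `|T₀| = s < r` and `g`,
`#{v ∉ T₀ : (T' ∪ {v}, some u) ∈ ω for all T' ⊆ T₀ with |T'| + 1 < r, u ∈ g} ≤ 2 n
lam^(|g| (sx (s+1) - sx s))` (`blocks_tail` over `v ∉ T₀`), and for `s = r - 1` the same with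
the extra condition `T₀ ∪ {v} ∈ X` and the extra factor `lam^(r^r)`; then multiply along
`T' = T₀ ⊂ T₁ ⊂ ... ⊂ T_j` (every `T ⊇ T'` with `g ⊆ U T` is reached through at least one
sequence; prefixes inherit the conditions).

ext: `bernstein_tail` for `f ω = #{Z : all other r-subsets of e ∪ Z are in X}`; mean
`|ext G e| lam^(r^r (q.choose r - 1))`; changing `(γ, none)` changes `f` by at most
`n^(q-r-|γ \ e|)`, so `∑ p c^2 ≤ C n^(2(q-r)-1)`, `max c ≤ n^(q-r-1)`; take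
`lam_B = n^(1/2) / n^(q-r)`.

(Sub-blocks: `rs_size`, `rs_h2`, `rs_h2X`, `rs_deg`, `rs_ext`; here only the union bound
(`exists_good`-type) over the at most `4 (n+1)^(2r)` events and the easy fields `disj`, `mono`.)
All exponents of `n` in the means are `≥ 3/4` for `κ` small, union bound over polynomially many
events with failure probability `exp (- n^(1/4))` each.  (`κ (r^r (q.choose r)) < β` is used in
ext.)
-/

set_option autoImplicit false

namespace Pool.Agent.Des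

open Finset

/-- number of small sets -/
theorem card_small (r : ℕ) (V : Type) [Fintype V] [DecidableEq V] :
    ((Finset.univ : Finset (Finset V)).filter (fun T => T.card ≤ r)).card ≤
      (Fintype.card V + 1) ^ r := by
  have hmaps : ∀ T ∈ (Finset.univ : Finset (Finset V)).filter (fun T => T.card ≤ r),
      T.card ∈ Finset.range (r + 1) := by
    intro T hT
    rw [Finset.mem_filter] at hT
    exact Finset.mem_range.2 (Nat.lt_succ_of_le hT.2)
  rw [Finset.card_eq_sum_card_fiberwise hmaps, add_pow]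
  refine Finset.sum_le_sum fun i hi => ?_
  rw [Finset.mem_range] at hi
  have h1 : (((Finset.univ : Finset (Finset V)).filter (fun T => T.card ≤ r)).filter
      (fun T => T.card = i)) ⊆ (Finset.univ : Finset V).powersetCard i := by
    intro T hT
    rw [Finset.mem_filter] at hT
    exact Finset.mem_powersetCard.2 ⟨Finset.subset_univ _, hT.2⟩
  refine le_trans (Finset.card_le_card h1) ?_
  rw [Finset.card_powersetCard, Finset.card_univ, one_pow, mul_one]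
  refine le_trans (Nat.choose_le_pow _ _) ?_
  exact Nat.le_mul_of_pos_right _ (Nat.choose_pos (by omega))

/-- the union bound -/
theorem rs_union (r : ℕ) : ∃ n₀ : ℕ, ∀ n : ℕ, n₀ ≤ n →
    4 * ((n : ℝ) + 1) ^ (2 * r) * (2 * Real.exp (-(n : ℝ) ^ ((1 : ℝ) / 8))) < 1 := by
  have h1 : Filter.Tendsto (fun x : ℝ => (8 * 2 ^ (2 * r)) * (x ^ (16 * r) * Real.exp (-x)))
      Filter.atTop (nhds ((8 * 2 ^ (2 * r)) * 0)) :=
    (Real.tendsto_pow_mul_exp_neg_atTop_nhds_zero (16 * r)).const_mul _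
  rw [mul_zero] at h1
  have h2 : Filter.Tendsto (fun n : ℕ => (n : ℝ) ^ ((1 : ℝ) / 8)) Filter.atTop Filter.atTop :=
    (tendsto_rpow_atTop (by norm_num)).comp tendsto_natCast_atTop_atTop
  have h3 := (h1.comp h2).eventually_lt_const (show (0 : ℝ) < 1 by norm_num)
  obtain ⟨n₀, hn₀⟩ := Filter.eventually_atTop.1 (h3.and (Filter.eventually_ge_atTop 1))
  refine ⟨n₀, fun n hn => ?_⟩
  obtain ⟨h4, h5⟩ := hn₀ n hn
  have h6 : (1 : ℝ) ≤ n := by exact_mod_cast h5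
  have h7 : ((n : ℝ) + 1) ^ (2 * r) ≤ 2 ^ (2 * r) * ((n : ℝ) ^ ((1 : ℝ) / 8)) ^ (16 * r) := by
    have e1 : ((n : ℝ) ^ ((1 : ℝ) / 8)) ^ (16 * r) = (n : ℝ) ^ (2 * r) := by
      rw [← Real.rpow_natCast, ← Real.rpow_mul (by positivity), ← Real.rpow_natCast]
      congr 1
      push_cast
      ring
    rw [e1, ← mul_pow]
    exact pow_le_pow_left₀ (by positivity) (by linarith) _
  refine lt_of_le_of_lt ?_ h4
  simp only [Function.comp]
  have h8 : 0 < Real.exp (-(n : ℝ) ^ ((1 : ℝ) / 8)) := Real.exp_pos _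
  calc 4 * ((n : ℝ) + 1) ^ (2 * r) * (2 * Real.exp (-(n : ℝ) ^ ((1 : ℝ) / 8)))
      = (8 * Real.exp (-(n : ℝ) ^ ((1 : ℝ) / 8))) * ((n : ℝ) + 1) ^ (2 * r) := by ring
    _ ≤ (8 * Real.exp (-(n : ℝ) ^ ((1 : ℝ) / 8))) *
        (2 ^ (2 * r) * ((n : ℝ) ^ ((1 : ℝ) / 8)) ^ (16 * r)) :=
        mul_le_mul_of_nonneg_left h7 (by positivity)
    _ = _ := by ring

theorem randsets (q r : ℕ) (hr : 1 ≤ r) (hq : r < q) (α β : ℝ) (hα : 0 < α) (hβ : 0 < β) :
    ∃ κ₁ : ℝ, 0 < κ₁ ∧ ∀ κ : ℝ, 0 < κ → κ ≤ κ₁ → ∃ n₀ : ℕ,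
    ∀ (V : Type) [Fintype V] [DecidableEq V], n₀ ≤ Fintype.card V →
    ∀ G : Finset (Finset V), Unif r G →
    (∀ e ∈ G, α * (Fintype.card V : ℝ) ^ (q - r) ≤ ((ext q r G e).card : ℝ)) →
    ∃ X ⊆ G, ∃ U : Finset V → Finset V,
      IsRS q r ((Fintype.card V : ℝ) ^ (-κ)) X U ∧
      ∀ e ∈ G, (Fintype.card V : ℝ) ^ ((q : ℝ) - r - β) ≤ ((ext q r X e).card : ℝ) := by
  obtain ⟨k1, hk1, H1⟩ := rs_size r hr
  obtain ⟨k2, hk2, H2⟩ := rs_h2 r hr
  obtain ⟨k3, hk3, H3⟩ := rs_h2X r hr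
  obtain ⟨k4, hk4, H4⟩ := rs_ext q r hr hq α β hα hβ
  refine ⟨min (min k1 k2) (min k3 k4), lt_min (lt_min hk1 hk2) (lt_min hk3 hk4),
    fun κ hκ hκ1 => ?_⟩
  obtain ⟨n1, H1⟩ := H1 κ hκ (hκ1.trans ((min_le_left _ _).trans (min_le_left _ _)))
  obtain ⟨n2, H2⟩ := H2 κ hκ (hκ1.trans ((min_le_left _ _).trans (min_le_right _ _)))
  obtain ⟨n3, H3⟩ := H3 κ hκ (hκ1.trans ((min_le_right _ _).trans (min_le_left _ _)))
  obtain ⟨n4, H4⟩ := H4 κ hκ (hκ1.trans ((min_le_right _ _).trans (min_le_right _ _)))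
  obtain ⟨n5, H5⟩ := rs_union r
  refine ⟨1 + n1 + n2 + n3 + n4 + n5, ?_⟩
  intro V _ _ hV G hG hext
  have hn1 : 1 ≤ Fintype.card V := by omega
  have hn0 : (0 : ℝ) < Fintype.card V := by exact_mod_cast hn1
  obtain ⟨lam, hlam⟩ : ∃ lam : ℝ, lam = (Fintype.card V : ℝ) ^ (-κ) := ⟨_, rfl⟩
  have hl0 : 0 < lam := by rw [hlam]; exact Real.rpow_pos_of_pos hn0 _
  have hl1 : lam ≤ 1 := by
    rw [hlam]
    exact Real.rpow_le_one_of_one_le_of_nonpos (by exact_mod_cast hn1) (by linarith)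
  obtain ⟨b, hb⟩ : ∃ b : ℝ, b = 2 * Real.exp (- (Fintype.card V : ℝ) ^ ((1 : ℝ) / 8)) := ⟨_, rfl⟩
  have hb0 : 0 < b := by rw [hb]; positivity
  obtain ⟨N, hN⟩ : ∃ N : ℝ, N = ((Fintype.card V : ℝ) + 1) ^ (2 * r) := ⟨_, rfl⟩
  have hNb : 4 * N * b < 1 := by rw [hN, hb]; exact H5 _ (by omega)
  have hp : ∀ i ∈ rsS r G, 0 ≤ rsp r lam i ∧ rsp r lam i ≤ 1 := fun i _ => rsp_mem r hl0 hl1 i
  obtain ⟨F, hF⟩ : ∃ F : Finset (Finset V),
      F = (Finset.univ : Finset (Finset V)).filter (fun T => T.card ≤ r) := ⟨_, rfl⟩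
  have hFc : F.card ≤ (Fintype.card V + 1) ^ r := by rw [hF]; exact card_small r V
  have hF1 : (F.card : ℝ) ≤ N := by
    have h1 : F.card ≤ (Fintype.card V + 1) ^ (2 * r) :=
      hFc.trans (Nat.pow_le_pow_right (by omega) (by omega))
    rw [hN]; exact_mod_cast h1
  have hF2 : ((F ×ˢ F).card : ℝ) ≤ N := by
    have h1 : (F ×ˢ F).card ≤ (Fintype.card V + 1) ^ (2 * r) := by
      rw [Finset.card_product, two_mul, pow_add]
      exact Nat.mul_le_mul hFc hFc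
    rw [hN]; exact_mod_cast h1
  have hGF : G ⊆ F := by
    intro e he
    rw [hF, Finset.mem_filter]
    exact ⟨Finset.mem_univ _, (hG e he).le⟩
  have hG1 : (G.card : ℝ) ≤ N := by
    refine le_trans ?_ hF1
    exact_mod_cast Finset.card_le_card hGF
  -- the four kinds of events
  obtain ⟨A1, hA1⟩ : ∃ A : Finset V → Finset (Finset V × Option V) → Prop, ∀ T ω, A T ω ↔
      ¬ ((Fintype.card V : ℝ) * lam ^ sx r T.card / 2 ≤
      ((rsU r ω T).card : ℝ) ∧ ((rsU r ω T).card : ℝ) ≤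
        2 * (Fintype.card V : ℝ) * lam ^ sx r T.card) := ⟨_, fun _ _ => Iff.rfl⟩
  obtain ⟨A2, hA2⟩ : ∃ A : Finset V × Finset V → Finset (Finset V × Option V) → Prop,
      ∀ x ω, A x ω ↔ (x.1.card < r ∧ ¬ (((rsH r ω x.1 x.2).card : ℝ) ≤
        2 * (Fintype.card V : ℝ) * lam ^ (x.2.card * (sx r (x.1.card + 1) - sx r x.1.card)))) :=
    ⟨_, fun _ _ => Iff.rfl⟩
  obtain ⟨A3, hA3⟩ : ∃ A : Finset V × Finset V → Finset (Finset V × Option V) → Prop,
      ∀ x ω, A x ω ↔ (x.1.card = r - 1 ∧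
      ¬ ((((rsH r ω x.1 x.2).filter (fun v => insert v x.1 ∈ rsX G ω)).card : ℝ) ≤
        2 * (Fintype.card V : ℝ) *
          lam ^ (r ^ r + x.2.card * (sx r r - sx r (r - 1))))) :=
    ⟨_, fun _ _ => Iff.rfl⟩
  obtain ⟨A4, hA4⟩ : ∃ A : Finset V → Finset (Finset V × Option V) → Prop,
      ∀ e ω, A e ω ↔ ¬ ((Fintype.card V : ℝ) ^ ((q : ℝ) - r - β) ≤
      ((ext q r (rsX G ω) e).card : ℝ)) := ⟨_, fun _ _ => Iff.rfl⟩
  have hfalse : bP (rsS r G) (rsp r lam) (fun _ => False) ≤ b := by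
    have h1 := bP_exists_le hp (∅ : Finset ℕ) (fun _ _ => True)
    rw [Finset.sum_empty] at h1
    refine le_trans (bP_mono hp (fun ω _ h => h.elim)) (h1.trans hb0.le)
  have B1 : ∀ T ∈ F, bP (rsS r G) (rsp r lam) (A1 T) ≤ b := by
    intro T hT
    rw [hF, Finset.mem_filter] at hT
    have h := H1 V (by omega) G hG T hT.2 lam hlam
    rw [← hb] at h
    exact le_trans (bP_mono hp fun ω _ h' => (hA1 T ω).1 h') h
  have B2 : ∀ x ∈ F ×ˢ F, bP (rsS r G) (rsp r lam) (A2 x) ≤ b := by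
    intro x hx
    rw [Finset.mem_product, hF, Finset.mem_filter, Finset.mem_filter] at hx
    by_cases hc : x.1.card < r
    · have h := H2 V (by omega) G hG x.1 x.2 hc hx.2.2 lam hlam
      rw [← hb] at h
      exact le_trans (bP_mono hp fun ω _ h' => ((hA2 x ω).1 h').2) h
    · exact le_trans (bP_mono hp fun ω _ h' => hc ((hA2 x ω).1 h').1) hfalse
  have B3 : ∀ x ∈ F ×ˢ F, bP (rsS r G) (rsp r lam) (A3 x) ≤ b := by
    intro x hx
    rw [Finset.mem_product, hF, Finset.mem_filter, Finset.mem_filter] at hx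
    by_cases hc : x.1.card = r - 1
    · have h := H3 V (by omega) G hG x.1 x.2 hc hx.2.2 lam hlam
      rw [← hb] at h
      exact le_trans (bP_mono hp fun ω _ h' => ((hA3 x ω).1 h').2) h
    · exact le_trans (bP_mono hp fun ω _ h' => hc ((hA3 x ω).1 h').1) hfalse
  have B4 : ∀ e ∈ G, bP (rsS r G) (rsp r lam) (A4 e) ≤ b := by
    intro e he
    have h := H4 V (by omega) G hG e he (hext e he) lam hlam
    rw [← hb] at h
    exact le_trans (bP_mono hp fun ω _ h' => (hA4 e ω).1 h') h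
  have hsum : ∀ {ι : Type} (I : Finset ι) (A : ι → Finset (Finset V × Option V) → Prop),
      (I.card : ℝ) ≤ N → (∀ i ∈ I, bP (rsS r G) (rsp r lam) (A i) ≤ b) →
      bP (rsS r G) (rsp r lam) (fun ω => ∃ i ∈ I, A i ω) ≤ N * b := by
    intro ι I A hI hA
    refine le_trans (bP_exists_le hp I A) (le_trans (Finset.sum_le_sum hA) ?_)
    rw [Finset.sum_const, nsmul_eq_mul]
    exact mul_le_mul_of_nonneg_right hI hb0.le
  have C1 := hsum F A1 hF1 B1
  have C2 := hsum (F ×ˢ F) A2 hF2 B2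
  have C3 := hsum (F ×ˢ F) A3 hF2 B3
  have C4 := hsum G A4 hG1 B4
  have D1 := bP_or_le hp (fun ω => ∃ i ∈ F, A1 i ω) (fun ω => ∃ i ∈ F ×ˢ F, A2 i ω)
  have D2 := bP_or_le hp (fun ω => ∃ i ∈ F ×ˢ F, A3 i ω) (fun ω => ∃ i ∈ G, A4 i ω)
  have D3 := bP_or_le hp (fun ω => (∃ i ∈ F, A1 i ω) ∨ (∃ i ∈ F ×ˢ F, A2 i ω))
    (fun ω => (∃ i ∈ F ×ˢ F, A3 i ω) ∨ (∃ i ∈ G, A4 i ω))
  obtain ⟨ω, hω, hgood⟩ := exists_not_of_bP_lt hp (lt_of_le_of_lt D3 (by linarith))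
  rw [not_or, not_or, not_or] at hgood
  obtain ⟨⟨g1, g2⟩, g3, g4⟩ := hgood
  push Not at g1 g2 g3 g4
  have q2 : ∀ T₀ g : Finset V, T₀.card < r → g.card ≤ r → ((rsH r ω T₀ g).card : ℝ) ≤
        2 * (Fintype.card V : ℝ) * lam ^ (g.card * (sx r (T₀.card + 1) - sx r T₀.card)) := by
    intro T₀ g h1 h2
    by_contra hcon
    refine g2 (T₀, g) ?_ ((hA2 _ _).2 ⟨h1, hcon⟩)
    rw [Finset.mem_product, hF, Finset.mem_filter, Finset.mem_filter]
    exact ⟨⟨Finset.mem_univ _, h1.le⟩, Finset.mem_univ _, h2⟩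
  have q3 : ∀ T₀ g : Finset V, T₀.card = r - 1 → g.card ≤ r →
      (((rsH r ω T₀ g).filter (fun v => insert v T₀ ∈ rsX G ω)).card : ℝ) ≤
        2 * (Fintype.card V : ℝ) * lam ^ (r ^ r + g.card * (sx r r - sx r (r - 1))) := by
    intro T₀ g h1 h2
    by_contra hcon
    refine g3 (T₀, g) ?_ ((hA3 _ _).2 ⟨h1, hcon⟩)
    rw [Finset.mem_product, hF, Finset.mem_filter, Finset.mem_filter]
    have h3 : T₀.card ≤ r := by omega
    exact ⟨⟨Finset.mem_univ _, h3⟩, Finset.mem_univ _, h2⟩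
  obtain ⟨d1, d2⟩ := rs_deg r hr G hG ω lam hl0 hl1 q2 q3
  refine ⟨rsX G ω, Finset.filter_subset _ _, rsU r ω, ?_, ?_⟩
  · rw [← hlam]
    refine ⟨?_, ?_, ?_, d1, d2⟩
    · intro T _
      rw [Finset.disjoint_right]
      intro u hu
      unfold rsU at hu
      exact (Finset.mem_filter.1 hu).2.1
    · intro T T' _ h
      exact rsU_anti r ω h
    · intro T hT
      by_contra hcon
      refine g1 T ?_ ((hA1 _ _).2 hcon)
      rw [hF, Finset.mem_filter]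
      exact ⟨Finset.mem_univ _, hT⟩
  · intro e he
    by_contra hcon
    exact g4 e he ((hA4 _ _).2 hcon)

end Pool.Agent.Des
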