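import Pool.Agent.Lib_helper96.Des.Expand
import Pool.Agent.Lib_helper96.Des.Pindep

/-!
# Block RANDSPAN: random families of `q`-sets span all divisible functions

If `𝓠 ⊆ U.powersetCard q` does not span, take divisible `J` outside the span `D'` of `𝓠` and
(`zdual_sep`) `φ` killing `D'` with `∑ φ J ≠ 0`; let `ψ` be as in `expand` and `φ' = φ - ψ` on the
`ρ`-subsets of `U`, `0` elsewhere.  Then `φ' ≠ 0`, `φ'(Q) = 0` for all `Q ∈ 𝓠` (as `∂Q` is
divisible), and with `w = |supp φ'| ≥ 1`: `w m^(q-ρ) ≤ C b(φ')`, `b(φ')` the number of violated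
`q`-subsets of `U`.  Union bound over all `φ'` on `U.powersetCard ρ` (`bE_subset_disj` with `A = ∅`,
`B` the violated sets): the probability is at most
`∑_{φ' ≠ 0} (1-π)^{b(φ')} ≤ ∑_{φ' ≠ 0} x^{|supp φ'|} = (1 + (N-1) x)^M - 1 ≤ exp (N M x) - 1`
where `x = exp (- π m^(q-ρ) / C)`, `M = m.choose ρ ≤ m^ρ`.
-/

set_option autoImplicit false

namespace Pool.Agent.Des

open Finset

theorem randspan_sum {ι : Type} [Fintype ι] [DecidableEq ι] (N : ℕ) [NeZero N] (A : Finset ι)
    (x : ℝ) :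
    ∑ φ ∈ Fintype.piFinset (fun i : ι => if i ∈ A then (Finset.univ : Finset (ZMod N)) else {0}),
      ∏ i, (if φ i ≠ 0 then x else 1) = (1 + ((N : ℝ) - 1) * x) ^ A.card := by
  have h1 := Finset.prod_univ_sum
    (fun i : ι => if i ∈ A then (Finset.univ : Finset (ZMod N)) else {0})
    (fun _ j => if j ≠ 0 then x else (1 : ℝ))
  rw [← h1]
  have h2 : ∀ i : ι, (∑ j ∈ (if i ∈ A then (Finset.univ : Finset (ZMod N)) else {0}),
      (if j ≠ 0 then x else (1 : ℝ))) = if i ∈ A then (1 + ((N : ℝ) - 1) * x) else 1 := by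
    intro i
    split_ifs with hi
    · rw [← Finset.add_sum_erase _ _ (Finset.mem_univ (0 : ZMod N))]
      have h3 : ∑ j ∈ (Finset.univ : Finset (ZMod N)).erase 0, (if j ≠ 0 then x else (1 : ℝ)) =
          ∑ j ∈ (Finset.univ : Finset (ZMod N)).erase 0, x := by
        refine Finset.sum_congr rfl fun j hj => ?_
        rw [if_pos (Finset.ne_of_mem_erase hj)]
      rw [h3, Finset.sum_const, Finset.card_erase_of_mem (Finset.mem_univ _), Finset.card_univ,
        ZMod.card, nsmul_eq_mul, Nat.cast_sub (Nat.one_le_iff_ne_zero.2 (NeZero.ne N))]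
      simp
    · simp
  rw [Finset.prod_congr rfl fun i _ => h2 i]
  rw [Finset.prod_ite, Finset.prod_const, Finset.prod_const_one, mul_one]
  congr 2
  ext i; simp

theorem randspan (ρ q N : ℕ) (hρ : ρ ≤ q) (hN : 0 < N)
    (hdiv : ∀ i ≤ ρ, (q - i).choose (ρ - i) ∣ N) :
    ∃ C : ℝ, 0 < C ∧ ∀ (V : Type) [Fintype V] [DecidableEq V] (U : Finset V),
      q + ρ ≤ U.card → ∀ π : ℝ, 0 ≤ π → π ≤ 1 →
        bP (U.powersetCard q) (fun _ => π) (fun 𝓠 => ¬ Spans (ZMod N) ρ q U 𝓠) ≤
          Real.exp (N * (U.card : ℝ) ^ ρ *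
            Real.exp (- (π * (U.card : ℝ) ^ (q - ρ) / C))) - 1 := by
  classical
  obtain ⟨C, hC, hex⟩ := expand ρ q N hρ hN hdiv
  refine ⟨C, hC, ?_⟩
  intro V _ _ U hU π hπ0 hπ1
  have hNe : NeZero N := ⟨hN.ne'⟩
  obtain ⟨x, hx⟩ : ∃ x : ℝ, x = Real.exp (- (π * (U.card : ℝ) ^ (q - ρ) / C)) := ⟨_, rfl⟩
  have hx0 : 0 < x := by rw [hx]; exact Real.exp_pos _
  rw [← hx]
  obtain ⟨A, hA⟩ : ∃ A : Finset (Finset V), A = U.powersetCard ρ := ⟨_, rfl⟩
  obtain ⟨viol, hviol⟩ : ∃ viol : (Finset V → ZMod N) → Finset (Finset V), ∀ φ, viol φ =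
      (U.powersetCard q).filter (fun Q => ∑ e ∈ Q.powersetCard ρ, φ e ≠ 0) := ⟨_, fun _ => rfl⟩
  obtain ⟨F, hF⟩ : ∃ F : Finset (Finset V → ZMod N), F =
      Fintype.piFinset (fun i => if i ∈ A then (Finset.univ : Finset (ZMod N)) else {0}) :=
    ⟨_, rfl⟩
  have mF : ∀ φ, φ ∈ F ↔ ∀ i, i ∉ A → φ i = 0 := by
    intro φ
    rw [hF, Fintype.mem_piFinset]
    constructor
    · intro h i hi
      have := h i
      rw [if_neg hi, Finset.mem_singleton] at this
      exact this
    · intro h i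
      by_cases hi : i ∈ A
      · rw [if_pos hi]; exact Finset.mem_univ _
      · rw [if_neg hi, Finset.mem_singleton]; exact h i hi
  obtain ⟨wt, hwt⟩ : ∃ wt : (Finset V → ZMod N) → ℕ, ∀ φ, wt φ =
      ((Finset.univ : Finset (Finset V)).filter (fun e => φ e ≠ 0)).card := ⟨_, fun _ => rfl⟩
  obtain ⟨G, hG⟩ : ∃ G : Finset (Finset V → ZMod N), G = (F.erase 0).filter (fun φ =>
      (wt φ : ℝ) * (U.card : ℝ) ^ (q - ρ) ≤ C * ((viol φ).card : ℝ)) := ⟨_, rfl⟩
  have hp : ∀ i ∈ U.powersetCard q, (0 : ℝ) ≤ (fun _ => π) i ∧ (fun _ => π) i ≤ 1 :=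
    fun _ _ => ⟨hπ0, hπ1⟩
  -- inclusion of events
  have hincl : bP (U.powersetCard q) (fun _ => π) (fun 𝓠 => ¬ Spans (ZMod N) ρ q U 𝓠) ≤
      bP (U.powersetCard q) (fun _ => π) (fun 𝓠 => ∃ φ ∈ G, Disjoint (viol φ) 𝓠) := by
    refine bP_mono hp fun 𝓠 h𝓠 hns => ?_
    unfold Spans at hns
    push Not at hns
    obtain ⟨J, hJ1, hJ2, hJ3⟩ := hns
    obtain ⟨φ, hφ1, hφ2⟩ := zdual_sep N hN _ J hJ3
    obtain ⟨ψ, hψ1, hψ2⟩ := hex V U hU φ
    obtain ⟨φ', hφ'⟩ : ∃ φ' : Finset V → ZMod N, ∀ e, φ' e = if e ∈ A then φ e - ψ e else 0 :=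
      ⟨_, fun _ => rfl⟩
    have hQ : ∀ Q ∈ U.powersetCard q, ∑ e ∈ Q.powersetCard ρ, φ' e =
        ∑ e ∈ Q.powersetCard ρ, φ e := by
      intro Q hQ
      rw [Finset.mem_powersetCard] at hQ
      have hsub : Q.powersetCard ρ ⊆ U.powersetCard ρ := Finset.powersetCard_mono hQ.1
      have h1 : ∑ e ∈ U.powersetCard ρ, ψ e * ind (ZMod N) ρ Q e = 0 := by
        refine hψ1 _ (fun e he => ?_) (isDiv_ind ρ q Q hQ.2)
        unfold ind at he
        by_contra hcon
        apply he
        rw [if_neg]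
        exact fun h => hcon (hsub h)
      have h2 : ∑ e ∈ U.powersetCard ρ, ψ e * ind (ZMod N) ρ Q e =
          ∑ e ∈ Q.powersetCard ρ, ψ e := by
        unfold ind
        simp only [mul_ite, mul_one, mul_zero]
        rw [← Finset.sum_filter]
        refine Finset.sum_congr ?_ fun _ _ => rfl
        ext e
        rw [Finset.mem_filter]
        exact ⟨fun h => h.2, fun h => ⟨hsub h, h⟩⟩
      have h3 : ∑ e ∈ Q.powersetCard ρ, φ' e = ∑ e ∈ Q.powersetCard ρ, (φ e - ψ e) := by
        refine Finset.sum_congr rfl fun e he => ?_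
        rw [hφ', hA, if_pos (hsub he)]
      rw [h3, Finset.sum_sub_distrib, ← h2, h1, sub_zero]
    have hv : viol φ' = viol φ := by
      rw [hviol, hviol]
      exact Finset.filter_congr fun Q hQ' => by rw [hQ Q hQ']
    refine ⟨φ', ?_, ?_⟩
    · rw [hG, Finset.mem_filter, Finset.mem_erase, mF]
      refine ⟨⟨?_, fun i hi => by rw [hφ', if_neg hi]⟩, ?_⟩
      · intro h0
        apply hφ2
        have h1 : ∑ i, φ i * J i = ∑ e ∈ U.powersetCard ρ, φ e * J e := by
          symm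
          refine Finset.sum_subset (Finset.subset_univ _) fun e _ he => ?_
          have : J e = 0 := by by_contra h; exact he (hJ1 e h)
          rw [this, mul_zero]
        rw [h1, ← hψ1 J hJ1 hJ2]
        refine Finset.sum_congr rfl fun e he => ?_
        have h2 := congrFun h0 e
        rw [hφ', hA, if_pos he, Pi.zero_apply, sub_eq_zero] at h2
        rw [h2]
      · rw [hv, hviol]
        refine le_trans (le_of_eq ?_) hψ2
        congr 2
        rw [hwt]
        congr 1
        ext e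
        rw [Finset.mem_filter, Finset.mem_filter, hφ', hA]
        constructor
        · rintro ⟨_, h⟩
          by_cases he : e ∈ U.powersetCard ρ
          · rw [if_pos he, sub_ne_zero] at h; exact ⟨he, h⟩
          · rw [if_neg he] at h; exact absurd rfl h
        · rintro ⟨he, h⟩
          refine ⟨Finset.mem_univ _, ?_⟩
          rw [if_pos he, sub_ne_zero]; exact h
    · rw [hv, hviol, Finset.disjoint_left]
      intro Q hQm hQ𝓠
      rw [Finset.mem_filter] at hQm
      apply hQm.2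
      have h1 := hφ1 (ind (ZMod N) ρ Q) (Submodule.subset_span ⟨Q, hQ𝓠, rfl⟩)
      rw [← h1]
      unfold ind
      simp only [mul_ite, mul_one, mul_zero]
      rw [← Finset.sum_filter]
      refine Finset.sum_congr ?_ fun _ _ => rfl
      ext e; simp
  refine hincl.trans ((bP_exists_le hp G _).trans ?_)
  -- each probability
  have heach : ∀ φ ∈ G, bP (U.powersetCard q) (fun _ => π) (fun 𝓠 => Disjoint (viol φ) 𝓠) ≤
      x ^ wt φ := by
    intro φ hφ
    rw [hG, Finset.mem_filter] at hφ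
    have hsub : viol φ ⊆ U.powersetCard q := by rw [hviol]; exact Finset.filter_subset _ _
    have h1 := bE_subset_disj (U.powersetCard q) (fun _ => π) ∅ (viol φ)
      (Finset.empty_subset _) hsub (Finset.disjoint_empty_left _)
    rw [Finset.prod_empty, one_mul, Finset.prod_const] at h1
    have h2 : bP (U.powersetCard q) (fun _ => π) (fun 𝓠 => Disjoint (viol φ) 𝓠) =
        (1 - π) ^ (viol φ).card := by
      rw [← h1, bP_def]
      refine bE_congr fun ω _ => ?_
      by_cases h : Disjoint (viol φ) ω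
      · rw [if_pos h, if_pos ⟨Finset.empty_subset _, h⟩]
      · rw [if_neg h, if_neg (fun h' => h h'.2)]
    rw [h2]
    have h3 : (1 - π) ≤ Real.exp (-π) := by
      have := Real.add_one_le_exp (-π)
      linarith
    calc (1 - π) ^ (viol φ).card ≤ Real.exp (-π) ^ (viol φ).card :=
          pow_le_pow_left₀ (by linarith) h3 _
      _ = Real.exp (-(π * (viol φ).card)) := by
          rw [← Real.exp_nat_mul]; congr 1; ring
      _ ≤ Real.exp (-(π * (U.card : ℝ) ^ (q - ρ) / C) * wt φ) := by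
          apply Real.exp_le_exp.2
          have h4 : (wt φ : ℝ) * (U.card : ℝ) ^ (q - ρ) / C ≤ (viol φ).card := by
            rw [div_le_iff₀ hC, mul_comm ((viol φ).card : ℝ)]
            exact hφ.2
          have h5 := mul_le_mul_of_nonneg_left h4 hπ0
          have h6 : -(π * (U.card : ℝ) ^ (q - ρ) / C) * wt φ =
              -(π * ((wt φ : ℝ) * (U.card : ℝ) ^ (q - ρ) / C)) := by ring
          rw [h6]
          linarith
      _ = x ^ wt φ := by
          rw [hx, ← Real.exp_nat_mul]; congr 1; ring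
  refine (Finset.sum_le_sum heach).trans ?_
  have hsum : ∑ φ ∈ G, x ^ wt φ ≤ ∑ φ ∈ F.erase 0, x ^ wt φ := by
    refine Finset.sum_le_sum_of_subset_of_nonneg ?_ fun _ _ _ => by positivity
    rw [hG]; exact Finset.filter_subset _ _
  refine hsum.trans ?_
  have h0F : (0 : Finset V → ZMod N) ∈ F := by rw [mF]; intro _ _; rfl
  have htot : ∑ φ ∈ F, x ^ wt φ = (1 + ((N : ℝ) - 1) * x) ^ A.card := by
    rw [hF, ← randspan_sum N A x]
    refine Finset.sum_congr rfl fun φ _ => ?_
    rw [Finset.prod_ite, Finset.prod_const, Finset.prod_const_one, mul_one, hwt]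
  have hsplit := Finset.add_sum_erase F (fun φ => x ^ wt φ) h0F
  have hw0 : wt 0 = 0 := by
    rw [hwt, Finset.card_eq_zero, Finset.filter_eq_empty_iff]
    intro e _ h; exact h rfl
  simp only [hw0, pow_zero] at hsplit
  have h7 : ∑ φ ∈ F.erase 0, x ^ wt φ = (1 + ((N : ℝ) - 1) * x) ^ A.card - 1 := by
    rw [← htot, ← hsplit]; ring
  rw [h7]
  have hN1 : (1 : ℝ) ≤ N := by exact_mod_cast hN
  have h8 : 1 + ((N : ℝ) - 1) * x ≤ Real.exp (N * x) := by
    have := Real.add_one_le_exp (N * x)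
    nlinarith
  have h9 : (1 + ((N : ℝ) - 1) * x) ^ A.card ≤ Real.exp (N * (U.card : ℝ) ^ ρ * x) := by
    calc (1 + ((N : ℝ) - 1) * x) ^ A.card ≤ Real.exp (N * x) ^ A.card := by
          refine pow_le_pow_left₀ ?_ h8 _
          nlinarith
      _ = Real.exp (A.card * (N * x)) := by rw [← Real.exp_nat_mul]
      _ ≤ Real.exp (N * (U.card : ℝ) ^ ρ * x) := by
          apply Real.exp_le_exp.2
          have h10 : (A.card : ℝ) ≤ (U.card : ℝ) ^ ρ := by
            rw [hA, Finset.card_powersetCard]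
            exact_mod_cast Nat.choose_le_pow _ _
          have h11 : 0 ≤ (N : ℝ) * x := by positivity
          nlinarith [mul_le_mul_of_nonneg_right h10 h11]
  linarith

end Pool.Agent.Des
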