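import Pool.Agent.Lib_helper96.Des.Place
import Pool.Agent.Lib_helper96.Des.Comp

/-!
# Block RPLACE: placement lemma for rich families of maps

`P i τ E`: `E` is an admissible edge set for the placement `τ` of task `i`.  Apply `place` with
`O = Fin v → V`, `Opt i` = all `τ` with `∃ E ⊆ G, P i τ E` and `τ j ∉ av i`
(`cnt_avoid`: at least `α/2 n^v`), `nw i τ = image τ`, `ed i τ` = a chosen `E`,
`K = max 1 (2 v^r / α)` (`cnt_spread`), `M = 2^(h+v)` (all edges are subsets of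
`root i ∪ image τ`).
-/

set_option autoImplicit false

namespace Pool.Agent.Des

open Finset

theorem rplace (r h v b : ℕ) (hr : 1 ≤ r) (α : ℝ) (hα : 0 < α) :
    ∃ (C ε : ℝ) (n₀ : ℕ), 1 ≤ C ∧ 0 < ε ∧
    ∀ (V ι : Type) [Fintype V] [DecidableEq V] [DecidableEq ι], n₀ ≤ Fintype.card V →
    ∀ (G F : Finset (Finset V)) (I : Finset ι) (root av : ι → Finset V)
      (P : ι → (Fin v → V) → Finset (Finset V) → Prop) (ctx : ι → Fin b → Finset V) (θ u : ℝ),
    0 < θ → θ ≤ ε → 0 ≤ u → u ≤ ε →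
    r * Real.log ((Fintype.card V : ℝ) + 1) ≤ θ * (Fintype.card V : ℝ) →
    (∀ i ∈ I, (root i).card ≤ h) → (∀ i ∈ I, (av i).card ≤ h) →
    (∀ i ∈ I, ∀ τ E, P i τ E → ∀ γ ∈ E,
      γ.card = r ∧ γ ⊆ root i ∪ Finset.univ.image τ ∧ ¬ γ ⊆ root i) →
    (∀ i ∈ I, α * (Fintype.card V : ℝ) ^ v ≤ cnt (fun τ : Fin v → V => ∃ E, E ⊆ G ∧ P i τ E)) →
    (∀ i ∈ I, ∃ l, root i ⊆ ctx i l) →
    (∀ A : Finset V, A.card < r → (∑ i ∈ I, ∑ l, if A ⊆ ctx i l then (1 : ℝ) else 0) ≤
      θ * (Fintype.card V : ℝ) ^ (r - A.card)) →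
    Unif r F → (∀ S : Finset V, S.card = r - 1 → (dg F S : ℝ) ≤ u * (Fintype.card V : ℝ)) →
    ∃ (τ : ι → Fin v → V) (E : ι → Finset (Finset V)),
      (∀ i ∈ I, P i (τ i) (E i) ∧ E i ⊆ G ∧ Disjoint (E i) F ∧
        Disjoint (Finset.univ.image (τ i)) (av i)) ∧
      (∀ i ∈ I, ∀ j ∈ I, i ≠ j → Disjoint (E i) (E j)) ∧
      (∀ A : Finset V, A.card < r →
        (∑ i ∈ I, ∑ l, if A ⊆ ctx i l ∪ Finset.univ.image (τ i) then (1 : ℝ) else 0) ≤
          C * θ * (Fintype.card V : ℝ) ^ (r - A.card)) ∧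
      (∀ S : Finset V, S.card = r - 1 →
        (dg (I.biUnion E) S : ℝ) ≤ C * θ * (Fintype.card V : ℝ)) := by
  classical
  -- the constants
  obtain ⟨K, hKdef⟩ : ∃ K : ℝ, K = 1 + (v : ℝ) ^ r / (α / 2) := ⟨_, rfl⟩
  have hvr : (0 : ℝ) ≤ (v : ℝ) ^ r / (α / 2) := by positivity
  have hK : 1 ≤ K := by rw [hKdef]; linarith
  have hK0 : (0 : ℝ) < K := by linarith
  obtain ⟨M, hMdef⟩ : ∃ M : ℕ, M = 2 ^ (h + v) := ⟨_, rfl⟩
  have hM1 : (1 : ℝ) ≤ (M : ℝ) := by
    have : 1 ≤ M := by rw [hMdef]; exact Nat.one_le_two_pow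
    exact_mod_cast this
  have hCpl : 1 ≤ Cpl r b K := by
    unfold Cpl
    have := Real.exp_pos (b : ℝ)
    have h1 : 0 ≤ Real.exp b * 2 ^ (r + 2) * K := by positivity
    linarith
  have hMC : 1 ≤ (M : ℝ) * Cpl r b K := one_le_mul_of_one_le_of_one_le hM1 hCpl
  have hD : 0 < 2 * (2 ^ h * K * (1 + (M : ℝ) * Cpl r b K)) := by positivity
  refine ⟨(M : ℝ) * Cpl r b K, 1 / (2 * (2 ^ h * K * (1 + (M : ℝ) * Cpl r b K))),
    ⌈2 * (v * h : ℝ) / α⌉₊ + 1, hMC, by positivity, ?_⟩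
  intro V ι _ _ _ hn G F I root av P ctx θ u hθ hθε hu huε hlog hroot hav hP hcnt hctx hdeg hFr hF
  have hn1 : 1 ≤ Fintype.card V := by omega
  haveI : Nonempty V := Fintype.card_pos_iff.1 hn1
  -- the options
  set Opt : ι → Finset (Fin v → V) := fun i =>
    Finset.univ.filter (fun τ => (∃ E, E ⊆ G ∧ P i τ E) ∧ ∀ j, τ j ∉ av i) with hOpt
  have hOptcard : ∀ i ∈ I, α / 2 * (Fintype.card V : ℝ) ^ v ≤ ((Opt i).card : ℝ) := by
    intro i hi
    have h1 := cnt_avoid (fun τ : Fin v → V => ∃ E, E ⊆ G ∧ P i τ E) α (av i) (hcnt i hi) (by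
      have h2 : ((av i).card : ℝ) ≤ h := by exact_mod_cast hav i hi
      have h3 : 2 * (v * h : ℝ) / α ≤ (Fintype.card V : ℝ) := by
        refine (Nat.le_ceil _).trans ?_
        have : ⌈2 * (v * h : ℝ) / α⌉₊ ≤ Fintype.card V := by omega
        exact_mod_cast this
      rw [div_le_iff₀ hα] at h3
      have h4 : 2 * (v * (av i).card : ℝ) ≤ 2 * (v * h : ℝ) := by
        have : (v : ℝ) * (av i).card ≤ v * h := mul_le_mul_of_nonneg_left h2 (Nat.cast_nonneg _)
        linarith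
      linarith)
    refine h1.trans (le_of_eq ?_)
    unfold cnt
    rw [Nat.card_eq_fintype_card, Fintype.card_subtype]
  set ed : ι → (Fin v → V) → Finset (Finset V) := fun i τ =>
    if h : ∃ E, E ⊆ G ∧ P i τ E then h.choose else ∅ with hed
  have hedspec : ∀ i, ∀ τ ∈ Opt i, ed i τ ⊆ G ∧ P i τ (ed i τ) := by
    intro i τ hτ
    have h1 : ∃ E, E ⊆ G ∧ P i τ E := (Finset.mem_filter.1 hτ).2.1
    have h2 : ed i τ = h1.choose := dif_pos h1
    rw [h2]
    exact h1.choose_spec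
  have hedP : ∀ i ∈ I, ∀ τ ∈ Opt i, ∀ γ ∈ ed i τ,
      γ.card = r ∧ γ ⊆ root i ∪ Finset.univ.image τ ∧ ¬ γ ⊆ root i := by
    intro i hi τ hτ γ hγ
    exact hP i hi τ (ed i τ) (hedspec i τ hτ).2 γ hγ
  have hedM : ∀ i ∈ I, ∀ τ ∈ Opt i, (ed i τ).card ≤ M := by
    intro i hi τ hτ
    have h1 : ed i τ ⊆ (root i ∪ Finset.univ.image τ).powerset := by
      intro γ hγ
      exact Finset.mem_powerset.2 (hedP i hi τ hτ γ hγ).2.1
    refine (Finset.card_le_card h1).trans ?_
    rw [Finset.card_powerset, hMdef]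
    refine Nat.pow_le_pow_right (by norm_num) ?_
    refine (Finset.card_union_le _ _).trans (add_le_add (hroot i hi) ?_)
    refine Finset.card_image_le.trans ?_
    rw [Finset.card_univ, Fintype.card_fin]
  have hθsmall : 2 ^ h * K * (u + M * Cpl r b K * θ) ≤ 1 / 2 := by
    have h1 : u + M * Cpl r b K * θ ≤
        (1 + (M : ℝ) * Cpl r b K) * (1 / (2 * (2 ^ h * K * (1 + (M : ℝ) * Cpl r b K)))) := by
      have h2 : M * Cpl r b K * θ ≤
          M * Cpl r b K * (1 / (2 * (2 ^ h * K * (1 + (M : ℝ) * Cpl r b K)))) :=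
        mul_le_mul_of_nonneg_left hθε (by linarith)
      linarith
    calc 2 ^ h * K * (u + M * Cpl r b K * θ) ≤ 2 ^ h * K *
          ((1 + (M : ℝ) * Cpl r b K) * (1 / (2 * (2 ^ h * K * (1 + (M : ℝ) * Cpl r b K))))) :=
          mul_le_mul_of_nonneg_left h1 (by positivity)
      _ = 1 / 2 := by
          have h3 : 2 ^ h * K * (1 + (M : ℝ) * Cpl r b K) ≠ 0 := by positivity
          field_simp
  obtain ⟨o, ho1, ho2, ho3, ho4⟩ := place (V := V) (O := Fin v → V) (ι := ι) r h M b hr K θ u hK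
    hθ hu I root hroot Opt
    (by
      intro i hi
      rw [← Finset.card_pos]
      have h1 := hOptcard i hi
      have h2 : (0 : ℝ) < α / 2 * (Fintype.card V : ℝ) ^ v := by
        have : (0 : ℝ) < Fintype.card V := by exact_mod_cast hn1
        positivity
      exact_mod_cast h2.trans_le h1)
    (fun _ τ => Finset.univ.image τ) ed hedP hedM
    (by
      intro i hi A hA hAr
      have h1 := cnt_spread v (Opt i) (α / 2) (by positivity) (hOptcard i hi) A
      refine h1.trans (mul_le_mul_of_nonneg_right ?_ (Nat.cast_nonneg _))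
      have hA1 : 1 ≤ A.card := Finset.card_pos.2 hA
      have h2 : (v : ℝ) ^ A.card ≤ (v : ℝ) ^ r := by
        rcases Nat.eq_zero_or_pos v with hv | hv
        · rw [hv, Nat.cast_zero, zero_pow (by omega)]
          positivity
        · exact pow_le_pow_right₀ (by exact_mod_cast hv) hAr
      calc (v : ℝ) ^ A.card / (α / 2) ≤ (v : ℝ) ^ r / (α / 2) :=
            div_le_div_of_nonneg_right h2 (by positivity)
        _ ≤ K := by rw [hKdef]; linarith)
    ctx hctx hdeg F hFr hF hθsmall hlog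
  have hload : ∀ A : Finset V, A.card < r →
      (∑ i ∈ I, ∑ l, if A ⊆ ctx i l ∪ Finset.univ.image (o i) then (1 : ℝ) else 0) ≤
          Cpl r b K * θ * (Fintype.card V : ℝ) ^ (r - A.card) := ho4
  refine ⟨o, fun i => ed i (o i), ?_, ho3, ?_, ?_⟩
  · intro i hi
    have h1 := hedspec i (o i) (ho1 i hi)
    refine ⟨h1.2, h1.1, ho2 i hi, ?_⟩
    rw [Finset.disjoint_left]
    intro x hx
    obtain ⟨j, _, rfl⟩ := Finset.mem_image.1 hx
    exact (Finset.mem_filter.1 (ho1 i hi)).2.2 j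
  · intro A hA
    refine (hload A hA).trans ?_
    have h1 : Cpl r b K ≤ M * Cpl r b K := le_mul_of_one_le_left (by linarith) hM1
    gcongr
  · intro S hS
    have h1 : (dg (I.biUnion fun i => ed i (o i)) S : ℝ) ≤
        ∑ i ∈ I, (dg (ed i (o i)) S : ℝ) := by
      have h2 : (I.biUnion fun i => ed i (o i)).filter (fun e => S ⊆ e) ⊆
          I.biUnion (fun i => (ed i (o i)).filter (fun e => S ⊆ e)) := by
        intro e he
        rw [Finset.mem_filter, Finset.mem_biUnion] at he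
        obtain ⟨⟨i, hi, he⟩, hSe⟩ := he
        exact Finset.mem_biUnion.2 ⟨i, hi, Finset.mem_filter.2 ⟨he, hSe⟩⟩
      have h3 := (Finset.card_le_card h2).trans Finset.card_biUnion_le
      unfold dg
      exact_mod_cast h3
    have h4 : ∀ i ∈ I, (dg (ed i (o i)) S : ℝ) ≤
        M * ∑ l, (if S ⊆ ctx i l ∪ Finset.univ.image (o i) then (1 : ℝ) else 0) := by
      intro i hi
      by_cases hz : dg (ed i (o i)) S = 0
      · rw [hz, Nat.cast_zero]
        refine mul_nonneg (Nat.cast_nonneg _) (Finset.sum_nonneg fun l _ => ?_)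
        split_ifs <;> norm_num
      · have hpos : 0 < dg (ed i (o i)) S := Nat.pos_of_ne_zero hz
        unfold dg at hpos
        rw [Finset.card_pos] at hpos
        obtain ⟨γ, hγ⟩ := hpos
        rw [Finset.mem_filter] at hγ
        obtain ⟨_, h5, _⟩ := hedP i hi (o i) (ho1 i hi) γ hγ.1
        obtain ⟨l, hl⟩ := hctx i hi
        have h6 : S ⊆ ctx i l ∪ Finset.univ.image (o i) :=
          hγ.2.trans (h5.trans (Finset.union_subset_union_left hl))
        have h7 : (1 : ℝ) ≤ ∑ l, (if S ⊆ ctx i l ∪ Finset.univ.image (o i) then (1 : ℝ)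
            else 0) := by
          have h8 : (if S ⊆ ctx i l ∪ Finset.univ.image (o i) then (1 : ℝ) else 0) = 1 :=
            if_pos h6
          refine h8.symm.le.trans (Finset.single_le_sum
            (f := fun l => if S ⊆ ctx i l ∪ Finset.univ.image (o i) then (1 : ℝ) else 0)
            (fun l _ => ?_) (Finset.mem_univ l))
          split_ifs <;> norm_num
        have h9 : (dg (ed i (o i)) S : ℝ) ≤ M := by
          have : dg (ed i (o i)) S ≤ M :=
            (Finset.card_filter_le _ _).trans (hedM i hi (o i) (ho1 i hi))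
          exact_mod_cast this
        calc (dg (ed i (o i)) S : ℝ) ≤ M * 1 := by rw [mul_one]; exact h9
          _ ≤ _ := mul_le_mul_of_nonneg_left h7 (Nat.cast_nonneg _)
    refine h1.trans ((Finset.sum_le_sum h4).trans ?_)
    rw [← Finset.mul_sum]
    have h11 := hload S (by omega)
    rw [show r - S.card = 1 by omega, pow_one] at h11
    calc (M : ℝ) * ∑ i ∈ I, ∑ l, (if S ⊆ ctx i l ∪ Finset.univ.image (o i) then (1 : ℝ) else 0)
        ≤ M * (Cpl r b K * θ * (Fintype.card V : ℝ)) :=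
          mul_le_mul_of_nonneg_left h11 (Nat.cast_nonneg _)
      _ = _ := by ring

end Pool.Agent.Des
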